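import Pool.Agent.Helper61.EO.Stm

/-! EO-BD: the derivation `d/dx` of the field of rational functions. -/

set_option autoImplicit false

namespace Pool.Agent.Helper61.EO

open Polynomial

noncomputable section

namespace BD

variable (k : Type) [Field k]

/-- the homomorphism `p ↦ p + p' ε` -/
def phi : k[X] →ₐ[k] DualNumber (RatFunc k) :=
  Polynomial.aeval (TrivSqZeroExt.inl RatFunc.X + TrivSqZeroExt.inr 1)

theorem fst_phi (p : k[X]) : (phi k p).fst = algebraMap k[X] (RatFunc k) p := by
  have h : (TrivSqZeroExt.fstHom k (RatFunc k) (RatFunc k)).comp (phi k) =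
      IsScalarTower.toAlgHom k k[X] (RatFunc k) := by
    refine Polynomial.algHom_ext ?_
    change (phi k X).fst = algebraMap k[X] (RatFunc k) X
    unfold phi
    rw [Polynomial.aeval_X, RatFunc.algebraMap_X]
    simp
  exact congrArg (fun g => g p) (congrArg DFunLike.coe h)

theorem unit_phi (y : nonZeroDivisors k[X]) : IsUnit ((phi k).toRingHom y) := by
  change IsUnit (phi k (y : k[X]))
  rw [TrivSqZeroExt.isUnit_iff_isUnit_fst, fst_phi, isUnit_iff_ne_zero]
  intro h
  have h1 : (y : k[X]) = 0 := by
    apply RatFunc.algebraMap_injective k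
    rw [h, map_zero]
  exact nonZeroDivisors.coe_ne_zero y h1

/-- the homomorphism on rational functions -/
def Phi : RatFunc k →+* DualNumber (RatFunc k) :=
  IsLocalization.lift (M := nonZeroDivisors k[X]) (unit_phi k)

theorem Phi_alg (p : k[X]) : Phi k (algebraMap k[X] (RatFunc k) p) = phi k p :=
  IsLocalization.lift_eq (unit_phi k) p

theorem fst_Phi (f : RatFunc k) : (Phi k f).fst = f := by
  have h : ((TrivSqZeroExt.fstHom k (RatFunc k) (RatFunc k) :
      DualNumber (RatFunc k) →+* RatFunc k)).comp (Phi k) = RingHom.id (RatFunc k) := by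
    refine IsLocalization.ringHom_ext (nonZeroDivisors k[X]) ?_
    refine RingHom.ext fun p => ?_
    change (Phi k (algebraMap k[X] (RatFunc k) p)).fst = algebraMap k[X] (RatFunc k) p
    rw [Phi_alg, fst_phi]
  exact congrArg (fun g => g f) (congrArg DFunLike.coe h)

theorem Phi_C (c : k) : Phi k (RatFunc.C c) = TrivSqZeroExt.inl (RatFunc.C c) := by
  rw [← RatFunc.algebraMap_C, Phi_alg]
  unfold phi
  rw [Polynomial.aeval_C]
  rfl

end BD

open BD in
theorem t_BD : S_BD := by
  intro k _
  let D0 : RatFunc k →ₗ[k] RatFunc k :=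
    { toFun := fun f => (Phi k f).snd
      map_add' := by
        intro f g
        rw [map_add, TrivSqZeroExt.snd_add]
      map_smul' := by
        intro c f
        rw [RatFunc.smul_eq_C_mul, map_mul, Phi_C, TrivSqZeroExt.snd_mul,
          TrivSqZeroExt.fst_inl, TrivSqZeroExt.snd_inl, RingHom.id_apply, smul_zero, add_zero,
          RatFunc.smul_eq_C_mul, smul_eq_mul] }
  refine ⟨Derivation.mk' D0 ?_, ?_⟩
  · intro a b
    change (Phi k (a * b)).snd = a • (Phi k b).snd + b • (Phi k a).snd
    rw [map_mul, TrivSqZeroExt.snd_mul, fst_Phi, fst_Phi, op_smul_eq_smul]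
  · change (Phi k RatFunc.X).snd = 1
    rw [← RatFunc.algebraMap_X, Phi_alg]
    unfold phi
    rw [Polynomial.aeval_X]
    simp

end

end Pool.Agent.Helper61.EO
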