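import Pool.Agent.Helper61.EO.Stm

/-!
# Laurent expansions of rational functions
-/

set_option autoImplicit false

open scoped RatFunc

namespace Pool.Agent.Helper61.EO

namespace BX

theorem X_ne_C {k : Type} [Field k] (a : k) : (RatFunc.X : RatFunc k) ≠ RatFunc.C a := by
  intro h
  have h1 : (algebraMap (Polynomial k) (RatFunc k)) Polynomial.X =
      (algebraMap (Polynomial k) (RatFunc k)) (Polynomial.C a) := h
  have h2 := RatFunc.algebraMap_injective k h1
  have h3 := congrArg (fun q => Polynomial.coeff q 1) h2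
  simp at h3

theorem endo {k : Type} [Field k] (f : RatFunc k) (hf : ¬ ∃ c, f = RatFunc.C c) :
    ∃ φ : RatFunc k →+* RatFunc k, (∀ c, φ (RatFunc.C c) = RatFunc.C c) ∧ φ RatFunc.X = f := by
  have htr : Transcendental k f := RatFunc.transcendental_of_ne_C f hf
  have hinj : Function.Injective (Polynomial.aeval f : Polynomial k →ₐ[k] RatFunc k) :=
    transcendental_iff_injective.1 htr
  refine ⟨RatFunc.liftRingHom (Polynomial.aeval f : Polynomial k →ₐ[k] RatFunc k).toRingHom
    (nonZeroDivisors_le_comap_nonZeroDivisors_of_injective _ hinj), fun c => ?_, ?_⟩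
  · rw [RatFunc.liftRingHom_C]
    change Polynomial.aeval f (Polynomial.C c) = _
    rw [Polynomial.aeval_C]
    rfl
  · rw [RatFunc.liftRingHom_X]
    change Polynomial.aeval f Polynomial.X = _
    rw [Polynomial.aeval_X]

theorem coeC {k : Type} [Field k] (c : k) :
    algebraMap (RatFunc k) (LaurentSeries k) (RatFunc.C c) = HahnSeries.C c := by
  have h := RatFunc.coe_coe (F := k) (Polynomial.C c)
  rw [Polynomial.coe_C, PowerSeries.coe_C] at h
  exact h.symm

end BX

open BX in
theorem t_BX : S_BX := by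
  intro k _
  have h1 : ∀ c : k, ∃ φ : RatFunc k →+* RatFunc k, (∀ a, φ (RatFunc.C a) = RatFunc.C a) ∧
      φ RatFunc.X = RatFunc.C c + RatFunc.X := fun c => endo _ (by
    rintro ⟨a, ha⟩
    refine X_ne_C (a - c) ?_
    rw [map_sub, ← ha]
    ring)
  have h2 : ∃ φ : RatFunc k →+* RatFunc k, (∀ a, φ (RatFunc.C a) = RatFunc.C a) ∧
      φ RatFunc.X = (RatFunc.X)⁻¹ := endo _ (by
    rintro ⟨a, ha⟩
    refine X_ne_C a⁻¹ ?_
    rw [map_inv₀, ← ha, inv_inv])
  choose φ hφC hφX using h1
  obtain ⟨ψ, hψC, hψX⟩ := h2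
  refine ⟨fun j => match j with
    | some c => (algebraMap (RatFunc k) (LaurentSeries k)).comp (φ c)
    | none => (algebraMap (RatFunc k) (LaurentSeries k)).comp ψ, ?_, ?_, ?_⟩
  · rintro (_ | c) a
    · rw [RingHom.comp_apply, hψC, coeC]
    · rw [RingHom.comp_apply, hφC, coeC]
  · intro c
    rw [RingHom.comp_apply, hφX, map_add, coeC, RatFunc.coe_X]
  · rw [RingHom.comp_apply, hψX, map_inv₀, RatFunc.coe_X]
    have h : (HahnSeries.single (1 : ℤ) (1 : k)) * HahnSeries.single (-1) 1 = 1 := by
      rw [HahnSeries.single_mul_single]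
      simp
    exact inv_eq_of_mul_eq_one_right h

end Pool.Agent.Helper61.EO
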