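import Pool.Agent.Helper61.EO.Stm

set_option autoImplicit false

namespace Pool.Agent.Helper61.EO

namespace COMB

/-- fibres of `a ↦ ((p - 1) / m) a`, `1 ≤ a < m` -/
def phi (p m n : ℕ) : ℕ := ((Finset.Ico 1 m).filter fun a => ((p - 1) / m) * a = n).card

/-- fibres at one point -/
theorem fib (p : ℕ) {k : Type} (d : Option k → ℕ) (j : Option k) (h1 : 1 ≤ d j)
    (h2 : d j ∣ p - 1) (n : ℕ) :
    (((match j with
      | none => Finset.Ico 1 (d none)
      | some c => Finset.range (d (some c) + 1)).filter fun a => EE p d j * a = n)).card =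
    phi p (d j) n + if j = none then 0 else (if n = 0 then 1 else 0) +
      (if n = p - 1 then 1 else 0) := by
  cases j with
  | none =>
    rw [if_pos rfl, add_zero]
    rfl
  | some c =>
    simp only [reduceCtorEq, if_false]
    have e : Finset.range (d (some c) + 1) =
        insert 0 (insert (d (some c)) (Finset.Ico 1 (d (some c)))) := by
      ext a
      simp only [Finset.mem_range, Finset.mem_insert, Finset.mem_Ico]
      omega
    rw [e, Finset.filter_insert, Finset.filter_insert]
    have h3 : EE p d (some c) * d (some c) = p - 1 := Nat.div_mul_cancel h2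
    rw [h3, mul_zero]
    have hph : ((Finset.Ico 1 (d (some c))).filter fun a => EE p d (some c) * a = n).card =
        phi p (d (some c)) n := rfl
    have hn1 : d (some c) ∉ (Finset.Ico 1 (d (some c))).filter
        fun a => EE p d (some c) * a = n := by simp
    have hn2 : 0 ∉ (Finset.Ico 1 (d (some c))).filter
        fun a => EE p d (some c) * a = n := by simp
    have hn3 : 0 ∉ insert (d (some c)) ((Finset.Ico 1 (d (some c))).filter
        fun a => EE p d (some c) * a = n) := by
      rw [Finset.mem_insert, not_or]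
      exact ⟨by omega, hn2⟩
    by_cases ha : n = 0
    · by_cases hb : n = p - 1
      · rw [if_pos ha.symm, if_pos hb.symm, Finset.card_insert_of_notMem hn3,
          Finset.card_insert_of_notMem hn1, hph, if_pos ha, if_pos hb]
      · rw [if_pos ha.symm, if_neg (Ne.symm hb), Finset.card_insert_of_notMem hn2, hph, if_pos ha,
          if_neg hb]
    · by_cases hb : n = p - 1
      · rw [if_neg (Ne.symm ha), if_pos hb.symm, Finset.card_insert_of_notMem hn1, hph,
          if_neg ha, if_pos hb, zero_add]
      · rw [if_neg (Ne.symm ha), if_neg (Ne.symm hb), hph, if_neg ha, if_neg hb, add_zero,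
          add_zero]

theorem total (p : ℕ) {k : Type} (J : Finset (Option k)) (d : Option k → ℕ) (hJ : none ∈ J)
    (h : ∀ j ∈ J, 1 ≤ d j ∧ d j ∣ p - 1) (n : ℕ) :
    ((IB J d).filter fun b => ee p d b = n).card = ((J.val.map d).map (phi p · n)).sum +
      (Multiset.card (J.val.map d) - 1) *
        ((if n = 0 then 1 else 0) + (if n = p - 1 then 1 else 0)) := by
  classical
  have e1 : (IB J d).filter (fun b => ee p d b = n) = J.sigma fun j =>
      ((match j with
      | none => Finset.Ico 1 (d none)
      | some c => Finset.range (d (some c) + 1)).filter fun a => EE p d j * a = n) := by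
    ext ⟨j, a⟩
    rw [Finset.mem_filter, IB, Finset.mem_sigma, Finset.mem_sigma, Finset.mem_filter]
    exact and_assoc
  rw [e1, Finset.card_sigma, Finset.sum_congr rfl fun j hj => fib p d j (h j hj).1 (h j hj).2 n,
    Finset.sum_add_distrib]
  congr 1
  · rw [Multiset.map_map]
    rfl
  · rw [← Finset.add_sum_erase J _ hJ, if_pos rfl, zero_add,
      Finset.sum_congr rfl fun j hj => if_neg (Finset.ne_of_mem_erase hj), Finset.sum_const,
      Finset.card_erase_of_mem hJ, smul_eq_mul, Multiset.card_map]
    rfl

theorem exists_equiv {α β : Type} [Fintype α] [Fintype β] (e : α → ℕ) (e' : β → ℕ)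
    (h : ∀ n, Nat.card {a // e a = n} = Nat.card {b // e' b = n}) :
    ∃ σ : α ≃ β, ∀ a, e' (σ a) = e a := by
  classical
  have h1 : ∀ n, Nonempty ({a // e a = n} ≃ {b // e' b = n}) := fun n =>
    Finite.card_eq.1 (h n)
  let τ := fun n => (h1 n).some
  refine ⟨(Equiv.sigmaFiberEquiv e).symm.trans ((Equiv.sigmaCongrRight τ).trans
    (Equiv.sigmaFiberEquiv e')), fun a => ?_⟩
  exact (τ (e a) ⟨a, rfl⟩).2

end COMB

theorem t_COMB : S_COMB := by
  classical
  intro p k J J' d d' hJ hJ' h h' hm
  refine COMB.exists_equiv (fun b : IB J d => ee p d b.1) (fun b : IB J' d' => ee p d' b.1) ?_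
  intro n
  have key : ∀ (J : Finset (Option k)) (d : Option k → ℕ),
      Nat.card {b : IB J d // ee p d b.1 = n} = ((IB J d).filter fun b => ee p d b = n).card := by
    intro J d
    rw [Nat.card_eq_fintype_card, Fintype.card_subtype]
    refine Finset.card_bij (fun b _ => b.1) ?_ ?_ ?_
    · intro b hb
      rw [Finset.mem_filter] at hb ⊢
      exact ⟨b.2, hb.2⟩
    · intro b _ b' _ hbb
      exact Subtype.ext hbb
    · intro b hb
      rw [Finset.mem_filter] at hb
      exact ⟨⟨b, hb.1⟩, by simpa using hb.2, rfl⟩
  rw [key, key, COMB.total p J d hJ h, COMB.total p J' d' hJ' h', hm]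

end Pool.Agent.Helper61.EO
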