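import Pool.Agent.Helper61.EO.Stm

set_option autoImplicit false

namespace Pool.Agent.Helper61.EO

noncomputable section

namespace EP

variable {p : ℕ} {k : Type} [Field k] {K K' : Type} [Field K] [Field K'] [Algebra k K]
  [Algebra k K']

theorem imV_map (Φ : HdR k K ≃ₗ[k] HdR k K')
    (hV : ∀ v w, IsV k K p v w ↔ IsV k K' p (Φ v) (Φ w)) (W : Submodule k (HdR k K)) :
    imV k K' p (W.map Φ.toLinearMap) = (imV k K p W).map Φ.toLinearMap := by
  unfold imV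
  rw [Submodule.map_span]
  congr 1
  ext w
  constructor
  · rintro ⟨v, ⟨v0, hv0, rfl⟩, h⟩
    refine ⟨Φ.symm w, ⟨v0, hv0, ?_⟩, by simp⟩
    rw [hV]
    simpa using h
  · rintro ⟨w0, ⟨v, hv, h⟩, rfl⟩
    exact ⟨Φ v, ⟨v, hv, rfl⟩, (hV _ _).1 h⟩

theorem preF_map (Φ : HdR k K ≃ₗ[k] HdR k K')
    (hF : ∀ v w, IsF k K p v w ↔ IsF k K' p (Φ v) (Φ w)) (W : Submodule k (HdR k K)) :
    preF k K' p (W.map Φ.toLinearMap) = (preF k K p W).map Φ.toLinearMap := by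
  unfold preF
  rw [Submodule.map_span]
  congr 1
  ext v
  constructor
  · rintro ⟨w, ⟨w0, hw0, rfl⟩, h⟩
    refine ⟨Φ.symm v, ⟨w0, hw0, ?_⟩, by simp⟩
    rw [hF]
    simpa using h
  · rintro ⟨v0, ⟨w, hw, h⟩, rfl⟩
    exact ⟨Φ w, ⟨w, hw, rfl⟩, (hF _ _).1 h⟩

theorem canonical_map (Φ : HdR k K ≃ₗ[k] HdR k K')
    (hF : ∀ v w, IsF k K p v w ↔ IsF k K' p (Φ v) (Φ w))
    (hV : ∀ v w, IsV k K p v w ↔ IsV k K' p (Φ v) (Φ w)) {W : Submodule k (HdR k K)}
    (h : Canonical k K p W) : Canonical k K' p (W.map Φ.toLinearMap) := by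
  induction h with
  | bot =>
    rw [Submodule.map_bot]
    exact Canonical.bot
  | top =>
    rw [Submodule.map_top, LinearMap.range_eq_top.2 Φ.surjective]
    exact Canonical.top
  | im _ ih =>
    rw [← imV_map Φ hV]
    exact Canonical.im ih
  | pre _ ih =>
    rw [← preF_map Φ hF]
    exact Canonical.pre ih

theorem le (Φ : HdR k K ≃ₗ[k] HdR k K')
    (hF : ∀ v w, IsF k K p v w ↔ IsF k K' p (Φ v) (Φ w))
    (hV : ∀ v w, IsV k K p v w ↔ IsV k K' p (Φ v) (Φ w)) :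
    elementaryPairs k K p ⊆ elementaryPairs k K' p := by
  rintro x ⟨W, hW, h1, h2⟩
  refine ⟨W.map Φ.toLinearMap, canonical_map Φ hF hV hW, ?_, ?_⟩
  · rw [← h1]
    exact LinearEquiv.finrank_map_eq Φ W
  · rw [imV_map Φ hV, ← h2]
    exact LinearEquiv.finrank_map_eq Φ _

end EP

theorem t_EP : S_EP := by
  intro p k _ K K' _ _ _ _ Φ hF hV
  refine Set.Subset.antisymm (EP.le Φ hF hV) (EP.le Φ.symm (fun v w => ?_) fun v w => ?_)
  · rw [hF]
    simp
  · rw [hV]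
    simp

end

end Pool.Agent.Helper61.EO
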