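import Pool.Agent.Helper61.EO.Stm

/-!
# The expansion of the Cartier operator
-/

set_option autoImplicit false

namespace Pool.Agent.Helper61.EO

noncomputable section

namespace EXC

section Laurent

variable {k : Type} [Field k]

theorem low_mul {a b : LaurentSeries k} {A B : ℤ} (ha : ∀ m < A, a.coeff m = 0)
    (hb : ∀ m < B, b.coeff m = 0) : ∀ m < A + B, (a * b).coeff m = 0 := by
  intro m hm
  rw [HahnSeries.coeff_mul]
  refine Finset.sum_eq_zero fun x hx => ?_
  have h1 := (Finset.mem_addAntidiagonal.1 hx).2.2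
  rcases lt_or_ge x.1 A with h | h
  · rw [ha _ h, zero_mul]
  · rw [hb x.2 (by omega), mul_zero]

theorem low_pow {a : LaurentSeries k} {A : ℤ} (ha : ∀ m < A, a.coeff m = 0) (n : ℕ) :
    ∀ m < (n : ℤ) * A, (a ^ n).coeff m = 0 := by
  induction n with
  | zero =>
    intro m hm
    rw [pow_zero, HahnSeries.coeff_one, if_neg]
    rintro rfl
    simp at hm
  | succ n ih =>
    intro m hm
    rw [pow_succ]
    refine low_mul ih ha m ?_
    push_cast at hm
    linarith

theorem sum_sg (s : Finset ℤ) (c : ℤ → k) (m : ℤ) :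
    ∑ x ∈ s, (HahnSeries.single x (c x)).coeff m = if m ∈ s then c m else 0 := by
  split_ifs with h
  · rw [Finset.sum_eq_single_of_mem m h, HahnSeries.coeff_single_same]
    intro x _ hx
    exact HahnSeries.coeff_single_of_ne (Ne.symm hx)
  · refine Finset.sum_eq_zero fun x hx => ?_
    refine HahnSeries.coeff_single_of_ne ?_
    rintro rfl
    exact h hx

theorem pow_coeff {p : ℕ} [CharP k p] (hp : p.Prime) (u : LaurentSeries k) (n : ℤ) :
    (u ^ p).coeff n = if (p : ℤ) ∣ n then (u.coeff (n / p)) ^ p else 0 := by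
  haveI : Fact p.Prime := ⟨hp⟩
  haveI : CharP (LaurentSeries k) p :=
    charP_of_injective_ringHom (HahnSeries.C_injective (Γ := ℤ) (R := k)) p
  have hp0 : (0 : ℤ) < p := by exact_mod_cast hp.pos
  set M : ℤ := n / p + 1 with hM
  set v : LaurentSeries k := ∑ m ∈ Finset.Ico u.order M, HahnSeries.single m (u.coeff m) with hv
  have hvc : ∀ m, v.coeff m = if m ∈ Finset.Ico u.order M then u.coeff m else 0 := by
    intro m
    rw [hv, HahnSeries.coeff_sum]
    exact sum_sg _ u.coeff m
  have hw : ∀ m < M, (u - v).coeff m = 0 := by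
    intro m hm
    rw [HahnSeries.coeff_sub, hvc]
    split_ifs with h
    · exact sub_self _
    · rw [Finset.mem_Ico, not_and_or] at h
      rw [HahnSeries.coeff_eq_zero_of_lt_order (by omega), sub_zero]
  have h1 : u ^ p = v ^ p + (u - v) ^ p := by
    rw [← add_pow_char, add_sub_cancel]
  have h2 : ((u - v) ^ p).coeff n = 0 := by
    refine low_pow hw p n ?_
    have h3 := Int.emod_add_mul_ediv n p
    have h4 := Int.emod_lt_of_pos n hp0
    rw [hM]
    linarith
  rw [h1, HahnSeries.coeff_add, h2, add_zero, hv, sum_pow_char, HahnSeries.coeff_sum]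
  simp only [HahnSeries.single_pow, nsmul_eq_mul]
  split_ifs with h
  · obtain ⟨q, rfl⟩ := h
    rw [Int.mul_ediv_cancel_left _ hp0.ne']
    have h3 : ∀ m : ℤ, (HahnSeries.single ((p : ℤ) * m) (u.coeff m ^ p)).coeff ((p : ℤ) * q) =
        (HahnSeries.single m (u.coeff m ^ p)).coeff q := by
      intro m
      by_cases hm : q = m
      · subst hm
        rw [HahnSeries.coeff_single_same, HahnSeries.coeff_single_same]
      · rw [HahnSeries.coeff_single_of_ne, HahnSeries.coeff_single_of_ne hm]
        exact fun h => hm (mul_left_cancel₀ hp0.ne' h)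
    rw [Finset.sum_congr rfl fun m _ => h3 m, sum_sg _ (fun m => u.coeff m ^ p) q]
    split_ifs with h4
    · rfl
    · rw [Finset.mem_Ico, not_and_or, hM, Int.mul_ediv_cancel_left _ hp0.ne'] at h4
      rw [HahnSeries.coeff_eq_zero_of_lt_order (by omega), zero_pow hp.ne_zero]
  · refine Finset.sum_eq_zero fun m _ => ?_
    rw [HahnSeries.coeff_single_of_ne]
    rintro rfl
    exact h ⟨m, rfl⟩

end Laurent

variable {p : ℕ} {k : Type} [Field k] (B : Base p k)

theorem ex_tt (j : Option k) : B.ex j (tt j) = HahnSeries.single 1 1 := by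
  cases j with
  | some c =>
    unfold tt
    rw [map_sub, B.ex_some, B.ex_C, add_sub_cancel_left]
  | none =>
    unfold tt
    rw [map_inv₀, B.ex_none, HahnSeries.inv_single, inv_one, neg_neg]

theorem exW_tt (hEXD : S_EXD) (j : Option k) : exW B j (B.D (tt j)) = 1 := by
  ext m
  rw [hEXD p k B j (tt j) m, ex_tt, HahnSeries.coeff_one, HahnSeries.coeff_single]
  by_cases h : m = 0
  · subst h
    simp
  · rw [if_neg h, if_neg (by omega), mul_zero]

theorem car_low [CharP k p] (t : RatFunc k) {i : ℕ} (hi : i + 1 < p) :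
    B.car (t ^ i * B.D t) = 0 := by
  have h0 : ((i + 1 : ℕ) : k) ≠ 0 := by
    intro h
    have := Nat.le_of_dvd (Nat.succ_pos i) ((CharP.cast_eq_zero_iff k p (i + 1)).1 h)
    omega
  have h1 : t ^ i * B.D t = B.D ((((i + 1 : ℕ) : k)⁻¹) • t ^ (i + 1)) := by
    rw [Derivation.map_smul, Derivation.leibniz_pow, Nat.add_sub_cancel, ← Nat.cast_smul_eq_nsmul k,
      smul_smul, inv_mul_cancel₀ h0, one_smul, smul_eq_mul]
  rw [h1, B.car_D]

end EXC

open EXC in
theorem t_EXC (hPB : S_PB) (hEXD : S_EXD) : S_EXC := by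
  intro p k _ _ _ hp B j φ m
  have h1 := exW_tt B hEXD j
  have hD : B.D (tt j) ≠ 0 := by
    intro h
    rw [h] at h1
    unfold exW at h1
    rw [map_zero, zero_mul] at h1
    exact zero_ne_one h1
  obtain ⟨a, ha⟩ := hPB p k hp j (φ / B.D (tt j))
  have hφ : φ = ∑ i ∈ Finset.range p, a i ^ p * (tt j ^ i * B.D (tt j)) := by
    have : φ = (φ / B.D (tt j)) * B.D (tt j) := by
      rw [div_mul_cancel₀ _ hD]
    rw [this, ha, Finset.sum_mul]
    exact Finset.sum_congr rfl fun i _ => mul_assoc _ _ _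
  have hlast : p - 1 ∈ Finset.range p := Finset.mem_range.2 (Nat.sub_lt hp.pos one_pos)
  have hcar : B.car φ = a (p - 1) * B.D (tt j) := by
    rw [hφ, map_sum, Finset.sum_eq_single_of_mem (p - 1) hlast]
    · rw [B.car_pow, B.car_log]
    · intro i hi hne
      have := Finset.mem_range.1 hi
      rw [B.car_pow, car_low B _ (by omega), mul_zero]
  have e1 : exW B j (B.car φ) = B.ex j (a (p - 1)) := by
    have : exW B j (B.car φ) = B.ex j (a (p - 1)) * exW B j (B.D (tt j)) := by
      unfold exW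
      rw [hcar, map_mul, mul_assoc]
    rw [this, h1, mul_one]
  have e2 : exW B j φ = ∑ i ∈ Finset.range p, (B.ex j (a i)) ^ p * HahnSeries.single (i : ℤ) 1 := by
    have : exW B j φ = ∑ i ∈ Finset.range p,
        (B.ex j (a i)) ^ p * B.ex j (tt j) ^ i * exW B j (B.D (tt j)) := by
      unfold exW
      conv_lhs => rw [hφ]
      rw [map_sum, Finset.sum_mul]
      refine Finset.sum_congr rfl fun i _ => ?_
      rw [map_mul, map_mul, map_pow, map_pow]
      ring
    rw [this]
    refine Finset.sum_congr rfl fun i _ => ?_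
    rw [h1, mul_one, ex_tt, HahnSeries.single_pow, one_pow, nsmul_eq_mul, mul_one]
  rw [e1, e2, HahnSeries.coeff_sum, Finset.sum_eq_single_of_mem (p - 1) hlast]
  · have e3 : (p : ℤ) * (m + 1) - 1 = p * m + ((p - 1 : ℕ) : ℤ) := by
      rw [Nat.cast_sub hp.one_lt.le]
      push_cast
      ring
    rw [e3, HahnSeries.coeff_mul_single_add, mul_one, pow_coeff hp, if_pos (dvd_mul_right _ _),
      Int.mul_ediv_cancel_left _ (by exact_mod_cast hp.ne_zero)]
  · intro i hi hne
    have e3 : (p : ℤ) * (m + 1) - 1 = (p * (m + 1) - 1 - i) + (i : ℤ) := by ring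
    rw [e3, HahnSeries.coeff_mul_single_add, mul_one, pow_coeff hp, if_neg]
    intro hd
    have h2 : (p : ℤ) ∣ ((i + 1 : ℕ) : ℤ) := by
      have h3 := Int.dvd_sub (Dvd.intro (m + 1) rfl : (p : ℤ) ∣ p * (m + 1)) hd
      have h4 : (p : ℤ) * (m + 1) - (p * (m + 1) - 1 - i) = ((i + 1 : ℕ) : ℤ) := by
        push_cast
        ring
      rwa [h4] at h3
    have h3 := Nat.le_of_dvd (Nat.succ_pos i) (Int.natCast_dvd_natCast.1 h2)
    have h4 := Finset.mem_range.1 hi
    omega

end

end Pool.Agent.Helper61.EO
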