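import Pool.Agent.Helper61.EO.Stm

/-!
# Expansion of the derivative of a rational function
-/

set_option autoImplicit false

namespace Pool.Agent.Helper61.EO

namespace EXD

variable {k : Type} [Field k]

/-- the derivative of a Laurent series -/
noncomputable def der (f : LaurentSeries k) : LaurentSeries k := LaurentSeries.derivative k f

theorem der_coeff (f : LaurentSeries k) (n : ℤ) :
    (der f).coeff n = ((n + 1 : ℤ) : k) * f.coeff (n + 1) := by
  unfold der
  rw [LaurentSeries.derivative_apply, LaurentSeries.hasseDeriv_coeff]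
  simp

theorem der_add (f g : LaurentSeries k) : der (f + g) = der f + der g := by
  unfold der
  rw [map_add]

theorem der_mul (a b : LaurentSeries k) : der (a * b) = der a * b + a * der b := by
  ext m
  rw [der_coeff, HahnSeries.coeff_add, HahnSeries.coeff_mul]
  have hS : ∀ c : LaurentSeries k, ((fun i : ℤ => i - 1) '' c.support).IsPWO := fun c =>
    c.isPWO_support.image_of_monotone (fun x y h => sub_le_sub_right h 1)
  have hsub : ∀ c : LaurentSeries k, (der c).support ⊆ (fun i : ℤ => i - 1) '' c.support := by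
    intro c i hi
    rw [HahnSeries.mem_support, der_coeff] at hi
    exact ⟨i + 1, right_ne_zero_of_mul hi, by ring⟩
  rw [HahnSeries.coeff_mul_left' (hS a) (hsub a), HahnSeries.coeff_mul_right' (hS b) (hsub b)]
  have e1 : ∑ ij ∈ Finset.antidiagonal (hS a) b.isPWO_support m,
      (der a).coeff ij.1 * b.coeff ij.2 =
      ∑ ij ∈ Finset.antidiagonal a.isPWO_support b.isPWO_support (m + 1),
        ((ij.1 : ℤ) : k) * a.coeff ij.1 * b.coeff ij.2 := by
    refine Finset.sum_nbij' (fun x => (x.1 + 1, x.2)) (fun x => (x.1 - 1, x.2)) ?_ ?_ ?_ ?_ ?_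
    · rintro ⟨x, y⟩ h
      rw [Finset.mem_antidiagonal] at h ⊢
      obtain ⟨⟨z, hz, rfl⟩, hy, hm⟩ := h
      refine ⟨?_, hy, ?_⟩
      · simpa using hz
      · simp only at hm ⊢
        omega
    · rintro ⟨x, y⟩ h
      rw [Finset.mem_antidiagonal] at h ⊢
      obtain ⟨hz, hy, hm⟩ := h
      refine ⟨⟨x, hz, rfl⟩, hy, ?_⟩
      simp only at hm ⊢
      omega
    · rintro ⟨x, y⟩ h
      simp
    · rintro ⟨x, y⟩ h
      simp
    · rintro ⟨x, y⟩ h
      simp only
      rw [der_coeff]
  have e2 : ∑ ij ∈ Finset.antidiagonal a.isPWO_support (hS b) m,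
      a.coeff ij.1 * (der b).coeff ij.2 =
      ∑ ij ∈ Finset.antidiagonal a.isPWO_support b.isPWO_support (m + 1),
        ((ij.2 : ℤ) : k) * a.coeff ij.1 * b.coeff ij.2 := by
    refine Finset.sum_nbij' (fun x => (x.1, x.2 + 1)) (fun x => (x.1, x.2 - 1)) ?_ ?_ ?_ ?_ ?_
    · rintro ⟨x, y⟩ h
      rw [Finset.mem_antidiagonal] at h ⊢
      obtain ⟨hx, ⟨z, hz, rfl⟩, hm⟩ := h
      refine ⟨hx, ?_, ?_⟩
      · simpa using hz
      · simp only at hm ⊢
        omega
    · rintro ⟨x, y⟩ h
      rw [Finset.mem_antidiagonal] at h ⊢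
      obtain ⟨hz, hy, hm⟩ := h
      refine ⟨hz, ⟨y, hy, rfl⟩, ?_⟩
      simp only at hm ⊢
      omega
    · rintro ⟨x, y⟩ h
      simp
    · rintro ⟨x, y⟩ h
      simp
    · rintro ⟨x, y⟩ h
      simp only
      rw [der_coeff]
      ring
  rw [e1, e2, Finset.mul_sum, ← Finset.sum_add_distrib]
  refine Finset.sum_congr rfl fun x hx => ?_
  rw [Finset.mem_antidiagonal] at hx
  rw [← hx.2.2]
  push_cast
  ring

theorem der_C (c : k) : der (HahnSeries.C c : LaurentSeries k) = 0 := by
  ext m
  rw [der_coeff, HahnSeries.C_apply, HahnSeries.coeff_zero]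
  by_cases h : m + 1 = 0
  · rw [h]; simp
  · rw [HahnSeries.coeff_single_of_ne h, mul_zero]

theorem der_single (n : ℤ) : der (HahnSeries.single n (1 : k)) =
    HahnSeries.single (n - 1) (n : k) := by
  ext m
  rw [der_coeff]
  by_cases h : m + 1 = n
  · subst h
    simp
  · rw [HahnSeries.coeff_single_of_ne h, HahnSeries.coeff_single_of_ne (by omega), mul_zero]

/-- the difference of the two derivations -/
noncomputable def dif {p : ℕ} (B : Base p k) (j : Option k) (φ : RatFunc k) : LaurentSeries k :=
  exW B j (B.D φ) - der (B.ex j φ)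

variable {p : ℕ} (B : Base p k) (j : Option k)

theorem dif_add (φ ψ : RatFunc k) : dif B j (φ + ψ) = dif B j φ + dif B j ψ := by
  unfold dif exW
  rw [map_add, map_add, map_add, der_add]
  ring

theorem dif_mul (φ ψ : RatFunc k) :
    dif B j (φ * ψ) = B.ex j φ * dif B j ψ + B.ex j ψ * dif B j φ := by
  unfold dif exW
  rw [Derivation.leibniz, map_mul, der_mul, map_add, smul_eq_mul, smul_eq_mul, map_mul, map_mul]
  ring

theorem dif_C (c : k) : dif B j (RatFunc.C c) = 0 := by
  unfold dif exW
  rw [B.ex_C, der_C, ← RatFunc.algebraMap_eq_C, Derivation.map_algebraMap, map_zero, zero_mul,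
    sub_zero]

theorem dif_X : dif B j RatFunc.X = 0 := by
  unfold dif exW
  rw [B.D_X, map_one, one_mul, sub_eq_zero]
  rcases j with _ | c
  · rw [B.ex_none, der_single]
    simp [dxdt]
  · rw [B.ex_some, der_add, der_C, der_single]
    simp [dxdt]

theorem dif_poly (q : Polynomial k) : dif B j (algebraMap (Polynomial k) (RatFunc k) q) = 0 := by
  induction q using Polynomial.induction_on with
  | C a =>
    rw [RatFunc.algebraMap_C]
    exact dif_C B j a
  | add p q hp hq => rw [map_add, dif_add, hp, hq, add_zero]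
  | monomial n a h =>
    rw [pow_succ, ← mul_assoc, map_mul, dif_mul, h, RatFunc.algebraMap_X, dif_X, mul_zero,
      mul_zero, add_zero]

theorem dif_zero (φ : RatFunc k) : dif B j φ = 0 := by
  induction φ using RatFunc.induction_on with
  | f a b hb =>
    have hb' : algebraMap (Polynomial k) (RatFunc k) b ≠ 0 := by
      simpa using hb
    have h1 : algebraMap (Polynomial k) (RatFunc k) a / algebraMap (Polynomial k) (RatFunc k) b *
        algebraMap (Polynomial k) (RatFunc k) b = algebraMap (Polynomial k) (RatFunc k) a :=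
      div_mul_cancel₀ _ hb'
    have h2 := dif_mul B j (algebraMap (Polynomial k) (RatFunc k) a /
      algebraMap (Polynomial k) (RatFunc k) b) (algebraMap (Polynomial k) (RatFunc k) b)
    rw [h1, dif_poly, dif_poly, mul_zero, zero_add] at h2
    have h3 : B.ex j (algebraMap (Polynomial k) (RatFunc k) b) ≠ 0 := by
      rwa [Ne, map_eq_zero]
    exact (mul_eq_zero.1 h2.symm).resolve_left h3

end EXD

theorem t_EXD : S_EXD := by
  intro p k _ B j φ m
  have h := EXD.dif_zero B j φ
  unfold EXD.dif at h
  rw [sub_eq_zero.1 h, EXD.der_coeff]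

end Pool.Agent.Helper61.EO
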