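import Pool.Agent.Helper61.EO.Stm

/-!
# Project EO: comparison of two modules
-/

set_option autoImplicit false

namespace Pool.Agent.Helper61.EO

namespace FIN

open PowerSeries

theorem fr_surj {p : ℕ} [Fact p.Prime] {k : Type} [Field k] [IsAlgClosed k] [CharP k p]
    (s : k⟦X⟧) : ∃ s' : k⟦X⟧, fr p k s' = s := by
  have h : ∀ n, ∃ z : k, z ^ p = coeff n s := fun n =>
    IsAlgClosed.exists_pow_nat_eq _ (Fact.out : p.Prime).pos
  choose z hz using h
  refine ⟨PowerSeries.mk z, ?_⟩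
  ext n
  unfold fr
  rw [PowerSeries.coeff_map, coeff_mk, frobenius_def, hz]

theorem exists_equiv {R M M' N : Type} [CommRing R] [AddCommGroup M] [Module R M]
    [AddCommGroup M'] [Module R M'] [AddCommGroup N] [Module R N] (l : N →ₗ[R] M)
    (l' : N →ₗ[R] M') (h : Function.Surjective l) (h' : Function.Surjective l')
    (hk : ∀ s, l s = 0 ↔ l' s = 0) : ∃ Φ : M ≃ₗ[R] M', ∀ s, Φ (l s) = l' s := by
  have hker : LinearMap.ker l = LinearMap.ker l' := by
    ext s
    rw [LinearMap.mem_ker, LinearMap.mem_ker]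
    exact hk s
  refine ⟨(l.quotKerEquivOfSurjective h).symm.trans
    ((Submodule.quotEquivOfEq _ _ hker).trans (l'.quotKerEquivOfSurjective h')), fun s => ?_⟩
  have h1 : (l.quotKerEquivOfSurjective h).symm (l s) = Submodule.Quotient.mk s := by
    rw [LinearEquiv.symm_apply_eq]
    rfl
  rw [LinearEquiv.trans_apply, LinearEquiv.trans_apply, h1]
  rfl

end FIN

open PowerSeries FIN in
theorem t_FIN : S_FIN := by
  intro p _ k _ _ _ M M' _ _ _ _ n ι ι' _ _ w w' e e' σ F V F' V' hw hw' he hF hV hF' hV'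
    hFw hVw hFw' hVw'
  let l : (ι → k⟦X⟧) →ₗ[k⟦X⟧] M := Fintype.linearCombination k⟦X⟧ w
  let l' : (ι → k⟦X⟧) →ₗ[k⟦X⟧] M' := Fintype.linearCombination k⟦X⟧ (fun b => w' (σ b))
  have hl : ∀ s, l s = ∑ b, s b • w b := fun s => rfl
  have hl' : ∀ s, l' s = ∑ b, s b • w' (σ b) := fun s => rfl
  have hre : ∀ s : ι → k⟦X⟧, l' s = ∑ i, (s (σ.symm i)) • w' i := by
    intro s
    rw [hl', ← Equiv.sum_comp σ (fun i => (s (σ.symm i)) • w' i)]
    refine Finset.sum_congr rfl fun b _ => ?_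
    rw [Equiv.symm_apply_apply]
  have hs : Function.Surjective l := by
    intro m
    obtain ⟨s, hs⟩ := hw.1 m
    exact ⟨s, by rw [hl, hs]⟩
  have hs' : Function.Surjective l' := by
    intro m
    obtain ⟨s, hs⟩ := hw'.1 m
    refine ⟨fun b => s (σ b), ?_⟩
    rw [hre, hs]
    refine Finset.sum_congr rfl fun i _ => ?_
    rw [Equiv.apply_symm_apply]
  have hk : ∀ s, l s = 0 ↔ l' s = 0 := by
    intro s
    rw [hl, hw.2, hre, hw'.2]
    constructor
    · intro h i
      exact h _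
    · intro h b
      have h1 := h (σ b)
      rwa [Equiv.symm_apply_apply] at h1
  obtain ⟨Φ, hΦ⟩ := exists_equiv l l' hs hs' hk
  refine ⟨Φ, fun m => ?_, fun m => ?_⟩
  · obtain ⟨s, rfl⟩ := hs m
    have h1 : F (l s) = l (fun b => fr p k (s b) * X ^ e b) := by
      rw [hl, hl, map_sum]
      refine Finset.sum_congr rfl fun b _ => ?_
      rw [hF, hFw, smul_smul]
    rw [h1, hΦ, hΦ, hl', hl', map_sum]
    refine Finset.sum_congr rfl fun b _ => ?_
    rw [hF', hFw', smul_smul, he]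
  · obtain ⟨s, rfl⟩ := hs m
    have h0 : ∀ b, ∃ z : k⟦X⟧, fr p k z = s b := fun b => fr_surj (s b)
    choose z hz using h0
    have h1 : V (l s) = l (fun b => -(z b * X ^ (n - e b))) := by
      rw [hl, hl, map_sum]
      refine Finset.sum_congr rfl fun b _ => ?_
      rw [← hz b, hV, hVw, smul_neg, smul_smul, neg_smul]
    rw [h1, hΦ, hΦ, hl', hl', map_sum]
    refine Finset.sum_congr rfl fun b _ => ?_
    rw [← hz b, hV', hVw', smul_neg, smul_smul, neg_smul, he]

end Pool.Agent.Helper61.EO
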