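import Pool.Agent.Helper61.EO.Stm

/-!
# Project EO: Frobenius on the model
-/

set_option autoImplicit false

namespace Pool.Agent.Helper61.EO

namespace FM

open PowerSeries

/-- the coefficients below `n` are zero -/
def vge {k : Type} [Field k] (φ : LaurentSeries k) (n : ℤ) : Prop := ∀ m : ℤ, m < n → φ.coeff m = 0

section

variable {k : Type} [Field k]

theorem vge.mono {φ : LaurentSeries k} {n n' : ℤ} (h : vge φ n) (hn : n' ≤ n) : vge φ n' :=
  fun m hm => h m (by omega)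

theorem vge.mul {φ ψ : LaurentSeries k} {n n' : ℤ} (h : vge φ n) (h' : vge ψ n') :
    vge (φ * ψ) (n + n') := by
  intro m hm
  rw [HahnSeries.coeff_mul]
  refine Finset.sum_eq_zero fun x hx => ?_
  have h1 := (Finset.mem_antidiagonal.1 hx).2.2
  rcases lt_or_ge x.1 n with h2 | h2
  · rw [h x.1 h2, zero_mul]
  · rw [h' x.2 (by omega), mul_zero]

theorem vge_C (c : k) : vge (HahnSeries.C c : LaurentSeries k) 0 := by
  intro m hm
  rw [HahnSeries.C_apply, HahnSeries.coeff_single_of_ne (by omega)]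

theorem vge_one : vge (1 : LaurentSeries k) 0 := by
  have h := vge_C (1 : k)
  rwa [map_one] at h

theorem vge.pow {φ : LaurentSeries k} {n : ℤ} (h : vge φ n) (r : ℕ) : vge (φ ^ r) (r * n) := by
  induction r with
  | zero =>
    rw [pow_zero]
    exact vge_one.mono (by simp)
  | succ r ih =>
    rw [pow_succ]
    refine (ih.mul h).mono (le_of_eq ?_)
    push_cast
    ring

theorem vge_sum {ι : Type} (s : Finset ι) (φ : ι → LaurentSeries k) (n : ℤ)
    (h : ∀ i ∈ s, vge (φ i) n) : vge (∑ i ∈ s, φ i) n := by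
  intro m hm
  rw [HahnSeries.coeff_sum]
  exact Finset.sum_eq_zero fun i hi => h i hi m hm

end

section

variable {p : ℕ} {k : Type} [Field k] [Fact p.Prime] [CharP k p] (B : Base p k)

theorem coeff_fr (h : (RatFunc k)⟦X⟧) (i : ℕ) :
    coeff i (fr p (RatFunc k) h) = coeff i h ^ p := by
  unfold fr
  rw [PowerSeries.coeff_map, frobenius_def]

theorem coeff_frk (h : k⟦X⟧) (i : ℕ) : coeff i (fr p k h) = coeff i h ^ p := by
  unfold fr
  rw [PowerSeries.coeff_map, frobenius_def]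

theorem fr_smul (s : k⟦X⟧) (h : (RatFunc k)⟦X⟧) :
    fr p (RatFunc k) (s • h) = fr p k s • fr p (RatFunc k) h := by
  ext i
  rw [coeff_fr, coeff_sm, coeff_sm, sum_pow_char]
  refine Finset.sum_congr rfl fun x _ => ?_
  rw [mul_pow, coeff_frk, coeff_fr, map_pow]

theorem inv_fac (s : ℕ) : ((s.factorial : ℕ) : RatFunc k)⁻¹ =
    RatFunc.C (((s.factorial : ℕ) : k)⁻¹) := by
  rw [map_inv₀, map_natCast]

theorem coeff_expo {f : RatFunc k} {s : ℕ} (hs : s < p) :
    coeff s (expo p f) = RatFunc.C (((s.factorial : ℕ) : k)⁻¹) * f ^ s := by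
  unfold expo
  rw [coeff_mk, if_pos hs, inv_fac]

theorem coeff_FH {f : RatFunc k} (h : (RatFunc k)⟦X⟧) (i : ℕ) :
    coeff i (expo p f * fr p (RatFunc k) h) = ∑ x ∈ Finset.HasAntidiagonal.antidiagonal i,
      coeff x.1 (expo p f) * coeff x.2 h ^ p := by
  rw [coeff_mul]
  refine Finset.sum_congr rfl fun x _ => ?_
  rw [coeff_fr]

/-- order of the coefficients -/
theorem vge_FH {f : RatFunc k} {j : Option k} {D : ℤ} (hf : vge (B.ex j f) (-D)) (hD : 0 ≤ D)
    {h : (RatFunc k)⟦X⟧} {i : ℕ} (hi : i < p) {o : ℕ → ℤ} {N : ℤ}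
    (ho : ∀ t ≤ i, vge (B.ex j (coeff t h)) (o t))
    (hN : ∀ s t : ℕ, s + t = i → N ≤ -(s * D) + p * o t) :
    vge (B.ex j (coeff i (expo p f * fr p (RatFunc k) h))) N := by
  rw [coeff_FH, map_sum]
  refine vge_sum _ _ _ fun x hx => ?_
  have hx' := Finset.HasAntidiagonal.mem_antidiagonal.1 hx
  rw [coeff_expo (by omega), map_mul, map_mul, B.ex_C, map_pow, map_pow]
  refine (((vge_C _).mul (hf.pow x.1)).mul ((ho x.2 (by omega)).pow p)).mono ?_
  refine (hN x.1 x.2 hx').trans (le_of_eq ?_)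
  ring

theorem D_pow_p (a : RatFunc k) : B.D (a ^ p) = 0 := by
  rw [Derivation.leibniz_pow]
  have h : ((p : ℕ) : RatFunc k) = 0 := CharP.cast_eq_zero _ _
  rw [← Nat.cast_smul_eq_nsmul (RatFunc k), h, zero_smul]

theorem D_C_mul (c : k) (a : RatFunc k) : B.D (RatFunc.C c * a) = RatFunc.C c * B.D a := by
  rw [← RatFunc.algebraMap_eq_C, ← Algebra.smul_def, ← Algebra.smul_def, Derivation.map_smul]

theorem D_expo_zero (f : RatFunc k) : B.D (coeff 0 (expo p f)) = 0 := by
  rw [coeff_expo (Fact.out : p.Prime).pos, D_C_mul, pow_zero, Derivation.map_one_eq_zero,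
    mul_zero]

theorem D_expo_succ (f : RatFunc k) {s : ℕ} (hs : s + 1 < p) :
    B.D (coeff (s + 1) (expo p f)) = B.D f * coeff s (expo p f) := by
  rw [coeff_expo hs, coeff_expo (by omega), D_C_mul, Derivation.leibniz_pow, Nat.add_sub_cancel,
    smul_eq_mul, nsmul_eq_mul]
  have h1 : ((s + 1 : ℕ) : k) ≠ 0 := by
    intro h
    have h2 := (CharP.cast_eq_zero_iff k p (s + 1)).1 h
    exact absurd (Nat.le_of_dvd (Nat.succ_pos s) h2) (by omega)
  have h3 : RatFunc.C ((((s + 1).factorial : ℕ) : k)⁻¹) * ((s + 1 : ℕ) : RatFunc k) =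
      RatFunc.C (((s.factorial : ℕ) : k)⁻¹) := by
    rw [← map_natCast (RatFunc.C : k →+* RatFunc k), ← map_mul, Nat.factorial_succ,
      Nat.cast_mul, mul_inv, mul_right_comm, inv_mul_cancel₀ h1, one_mul]
  calc RatFunc.C ((((s + 1).factorial : ℕ) : k)⁻¹) *
        (((s + 1 : ℕ) : RatFunc k) * (f ^ s * B.D f))
      = (RatFunc.C ((((s + 1).factorial : ℕ) : k)⁻¹) * ((s + 1 : ℕ) : RatFunc k)) *
        (f ^ s * B.D f) := by ring
    _ = B.D f * (RatFunc.C (((s.factorial : ℕ) : k)⁻¹) * f ^ s) := by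
        rw [h3]
        ring

/-- the twisted derivative of `expo * fr h` is zero -/
theorem nab_FH (f : RatFunc k) (h : (RatFunc k)⟦X⟧) {i : ℕ} (hi : i < p) :
    coeff i (nab B f (expo p f * fr p (RatFunc k) h)) = 0 := by
  unfold nab
  rw [map_sub, coeff_mk, coeff_FH, map_sum]
  have hD : ∀ x : ℕ × ℕ, B.D (coeff x.1 (expo p f) * coeff x.2 h ^ p) =
      B.D (coeff x.1 (expo p f)) * coeff x.2 h ^ p := by
    intro x
    rw [Derivation.leibniz, D_pow_p, smul_zero, zero_add, smul_eq_mul, mul_comm]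
  rw [Finset.sum_congr rfl fun x _ => hD x]
  cases i with
  | zero =>
    rw [Finset.HasAntidiagonal.antidiagonal_zero, Finset.sum_singleton, D_expo_zero, zero_mul,
      coeff_zero_X_mul, sub_zero]
  | succ i =>
    rw [Finset.Nat.sum_antidiagonal_succ, D_expo_zero, zero_mul, zero_add, coeff_succ_X_mul,
      coeff_C_mul, coeff_FH, Finset.mul_sum, sub_eq_zero]
    refine Finset.sum_congr rfl fun x hx => ?_
    have hx' := Finset.HasAntidiagonal.mem_antidiagonal.1 hx
    rw [D_expo_succ B f (by omega), mul_assoc]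

variable (f : RatFunc k) (J : Finset (Option k)) (d : Option k → ℕ)

/-- Frobenius on pairs -/
noncomputable def Fp (z : (RatFunc k)⟦X⟧ × (Option k → (RatFunc k)⟦X⟧)) :
    (RatFunc k)⟦X⟧ × (Option k → (RatFunc k)⟦X⟧) :=
  (0, fun j => expo p f * fr p (RatFunc k) (z.2 j))

theorem Fp_add (z w : (RatFunc k)⟦X⟧ × (Option k → (RatFunc k)⟦X⟧)) :
    Fp (p := p) f (z + w) = Fp f z + Fp f w := by
  unfold Fp
  refine Prod.ext ?_ ?_
  · exact (add_zero _).symm
  · funext j
    change expo p f * fr p (RatFunc k) (z.2 j + w.2 j) = _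
    rw [map_add, mul_add]
    rfl

theorem Fp_smul (s : k⟦X⟧) (z : (RatFunc k)⟦X⟧ × (Option k → (RatFunc k)⟦X⟧)) :
    Fp (p := p) f (s • z) = fr p k s • Fp f z := by
  unfold Fp
  refine Prod.ext ?_ ?_
  · exact (smul_zero _).symm
  · funext j
    change expo p f * fr p (RatFunc k) (s • z.2 j) = fr p k s • (expo p f * _)
    rw [fr_smul, mul_smul_comm]

theorem Fp_Zm (z : (RatFunc k)⟦X⟧ × (Option k → (RatFunc k)⟦X⟧)) : Fp f z ∈ Zm B f J d := by
  refine ⟨inA.zero B, fun j _ i hi m _ => ?_⟩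
  unfold exW Fp
  rw [map_sub, nab_FH B f _ hi, map_zero, sub_zero, map_zero, zero_mul]
  rfl

theorem Fp_Bm (h : PoleData B f J d) {z : (RatFunc k)⟦X⟧ × (Option k → (RatFunc k)⟦X⟧)}
    (hz : z ∈ Bm B f J d) : Fp f z ∈ Bm B f J d := by
  obtain ⟨g, hg1, hg2, hg3⟩ := hz
  refine ⟨expo p f * fr p (RatFunc k) g, ?_, ?_, ?_⟩
  · intro i hi j hj
    have h1 : vge (B.ex j f) (-0) := fun m hm => h.reg j hj m (by omega)
    refine vge_FH B h1 le_rfl hi (o := fun _ => 0) (fun t ht => ?_) ?_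
    · exact fun m hm => hg1 t (by omega) j hj m hm
    · intro s t _
      simp
  · intro i hi
    rw [nab_FH B f _ hi]
    rfl
  · intro j hj
    have h1 : (Fp f z).2 j - expo p f * fr p (RatFunc k) g =
        expo p f * fr p (RatFunc k) (z.2 j - g) := by
      unfold Fp
      rw [map_sub, mul_sub]
    rw [h1]
    intro i hi
    have h2 : vge (B.ex j f) (-(d j : ℤ)) := h.low j hj
    refine vge_FH B h2 (Int.natCast_nonneg _) hi
      (o := fun t => (d j : ℤ) - (t / EE p d j : ℕ)) (fun t ht => ?_) ?_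
    · exact fun m hm => hg3 j hj t (by omega) m hm
    · intro s t hst
      have hdE : d j * EE p d j = p - 1 := Nat.mul_div_cancel' (h.dvd j hj)
      have hq : t / EE p d j * EE p d j ≤ t := Nat.div_mul_le_self _ _
      have hqi : t / EE p d j ≤ i / EE p d j := Nat.div_le_div_right (by omega)
      generalize t / EE p d j = q at hq hqi ⊢
      generalize i / EE p d j = q' at hqi ⊢
      generalize EE p d j = E at hdE hq
      generalize d j = D at hdE ⊢
      have hp1 : (1 : ℤ) ≤ p := by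
        have := (Fact.out : p.Prime).pos
        omega
      have e1 : (D : ℤ) * E = p - 1 := by
        have h3 : ((D * E : ℕ) : ℤ) = ((p - 1 : ℕ) : ℤ) := by rw [hdE]
        rw [Nat.cast_mul, Nat.cast_sub (by omega)] at h3
        exact h3
      have e2 : (q : ℤ) * E ≤ t := by exact_mod_cast hq
      have e3 : (q : ℤ) ≤ q' := by exact_mod_cast hqi
      have e4 : (s : ℤ) + t = i := by exact_mod_cast hst
      have e5 : (i : ℤ) + 1 ≤ p := by exact_mod_cast hi
      have e6 : (0 : ℤ) ≤ D := Int.natCast_nonneg _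
      have e7 : (D : ℤ) * ((q : ℤ) * E) ≤ D * t := mul_le_mul_of_nonneg_left e2 e6
      have e8 : (D : ℤ) * ((i : ℤ) + 1) ≤ D * p := mul_le_mul_of_nonneg_left e5 e6
      have e9 : (s : ℤ) = i - t := by linarith
      rw [e9]
      have e10 : (q : ℤ) * (D * E) = q * (p - 1) := by rw [e1]
      nlinarith

end

end FM

open PowerSeries FM in
theorem t_FM : S_FM := by
  intro p _ k _ _ _ B f J d h
  let Fz : Zm B f J d →ₛₗ[fr p k] Hm B f J d :=
    { toFun := fun z => Hm.cl B f J d ⟨Fp f z.1, Fp_Zm B f J d z.1⟩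
      map_add' := by
        intro z w
        have h1 : (⟨Fp f (z + w).1, Fp_Zm B f J d (z + w).1⟩ : Zm B f J d) =
            ⟨Fp f z.1, Fp_Zm B f J d z.1⟩ + ⟨Fp f w.1, Fp_Zm B f J d w.1⟩ :=
          Subtype.ext (Fp_add f z.1 w.1)
        rw [h1]
        rfl
      map_smul' := by
        intro s z
        have h1 : (⟨Fp f (s • z).1, Fp_Zm B f J d (s • z).1⟩ : Zm B f J d) =
            fr p k s • ⟨Fp f z.1, Fp_Zm B f J d z.1⟩ :=
          Subtype.ext (Fp_smul f s z.1)
        rw [h1]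
        rfl }
  have hker : (Bm B f J d).submoduleOf (Zm B f J d) ≤ LinearMap.ker Fz := by
    intro z hz
    rw [LinearMap.mem_ker]
    change (Submodule.Quotient.mk (⟨Fp f z.1, Fp_Zm B f J d z.1⟩ : Zm B f J d) :
      Hm B f J d) = 0
    rw [Submodule.Quotient.mk_eq_zero]
    exact Fp_Bm B f J d h hz
  let F0 : Hm B f J d →ₛₗ[fr p k] Hm B f J d :=
    Submodule.liftQ ((Bm B f J d).submoduleOf (Zm B f J d)) Fz hker
  refine ⟨F0.toAddMonoidHom, fun s m => F0.map_smulₛₗ s m, fun z => ?_⟩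
  exact ⟨⟨Fp f z.1, Fp_Zm B f J d z.1⟩, rfl, fun j => rfl, rfl⟩

end Pool.Agent.Helper61.EO
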