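import Pool.Agent.Helper61.EO.J.TT

/-!
# Project EO: the forms `t⁻ⁿ dt`
-/

set_option autoImplicit false

namespace Pool.Agent.Helper61.EO

namespace FO

open TT

variable {k : Type} [Field k] {p : ℕ} (B : Base p k)

theorem single_pow (n : ℕ) : (HahnSeries.single (-1 : ℤ) (1 : k)) ^ n =
    HahnSeries.single (-(n : ℤ)) (1 : k) := by
  induction n with
  | zero => rfl
  | succ n ih =>
    rw [pow_succ, ih, HahnSeries.single_mul_single, one_mul]
    congr 1
    push_cast
    ring_nf

theorem exW_mul (j : Option k) (φ ψ : RatFunc k) : exW B j (φ * ψ) = B.ex j φ * exW B j ψ := by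
  unfold exW
  rw [map_mul, mul_assoc]

theorem exW_some (c : k) (φ : RatFunc k) : exW B (some c) φ = B.ex (some c) φ := by
  unfold exW
  exact mul_one _

theorem vge_none {φ : RatFunc k} {n : ℤ} (h : vge (B.ex none φ) n) :
    vge (exW B none φ) (n - 2) := by
  have h1 : vge (dxdt (none : Option k)) (-2) := (vge_single (-2) (1 : k)).neg
  exact (h.mul h1).mono (le_of_eq (by ring))

theorem D_none : B.D (tt (none : Option k)) = -(RatFunc.X⁻¹) ^ 2 := by
  change B.D (RatFunc.X⁻¹) = _
  rw [Derivation.leibniz_inv, B.D_X, smul_eq_mul, mul_one]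

theorem D_some (c : k) : B.D (tt (some c)) = 1 := by
  change B.D (RatFunc.X - RatFunc.C c) = _
  rw [map_sub, B.D_X, ← RatFunc.algebraMap_eq_C, Derivation.map_algebraMap, sub_zero]

theorem fo_none {n : ℕ} (hn : 2 ≤ n) : fo B none n = -(RatFunc.X) ^ (n - 2) := by
  unfold fo
  rw [D_none]
  change ((RatFunc.X⁻¹)⁻¹) ^ n * _ = _
  rw [inv_inv]
  obtain ⟨r, rfl⟩ := Nat.exists_eq_add_of_le hn
  rw [Nat.add_sub_cancel_left, pow_add]
  have h : (RatFunc.X : RatFunc k) ≠ 0 := RatFunc.X_ne_zero
  field_simp

theorem fo_some (c : k) (n : ℕ) : fo B (some c) n = ((tt (some c))⁻¹) ^ n := by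
  unfold fo
  rw [D_some, mul_one]

end FO

open TT FO in
theorem t_FO (_hTT : S_TT) (hEXD : S_EXD) : S_FO := by
  intro p k _ B
  have hsome : ∀ (c : k) (j' : Option k) (n : ℕ), j' ≠ some c → j' ≠ none →
      vge (exW B j' (fo B (some c) n)) 0 := by
    intro c j' n h1 h2
    obtain ⟨c', rfl⟩ := Option.ne_none_iff_exists'.1 h2
    rw [exW_some, fo_some, map_pow]
    exact ((ex_inv B h1).pow n).mono (by simp)
  have hnone : ∀ (c : k) (n : ℕ), vge (exW B none (fo B (some c) n)) ((n : ℤ) - 2) := by
    intro c n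
    apply vge_none
    rw [fo_some, map_pow]
    exact ((ex_none_inv B c).pow n).mono (by simp)
  refine ⟨fun j n => ?_, fun j j' n hn hj => ?_, fun c j' h1 h2 => hsome c j' 1 h1 h2,
    fun c m hm => hnone c 1 m (by push_cast; omega)⟩
  · have h1 : exW B j (B.D (tt j)) = 1 := by
      ext m
      rw [hEXD p k B j (tt j) m, ex_tt]
      by_cases h : m = 0
      · subst h
        rw [HahnSeries.coeff_one, if_pos rfl]
        have h2 : (HahnSeries.single (1 : ℤ) (1 : k)).coeff (0 + 1) = 1 := by
          rw [zero_add, HahnSeries.coeff_single_same]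
        rw [h2]
        norm_num
      · rw [HahnSeries.coeff_one, if_neg h, HahnSeries.coeff_single_of_ne (by omega), mul_zero]
    unfold fo
    rw [exW_mul, h1, mul_one, map_pow, map_inv₀, ex_tt, single_inv, single_pow]
  · cases j with
    | none =>
      obtain ⟨c, rfl⟩ := Option.ne_none_iff_exists'.1 hj
      intro m hm
      rw [exW_some, fo_none B hn, map_neg, map_pow, B.ex_some]
      refine (((vge_C c).add ((vge_single 1 (1 : k)).mono (by norm_num))).pow
        (n - 2)).neg m (by simpa using hm)
    | some c =>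
      by_cases h : j' = none
      · subst h
        intro m hm
        exact hnone c n m (by omega)
      · exact hsome c j' n hj h

end Pool.Agent.Helper61.EO
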