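import Pool.Agent.Helper61.EO.J.HOL

/-!
Project EO: `V` on the slope one part.
-/

set_option autoImplicit false

namespace Pool.Agent.Helper61.EO

open PowerSeries

noncomputable section

namespace GD

open IND

section

variable {k : Type} [Field k]

/-- the order is at least `n` -/
def Ge (n : ℤ) (u : LaurentSeries k) : Prop := ∀ m < n, u.coeff m = 0

theorem Ge.mono {n n' : ℤ} {u : LaurentSeries k} (h : Ge n u) (hn : n' ≤ n) : Ge n' u :=
  fun m hm => h m (by omega)

theorem Ge.mul {n n' : ℤ} {u v : LaurentSeries k} (hu : Ge n u) (hv : Ge n' v) :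
    Ge (n + n') (u * v) := by
  intro m hm
  rw [HahnSeries.coeff_mul]
  refine Finset.sum_eq_zero fun x hx => ?_
  have h1 := (Finset.mem_addAntidiagonal.1 hx).2.2
  by_cases h2 : x.1 < n
  · rw [hu _ h2, zero_mul]
  · rw [hv _ (by omega), mul_zero]

theorem Ge.one : Ge 0 (1 : LaurentSeries k) := fun m hm =>
  HahnSeries.coeff_single_of_ne (by omega)

theorem Ge.C (c : k) : Ge 0 (HahnSeries.C c : LaurentSeries k) := fun m hm =>
  HahnSeries.coeff_single_of_ne (by omega)

theorem Ge.pow {n : ℤ} {u : LaurentSeries k} (hu : Ge n u) (i : ℕ) : Ge (n * i) (u ^ i) := by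
  induction i with
  | zero => simpa using Ge.one
  | succ i ih =>
    rw [pow_succ]
    have := ih.mul hu
    refine this.mono ?_
    push_cast
    rw [mul_add, mul_one]

theorem Ge.neg {n : ℤ} {u : LaurentSeries k} (hu : Ge n u) : Ge n (-u) := fun m hm => by
  rw [HahnSeries.coeff_neg, hu m hm, neg_zero]

end

section

variable {p : ℕ} {k : Type} [Field k] (B : Base p k)

/-- the coefficients of the truncated exponential series -/
def ec (p : ℕ) (f : RatFunc k) (i : ℕ) : RatFunc k :=
  ((i.factorial : ℕ) : RatFunc k)⁻¹ * (-f) ^ i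

theorem ec_zero' (f : RatFunc k) : ec p f 0 = 1 := by
  simp [ec]

theorem ec_ge (f : RatFunc k) (j : Option k) (n : ℤ) (h : Ge n (B.ex j f)) (i : ℕ) :
    Ge (n * i) (B.ex j (ec p f i)) := by
  unfold ec
  have h1 : ((i.factorial : ℕ) : RatFunc k)⁻¹ = RatFunc.C (((i.factorial : ℕ) : k)⁻¹) := by
    rw [map_inv₀, map_natCast]
  rw [h1, map_mul, B.ex_C, map_pow, map_neg]
  have := (Ge.C (((i.factorial : ℕ) : k)⁻¹)).mul (h.neg.pow i)
  rwa [zero_add] at this

theorem fo_log [IsAlgClosed k] [Fact p.Prime] (j : Option k) : B.car (fo B j 1) = fo B j 1 := by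
  have hp : 1 ≤ p := (Fact.out : p.Prime).one_le
  unfold fo
  rw [pow_one]
  have h1 : (tt j)⁻¹ * B.D (tt j) = ((tt j)⁻¹) ^ p * (tt j ^ (p - 1) * B.D (tt j)) := by
    by_cases h0 : tt j = 0
    · rw [h0, inv_zero, zero_pow (by omega), zero_mul, zero_mul]
    · have h2 : ((tt j)⁻¹) ^ p * tt j ^ (p - 1) = (tt j)⁻¹ := by
        obtain ⟨q, rfl⟩ := Nat.exists_eq_add_of_le hp
        rw [Nat.add_sub_cancel_left, pow_add, pow_one, mul_assoc, ← mul_pow, inv_mul_cancel₀ h0,
          one_pow, mul_one]
      rw [← mul_assoc, h2]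
  rw [h1, B.car_pow, B.car_log, ← mul_assoc]
  have h3 : ((tt j)⁻¹) ^ p * (tt j ^ (p - 1) * B.D (tt j)) = (tt j)⁻¹ * B.D (tt j) := h1.symm
  rw [mul_assoc, h3]

/-- Cartier operator and orders -/
theorem car_ge [IsAlgClosed k] [CharP k p] (hp : p.Prime) (hEXC : S_EXC) (j : Option k)
    (φ : RatFunc k) (n N : ℤ) (h : Ge n (exW B j φ)) (hN : (p : ℤ) * N ≤ n) :
    Ge N (exW B j (B.car φ)) := by
  intro m hm
  have h1 := hEXC p k hp B j φ m
  have hp0 : (0 : ℤ) < p := by exact_mod_cast hp.pos
  have h2 : (p : ℤ) * (m + 1) ≤ p * N := mul_le_mul_of_nonneg_left (by omega) hp0.le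
  rw [h _ (by omega)] at h1
  exact pow_eq_zero_iff hp.ne_zero |>.1 h1

end

end GD

open IND HOL GD in
theorem t_GD (hFO : S_FO) (hEXC : S_EXC) (hTT : S_TT) : S_GD := by
  intro p hpF k _ _ _ B f J d hP b hb hbd
  have hp : 2 ≤ p := (Fact.out : p.Prime).two_le
  obtain ⟨j, a⟩ := b
  simp only at hbd
  subst hbd
  rcases j with _ | c
  · exact absurd (mem_IB_none J d _ hb).2 (lt_irrefl _)
  have hvb : vb B f d ⟨some c, d (some c)⟩ = (X * C (fo B (some c) 1), 0) := by
    unfold vb
    rw [if_neg (lt_irrefl _)]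
  have hcJ : some c ∈ J := (mem_IB_le J d _ hb).1
  have hcoef : ∀ i, i + 1 < p → coeff (i + 1) (carS B f (X * C (fo B (some c) 1))) =
      B.car (ec p f i * fo B (some c) 1) := by
    intro i hi
    unfold carS
    rw [coeff_mk]
    congr 1
    have h1 : expo p (-f) * (X * C (fo B (some c) 1)) =
        X * (expo p (-f) * C (fo B (some c) 1)) := by ring
    rw [h1, coeff_succ_X_mul, coeff_mul_C]
    unfold expo
    rw [coeff_mk, if_pos (by omega)]
    rfl
  have hcoef0 : coeff 0 (carS B f (X * C (fo B (some c) 1))) = 0 := by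
    unfold carS
    rw [coeff_mk]
    have h1 : expo p (-f) * (X * C (fo B (some c) 1)) =
        X * (expo p (-f) * C (fo B (some c) 1)) := by ring
    rw [h1, coeff_zero_X_mul, map_zero]
  rw [hvb]
  refine ⟨mk fun i => if 1 ≤ i ∧ i + 1 < p then B.car (ec p f i * fo B (some c) 1) else 0,
    ⟨fun i hi j' hj' m hm => ?_, fun j' hj' i hi m hm => ?_⟩, 0, inA.zero B, fun i hi => ?_,
    fun j' hj' => ?_⟩
  · rw [coeff_mk]
    split_ifs with hc
    · rcases j' with _ | c'
      · exact absurd hP.inf hj'
      · have h1 : Ge 0 (exW B (some c') (ec p f i * fo B (some c) 1)) := by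
          have h2 : exW B (some c') (ec p f i * fo B (some c) 1) =
              B.ex (some c') (ec p f i) * exW B (some c') (fo B (some c) 1) := by
            unfold exW
            rw [map_mul, mul_assoc]
          rw [h2]
          have h3 := ec_ge B f (some c') 0 (hP.reg _ hj') i
          have h4 : Ge 0 (exW B (some c') (fo B (some c) 1)) :=
            (hFO p k B).2.2.1 c (some c') (fun h => hj' (h ▸ hcJ)) (by simp)
          have := h3.mul h4
          rwa [zero_mul, zero_add] at this
        have h5 := car_ge B hpF.out hEXC (some c') _ 0 0 h1 (by simp) m hm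
        unfold exW at h5
        simpa [dxdt] using h5
    · simp
  · rw [coeff_mk]
    split_ifs with hc
    · have h1 : Ge (-(d j' : ℤ) * i + (-1)) (exW B j' (ec p f i * fo B (some c) 1)) := by
        have h2 : exW B j' (ec p f i * fo B (some c) 1) =
            B.ex j' (ec p f i) * exW B j' (fo B (some c) 1) := by
          unfold exW
          rw [map_mul, mul_assoc]
        rw [h2]
        have h3 := ec_ge B f j' (-(d j' : ℤ)) (hP.low j' hj') i
        have h4 : Ge (-1) (exW B j' (fo B (some c) 1)) := by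
          by_cases h5 : j' = some c
          · rw [h5, (hFO p k B).1 (some c) 1]
            intro m hm
            refine HahnSeries.coeff_single_of_ne ?_
            intro h
            rw [h] at hm
            simp at hm
          · rcases j' with _ | c'
            · exact (hFO p k B).2.2.2 c
            · intro m hm
              exact (hFO p k B).2.2.1 c (some c') h5 (by simp) m (by omega)
        exact h3.mul h4
      have hdp : d j' * EE p d j' = p - 1 := Nat.mul_div_cancel' (hP.dvd j' hj')
      have hEE : 0 < EE p d j' := by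
        refine Nat.pos_of_ne_zero fun h => ?_
        rw [h] at hdp
        omega
      have h6 : i ≤ EE p d j' * ((i + EE p d j' - 1) / EE p d j') := by
        have := Nat.div_add_mod (i + EE p d j' - 1) (EE p d j')
        have := Nat.mod_lt (i + EE p d j' - 1) hEE
        omega
      have h7 : d j' * i ≤ (p - 1) * ((i + EE p d j' - 1) / EE p d j') := by
        calc d j' * i ≤ d j' * (EE p d j' * ((i + EE p d j' - 1) / EE p d j')) :=
              Nat.mul_le_mul_left _ h6
          _ = _ := by rw [← mul_assoc, hdp]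
      have h8 : 1 ≤ (i + EE p d j' - 1) / EE p d j' := by
        rw [Nat.le_div_iff_mul_le hEE]
        omega
      have h9 : d j' * i + 1 ≤ p * ((i + EE p d j' - 1) / EE p d j') := by
        obtain ⟨q, rfl⟩ := Nat.exists_eq_add_of_le (show 1 ≤ p by omega)
        rw [Nat.add_sub_cancel_left] at h7
        rw [Nat.add_mul, one_mul]
        omega
      refine car_ge B hpF.out hEXC j' _ _ (-(((i + EE p d j' - 1) / EE p d j' : ℕ) : ℤ)) h1 ?_ m hm
      have h10 : ((d j' : ℕ) : ℤ) * i + 1 ≤ p * (((i + EE p d j' - 1) / EE p d j' : ℕ) : ℤ) := by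
        exact_mod_cast h9
      linarith
    · exact ec_zero B j' m
  · rw [nab_zero, map_zero]
    simp only [Prod.fst_sub, Prod.smul_fst, map_sub]
    rcases i with _ | i
    · rw [hcoef0, coeff_zero_X_mul, Algebra.smul_def]
      simp
    · have h1 : coeff (i + 1) ((X : k⟦X⟧) • (mk fun i => if 1 ≤ i ∧ i + 1 < p then
          B.car (ec p f i * fo B (some c) 1) else 0)) =
          if 1 ≤ i ∧ i + 1 < p then B.car (ec p f i * fo B (some c) 1) else 0 := by
        rw [Algebra.smul_def]
        have h2 : algebraMap k⟦X⟧ (RatFunc k)⟦X⟧ X = X := by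
          show PowerSeries.map _ X = X
          exact PowerSeries.map_X _
        rw [h2, coeff_succ_X_mul, coeff_mk]
      rw [hcoef i hi, coeff_succ_X_mul, h1]
      rcases i with _ | i
      · rw [ec_zero', one_mul, fo_log, coeff_zero_C, if_neg (by omega)]
        ring
      · rw [coeff_C, if_neg (by omega), if_pos ⟨by omega, hi⟩]
        ring
  · simp only [Prod.snd_sub, Prod.smul_snd, Pi.sub_apply, Pi.smul_apply, Pi.zero_apply, smul_zero,
      sub_zero]
    exact inO.zero B

end

end Pool.Agent.Helper61.EO
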