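import Pool.Agent.Helper61.EO.Stm

/-!
Project EO, job GV: `V` of the elements `gb`.
-/

set_option autoImplicit false
set_option linter.unusedSectionVars false

namespace Pool.Agent.Helper61.EO

namespace GV

open PowerSeries

section ord

variable {p : ℕ} {k : Type} [Field k] (B : Base p k)

/-- order at least `n` -/
def og (j : Option k) (n : ℤ) (φ : RatFunc k) : Prop := ∀ m < n, (B.ex j φ).coeff m = 0

/-- order of the form at least `n` -/
def ow (j : Option k) (n : ℤ) (φ : RatFunc k) : Prop := ∀ m < n, (exW B j φ).coeff m = 0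

theorem coeff_mul_lt {x y : LaurentSeries k} {a b : ℤ} (hx : ∀ m < a, x.coeff m = 0)
    (hy : ∀ m < b, y.coeff m = 0) : ∀ m < a + b, (x * y).coeff m = 0 := by
  intro m hm
  rw [HahnSeries.coeff_mul]
  refine Finset.sum_eq_zero fun z hz => ?_
  rw [Finset.mem_antidiagonal] at hz
  rcases lt_or_ge z.1 a with h1 | h1
  · rw [hx _ h1, zero_mul]
  · rw [hy _ (by omega), mul_zero]

theorem exW_mul (j : Option k) (φ ψ : RatFunc k) : exW B j (φ * ψ) = B.ex j φ * exW B j ψ := by
  unfold exW; rw [map_mul, mul_assoc]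

theorem exW_add (j : Option k) (φ ψ : RatFunc k) :
    exW B j (φ + ψ) = exW B j φ + exW B j ψ := by unfold exW; rw [map_add, add_mul]

theorem exW_sub (j : Option k) (φ ψ : RatFunc k) :
    exW B j (φ - ψ) = exW B j φ - exW B j ψ := by unfold exW; rw [map_sub, sub_mul]

theorem exW_zero (j : Option k) : exW B j 0 = 0 := by unfold exW; rw [map_zero, zero_mul]

theorem exW_sum (j : Option k) {α : Type} (s : Finset α) (g : α → RatFunc k) :
    exW B j (∑ i ∈ s, g i) = ∑ i ∈ s, exW B j (g i) := by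
  unfold exW; rw [map_sum, Finset.sum_mul]

theorem exW_C (j : Option k) (c : k) (φ : RatFunc k) (m : ℤ) :
    (exW B j (RatFunc.C c * φ)).coeff m = c * (exW B j φ).coeff m := by
  rw [exW_mul, B.ex_C, HahnSeries.C_mul_eq_smul, HahnSeries.coeff_smul, smul_eq_mul]

variable {B}

theorem og.mul {j : Option k} {a b : ℤ} {φ ψ : RatFunc k} (h : og B j a φ) (h' : og B j b ψ) :
    og B j (a + b) (φ * ψ) := by
  unfold og; rw [map_mul]; exact coeff_mul_lt h h'

theorem og.mulW {j : Option k} {a b : ℤ} {φ ψ : RatFunc k} (h : og B j a φ) (h' : ow B j b ψ) :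
    ow B j (a + b) (φ * ψ) := by
  unfold ow; rw [exW_mul]; exact coeff_mul_lt h h'

theorem og_C (j : Option k) (c : k) : og B j 0 (RatFunc.C c) := fun m hm => by
  rw [B.ex_C, HahnSeries.C_apply, HahnSeries.coeff_single_of_ne (by omega)]

theorem og_one (j : Option k) : og B j 0 1 := by
  have := og_C (B := B) j 1
  rwa [map_one] at this

theorem og.pow {j : Option k} {a : ℤ} {φ : RatFunc k} (h : og B j a φ) (s : ℕ) :
    og B j (s * a) (φ ^ s) := by
  induction s with
  | zero => rw [pow_zero]; simpa using og_one (B := B) j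
  | succ s ih =>
    rw [pow_succ]
    have := ih.mul h
    rwa [show (s : ℤ) * a + a = ((s + 1 : ℕ) : ℤ) * a by push_cast; ring] at this

theorem og.neg {j : Option k} {a : ℤ} {φ : RatFunc k} (h : og B j a φ) : og B j a (-φ) :=
  fun m hm => by rw [map_neg, HahnSeries.coeff_neg, h m hm, neg_zero]

theorem og.mono {j : Option k} {a b : ℤ} {φ : RatFunc k} (h : og B j a φ) (hb : b ≤ a) :
    og B j b φ := fun m hm => h m (by omega)

theorem ow.mono {j : Option k} {a b : ℤ} {φ : RatFunc k} (h : ow B j a φ) (hb : b ≤ a) :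
    ow B j b φ := fun m hm => h m (by omega)

theorem ow.car (hEXC : S_EXC) [hp : Fact p.Prime] [IsAlgClosed k] [CharP k p] {j : Option k}
    {a b : ℤ} {φ : RatFunc k} (h : ow B j a φ) (hb : ∀ m < b, (p : ℤ) * (m + 1) - 1 < a) :
    ow B j b (B.car φ) := fun m hm => by
  have h1 := hEXC p k hp.out B j φ m
  rw [h _ (hb m hm)] at h1
  exact pow_eq_zero_iff hp.out.ne_zero |>.1 h1

theorem ow_D (hEXD : S_EXD) {j : Option k} {a : ℤ} {φ : RatFunc k} (h : og B j a φ) :
    ow B j (a - 1) (B.D φ) := fun m hm => by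
  rw [hEXD p k B j φ m, h _ (by omega), mul_zero]

theorem og_tt (hTT : S_TT) (j : Option k) : og B j 1 (tt j) := fun m hm => by
  rw [(hTT p k B).1 j, HahnSeries.coeff_single_of_ne (by omega)]

/-- coefficients of the principal part -/
theorem pp_coeff (hFO : S_FO) (j : Option k) (N : ℕ) (φ : RatFunc k) (n : ℕ) (h2 : 2 ≤ n) :
    (exW B j (pp B j N φ)).coeff (-(n : ℤ)) =
      if n < N then (exW B j φ).coeff (-(n : ℤ)) else 0 := by
  unfold pp
  rw [exW_sum, HahnSeries.coeff_sum]
  have e1 : ∀ i ∈ Finset.Ico 2 N, (exW B j (RatFunc.C ((exW B j φ).coeff (-(i : ℤ))) *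
      fo B j i)).coeff (-(n : ℤ)) = if i = n then (exW B j φ).coeff (-(n : ℤ)) else 0 := by
    intro i _
    rw [exW_C, (hFO p k B).1 j i]
    rcases eq_or_ne i n with h | h
    · rw [if_pos h, h, HahnSeries.coeff_single_same, mul_one]
    · rw [if_neg h, HahnSeries.coeff_single_of_ne (by omega), mul_zero]
  rw [Finset.sum_congr rfl e1, Finset.sum_ite_eq']
  simp [h2]

theorem pp_ow (hFO : S_FO) {j j' : Option k} (hj : j' ≠ j) (N : ℕ) (φ : RatFunc k) :
    ow B j' 0 (pp B j N φ) := by
  intro m hm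
  unfold pp
  rw [exW_sum, HahnSeries.coeff_sum]
  refine Finset.sum_eq_zero fun i hi => ?_
  rw [exW_C, (hFO p k B).2.1 j j' i (Finset.mem_Ico.1 hi).1 hj m hm, mul_zero]

theorem sub_pp_ow (hFO : S_FO) {j : Option k} {N : ℕ} {φ : RatFunc k}
    (h : ow B j (-(N : ℤ) + 1) φ) : ow B j (-1) (φ - pp B j N φ) := by
  intro m hm
  obtain ⟨n, rfl⟩ : ∃ n : ℕ, m = -(n : ℤ) := ⟨(-m).toNat, by omega⟩
  rw [exW_sub, HahnSeries.coeff_sub, pp_coeff hFO j N φ n (by omega)]
  split_ifs with h1
  · rw [sub_self]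
  · rw [h _ (by omega), sub_zero]

theorem tt_ne (B : Base p k) (hTT : S_TT) (j : Option k) : tt j ≠ 0 := by
  intro h
  have := (hTT p k B).1 j
  rw [h, map_zero] at this
  have h2 := congrArg (fun s : LaurentSeries k => s.coeff 1) this
  simp at h2

end ord

section cartier

variable {p : ℕ} [hp : Fact p.Prime] {k : Type} [Field k] [IsAlgClosed k] [CharP k p]
  (B : Base p k)

theorem D_C (c : k) : B.D (RatFunc.C c) = 0 := by
  rw [← RatFunc.algebraMap_eq_C]; exact B.D.map_algebraMap c

theorem D_Cmul (c : k) (φ : RatFunc k) : B.D (RatFunc.C c * φ) = RatFunc.C c * B.D φ := by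
  rw [Derivation.leibniz, D_C]; simp

theorem car_zero : B.car 0 = 0 := map_zero _

/-- `car` of a constant times `fo j n`, good `n` -/
theorem car_fo_good (hTT : S_TT) (j : Option k) (c : k) (m : ℕ) (hm : 1 ≤ m) :
    B.car (RatFunc.C (c ^ p) * fo B j (p * (m - 1) + 1)) = RatFunc.C c * fo B j m := by
  have h0 := tt_ne B hTT j
  have hp1 := hp.out.one_lt
  have e1 : RatFunc.C (c ^ p) * fo B j (p * (m - 1) + 1) =
      (RatFunc.C c * ((tt j)⁻¹) ^ m) ^ p * (tt j ^ (p - 1) * B.D (tt j)) := by
    unfold fo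
    obtain ⟨r, rfl⟩ : ∃ r, m = r + 1 := ⟨m - 1, by omega⟩
    obtain ⟨q, hq⟩ : ∃ q, p = q + 1 := ⟨p - 1, by omega⟩
    have e2 : ((tt j)⁻¹ ^ (r + 1)) ^ p * tt j ^ (p - 1) = (tt j)⁻¹ ^ (p * (r + 1 - 1) + 1) := by
      rw [← pow_mul, show (r + 1) * p = (p * (r + 1 - 1) + 1) + (p - 1) by
        rw [Nat.add_sub_cancel]
        have : (r + 1) * p = p * r + p := by ring
        omega]
      rw [pow_add, mul_assoc, ← mul_pow, inv_mul_cancel₀ h0, one_pow, mul_one]
    rw [map_pow, mul_pow, ← e2]
    ring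
  rw [e1, B.car_pow, B.car_log]
  unfold fo
  ring

/-- `car` of a constant times `fo j n`, bad `n` -/
theorem car_fo_bad (hTT : S_TT) (j : Option k) (c : k) (n : ℕ) (hn : 1 ≤ n)
    (h : ¬ p ∣ n - 1) : B.car (RatFunc.C c * fo B j n) = 0 := by
  have h0 := tt_ne B hTT j
  obtain ⟨r, rfl⟩ : ∃ r, n = r + 1 := ⟨n - 1, by omega⟩
  rw [Nat.add_sub_cancel] at h
  have hr : (r : k) ≠ 0 := fun h1 => h ((CharP.cast_eq_zero_iff k p r).1 h1)
  have hr0 : r ≠ 0 := by rintro rfl; exact h (dvd_zero _)
  have e1 : RatFunc.C c * fo B j (r + 1) =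
      B.D (RatFunc.C (-(c / r)) * (tt j)⁻¹ ^ r) := by
    rw [D_Cmul, Derivation.leibniz_pow, Derivation.leibniz_inv]
    unfold fo
    obtain ⟨q, rfl⟩ : ∃ q, r = q + 1 := ⟨r - 1, by omega⟩
    rw [Nat.add_sub_cancel]
    simp only [smul_eq_mul, nsmul_eq_mul, map_neg, map_div₀, map_natCast]
    have hr' : ((q + 1 : ℕ) : RatFunc k) ≠ 0 := by
      intro h1
      apply hr
      have h2 : RatFunc.C ((q + 1 : ℕ) : k) = 0 := by rw [map_natCast]; exact h1
      exact (_root_.map_eq_zero _).1 h2
    have e2 : -(RatFunc.C c / ((q + 1 : ℕ) : RatFunc k)) * ((q + 1 : ℕ) : RatFunc k) =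
        -RatFunc.C c := by field_simp
    linear_combination ((tt j)⁻¹ ^ (q + 2) * B.D (tt j)) * e2
  rw [e1, B.car_D]

/-- `car` and principal parts -/
theorem car_pp (hTT : S_TT) (hEXC : S_EXC) (j : Option k) (N : ℕ) (φ : RatFunc k) :
    B.car (pp B j (p * N + 2) φ) = pp B j (N + 2) (B.car φ) := by
  have hp1 := hp.out.one_lt
  unfold pp
  rw [map_sum]
  have hinj : Set.InjOn (fun m : ℕ => p * (m - 1) + 1) (Finset.Ico 2 (N + 2) : Finset ℕ) := by
    intro m hm m' hm' h
    simp only [Finset.coe_Ico, Set.mem_Ico] at hm hm'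
    dsimp only at h
    have h1 : p * (m - 1) = p * (m' - 1) := by omega
    have h2 := Nat.eq_of_mul_eq_mul_left hp.out.pos h1
    omega
  have himg : (Finset.Ico 2 (N + 2)).image (fun m : ℕ => p * (m - 1) + 1) ⊆
      Finset.Ico 2 (p * N + 2) := by
    intro n hn
    rw [Finset.mem_image] at hn
    obtain ⟨m, hm, rfl⟩ := hn
    rw [Finset.mem_Ico] at hm ⊢
    obtain ⟨r, rfl⟩ : ∃ r, m = r + 1 := ⟨m - 1, by omega⟩
    rw [Nat.add_sub_cancel]
    have h1 : p * 1 ≤ p * r := Nat.mul_le_mul_left p (by omega)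
    have h2 : p * r ≤ p * N := Nat.mul_le_mul_left p (by omega)
    omega
  rw [← Finset.sum_subset himg, Finset.sum_image hinj]
  · refine Finset.sum_congr rfl fun m hm => ?_
    rw [Finset.mem_Ico] at hm
    have h1 := hEXC p k hp.out B j φ (-(m : ℤ))
    have h2 : (p : ℤ) * (-(m : ℤ) + 1) - 1 = -((p * (m - 1) + 1 : ℕ) : ℤ) := by
      push_cast [Nat.cast_sub (show 1 ≤ m by omega)]
      ring
    rw [h2] at h1
    rw [← h1]
    exact car_fo_good B hTT j _ m (by omega)
  · intro n hn hn'
    rw [Finset.mem_Ico] at hn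
    refine car_fo_bad B hTT j _ n (by omega) ?_
    rintro ⟨r, hr⟩
    apply hn'
    rw [Finset.mem_image]
    refine ⟨r + 1, ?_, ?_⟩
    · rw [Finset.mem_Ico]
      have h1 : r ≠ 0 := by rintro rfl; omega
      have h2 : p * r < p * (N + 1) := by
        have : p * (N + 1) = p * N + p := by ring
        omega
      have h3 := Nat.lt_of_mul_lt_mul_left h2
      omega
    · rw [Nat.add_sub_cancel]; omega

/-- the arithmetic -/
theorem arith {d E s : ℕ} (h : d * E = p - 1) (hE : 1 ≤ E) (hs : 1 ≤ s) :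
    d * s < p * ((s + E - 1) / E) := by
  have hp1 := hp.out.one_lt
  have h1 : s ≤ E * ((s + E - 1) / E) := by
    have h2 := Nat.div_add_mod (s + E - 1) E
    have h3 := Nat.mod_lt (s + E - 1) hE
    omega
  have h4 : E * (d * s) < E * (p * ((s + E - 1) / E)) := by
    calc E * (d * s) = (p - 1) * s := by rw [← h]; ring
      _ < p * s := Nat.mul_lt_mul_of_pos_right (by omega) hs
      _ ≤ p * (E * ((s + E - 1) / E)) := Nat.mul_le_mul_left _ h1
      _ = _ := by ring
  exact Nat.lt_of_mul_lt_mul_left h4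

theorem EE_mul {f : RatFunc k} {J : Finset (Option k)} {d : Option k → ℕ}
    (h : PoleData B f J d) {j : Option k} (hj : j ∈ J) : d j * EE p d j = p - 1 ∧ 1 ≤ EE p d j := by
  have hp1 := hp.out.one_lt
  have h1 : d j * EE p d j = p - 1 := Nat.mul_div_cancel' (h.dvd j hj)
  refine ⟨h1, ?_⟩
  rw [Nat.one_le_iff_ne_zero]
  intro h2
  rw [h2, mul_zero] at h1
  omega

theorem fact_C (s : ℕ) : (((s.factorial : ℕ) : RatFunc k))⁻¹ = RatFunc.C ((s.factorial : k)⁻¹) := by
  rw [map_inv₀, map_natCast]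

/-- orders of `f` -/
theorem og_f {f : RatFunc k} {J : Finset (Option k)} {d : Option k → ℕ}
    (h : PoleData B f J d) {j : Option k} (hj : j ∈ J) : og B j (-(d j : ℤ)) f :=
  fun m hm => h.low j hj m hm

theorem og_f' {f : RatFunc k} {J : Finset (Option k)} {d : Option k → ℕ}
    (h : PoleData B f J d) {j : Option k} (hj : j ∉ J) : og B j 0 f :=
  fun m hm => h.reg j hj m hm

end cartier

end GV

open GV PowerSeries in
theorem t_GV (hFO : S_FO) (hEXD : S_EXD) (hEXC : S_EXC) (hTT : S_TT) : S_GV := by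
  intro p hp k _ _ _ B f J d hPD b hb hbd
  obtain ⟨j, a⟩ := b
  dsimp only at hbd
  have hj : j ∈ J := by
    unfold IB at hb
    exact (Finset.mem_sigma.1 hb).1
  obtain ⟨hE, hE1⟩ := EE_mul B hPD hj
  have hp1 := hp.out.one_lt
  set E := EE p d j with hEdef
  have he : ee p d ⟨j, a⟩ = E * a := rfl
  have hea : E * a + E ≤ p - 1 := by
    rw [← hE]
    calc E * a + E = (a + 1) * E := by ring
      _ ≤ d j * E := Nat.mul_le_mul_right _ hbd
  set e := ee p d ⟨j, a⟩ with hedef
  set Z := B.D f * f ^ (p - 1) * tt j ^ (p * a) with hZ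
  set PZ := pp B j (p * d j + 2) Z with hPZ
  -- the form `w`
  set w : (RatFunc k)⟦X⟧ := mk fun s => if 1 ≤ s ∧ s < e then
    B.car (coeff s (expo p (-f)) * PZ) else 0 with hw
  have hexp : ∀ s < p, coeff s (expo p (-f)) = RatFunc.C ((s.factorial : k)⁻¹) * (-f) ^ s := by
    intro s hs
    unfold expo
    rw [coeff_mk, if_pos hs, fact_C]
  have hcarZ : B.car Z = tt j ^ a * B.D f := by
    rw [hZ, show B.D f * f ^ (p - 1) * tt j ^ (p * a) = (tt j ^ a) ^ p * (f ^ (p - 1) * B.D f) by
      rw [← pow_mul, mul_comm a p]; ring, B.car_pow, B.car_log]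
  have hcarPZ : B.car PZ = pp B j (d j + 2) (tt j ^ a * B.D f) := by
    rw [hPZ, car_pp B hTT hEXC, hcarZ]
  refine ⟨w, ⟨?_, ?_⟩, ?_⟩
  · -- inA
    intro s hs j' hj' m hm
    rw [hw, coeff_mk]
    split_ifs with h1
    · have hne : j' ≠ j := by rintro rfl; exact hj' hj
      have h2 : ow B j' 0 (coeff s (expo p (-f)) * PZ) := by
        rw [hexp s hs]
        have h3 := ((og_C (B := B) j' ((s.factorial : k)⁻¹)).mul
          ((og_f' B hPD hj').neg.pow s)).mulW (pp_ow hFO hne (p * d j + 2) Z)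
        simpa using h3
      have h4 : ow B j' 0 (B.car (coeff s (expo p (-f)) * PZ)) := h2.car hEXC fun m hm => by
        have : (p : ℤ) * (m + 1) ≤ 0 :=
          mul_nonpos_of_nonneg_of_nonpos (by positivity) (by omega)
        omega
      have h5 := h4 m hm
      obtain ⟨c, rfl⟩ : ∃ c, j' = some c := by
        cases j' with
        | none => exact absurd hPD.inf hj'
        | some c => exact ⟨c, rfl⟩
      unfold exW dxdt at h5
      rwa [mul_one] at h5
    · simp
  · -- inW
    intro j' hj' s hs m hm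
    rw [hw, coeff_mk]
    split_ifs with h1
    · obtain ⟨hE', hE1'⟩ := EE_mul B hPD hj'
      have har := arith (p := p) hE' hE1' h1.1
      rw [hexp s hs]
      rcases eq_or_ne j' j with hjj | hne
      · subst hjj
        -- `car (f ^ s Z) = 0`
        have hz : B.car (RatFunc.C ((s.factorial : k)⁻¹) * (-f) ^ s * Z) = 0 := by
          have hs0 : (s : k) ≠ 0 := by
            intro h2
            have h3 := (CharP.cast_eq_zero_iff k p s).1 h2
            have := Nat.le_of_dvd (by omega) h3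
            omega
          have e1 : RatFunc.C ((s.factorial : k)⁻¹) * (-f) ^ s * Z = (tt j' ^ a) ^ p *
              B.D (RatFunc.C ((s.factorial : k)⁻¹ * (-1) ^ s * (s : k)⁻¹) * f ^ (p + s)) := by
            rw [D_Cmul, Derivation.leibniz_pow, hZ, ← pow_mul, mul_comm a p, neg_pow]
            have e2 : p + s - 1 = (p - 1) + s := by omega
            rw [e2, pow_add]
            have e3 : ((p + s : ℕ) : RatFunc k) = RatFunc.C (s : k) := by
              rw [map_natCast]; push_cast
              rw [CharP.cast_eq_zero (RatFunc k) p, zero_add]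
            simp only [smul_eq_mul, nsmul_eq_mul, e3, map_mul, map_inv₀, map_pow, map_neg, map_one]
            have e4 : RatFunc.C (s : k) ≠ 0 := (map_ne_zero _).2 hs0
            field_simp
          rw [e1, B.car_pow, B.car_D, mul_zero]
        have e5 : B.car (RatFunc.C ((s.factorial : k)⁻¹) * (-f) ^ s * PZ) =
            -B.car (RatFunc.C ((s.factorial : k)⁻¹) * (-f) ^ s * (Z - PZ)) := by
          rw [mul_sub, map_sub, hz]; ring
        have h2 : ow B j' (s * (-(d j' : ℤ)) - 1)
            (RatFunc.C ((s.factorial : k)⁻¹) * (-f) ^ s * (Z - PZ)) := by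
          have hZo : ow B j' (-((p * d j' + 2 : ℕ) : ℤ) + 1) Z := by
            have h3 := ((og_f B hPD hj).pow (p - 1)).mulW (ow_D hEXD (og_f B hPD hj))
            have h4 := ((og_tt (B := B) hTT j').pow (p * a)).mulW h3
            rw [hZ, show B.D f * f ^ (p - 1) * tt j' ^ (p * a) =
              tt j' ^ (p * a) * (f ^ (p - 1) * B.D f) by ring]
            refine h4.mono ?_
            push_cast [Nat.cast_sub hp.out.one_le]
            have : (0 : ℤ) ≤ (p : ℤ) * (a : ℤ) := by positivity
            nlinarith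
          have h5 := ((og_C (B := B) j' ((s.factorial : k)⁻¹)).mul
            ((og_f B hPD hj).neg.pow s)).mulW (sub_pp_ow hFO hZo)
          refine h5.mono ?_
          omega
        have h6 : ow B j' (-(((s + EE p d j' - 1) / EE p d j' : ℕ) : ℤ))
            (B.car (RatFunc.C ((s.factorial : k)⁻¹) * (-f) ^ s * (Z - PZ))) :=
          h2.car hEXC fun m hm => by
            have h7 : (p : ℤ) * (m + 1) ≤ (p : ℤ) * (-(((s + EE p d j' - 1) / EE p d j' : ℕ) : ℤ)) :=
              mul_le_mul_of_nonneg_left (by omega) (by positivity)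
            have h8 : ((d j' * s : ℕ) : ℤ) < ((p * ((s + EE p d j' - 1) / EE p d j') : ℕ) : ℤ) := by
              exact_mod_cast har
            push_cast at h8 h7 ⊢
            nlinarith
        have h9 := h6 m hm
        rw [e5]
        unfold exW at h9 ⊢
        rw [map_neg, neg_mul, HahnSeries.coeff_neg, h9, neg_zero]
      · have h2 : ow B j' (s * (-(d j' : ℤ))) (RatFunc.C ((s.factorial : k)⁻¹) * (-f) ^ s * PZ) := by
          have h3 := ((og_C (B := B) j' ((s.factorial : k)⁻¹)).mul
            ((og_f B hPD hj').neg.pow s)).mulW (pp_ow hFO hne (p * d j + 2) Z)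
          simpa using h3
        have h6 : ow B j' (-(((s + EE p d j' - 1) / EE p d j' : ℕ) : ℤ))
            (B.car (RatFunc.C ((s.factorial : k)⁻¹) * (-f) ^ s * PZ)) :=
          h2.car hEXC fun m hm => by
            have h7 : (p : ℤ) * (m + 1) ≤ (p : ℤ) * (-(((s + EE p d j' - 1) / EE p d j' : ℕ) : ℤ)) :=
              mul_le_mul_of_nonneg_left (by omega) (by positivity)
            have h8 : ((d j' * s : ℕ) : ℤ) < ((p * ((s + EE p d j' - 1) / EE p d j') : ℕ) : ℤ) := by
              exact_mod_cast har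
            push_cast at h8 h7 ⊢
            nlinarith
        exact h6 m hm
    · rw [exW_zero]; simp
  · -- membership in `Bm`
    have hvb : vb B f d ⟨j, a⟩ = (-(X * C (pp B j (d j + 2) (tt j ^ a * B.D f))),
        at' j (C (tt j ^ a))) := by
      unfold vb
      rw [if_pos hbd]
    refine ⟨0, inA.zero B, fun i hi => ?_, fun j' hj' => ?_⟩
    · rw [nab_zero, map_zero]
      rw [hvb]
      have e1 : ((carS B f (gb B f d ⟨j, a⟩).1, (0 : Option k → (RatFunc k)⟦X⟧)) +
          (X : k⟦X⟧) ^ (p - 1 - e) • (-(X * C (pp B j (d j + 2) (tt j ^ a * B.D f))),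
            at' j (C (tt j ^ a))) - (X : k⟦X⟧) ^ (p - e) • (w, 0)).1 =
          carS B f (gb B f d ⟨j, a⟩).1 + (X : k⟦X⟧) ^ (p - 1 - e) •
            (-(X * C (pp B j (d j + 2) (tt j ^ a * B.D f)))) - (X : k⟦X⟧) ^ (p - e) • w := rfl
      rw [e1]
      have hsm : ∀ (n : ℕ) (u : (RatFunc k)⟦X⟧), (X : k⟦X⟧) ^ n • u = X ^ n * u := by
        intro n u
        rw [Algebra.smul_def, map_pow]
        congr 2
        exact PowerSeries.map_X _
      rw [hsm, hsm, mul_neg, ← mul_assoc, ← pow_succ, show p - 1 - e + 1 = p - e by omega,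
        map_sub, map_add, map_neg, coeff_X_pow_mul', coeff_X_pow_mul']
      have e2 : coeff i (carS B f (gb B f d ⟨j, a⟩).1) = if p - e ≤ i then
          B.car (coeff (i - (p - e)) (expo p (-f)) * PZ) else 0 := by
        unfold carS gb
        rw [coeff_mk]
        dsimp only
        rw [← hedef, mul_left_comm, coeff_X_pow_mul']
        split_ifs
        · rw [coeff_mul_C]
        · exact map_zero _
      rw [e2]
      split_ifs with h1
      · rw [coeff_C]
        rcases Nat.eq_zero_or_pos (i - (p - e)) with h2 | h2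
        · rw [h2, if_pos rfl, hexp 0 hp.out.pos, hw, coeff_mk, if_neg (by omega)]
          simp [hcarPZ]
        · rw [if_neg (by omega), hw, coeff_mk, if_pos (by omega)]
          simp
      · simp
    · have e1 : ((carS B f (gb B f d ⟨j, a⟩).1, (0 : Option k → (RatFunc k)⟦X⟧)) +
          (X : k⟦X⟧) ^ (p - 1 - e) • vb B f d ⟨j, a⟩ - (X : k⟦X⟧) ^ (p - e) • (w, 0)).2 j' - 0 =
          (X : k⟦X⟧) ^ (p - 1 - e) • at' j (C (tt j ^ a)) j' := by
        rw [hvb]
        simp
      rw [e1]
      unfold at'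
      split_ifs with h
      · subst h
        intro i hi m hm
        rw [Algebra.smul_def, map_pow]
        have e3 : algebraMap k⟦X⟧ (RatFunc k)⟦X⟧ X = X := PowerSeries.map_X _
        rw [e3, coeff_X_pow_mul', coeff_C]
        split_ifs with h1 h2
        · have h3 := (og_tt (B := B) hTT j').pow a
          refine h3 m ?_
          have h4 : i = p - 1 - e := by omega
          have h5 : i / EE p d j' = d j' - a := by
            rw [h4]
            have : p - 1 - e = (d j' - a) * E := by
              rw [← hE, he, Nat.sub_mul, mul_comm E a]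
            rw [this]
            exact Nat.mul_div_cancel _ hE1
          rw [h5] at hm
          omega
        · simp
        · simp
      · rw [smul_zero]
        exact inO.zero B
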