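import Pool.Agent.Helper61.EO.J.IND

/-!
Project EO: holomorphic forms are combinations of the basis.
-/

set_option autoImplicit false

namespace Pool.Agent.Helper61.EO

open PowerSeries

noncomputable section

namespace HOL

open IND

section

variable {p : ℕ} {k : Type} [Field k] (B : Base p k)

/-- the first component of a basis element, divided by `λ` -/
def uu (f : RatFunc k) (d : Option k → ℕ) (b : Σ _ : Option k, ℕ) : RatFunc k :=
  if b.2 < d b.1 then -(pp B b.1 (d b.1 + 2) (tt b.1 ^ b.2 * B.D f)) else fo B b.1 1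

theorem vb_fst (f : RatFunc k) (d : Option k → ℕ) (b : Σ _ : Option k, ℕ) (s : k⟦X⟧) (i : ℕ) :
    coeff (i + 1) (s • (vb B f d b).1) = RatFunc.C (coeff i s) * uu B f d b := by
  unfold vb uu
  split_ifs with h
  · simp only
    rw [smul_neg, map_neg, coeff_sXC, mul_neg]
  · simp only
    rw [coeff_sXC]

theorem vb_fst0 (f : RatFunc k) (d : Option k → ℕ) (b : Σ _ : Option k, ℕ) (s : k⟦X⟧) :
    coeff 0 (s • (vb B f d b).1) = 0 := by
  unfold vb
  split_ifs with h
  · simp only
    rw [Algebra.smul_def]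
    simp
  · simp only
    rw [Algebra.smul_def]
    simp

theorem vb_snd (hTT : S_TT) (f : RatFunc k) (d : Option k → ℕ) (b : Σ _ : Option k, ℕ)
    (s : k⟦X⟧) (j : Option k) (i : ℕ) (m : ℤ)
    (h : b.2 < d b.1 → j = b.1 → coeff i s ≠ 0 → m < b.2) :
    (B.ex j (coeff i (s • (vb B f d b).2 j))).coeff m = 0 := by
  by_cases h1 : b.2 < d b.1
  · by_cases h2 : j = b.1
    · have h3 : (vb B f d b).2 j = C (tt b.1 ^ b.2) := by
        unfold vb
        rw [if_pos h1]
        simp only [at', if_pos h2]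
      rw [h3, coeff_sC]
      by_cases h4 : coeff i s = 0
      · rw [h4]
        simp
      · have h5 := h h1 h2 h4
        rw [h2, map_mul, ex_pow B hTT, B.ex_C, HahnSeries.C_mul_eq_smul, HahnSeries.coeff_smul,
          HahnSeries.coeff_single_of_ne (by omega), smul_zero]
    · have h3 : (vb B f d b).2 j = 0 := by
        unfold vb
        rw [if_pos h1]
        simp only [at', if_neg h2]
      rw [h3]
      simp
  · have h3 : (vb B f d b).2 j = 0 := by
      unfold vb
      rw [if_neg h1]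
      rfl
    rw [h3]
    simp

omit [Field k] in
theorem IB_mem (J : Finset (Option k)) (d : Option k → ℕ) (j : Option k) (hj : j ∈ J) (a : ℕ)
    (h1 : 1 ≤ a) (h2 : a ≤ d j) (h3 : j = none → a < d none) :
    (⟨j, a⟩ : Σ _ : Option k, ℕ) ∈ IB J d := by
  unfold IB
  rw [Finset.mem_sigma]
  refine ⟨hj, ?_⟩
  rcases j with _ | c
  · exact Finset.mem_Ico.2 ⟨h1, h3 rfl⟩
  · exact Finset.mem_range.2 (Nat.lt_succ_iff.2 h2)

/-- the span of the admissible elements -/
def Sp (f : RatFunc k) (J : Finset (Option k)) (d : Option k → ℕ) (i : ℕ) :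
    Submodule k (RatFunc k) :=
  Submodule.span k (uu B f d '' ((IB J d).filter fun b => p ≤ i + ee p d b : Finset _))

theorem uu_mem (f : RatFunc k) (J : Finset (Option k)) (d : Option k → ℕ) (i : ℕ)
    (b : Σ _ : Option k, ℕ) (hb : b ∈ IB J d) (h : p ≤ i + ee p d b) :
    uu B f d b ∈ Sp B f J d i :=
  Submodule.subset_span ⟨b, by simp only [Finset.coe_filter, Set.mem_ofPred_eq]; exact ⟨hb, h⟩, rfl⟩

theorem smul_eq (c : k) (φ : RatFunc k) : c • φ = RatFunc.C c * φ := by
  rw [Algebra.smul_def, RatFunc.algebraMap_eq_C]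

theorem C_mem (f : RatFunc k) (J : Finset (Option k)) (d : Option k → ℕ) (i : ℕ) (c : k)
    {φ : RatFunc k} (h : φ ∈ Sp B f J d i) : RatFunc.C c * φ ∈ Sp B f J d i := by
  rw [← smul_eq]
  exact Submodule.smul_mem _ _ h

/-- the principal forms are combinations -/
theorem fo_mem (hEXD : S_EXD) (hTT : S_TT) (f : RatFunc k) (J : Finset (Option k))
    (d : Option k → ℕ) (hP : PoleData B f J d) (hch : ∀ j ∈ J, ((d j : ℕ) : k) ≠ 0) (i : ℕ)
    (j : Option k) (hj : j ∈ J) (N : ℕ) (hN : N ≤ d j)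
    (hpN : ∀ a, d j + 1 ≤ a + N → p ≤ i + EE p d j * a) :
    ∀ n : ℕ, 2 ≤ n → n ≤ N → fo B j n ∈ Sp B f J d i := by
  intro n
  induction n using Nat.strong_induction_on with
  | _ n ih =>
    intro h2 hn
    have ha1 : 1 ≤ d j + 1 - n := by omega
    have ha2 : d j + 1 - n < d j := by omega
    have hmem : (⟨j, d j + 1 - n⟩ : Σ _ : Option k, ℕ) ∈ IB J d :=
      IB_mem J d j hj _ ha1 ha2.le (fun h => h ▸ ha2)
    have hu : uu B f d ⟨j, d j + 1 - n⟩ ∈ Sp B f J d i :=
      uu_mem B f J d i _ hmem (hpN (d j + 1 - n) (by omega))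
    have hu2 : pp B j (d j + 2) (tt j ^ (d j + 1 - n) * B.D f) ∈ Sp B f J d i := by
      have h3 : uu B f d ⟨j, d j + 1 - n⟩ =
          -(pp B j (d j + 2) (tt j ^ (d j + 1 - n) * B.D f)) := by
        unfold uu
        rw [if_pos ha2]
      rw [h3] at hu
      exact neg_mem_iff.1 hu
    have hc : ∀ m : ℕ, (exW B j (tt j ^ (d j + 1 - n) * B.D f)).coeff (-(m : ℤ)) =
        ((-(m : ℤ) - ((d j + 1 - n : ℕ) : ℤ) + 1 : ℤ) : k) *
          (B.ex j f).coeff (-(m : ℤ) - ((d j + 1 - n : ℕ) : ℤ) + 1) := fun m =>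
      own_coeff B hEXD hTT f j (d j + 1 - n) (-(m : ℤ))
    have hsplit : pp B j (d j + 2) (tt j ^ (d j + 1 - n) * B.D f) =
        ∑ m ∈ Finset.Ico 2 n, RatFunc.C ((exW B j (tt j ^ (d j + 1 - n) * B.D f)).coeff
          (-(m : ℤ))) * fo B j m +
        RatFunc.C ((exW B j (tt j ^ (d j + 1 - n) * B.D f)).coeff (-(n : ℤ))) * fo B j n := by
      unfold pp
      rw [← Finset.sum_Ico_succ_top h2]
      symm
      refine Finset.sum_subset (Finset.Ico_subset_Ico_right (by omega)) fun m _ hm2 => ?_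
      have hm3 : n < m := by
        by_contra hlt
        apply hm2
        rw [Finset.mem_Ico] at *
        omega
      rw [hc m, hP.low j hj _ (by omega), mul_zero, map_zero, zero_mul]
    have hlead : (exW B j (tt j ^ (d j + 1 - n) * B.D f)).coeff (-(n : ℤ)) ≠ 0 := by
      rw [hc n]
      have h4 : -(n : ℤ) - ((d j + 1 - n : ℕ) : ℤ) + 1 = -(d j : ℤ) := by omega
      rw [h4]
      refine mul_ne_zero ?_ (hP.lead j hj)
      push_cast
      exact neg_ne_zero.2 (hch j hj)
    have hrest : ∑ m ∈ Finset.Ico 2 n, RatFunc.C ((exW B j (tt j ^ (d j + 1 - n) * B.D f)).coeff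
          (-(m : ℤ))) * fo B j m ∈ Sp B f J d i := by
      refine Submodule.sum_mem _ fun m hm => ?_
      have hm' := Finset.mem_Ico.1 hm
      exact C_mem B f J d i _ (ih m hm'.2 hm'.1 (by omega))
    have hlast : RatFunc.C ((exW B j (tt j ^ (d j + 1 - n) * B.D f)).coeff (-(n : ℤ))) *
        fo B j n ∈ Sp B f J d i := by
      have := Submodule.sub_mem _ hu2 hrest
      rwa [hsplit, add_sub_cancel_left] at this
    have := C_mem B f J d i ((exW B j (tt j ^ (d j + 1 - n) * B.D f)).coeff (-(n : ℤ)))⁻¹ hlast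
    rwa [← mul_assoc, ← map_mul, inv_mul_cancel₀ hlead, map_one, one_mul] at this

/-- the coefficients of a holomorphic form -/
theorem coeff_mem [IsAlgClosed k] (hp : 2 ≤ p) (hPFW : S_PFW) (hEXD : S_EXD) (hTT : S_TT)
    (f : RatFunc k) (J : Finset (Option k)) (d : Option k → ℕ) (hP : PoleData B f J d)
    (hch : ∀ j ∈ J, ((d j : ℕ) : k) ≠ 0) (w : (RatFunc k)⟦X⟧) (hw : hol B J d w) (i : ℕ)
    (hi : i + 1 < p) : coeff (i + 1) w ∈ Sp B f J d (i + 1) := by
  have hdp : ∀ j ∈ J, d j * EE p d j = p - 1 := fun j hj => Nat.mul_div_cancel' (hP.dvd j hj)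
  have hEE : ∀ j ∈ J, 0 < EE p d j := fun j hj => by
    refine Nat.pos_of_ne_zero fun h => ?_
    have := hdp j hj
    rw [h] at this
    omega
  -- the orders
  have hN : ∀ j ∈ J, (i + 1 + EE p d j - 1) / EE p d j ≤ d j := fun j hj => by
    have h1 : i + 1 + EE p d j - 1 < (d j + 1) * EE p d j := by
      have := hdp j hj
      have := hEE j hj
      rw [Nat.add_mul]
      omega
    exact Nat.lt_succ_iff.1 ((Nat.div_lt_iff_lt_mul (hEE j hj)).2 h1)
  have hdle : ∀ j ∈ J, d j ≤ p - 1 := fun j hj => Nat.le_of_dvd (by omega) (hP.dvd j hj)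
  obtain ⟨r, hr⟩ := hPFW p k B J hP.inf (coeff (i + 1) w)
    (fun j hj m hm => hw.1 (i + 1) hi j hj m hm) p (fun j hj m hm =>
      hw.2 j hj (i + 1) hi m (by
        have h1 := hN j hj
        have h2 := hdle j hj
        omega))
  rw [hr]
  refine Submodule.add_mem _ (Submodule.sum_mem _ fun j hj => Submodule.sum_mem _ fun n hn => ?_)
    (Submodule.sum_mem _ fun j hj => C_mem B f J d _ _ ?_)
  · have hn' := Finset.mem_Ico.1 hn
    by_cases hle : n ≤ (i + 1 + EE p d j - 1) / EE p d j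
    · refine C_mem B f J d _ _ (fo_mem B hEXD hTT f J d hP hch (i + 1) j hj
        ((i + 1 + EE p d j - 1) / EE p d j) (hN j hj) (fun a ha => ?_) n hn'.1 hle)
      have h1 := hdp j hj
      have h2 := hEE j hj
      have h3 : d j + 1 - a ≤ (i + 1 + EE p d j - 1) / EE p d j := by omega
      have h4 := (Nat.le_div_iff_mul_le h2).1 h3
      by_cases h5 : a ≤ d j
      · obtain ⟨t, ht⟩ := Nat.exists_eq_add_of_le h5
        have h6 : d j + 1 - a = t + 1 := by omega
        rw [h6, Nat.add_mul] at h4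
        rw [ht, Nat.add_mul, Nat.mul_comm a] at h1
        omega
      · have h6 : EE p d j * (d j + 1) ≤ EE p d j * a := Nat.mul_le_mul_left _ (by omega)
        rw [Nat.mul_add, Nat.mul_comm, h1] at h6
        omega
    · rw [hw.2 j hj (i + 1) hi _ (by omega), map_zero, zero_mul]
      exact Submodule.zero_mem _
  · have hj' := Finset.mem_filter.1 hj
    have h1 : (⟨j, d j⟩ : Σ _ : Option k, ℕ) ∈ IB J d :=
      IB_mem J d j hj'.1 _ (hP.pos j hj'.1) le_rfl (fun h => absurd h hj'.2)
    have h2 := uu_mem B f J d (i + 1) ⟨j, d j⟩ h1 (by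
      have := hdp j hj'.1
      unfold ee
      simp only
      rw [Nat.mul_comm, this]
      omega)
    unfold uu at h2
    rwa [if_neg (lt_irrefl _)] at h2

theorem coeff_zero [IsAlgClosed k] (hp : 2 ≤ p) (hPFW : S_PFW) (hFO : S_FO)
    (f : RatFunc k) (J : Finset (Option k)) (d : Option k → ℕ) (hP : PoleData B f J d)
    (w : (RatFunc k)⟦X⟧) (hw : hol B J d w) : coeff 0 w = 0 := by
  have hdp : ∀ j ∈ J, d j * EE p d j = p - 1 := fun j hj => Nat.mul_div_cancel' (hP.dvd j hj)
  have hEE : ∀ j ∈ J, 0 < EE p d j := fun j hj => by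
    refine Nat.pos_of_ne_zero fun h => ?_
    have := hdp j hj
    rw [h] at this
    omega
  have hz : ∀ j ∈ J, ∀ m : ℤ, m ≤ -((1 : ℕ) : ℤ) → (exW B j (coeff 0 w)).coeff m = 0 :=
    fun j hj m hm => hw.2 j hj 0 (by omega) m (by
      have : (0 + EE p d j - 1) / EE p d j = 0 := Nat.div_eq_of_lt (by
        have := hEE j hj
        omega)
      rw [this]
      omega)
  obtain ⟨r, hr⟩ := hPFW p k B J hP.inf (coeff 0 w)
    (fun j hj m hm => hw.1 0 (by omega) j hj m hm) 1 hz
  have h0 : ∑ j ∈ J, ∑ n ∈ Finset.Ico (2 : ℕ) 1,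
      RatFunc.C ((exW B j (coeff 0 w)).coeff (-(n : ℤ))) * fo B j n = 0 := by
    refine Finset.sum_eq_zero fun j _ => ?_
    rw [Finset.Ico_eq_empty (by omega), Finset.sum_empty]
  rw [h0, zero_add] at hr
  rw [hr]
  refine Finset.sum_eq_zero fun j hj => ?_
  have hj' := Finset.mem_filter.1 hj
  have h1 := hz j hj'.1 (-1) (by simp)
  rw [hr, ec_sum, Finset.sum_eq_single j] at h1
  · rw [ec_C, (hFO p k B).1 j 1] at h1
    have h2 : (HahnSeries.single (-((1 : ℕ) : ℤ)) (1 : k)).coeff (-1) = 1 :=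
      HahnSeries.coeff_single_same _ _
    rw [h2, mul_one] at h1
    rw [h1, map_zero, zero_mul]
  · intro j' hj2 hne
    have hj2' := Finset.mem_filter.1 hj2
    rw [ec_C]
    obtain ⟨c, rfl⟩ := Option.ne_none_iff_exists'.1 hj2'.2
    rw [(hFO p k B).2.2.1 c j (Ne.symm hne) hj'.2 (-1) (by omega), mul_zero]
  · intro h
    exact absurd hj h

end

end HOL

open IND HOL in
theorem t_HOL (hPFW : S_PFW) (hFO : S_FO) (hEXD : S_EXD) (hTT : S_TT) : S_HOL := by
  intro p _ k _ _ _ B f J d hP w hw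
  have hp : 2 ≤ p := (Fact.out : p.Prime).two_le
  have hdp : ∀ j ∈ J, d j * EE p d j = p - 1 := fun j hj => Nat.mul_div_cancel' (hP.dvd j hj)
  have hEE : ∀ j ∈ J, 0 < EE p d j := fun j hj => by
    refine Nat.pos_of_ne_zero fun h => ?_
    have := hdp j hj
    rw [h] at this
    omega
  have hch : ∀ j ∈ J, ((d j : ℕ) : k) ≠ 0 := fun j hj h => by
    have h1 : p ∣ d j := (CharP.cast_eq_zero_iff k p _).1 h
    have h2 := Nat.le_of_dvd (by omega) (h1.trans (hP.dvd j hj))
    omega
  have hex : ∀ i : ℕ, ∃ c : (Σ _ : Option k, ℕ) → k, i + 1 < p →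
      coeff (i + 1) w = ∑ b ∈ IB J d, RatFunc.C (c b) * uu B f d b ∧
      ∀ b, i + 1 + ee p d b < p → c b = 0 := by
    intro i
    by_cases hi : i + 1 < p
    · have h1 := coeff_mem B hp hPFW hEXD hTT f J d hP hch w hw i hi
      unfold Sp at h1
      rw [Submodule.mem_span_image_finset_iff_exists_fun'] at h1
      obtain ⟨c, hc⟩ := h1
      refine ⟨fun b => if p ≤ i + 1 + ee p d b then c b else 0, fun _ => ⟨?_, fun b hb => ?_⟩⟩
      · rw [← hc, Finset.sum_filter]
        refine Finset.sum_congr rfl fun b _ => ?_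
        by_cases h : p ≤ i + 1 + ee p d b
        · simp only [if_pos h]
          exact smul_eq (k := k) _ _
        · simp only [if_neg h]
          rw [map_zero, zero_mul]
      · simp only
        rw [if_neg (by omega)]
    · exact ⟨fun _ => 0, fun h => absurd h hi⟩
  choose c hc using hex
  have hdvd : ∀ b : Σ _ : Option k, ℕ, ∃ s : k⟦X⟧,
      (mk fun m => if m + 1 < p then c m b else 0) = X ^ (p - 1 - ee p d b) * s := by
    intro b
    have : (X : k⟦X⟧) ^ (p - 1 - ee p d b) ∣ mk fun m => if m + 1 < p then c m b else 0 := by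
      rw [PowerSeries.X_pow_dvd_iff]
      intro m hm
      rw [coeff_mk]
      split_ifs with h
      · exact (hc m h).2 b (by omega)
      · rfl
    exact this
  choose s hs using hdvd
  refine ⟨s, 0, inA.zero B, fun i hi => ?_, fun j hj => ?_⟩
  · rw [nab_zero, map_zero, Prod.fst_sub, Prod.fst_sum, map_sub, map_sum]
    rcases i with _ | i
    · simp only [Prod.smul_fst]
      rw [coeff_zero B hp hPFW hFO f J d hP w hw, Finset.sum_eq_zero, sub_zero]
      intro b _
      exact vb_fst0 B f d b _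
    · simp only [Prod.smul_fst]
      rw [(hc i hi).1, sub_eq_zero]
      refine Finset.sum_congr rfl fun b _ => ?_
      rw [← hs b, vb_fst, coeff_mk, if_pos hi]
  · intro i hi m hm
    rw [sub_zero, Prod.snd_sub, Pi.sub_apply, Prod.snd_sum, Finset.sum_apply, map_sub, map_sub,
      map_sum, map_sum, HahnSeries.coeff_sub, HahnSeries.coeff_sum]
    have h0 : (B.ex j (coeff i ((w, (0 : Option k → (RatFunc k)⟦X⟧)).2 j))).coeff m = 0 := by
      simp
    rw [h0, zero_sub, neg_eq_zero]
    refine Finset.sum_eq_zero fun b hb => ?_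
    rw [← hs b]
    refine vb_snd B hTT f d b _ j i m fun hb1 hb2 hb3 => ?_
    rw [coeff_mk] at hb3
    have hi2 : i + 1 < p := by
      by_contra hcon
      exact hb3 (if_neg hcon)
    rw [if_pos hi2] at hb3
    have h1 : p ≤ i + 1 + ee p d b := by
      by_contra hcon
      exact hb3 ((hc i hi2).2 b (by omega))
    subst hb2
    have h2 := hdp b.1 hj
    have h3 := hEE b.1 hj
    have h4 : d b.1 - b.2 ≤ i / EE p d b.1 := by
      rw [Nat.le_div_iff_mul_le h3]
      unfold ee at h1
      obtain ⟨t, ht⟩ := Nat.exists_eq_add_of_le hb1.le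
      rw [ht, Nat.add_sub_cancel_left]
      rw [ht, Nat.add_mul, Nat.mul_comm b.2] at h2
      omega
    omega

end

end Pool.Agent.Helper61.EO
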