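import Pool.Agent.Helper61.EO.Stm

/-!
Project EO: linear independence of the basis.
-/

set_option autoImplicit false

namespace Pool.Agent.Helper61.EO

open PowerSeries

noncomputable section

namespace IND

section

variable {p : ℕ} {k : Type} [Field k] (B : Base p k)

theorem ec_sum {α : Type} (j : Option k) (m : ℤ) (t : Finset α) (φ : α → RatFunc k) :
    (exW B j (∑ b ∈ t, φ b)).coeff m = ∑ b ∈ t, (exW B j (φ b)).coeff m := by
  unfold exW
  rw [map_sum, Finset.sum_mul, HahnSeries.coeff_sum]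

theorem ec_C (j : Option k) (m : ℤ) (c : k) (φ : RatFunc k) :
    (exW B j (RatFunc.C c * φ)).coeff m = c * (exW B j φ).coeff m := by
  unfold exW
  rw [map_mul, B.ex_C, mul_assoc, HahnSeries.C_mul_eq_smul, HahnSeries.coeff_smul, smul_eq_mul]

theorem ec_neg (j : Option k) (m : ℤ) (φ : RatFunc k) :
    (exW B j (-φ)).coeff m = -(exW B j φ).coeff m := by
  unfold exW
  rw [map_neg, neg_mul, HahnSeries.coeff_neg]

theorem ec_zero (j : Option k) (m : ℤ) : (exW B j 0).coeff m = 0 := by
  unfold exW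
  rw [map_zero, zero_mul, HahnSeries.coeff_zero]

theorem coeff_sC (s : k⟦X⟧) (φ : RatFunc k) (i : ℕ) :
    coeff i (s • (C φ : (RatFunc k)⟦X⟧)) = RatFunc.C (coeff i s) * φ := by
  rw [Algebra.smul_def, coeff_mul_C]
  congr 1

theorem coeff_sXC (s : k⟦X⟧) (φ : RatFunc k) (i : ℕ) :
    coeff (i + 1) (s • (X * C φ : (RatFunc k)⟦X⟧)) = RatFunc.C (coeff i s) * φ := by
  have : s • (X * C φ : (RatFunc k)⟦X⟧) = X * (s • (C φ : (RatFunc k)⟦X⟧)) := by
    rw [Algebra.smul_def, Algebra.smul_def]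
    ring
  rw [this, coeff_succ_X_mul, coeff_sC]

theorem coeff_nab_succ (f : RatFunc k) (g : (RatFunc k)⟦X⟧) (i : ℕ) :
    coeff (i + 1) (nab B f g) = B.D (coeff (i + 1) g) - B.D f * coeff i g := by
  unfold nab
  rw [map_sub, coeff_mk, coeff_succ_X_mul, coeff_C_mul]

omit [Field k] in
theorem mem_IB_none (J : Finset (Option k)) (d : Option k → ℕ) (a : ℕ)
    (h : (⟨none, a⟩ : Σ _ : Option k, ℕ) ∈ IB J d) : 1 ≤ a ∧ a < d none := by
  unfold IB at h
  rw [Finset.mem_sigma] at h
  exact Finset.mem_Ico.1 h.2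

omit [Field k] in
theorem mem_IB_le (J : Finset (Option k)) (d : Option k → ℕ) (b : Σ _ : Option k, ℕ)
    (h : b ∈ IB J d) : b.1 ∈ J ∧ b.2 ≤ d b.1 := by
  obtain ⟨j, a⟩ := b
  unfold IB at h
  rw [Finset.mem_sigma] at h
  refine ⟨h.1, ?_⟩
  rcases j with _ | c
  · exact (Finset.mem_Ico.1 h.2).2.le
  · exact Nat.lt_succ_iff.1 (Finset.mem_range.1 h.2)

/-- the coefficients of the expansions of the first components -/
def T (f : RatFunc k) (d : Option k → ℕ) (b : Σ _ : Option k, ℕ) (j : Option k) (m : ℤ) : k :=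
  if b.2 < d b.1 then
    -(exW B j (pp B b.1 (d b.1 + 2) (tt b.1 ^ b.2 * B.D f))).coeff m
  else (exW B j (fo B b.1 1)).coeff m

theorem coeff_first (f : RatFunc k) (d : Option k → ℕ) (b : Σ _ : Option k, ℕ) (s : k⟦X⟧)
    (j : Option k) (m : ℤ) (i : ℕ) :
    (exW B j (coeff (i + 1) (s • (vb B f d b).1))).coeff m = coeff i s * T B f d b j m := by
  unfold vb T
  split_ifs with h
  · simp only
    rw [smul_neg, map_neg, coeff_sXC, ec_neg, ec_C, mul_neg]
  · simp only
    rw [coeff_sXC, ec_C]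

theorem ex_pow (hTT : S_TT) (j : Option k) (a : ℕ) :
    B.ex j (tt j ^ a) = HahnSeries.single (a : ℤ) 1 := by
  rw [map_pow, (hTT p k B).1 j, HahnSeries.single_pow, one_pow]
  simp

theorem second_reg (hTT : S_TT) (f : RatFunc k) (J : Finset (Option k)) (d : Option k → ℕ)
    (b : Σ _ : Option k, ℕ) (hb : b ∈ IB J d)
    (s : k⟦X⟧) (j : Option k) (i : ℕ) :
    (∀ m : ℤ, m < 0 → (B.ex j (coeff i (s • (vb B f d b).2 j))).coeff m = 0) ∧
    (j = none → (B.ex j (coeff i (s • (vb B f d b).2 j))).coeff 0 = 0) := by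
  by_cases h1 : b.2 < d b.1
  · by_cases h2 : j = b.1
    · have h3 : (vb B f d b).2 j = C (tt b.1 ^ b.2) := by
        unfold vb
        rw [if_pos h1]
        simp only [at', if_pos h2]
      rw [h3, coeff_sC, h2, map_mul, ex_pow B hTT, B.ex_C, HahnSeries.C_mul_eq_smul]
      refine ⟨fun m hm => ?_, fun hj => ?_⟩
      · rw [HahnSeries.coeff_smul, HahnSeries.coeff_single_of_ne (by omega), smul_zero]
      · rw [HahnSeries.coeff_smul, HahnSeries.coeff_single_of_ne, smul_zero]
        obtain ⟨j', a⟩ := b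
        simp only at hj
        subst hj
        have := (mem_IB_none J d a hb).1
        simp only
        omega
    · have h3 : (vb B f d b).2 j = 0 := by
        unfold vb
        rw [if_pos h1]
        simp only [at', if_neg h2]
      rw [h3]
      simp
  · have h3 : (vb B f d b).2 j = 0 := by
      unfold vb
      rw [if_neg h1]
      rfl
    rw [h3]
    simp

theorem pp_other (hFO : S_FO) (j j' : Option k) (h : j ≠ j') (N : ℕ) (φ : RatFunc k) (m : ℤ)
    (hm : m < 0) : (exW B j (pp B j' N φ)).coeff m = 0 := by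
  unfold pp
  rw [ec_sum]
  refine Finset.sum_eq_zero fun n hn => ?_
  rw [ec_C, (hFO p k B).2.1 j' j n (Finset.mem_Ico.1 hn).1 h m hm, mul_zero]

theorem pp_own (hFO : S_FO) (j : Option k) (N : ℕ) (φ : RatFunc k) (n : ℕ)
    (hn : 2 ≤ n) (hn' : n < N) : (exW B j (pp B j N φ)).coeff (-(n : ℤ)) =
      (exW B j φ).coeff (-(n : ℤ)) := by
  unfold pp
  rw [ec_sum, Finset.sum_eq_single n]
  · rw [ec_C, (hFO p k B).1 j n, HahnSeries.coeff_single_same, mul_one]
  · intro n' _ hne
    rw [ec_C, (hFO p k B).1 j n', HahnSeries.coeff_single_of_ne, mul_zero]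
    intro hc
    apply hne
    omega
  · intro hc
    exact absurd (Finset.mem_Ico.2 ⟨hn, hn'⟩) hc

theorem T_other (hFO : S_FO) (f : RatFunc k) (J : Finset (Option k)) (d : Option k → ℕ)
    (b : Σ _ : Option k, ℕ) (hb : b ∈ IB J d) (j : Option k) (h : j ≠ b.1) (m : ℤ) (hm : m < -1) :
    T B f d b j m = 0 := by
  obtain ⟨j', a⟩ := b
  unfold T
  split_ifs with h1
  · rw [pp_other B hFO _ _ h _ _ _ (by omega), neg_zero]
  · rcases j' with _ | c
    · exact absurd (mem_IB_none J d a hb).2 h1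
    · rcases j with _ | c'
      · exact (hFO p k B).2.2.2 c m hm
      · exact (hFO p k B).2.2.1 c (some c') h (by simp) m (by omega)

theorem own_coeff (hEXD : S_EXD) (hTT : S_TT) (f : RatFunc k) (j : Option k) (a : ℕ) (m : ℤ) :
    (exW B j (tt j ^ a * B.D f)).coeff m =
      ((m - a + 1 : ℤ) : k) * (B.ex j f).coeff (m - a + 1) := by
  have h1 : exW B j (tt j ^ a * B.D f) = HahnSeries.single (a : ℤ) 1 * exW B j (B.D f) := by
    unfold exW
    rw [map_mul, ex_pow B hTT, mul_assoc]
  have h3 := HahnSeries.coeff_single_mul_add (r := (1 : k)) (x := exW B j (B.D f)) (a := m - a)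
    (b := (a : ℤ))
  rw [sub_add_cancel, one_mul, hEXD p k B j f (m - a)] at h3
  rw [h1, h3]

theorem T_ne (hFO : S_FO) (hEXD : S_EXD) (hTT : S_TT) (f : RatFunc k) (J : Finset (Option k))
    (d : Option k → ℕ) (hP : PoleData B f J d) (b : Σ _ : Option k, ℕ) (hb : b ∈ IB J d)
    (h1 : b.2 < d b.1) (hch : ((d b.1 : ℕ) : k) ≠ 0) :
    T B f d b b.1 (-((d b.1 + 1 - b.2 : ℕ) : ℤ)) ≠ 0 := by
  unfold T
  rw [if_pos h1, pp_own B hFO _ _ _ _ (by omega) (by omega), own_coeff B hEXD hTT]
  have h2 : -((d b.1 + 1 - b.2 : ℕ) : ℤ) - (b.2 : ℤ) + 1 = -(d b.1 : ℤ) := by omega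
  rw [h2]
  refine neg_ne_zero.2 (mul_ne_zero ?_ (hP.lead b.1 (mem_IB_le J d b hb).1))
  push_cast
  exact neg_ne_zero.2 hch

theorem T_gt (hFO : S_FO) (hEXD : S_EXD) (hTT : S_TT) (f : RatFunc k) (J : Finset (Option k))
    (d : Option k → ℕ) (hP : PoleData B f J d) (b b' : Σ _ : Option k, ℕ) (hb : b ∈ IB J d)
    (hb' : b' ∈ IB J d) (h1 : b.2 < d b.1) (h : b'.1 = b.1) (h2 : b.2 < b'.2) :
    T B f d b' b.1 (-((d b.1 + 1 - b.2 : ℕ) : ℤ)) = 0 := by
  obtain ⟨j, a⟩ := b
  obtain ⟨j', a'⟩ := b'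
  simp only at h h1 h2
  subst h
  unfold T
  simp only
  split_ifs with h3
  · rw [pp_own B hFO _ _ _ _ (by omega) (by omega), own_coeff B hEXD hTT,
      hP.low j' (mem_IB_le J d _ hb).1 _ (by omega), mul_zero, neg_zero]
  · rw [(hFO p k B).1 j' 1, HahnSeries.coeff_single_of_ne (by omega)]

/-- the coefficient `i` of a linear relation -/
theorem core (hFO : S_FO) (hEXD : S_EXD) (hTT : S_TT) (f : RatFunc k) (J : Finset (Option k))
    (d : Option k → ℕ) (hP : PoleData B f J d) (hch : ∀ j ∈ J, ((d j : ℕ) : k) ≠ 0)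
    (s : (Σ _ : Option k, ℕ) → k)
    (hs : ∀ (j : Option k) (m : ℤ), ∑ b ∈ IB J d, s b * T B f d b j m = 0) :
    ∀ b ∈ IB J d, s b = 0 := by
  have key : ∀ a : ℕ, ∀ b ∈ IB J d, b.2 = a → b.2 < d b.1 → s b = 0 := by
    intro a
    induction a using Nat.strong_induction_on with
    | _ a ih =>
      intro b hb hba hbd
      have h0 := hs b.1 (-((d b.1 + 1 - b.2 : ℕ) : ℤ))
      rw [Finset.sum_eq_single b] at h0
      · exact (mul_eq_zero.1 h0).resolve_right
          (T_ne B hFO hEXD hTT f J d hP b hb hbd (hch _ (mem_IB_le J d b hb).1))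
      · intro b' hb' hne
        by_cases h1 : b'.1 = b.1
        · rcases lt_trichotomy b'.2 b.2 with h2 | h2 | h2
          · rw [ih b'.2 (hba ▸ h2) b' hb' rfl (by rw [h1]; omega), zero_mul]
          · exfalso
            apply hne
            obtain ⟨j, a⟩ := b
            obtain ⟨j', a'⟩ := b'
            simp only at h1 h2
            subst h1 h2
            rfl
          · rw [T_gt B hFO hEXD hTT f J d hP b b' hb hb' hbd h1 h2, mul_zero]
        · rw [T_other B hFO f J d b' hb' b.1 (Ne.symm h1) _ (by omega), mul_zero]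
      · intro h
        exact absurd hb h
  intro b hb
  by_cases hbd : b.2 < d b.1
  · exact key b.2 b hb rfl hbd
  have hle := (mem_IB_le J d b hb).2
  have h0 := hs b.1 (-1)
  rw [Finset.sum_eq_single b] at h0
  · have h1 : T B f d b b.1 (-1) = 1 := by
      unfold T
      rw [if_neg hbd, (hFO p k B).1 b.1 1]
      exact HahnSeries.coeff_single_same _ _
    rwa [h1, mul_one] at h0
  · intro b' hb' hne
    by_cases hbd' : b'.2 < d b'.1
    · rw [key b'.2 b' hb' rfl hbd', zero_mul]
    · have h1 : b'.1 ≠ b.1 := by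
        intro hc
        apply hne
        have hle' := (mem_IB_le J d b' hb').2
        obtain ⟨j, a⟩ := b
        obtain ⟨j', a'⟩ := b'
        simp only at hc hbd hbd' hle hle'
        subst hc
        have : a' = a := by omega
        subst this
        rfl
      have h2 : T B f d b' b.1 (-1) = 0 := by
        unfold T
        rw [if_neg hbd']
        obtain ⟨j, a⟩ := b
        obtain ⟨j', a'⟩ := b'
        simp only at h1 hbd hbd' ⊢
        rcases j' with _ | c
        · exact absurd (mem_IB_none J d a' hb').2 hbd'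
        · rcases j with _ | c'
          · exact absurd (mem_IB_none J d a hb).2 hbd
          · exact (hFO p k B).2.2.1 c (some c') (Ne.symm h1) (by simp) (-1) (by omega)
      rw [h2, mul_zero]
  · intro h
    exact absurd hb h

end

end IND

open IND in
theorem t_IND (hP1 : S_P1) (hFO : S_FO) (hEXD : S_EXD) (hTT : S_TT) : S_IND := by
  intro p _ k _ _ _ B f J d hP s hs
  obtain ⟨g, hgA, hg1, hg2⟩ := hs
  have hp : 2 ≤ p := (Fact.out : p.Prime).two_le
  have hdp : ∀ j ∈ J, d j * EE p d j = p - 1 := fun j hj => Nat.mul_div_cancel' (hP.dvd j hj)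
  have hEE : ∀ j ∈ J, 0 < EE p d j := fun j hj => by
    refine Nat.pos_of_ne_zero fun h => ?_
    have := hdp j hj
    rw [h] at this
    omega
  have hch : ∀ j ∈ J, ((d j : ℕ) : k) ≠ 0 := fun j hj h => by
    have h1 : p ∣ d j := (CharP.cast_eq_zero_iff k p _).1 h
    have h2 := Nat.le_of_dvd (by omega) (h1.trans (hP.dvd j hj))
    omega
  have hsnd : ∀ (j : Option k) (i : ℕ),
      coeff i ((∑ b ∈ IB J d, s b • vb B f d b).2 j) =
        ∑ b ∈ IB J d, coeff i (s b • (vb B f d b).2 j) := by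
    intro j i
    rw [Prod.snd_sum, Finset.sum_apply, map_sum]
    rfl
  have hsreg : ∀ (j : Option k) (i : ℕ) (m : ℤ), m < 0 →
      (B.ex j (coeff i ((∑ b ∈ IB J d, s b • vb B f d b).2 j))).coeff m = 0 := by
    intro j i m hm
    rw [hsnd, map_sum, HahnSeries.coeff_sum]
    exact Finset.sum_eq_zero fun b hb => (second_reg B hTT f J d b hb (s b) j i).1 m hm
  have hs0 : ∀ (i : ℕ),
      (B.ex none (coeff i ((∑ b ∈ IB J d, s b • vb B f d b).2 none))).coeff 0 = 0 := by
    intro i
    rw [hsnd, map_sum, HahnSeries.coeff_sum]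
    exact Finset.sum_eq_zero fun b hb => (second_reg B hTT f J d b hb (s b) none i).2 rfl
  have hgc : ∀ i < p, ∃ c : k, coeff i g = RatFunc.C c := by
    intro i hi
    refine hP1 p k B _ fun j m hm => ?_
    by_cases hj : j ∈ J
    · have h1 := hg2 j hj i hi m (by
        have h2 : i / EE p d j ≤ d j := by
          have := Nat.div_le_div_right (c := EE p d j) (show i ≤ d j * EE p d j by
            rw [hdp j hj]; omega)
          rwa [Nat.mul_div_cancel _ (hEE j hj)] at this
        omega)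
      rw [map_sub, map_sub, HahnSeries.coeff_sub, hsreg j i m hm, zero_sub, neg_eq_zero] at h1
      exact h1
    · exact hgA i hi j hj m hm
  have hg0 : ∀ i < p - 1, coeff i g = 0 := by
    intro i hi
    obtain ⟨c, hc⟩ := hgc i (by omega)
    have h1 := hg2 none hP.inf i (by omega) 0 (by
      have h2 : i / EE p d none < d none := by
        rw [Nat.div_lt_iff_lt_mul (hEE _ hP.inf), hdp _ hP.inf]
        omega
      omega)
    rw [map_sub, map_sub, HahnSeries.coeff_sub, hs0 i, zero_sub, neg_eq_zero, hc, B.ex_C] at h1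
    have h3 : c = 0 := by
      simpa using h1
    rw [hc, h3, map_zero]
  have hnab : ∀ i < p - 1, coeff (i + 1) (nab B f g) = 0 := by
    intro i hi
    obtain ⟨c, hc⟩ := hgc (i + 1) (by omega)
    rw [coeff_nab_succ, hg0 i hi, mul_zero, sub_zero, hc, ← RatFunc.algebraMap_eq_C,
      Derivation.map_algebraMap]
  intro b hb
  rw [PowerSeries.X_pow_dvd_iff]
  intro i hi
  refine core B hFO hEXD hTT f J d hP hch (fun b => coeff i (s b)) (fun j m => ?_) b hb
  have h1 := hg1 (i + 1) (by omega)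
  rw [hnab i hi, Prod.fst_sum, map_sum] at h1
  have h2 := ec_zero B j m
  rw [← h1, ec_sum] at h2
  rw [← h2]
  exact Finset.sum_congr rfl fun b _ => (coeff_first B f d b (s b) j m i).symm

end

end Pool.Agent.Helper61.EO
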