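import Pool.Agent.Helper61.EO.J.HOL

/-!
Project EO: `λ ^ (p - 1)` kills the basis.
-/

set_option autoImplicit false

namespace Pool.Agent.Helper61.EO

open PowerSeries

noncomputable section

open IND HOL in
theorem t_KIL (hTT : S_TT) : S_KIL := by
  intro p _ k _ _ _ B f J d hP b hb
  have hp : 2 ≤ p := (Fact.out : p.Prime).two_le
  refine ⟨0, inA.zero B, fun i hi => ?_, fun j hj => ?_⟩
  · rw [nab_zero, map_zero, Prod.smul_fst]
    rcases i with _ | i
    · exact vb_fst0 B f d b _
    · rw [vb_fst, coeff_X_pow, if_neg (by omega), map_zero, zero_mul]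
  · intro i hi m hm
    rw [sub_zero, Prod.smul_snd, Pi.smul_apply]
    refine vb_snd B hTT f d b _ j i m fun hb1 hb2 hb3 => ?_
    rw [coeff_X_pow] at hb3
    have hi2 : i = p - 1 := by
      by_contra hcon
      exact hb3 (if_neg hcon)
    have h1 : i / EE p d j = d j := by
      rw [hi2]
      unfold EE
      exact Nat.div_div_self (hP.dvd j hj) (by omega)
    rw [h1] at hm
    omega

end

end Pool.Agent.Helper61.EO
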