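import Pool.Agent.Helper61.EO.Stm

/-!
Project EO, job LOC: the local rings outside the poles.
-/

set_option autoImplicit false
set_option linter.unusedSectionVars false

namespace Pool.Agent.Helper61.EO

namespace LOC

section ratfunc

variable {p : ℕ} {k : Type} [Field k] (B : Base p k)

/-- regular at `j` -/
def rg (j : Option k) (φ : RatFunc k) : Prop := ∀ m : ℤ, m < 0 → (B.ex j φ).coeff m = 0

include B in
theorem tt_ne (hTT : S_TT) (j : Option k) : tt j ≠ 0 := by
  intro h
  have := (hTT p k B).1 j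
  rw [h, map_zero] at this
  have h2 := congrArg (fun s : LaurentSeries k => s.coeff 1) this
  simp at h2

theorem ex_mul (hTT : S_TT) (j : Option k) (n : ℕ) (φ : RatFunc k) (m : ℤ) :
    (B.ex j (tt j ^ n * φ)).coeff m = (B.ex j φ).coeff (m - n) := by
  rw [map_mul, map_pow, (hTT p k B).1 j, HahnSeries.single_pow, one_pow,
    HahnSeries.coeff_single_mul, one_mul]
  simp

theorem split (hTT : S_TT) (j : Option k) (φ : RatFunc k) (h : rg B j φ) :
    ∃ φ', rg B j φ' ∧ φ = RatFunc.C ((B.ex j φ).coeff 0) + tt j * φ' := by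
  have h0 := tt_ne B hTT j
  refine ⟨(φ - RatFunc.C ((B.ex j φ).coeff 0)) / tt j, fun m hm => ?_, by field_simp; ring⟩
  have h1 := ex_mul B hTT j 1 ((φ - RatFunc.C ((B.ex j φ).coeff 0)) / tt j) (m + 1)
  rw [pow_one, mul_div_cancel₀ _ h0] at h1
  have h2 : (m + 1 - (1 : ℕ) : ℤ) = m := by push_cast; ring
  rw [h2] at h1
  rw [← h1, map_sub, B.ex_C, HahnSeries.coeff_sub]
  rcases eq_or_ne (m + 1) 0 with h3 | h3
  · rw [h3]; simp
  · rw [h (m + 1) (by omega), HahnSeries.C_apply, HahnSeries.coeff_single_of_ne h3, sub_zero]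

theorem exists_pow (hTT : S_TT) (j : Option k) (φ : RatFunc k) :
    ∃ n : ℕ, rg B j (tt j ^ n * φ) := by
  refine ⟨(-(B.ex j φ).order).toNat, fun m hm => ?_⟩
  rw [ex_mul B hTT]
  apply HahnSeries.coeff_eq_zero_of_lt_order
  have := Int.self_le_toNat (-(B.ex j φ).order)
  omega

end ratfunc

section val

variable {K : Type} [Field K]

theorem mem_iff (P : ValuationSubring K) (x : K) :
    (x ∈ P ∧ x⁻¹ ∉ P) ↔ x ≠ 0 ∧ P.valuation x < 1 := by
  constructor
  · rintro ⟨h1, h2⟩
    have hx : x ≠ 0 := by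
      rintro rfl
      rw [inv_zero] at h2
      exact h2 P.zero_mem
    refine ⟨hx, ?_⟩
    rw [← P.valuation_le_one_iff, map_inv₀, not_le] at h2
    have h3 : P.valuation x ≠ 0 := (Valuation.ne_zero_iff _).2 hx
    exact (one_lt_inv₀ (zero_lt_iff.2 h3)).1 h2
  · rintro ⟨h1, h2⟩
    refine ⟨(P.valuation_le_one_iff x).1 h2.le, ?_⟩
    rw [← P.valuation_le_one_iff, map_inv₀, not_le]
    have h3 : P.valuation x ≠ 0 := (Valuation.ne_zero_iff _).2 h1
    exact (one_lt_inv₀ (zero_lt_iff.2 h3)).2 h2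

end val

section curve

variable {p : ℕ} [hp : Fact p.Prime] {k : Type} [Field k] [IsAlgClosed k] [CharP k p]
  (B : Base p k) (f : RatFunc k) {K : Type} [Field K] [Algebra k K] (ι : RatFunc k →ₐ[k] K) (y : K)

/-- the ring `O_j[y]` -/
def R (j : Option k) : Subring K := Subring.closure (ι '' {φ | rg B j φ} ∪ {y})

theorem ι_mem (j : Option k) {φ : RatFunc k} (h : rg B j φ) : ι φ ∈ R B ι y j :=
  Subring.subset_closure (Or.inl ⟨φ, h, rfl⟩)

theorem y_mem (j : Option k) : y ∈ R B ι y j := Subring.subset_closure (Or.inr rfl)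

theorem rgC (j : Option k) (c : k) : rg B j (RatFunc.C c) := fun m hm => by
  rw [B.ex_C, HahnSeries.C_apply, HahnSeries.coeff_single_of_ne (by omega)]

theorem ι_C (c : k) : ι (RatFunc.C c) = algebraMap k K c := by
  rw [← RatFunc.algebraMap_eq_C]; exact ι.commutes c

theorem c_mem (j : Option k) (c : k) : algebraMap k K c ∈ R B ι y j := by
  rw [← ι_C ι c]; exact ι_mem B ι y j (rgC B j c)

theorem rg_zero (j : Option k) : rg B j 0 := fun m _ => by simp
theorem rg_add {j : Option k} {φ ψ : RatFunc k} (h : rg B j φ) (h' : rg B j ψ) :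
    rg B j (φ + ψ) := fun m hm => by rw [map_add, HahnSeries.coeff_add, h m hm, h' m hm, add_zero]
theorem rg_neg {j : Option k} {φ : RatFunc k} (h : rg B j φ) :
    rg B j (-φ) := fun m hm => by rw [map_neg, HahnSeries.coeff_neg, h m hm, neg_zero]

theorem rg_mul {j : Option k} {φ ψ : RatFunc k} (h : rg B j φ) (h' : rg B j ψ) :
    rg B j (φ * ψ) := fun m hm => by
  rw [map_mul, HahnSeries.coeff_mul]
  refine Finset.sum_eq_zero fun x hx => ?_
  rw [Finset.mem_antidiagonal] at hx
  rcases lt_or_ge x.1 0 with h1 | h1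
  · rw [h _ h1, zero_mul]
  · rw [h' _ (by omega), mul_zero]

theorem rg_tt (hTT : S_TT) (j : Option k) : rg B j (tt j) := fun m hm => by
  rw [(hTT p k B).1 j, HahnSeries.coeff_single_of_ne (by omega)]

/-- elements of `R` are `c + t b' + (y - β) b''` -/
theorem R_split (hTT : S_TT) (j : Option k) (β : k) {b : K} (hb : b ∈ R B ι y j) :
    ∃ c : k, ∃ b' ∈ R B ι y j, ∃ b'' ∈ R B ι y j,
      b = algebraMap k K c + ι (tt j) * b' + (y - algebraMap k K β) * b'' := by
  have hR : ∀ x, x ∈ Subring.closure (ι '' {φ | rg B j φ} ∪ {y}) ↔ x ∈ R B ι y j := fun _ => Iff.rfl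
  have hyβ : y - algebraMap k K β ∈ R B ι y j := sub_mem (y_mem B ι y j) (c_mem B ι y j β)
  have ht : ι (tt j) ∈ R B ι y j := ι_mem B ι y j (rg_tt B hTT j)
  unfold R at hb
  induction hb using Subring.closure_induction with
  | mem x hx =>
    rcases hx with ⟨φ, hφ, rfl⟩ | hx
    · obtain ⟨φ', h1, h2⟩ := split B hTT j φ hφ
      refine ⟨(B.ex j φ).coeff 0, ι φ', ι_mem B ι y j h1, 0, zero_mem _, ?_⟩
      conv_lhs => rw [h2]
      rw [map_add, map_mul, ι_C]
      ring
    · rw [Set.mem_singleton_iff] at hx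
      subst hx
      exact ⟨β, 0, zero_mem _, 1, one_mem _, by ring⟩
  | zero => exact ⟨0, 0, zero_mem _, 0, zero_mem _, by simp⟩
  | one => exact ⟨1, 0, zero_mem _, 0, zero_mem _, by simp⟩
  | add x z _ _ hx hz =>
    obtain ⟨c, b1, hb1, b2, hb2, h⟩ := hx
    obtain ⟨c', b1', hb1', b2', hb2', h'⟩ := hz
    refine ⟨c + c', b1 + b1', add_mem hb1 hb1', b2 + b2', add_mem hb2 hb2', ?_⟩
    rw [h, h', map_add]
    ring
  | neg x _ hx =>
    obtain ⟨c, b1, hb1, b2, hb2, h⟩ := hx
    refine ⟨-c, -b1, neg_mem hb1, -b2, neg_mem hb2, ?_⟩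
    rw [h, map_neg]
    ring
  | mul x z hx' hz' hx hz =>
    obtain ⟨c, b1, hb1, b2, hb2, h⟩ := hx
    obtain ⟨c', b1', hb1', b2', hb2', h'⟩ := hz
    refine ⟨c * c', b1 * z + algebraMap k K c * b1', add_mem (mul_mem hb1 ((hR z).1 hz'))
      (mul_mem (c_mem B ι y j c) hb1'), b2 * z + algebraMap k K c * b2',
      add_mem (mul_mem hb2 ((hR z).1 hz')) (mul_mem (c_mem B ι y j c) hb2'), ?_⟩
    rw [map_mul]
    have e1 : x * z = algebraMap k K c * z + ι (tt j) * (b1 * z) +
      (y - algebraMap k K β) * (b2 * z) := by rw [h]; ring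
    rw [e1]
    conv_lhs => rw [show algebraMap k K c * z = algebraMap k K c * (algebraMap k K c' +
      ι (tt j) * b1' + (y - algebraMap k K β) * b2') by rw [h']]
    ring

/-- closure of `inR` -/
theorem inR_add {j : Option k} {a b : K} (ha : inR B ι y j a) (hb : inR B ι y j b) :
    inR B ι y j (a + b) := by
  obtain ⟨φ, h1, h2⟩ := ha
  obtain ⟨ψ, h3, h4⟩ := hb
  refine ⟨fun r => φ r + ψ r, fun r => rg_add B (h1 r) (h3 r), ?_⟩
  rw [h2, h4, ← Finset.sum_add_distrib]
  refine Finset.sum_congr rfl fun r _ => ?_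
  rw [map_add]; ring

theorem inR_zero (j : Option k) : inR B ι y j 0 :=
  ⟨fun _ => 0, fun _ => rg_zero B j, by simp⟩

theorem inR_smul {j : Option k} {φ : RatFunc k} (hφ : rg B j φ) {b : K} (hb : inR B ι y j b) :
    inR B ι y j (ι φ * b) := by
  obtain ⟨ψ, h3, h4⟩ := hb
  refine ⟨fun r => φ * ψ r, fun r => rg_mul B hφ (h3 r), ?_⟩
  rw [h4, Finset.mul_sum]
  refine Finset.sum_congr rfl fun r _ => ?_
  rw [map_mul]; ring

theorem inR_pow {j : Option k} {φ : RatFunc k} (hφ : rg B j φ) {r : ℕ} (hr : r < p) :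
    inR B ι y j (ι φ * y ^ r) := by
  refine ⟨fun s => if s = r then φ else 0, fun s => ?_, ?_⟩
  · dsimp only
    split_ifs
    · exact hφ
    · exact rg_zero B j
  · rw [Finset.sum_eq_single_of_mem r (Finset.mem_range.2 hr)]
    · dsimp only
      rw [if_pos rfl]
    · intro s _ hs
      dsimp only
      rw [if_neg hs, map_zero, zero_mul]

theorem inR_y (heq : y ^ p - y = ι f) {j : Option k} (hf : rg B j f) {b : K}
    (hb : inR B ι y j b) : inR B ι y j (y * b) := by
  obtain ⟨ψ, h3, h4⟩ := hb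
  rw [h4, Finset.mul_sum]
  have key : ∀ s : Finset ℕ, (∀ r ∈ s, r < p) →
      inR B ι y j (∑ r ∈ s, y * (ι (ψ r) * y ^ r)) := by
    intro s
    induction s using Finset.induction_on with
    | empty => intro _; rw [Finset.sum_empty]; exact inR_zero B ι y j
    | insert a s ha ih =>
      intro hs
      rw [Finset.sum_insert ha]
      refine inR_add B ι y ?_ (ih fun r hr => hs r (Finset.mem_insert_of_mem hr))
      have hap := hs a (Finset.mem_insert_self a s)
      have e1 : y * (ι (ψ a) * y ^ a) = ι (ψ a) * y ^ (a + 1) := by ring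
      rw [e1]
      rcases Nat.lt_or_ge (a + 1) p with h | h
      · exact inR_pow B ι y (h3 a) h
      · have e2 : a + 1 = p := by omega
        rw [e2]
        have e3 : ι (ψ a) * y ^ p = ι (ψ a * f) * y ^ 0 + ι (ψ a) * y ^ 1 := by
          have : y ^ p = y + ι f := by rw [← heq]; ring
          rw [this, map_mul]
          ring
        rw [e3]
        exact inR_add B ι y (inR_pow B ι y (rg_mul B (h3 a) hf) hp.out.pos)
          (inR_pow B ι y (h3 a) hp.out.one_lt)
  exact key _ fun r hr => Finset.mem_range.1 hr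

theorem inR_of_mem (heq : y ^ p - y = ι f) {j : Option k} (hf : rg B j f) {b : K}
    (hb : b ∈ R B ι y j) : inR B ι y j b := by
  have key : ∀ c, inR B ι y j c → inR B ι y j (b * c) := by
    unfold R at hb
    induction hb using Subring.closure_induction with
    | mem x hx =>
      intro c hc
      rcases hx with ⟨φ, hφ, rfl⟩ | hx
      · exact inR_smul B ι y hφ hc
      · rw [Set.mem_singleton_iff] at hx
        subst hx
        exact inR_y B f ι x heq hf hc
    | zero => intro c _; rw [zero_mul]; exact inR_zero B ι y j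
    | one => intro c hc; rwa [one_mul]
    | add x z _ _ hx hz =>
      intro c hc
      rw [add_mul]
      exact inR_add B ι y (hx c hc) (hz c hc)
    | neg x _ hx =>
      intro c hc
      have : -x * c = ι (-1) * (x * c) := by rw [map_neg, map_one]; ring
      rw [this]
      refine inR_smul B ι y (rg_neg B ?_) (hx c hc)
      have := rgC B j 1
      rwa [map_one] at this
    | mul x z _ _ hx hz =>
      intro c hc
      rw [mul_assoc]
      exact hx _ (hz c hc)
  have h1 : inR B ι y j 1 := by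
    have h := rgC B j 1
    rw [map_one] at h
    have := inR_pow B ι y h hp.out.pos
    simpa using this
  simpa using key 1 h1

/-- every element of `K` is a quotient of elements of `R` -/
theorem quot (c : k) (hgen : IntermediateField.adjoin k {ι RatFunc.X, y} = ⊤) (u : K) :
    ∃ b1 ∈ R B ι y (some c), ∃ b2 ∈ R B ι y (some c), b2 ≠ 0 ∧ u = b1 / b2 := by
  have hu : u ∈ IntermediateField.adjoin k {ι RatFunc.X, y} := by rw [hgen]; trivial
  induction hu using IntermediateField.adjoin_induction with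
  | mem x hx =>
    refine ⟨x, ?_, 1, one_mem _, one_ne_zero, by simp⟩
    rcases hx with rfl | hx
    · refine ι_mem B ι y _ fun m hm => ?_
      rw [B.ex_some, HahnSeries.coeff_add, HahnSeries.C_apply,
        HahnSeries.coeff_single_of_ne (by omega), HahnSeries.coeff_single_of_ne (by omega),
        add_zero]
    · rw [Set.mem_singleton_iff] at hx
      subst hx
      exact y_mem B ι x _
  | algebraMap x => exact ⟨_, c_mem B ι y _ x, 1, one_mem _, one_ne_zero, by simp⟩
  | add x z _ _ hx hz =>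
    obtain ⟨a, ha, b, hb, h1, h2⟩ := hx
    obtain ⟨a', ha', b', hb', h1', h2'⟩ := hz
    refine ⟨a * b' + b * a', add_mem (mul_mem ha hb') (mul_mem hb ha'), b * b', mul_mem hb hb',
      mul_ne_zero h1 h1', ?_⟩
    rw [h2, h2', div_add_div _ _ h1 h1']
  | inv x _ hx =>
    obtain ⟨a, ha, b, hb, h1, h2⟩ := hx
    rcases eq_or_ne a 0 with h0 | h0
    · refine ⟨0, zero_mem _, 1, one_mem _, one_ne_zero, ?_⟩
      rw [h2, h0]; simp
    · exact ⟨b, hb, a, ha, h0, by rw [h2, inv_div]⟩
  | mul x z _ _ hx hz =>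
    obtain ⟨a, ha, b, hb, h1, h2⟩ := hx
    obtain ⟨a', ha', b', hb', h1', h2'⟩ := hz
    refine ⟨a * a', mul_mem ha ha', b * b', mul_mem hb hb', mul_ne_zero h1 h1', ?_⟩
    rw [h2, h2', div_mul_div_comm]

end curve

section fin

variable {p : ℕ} [hp : Fact p.Prime] {k : Type} [Field k] [IsAlgClosed k] [CharP k p]
  (B : Base p k) (f : RatFunc k) {K : Type} [Field K] [Algebra k K] (ι : RatFunc k →ₐ[k] K) (y : K)

/-- the hypotheses on a point -/
structure Hyp (P : Pt k K) (j : Option k) (β : k) : Prop where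
  t0 : ι (tt j) ≠ 0
  t1 : P.1.valuation (ι (tt j)) < 1
  y0 : y - algebraMap k K β ≠ 0
  y1 : P.1.valuation (y - algebraMap k K β) < 1
  RP : ∀ b ∈ R B ι y j, P.1.valuation b ≤ 1

theorem val_c (P : Pt k K) {c : k} (hc : c ≠ 0) : P.1.valuation (algebraMap k K c) = 1 := by
  have h1 := (P.1.valuation_le_one_iff _).2 (P.2.1 c)
  have h2 := (P.1.valuation_le_one_iff _).2 (P.2.1 c⁻¹)
  rw [map_inv₀, map_inv₀] at h2
  have h0 : P.1.valuation (algebraMap k K c) ≠ 0 :=
    (Valuation.ne_zero_iff _).2 ((map_ne_zero _).2 hc)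
  refine le_antisymm h1 ?_
  exact (inv_le_one₀ (zero_lt_iff.2 h0)).1 h2

theorem Hyp.unit {P : Pt k K} {j : Option k} {β : k} (h : Hyp B ι y P j β) {c : k} {b' b'' : K}
    (h' : b' ∈ R B ι y j) (h'' : b'' ∈ R B ι y j) (hc : c ≠ 0) :
    P.1.valuation (algebraMap k K c + ι (tt j) * b' + (y - algebraMap k K β) * b'') = 1 := by
  have e1 : P.1.valuation (ι (tt j) * b') < 1 := by
    rw [map_mul]
    exact mul_lt_one_of_lt_of_le h.t1 (h.RP _ h')
  have e2 : P.1.valuation ((y - algebraMap k K β) * b'') < 1 := by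
    rw [map_mul]
    exact mul_lt_one_of_lt_of_le h.y1 (h.RP _ h'')
  have e3 : P.1.valuation (ι (tt j) * b' + (y - algebraMap k K β) * b'') < 1 :=
    Valuation.map_add_lt _ e1 e2
  rw [add_assoc, Valuation.map_add_eq_of_lt_left]
  · exact val_c P hc
  · rwa [val_c P hc]

theorem Hyp.lt {P : Pt k K} {j : Option k} {β : k} (h : Hyp B ι y P j β) {b' b'' : K}
    (h' : b' ∈ R B ι y j) (h'' : b'' ∈ R B ι y j) :
    P.1.valuation (algebraMap k K 0 + ι (tt j) * b' + (y - algebraMap k K β) * b'') < 1 := by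
  have e1 : P.1.valuation (ι (tt j) * b') < 1 := by
    rw [map_mul]
    exact mul_lt_one_of_lt_of_le h.t1 (h.RP _ h')
  have e2 : P.1.valuation ((y - algebraMap k K β) * b'') < 1 := by
    rw [map_mul]
    exact mul_lt_one_of_lt_of_le h.y1 (h.RP _ h'')
  rw [map_zero, zero_add]
  exact Valuation.map_add_lt _ e1 e2

include B in
/-- archimedean property -/
theorem arch (hTT : S_TT) (hT3 : S_T3) (hK : KData K p f ι y) {P : Pt k K} {j : Option k}
    (hO : Over ι P j) (hyP : y ∈ P.1) (u : K) : ∃ n : ℕ, ι (tt j) ^ n * u ∈ P.1 := by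
  let _ : Algebra (RatFunc k) K := ι.toRingHom.toAlgebra
  have ham : ∀ φ : RatFunc k, algebraMap (RatFunc k) K φ = ι φ := fun _ => rfl
  have ht : ι (tt j) ∈ P.1 := hO.1
  let V : Subalgebra (RatFunc k) K :=
    { carrier := {u | ∃ n : ℕ, ι (tt j) ^ n * u ∈ P.1}
      mul_mem' := by
        rintro a b ⟨n, hn⟩ ⟨m, hm⟩
        refine ⟨n + m, ?_⟩
        have := mul_mem hn hm
        rwa [show ι (tt j) ^ n * a * (ι (tt j) ^ m * b) = ι (tt j) ^ (n + m) * (a * b) by
          rw [pow_add]; ring] at this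
      one_mem' := ⟨0, by rw [pow_zero, one_mul]; exact one_mem _⟩
      add_mem' := by
        rintro a b ⟨n, hn⟩ ⟨m, hm⟩
        refine ⟨n + m, ?_⟩
        have := add_mem (mul_mem (pow_mem ht m) hn) (mul_mem (pow_mem ht n) hm)
        rwa [show ι (tt j) ^ m * (ι (tt j) ^ n * a) + ι (tt j) ^ n * (ι (tt j) ^ m * b) =
          ι (tt j) ^ (n + m) * (a + b) by rw [pow_add]; ring] at this
      zero_mem' := ⟨0, by rw [mul_zero]; exact zero_mem _⟩
      algebraMap_mem' := fun φ => by
        obtain ⟨n, hn⟩ := exists_pow B hTT j φ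
        refine ⟨n, ?_⟩
        have := (hT3 p k B K ι P j hO _).2 hn
        rwa [map_mul, map_pow] at this }
  have hV : ∀ x, x ∈ V ↔ ∃ n : ℕ, ι (tt j) ^ n * x ∈ P.1 := fun x => Iff.rfl
  have hyalg : IsAlgebraic (RatFunc k) y := by
    refine IsIntegral.isAlgebraic ⟨Polynomial.X ^ p - (Polynomial.X + Polynomial.C f), ?_, ?_⟩
    · refine Polynomial.monic_X_pow_sub ?_
      refine (Polynomial.degree_add_le _ _).trans_lt ?_
      rw [Polynomial.degree_X]
      refine max_lt ?_ (Polynomial.degree_C_le.trans_lt ?_)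
      · exact_mod_cast hp.out.one_lt
      · exact_mod_cast hp.out.pos
    · rw [Polynomial.eval₂_sub, Polynomial.eval₂_pow, Polynomial.eval₂_X, Polynomial.eval₂_add,
        Polynomial.eval₂_X, Polynomial.eval₂_C, ham, ← hK.eq]
      ring
  have key : ∀ x : K, IsAlgebraic (RatFunc k) x ∧ x ∈ V := by
    intro x
    have hx : x ∈ IntermediateField.adjoin k {ι RatFunc.X, y} := by rw [hK.gen]; trivial
    induction hx using IntermediateField.adjoin_induction with
    | mem x hx =>
      rcases hx with rfl | hx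
      · exact ⟨isAlgebraic_algebraMap (A := K) (RatFunc.X : RatFunc k), V.algebraMap_mem RatFunc.X⟩
      · rw [Set.mem_singleton_iff] at hx
        subst hx
        exact ⟨hyalg, 0, by rwa [pow_zero, one_mul]⟩
    | algebraMap x =>
      rw [← ι_C ι x]
      exact ⟨isAlgebraic_algebraMap (A := K) (RatFunc.C x : RatFunc k),
        V.algebraMap_mem (RatFunc.C x)⟩
    | add x z _ _ hx hz => exact ⟨hx.1.add hz.1, add_mem hx.2 hz.2⟩
    | inv x _ hx =>
      exact ⟨hx.1.inv, V.inv_mem_of_algebraic (x := ⟨x, hx.2⟩) hx.1⟩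
    | mul x z _ _ hx hz => exact ⟨hx.1.mul hz.1, mul_mem hx.2 hz.2⟩
  exact (hV u).1 (key u).2

theorem sub_pow_p (β : k) : (y - algebraMap k K β) ^ p = y ^ p - algebraMap k K (β ^ p) := by
  have : CharP K p := charP_of_injective_algebraMap (algebraMap k K).injective p
  rw [sub_pow_char, map_pow]

/-- `s b / t ∈ R` -/
theorem Hyp.step (hTT : S_TT) {P : Pt k K} {j : Option k} {β : k} (h : Hyp B ι y P j β)
    {f1 : RatFunc k} (hf1 : rg B j f1)
    (hs : ((y - algebraMap k K β) ^ (p - 1) - 1) * (y - algebraMap k K β) = ι (tt j) * ι f1)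
    {b : K} (hb : b ∈ R B ι y j) (hv : P.1.valuation b < 1) :
    ∃ b3 ∈ R B ι y j, ((y - algebraMap k K β) ^ (p - 1) - 1) * b = ι (tt j) * b3 := by
  obtain ⟨c, b', hb', b'', hb'', e⟩ := R_split B ι y hTT j β hb
  have hc : c = 0 := by
    by_contra hc
    rw [e, h.unit B ι y hb' hb'' hc] at hv
    exact lt_irrefl _ hv
  have hyβ : y - algebraMap k K β ∈ R B ι y j := sub_mem (y_mem B ι y j) (c_mem B ι y j β)
  refine ⟨((y - algebraMap k K β) ^ (p - 1) - 1) * b' + ι f1 * b'',
    add_mem (mul_mem (sub_mem (pow_mem hyβ _) (one_mem _)) hb')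
      (mul_mem (ι_mem B ι y j hf1) hb''), ?_⟩
  rw [e, hc, map_zero, zero_add, mul_add, mul_add, ← mul_assoc (ι (tt j)) (ι f1), ← hs]
  ring

theorem Hyp.val_s {P : Pt k K} {j : Option k} {β : k} (h : Hyp B ι y P j β) :
    P.1.valuation ((y - algebraMap k K β) ^ (p - 1) - 1) = 1 := by
  have h1 : P.1.valuation ((y - algebraMap k K β) ^ (p - 1)) < 1 := by
    rw [map_pow]
    refine pow_lt_one₀ zero_le h.y1 ?_
    have := hp.out.two_le
    omega
  rw [Valuation.map_sub_eq_of_lt_right]
  · exact map_one P.1.valuation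
  · rwa [map_one]

/-- descent -/
theorem Hyp.desc (hTT : S_TT) {P : Pt k K} {j : Option k} {β : k} (h : Hyp B ι y P j β)
    {f1 : RatFunc k} (hf1 : rg B j f1)
    (hs : ((y - algebraMap k K β) ^ (p - 1) - 1) * (y - algebraMap k K β) = ι (tt j) * ι f1)
    (n : ℕ) : ∀ b1 ∈ R B ι y j, ∀ b2 ∈ R B ι y j, b2 ≠ 0 → P.1.valuation (b1 / b2) ≤ 1 →
      P.1.valuation (ι (tt j) ^ n / b2) ≤ 1 →
      ∃ c1 ∈ R B ι y j, ∃ c2 ∈ R B ι y j, c2 ≠ 0 ∧ P.1.valuation c2 = 1 ∧ b1 / b2 = c1 / c2 := by
  induction n with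
  | zero =>
    intro b1 hb1 b2 hb2 h0 _ hv
    refine ⟨b1, hb1, b2, hb2, h0, le_antisymm (h.RP _ hb2) ?_, rfl⟩
    rw [pow_zero, one_div, map_inv₀] at hv
    exact (inv_le_one₀ (zero_lt_iff.2 ((Valuation.ne_zero_iff _).2 h0))).1 hv
  | succ n ih =>
    intro b1 hb1 b2 hb2 h0 hv1 hv2
    rcases eq_or_lt_of_le (h.RP _ hb2) with h1 | h1
    · exact ⟨b1, hb1, b2, hb2, h0, h1, rfl⟩
    · have h3 : P.1.valuation b1 < 1 := by
        have : b1 = b1 / b2 * b2 := by field_simp
        rw [this, map_mul]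
        exact (mul_le_of_le_one_left zero_le hv1).trans_lt h1
      obtain ⟨c1, hc1, e1⟩ := h.step B ι y hTT hf1 hs hb1 h3
      obtain ⟨c2, hc2, e2⟩ := h.step B ι y hTT hf1 hs hb2 h1
      have hs0 : (y - algebraMap k K β) ^ (p - 1) - 1 ≠ 0 := by
        intro h4
        have := h.val_s B ι y
        rw [h4, map_zero] at this
        exact zero_ne_one this
      have hc20 : c2 ≠ 0 := by
        rintro rfl
        rw [mul_zero] at e2
        exact (mul_ne_zero hs0 h0) e2
      have e3 : b1 / b2 = c1 / c2 := by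
        rw [div_eq_div_iff h0 hc20]
        have h5 : (((y - algebraMap k K β) ^ (p - 1) - 1) * ι (tt j)) * (b1 * c2) =
            (((y - algebraMap k K β) ^ (p - 1) - 1) * ι (tt j)) * (c1 * b2) := by
          calc _ = (((y - algebraMap k K β) ^ (p - 1) - 1) * b1) * (ι (tt j) * c2) := by ring
            _ = (ι (tt j) * c1) * (((y - algebraMap k K β) ^ (p - 1) - 1) * b2) := by
              rw [e1, e2]
            _ = _ := by ring
        exact mul_left_cancel₀ (mul_ne_zero hs0 h.t0) h5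
      rw [e3] at hv1 ⊢
      refine ih c1 hc1 c2 hc2 hc20 hv1 ?_
      have e4 : ι (tt j) ^ (n + 1) / b2 =
          ((y - algebraMap k K β) ^ (p - 1) - 1) * (ι (tt j) ^ n / c2) := by
        have h6 : c2 = ((y - algebraMap k K β) ^ (p - 1) - 1) * b2 / ι (tt j) := by
          rw [e2, mul_div_cancel_left₀ _ h.t0]
        rw [h6]
        have := h.t0
        field_simp
        ring
      rw [e4, map_mul, h.val_s B ι y, one_mul] at hv2
      exact hv2

theorem main_quot (hTT : S_TT) (hT3 : S_T3) (hK : KData K p f ι y) {P : Pt k K} {c : k}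
    (hO : Over ι P (some c)) {β : k} (h : Hyp B ι y P (some c) β)
    {f1 : RatFunc k} (hf1 : rg B (some c) f1)
    (hs : ((y - algebraMap k K β) ^ (p - 1) - 1) * (y - algebraMap k K β) =
      ι (tt (some c)) * ι f1) {u : K} (hu : u ∈ P.1) :
    ∃ c1 ∈ R B ι y (some c), ∃ c2 ∈ R B ι y (some c), c2 ≠ 0 ∧ P.1.valuation c2 = 1 ∧
      u = c1 / c2 := by
  obtain ⟨b1, hb1, b2, hb2, h0, e⟩ := quot B ι y c hK.gen u
  have hyP : y ∈ P.1 := (P.1.valuation_le_one_iff _).1 (h.RP y (y_mem B ι y _))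
  obtain ⟨n, hn⟩ := arch B f ι y hTT hT3 hK hO hyP b2⁻¹
  rw [e]
  refine h.desc B ι y hTT hf1 hs n b1 hb1 b2 hb2 h0 ?_ ?_
  · rw [← e]; exact (P.1.valuation_le_one_iff _).2 hu
  · rw [div_eq_mul_inv]; exact (P.1.valuation_le_one_iff _).2 hn

theorem le_of (hTT : S_TT) (hT3 : S_T3) (hK : KData K p f ι y) {P P' : Pt k K} {c : k}
    (hO : Over ι P (some c)) {β : k} (h : Hyp B ι y P (some c) β) (h' : Hyp B ι y P' (some c) β)
    {f1 : RatFunc k} (hf1 : rg B (some c) f1)
    (hs : ((y - algebraMap k K β) ^ (p - 1) - 1) * (y - algebraMap k K β) =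
      ι (tt (some c)) * ι f1) : P.1 ≤ P'.1 := by
  intro u hu
  obtain ⟨c1, hc1, c2, hc2, h0, h1, e⟩ := main_quot B f ι y hTT hT3 hK hO h hf1 hs hu
  obtain ⟨a, b', hb', b'', hb'', e2⟩ := R_split B ι y hTT (some c) β hc2
  have ha : a ≠ 0 := by
    rintro rfl
    have := h.lt B ι y hb' hb''
    rw [← e2, h1] at this
    exact lt_irrefl _ this
  have h2 := h'.unit B ι y hb' hb'' ha
  rw [← e2] at h2
  rw [← P'.1.valuation_le_one_iff, e, map_div₀, h2, div_one]
  exact h'.RP _ hc1

/-- the root -/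
theorem root (P : Pt k K) (a : k) (hy : P.1.valuation (y ^ p - y - algebraMap k K a) < 1) :
    ∃ β : k, β ^ p - β = a ∧ P.1.valuation (y - algebraMap k K β) < 1 := by
  classical
  let q : Polynomial k := Polynomial.X ^ p - (Polynomial.X + Polynomial.C a)
  have hq : q.Monic := by
    change (Polynomial.X ^ p - (Polynomial.X + Polynomial.C a)).Monic
    refine Polynomial.monic_X_pow_sub ?_
    refine (Polynomial.degree_add_le _ _).trans_lt ?_
    rw [Polynomial.degree_X]
    refine max_lt ?_ (Polynomial.degree_C_le.trans_lt ?_)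
    · exact_mod_cast hp.out.one_lt
    · exact_mod_cast hp.out.pos
  have hsp : q.Splits := IsAlgClosed.splits q
  have hprod := hsp.eq_prod_roots_of_monic hq
  have hev : Polynomial.aeval y q = y ^ p - y - algebraMap k K a := by
    change Polynomial.aeval y (Polynomial.X ^ p - (Polynomial.X + Polynomial.C a)) = _
    simp only [map_sub, map_pow, Polynomial.aeval_X, map_add, Polynomial.aeval_C]
    ring
  have hev2 : P.1.valuation (Polynomial.aeval y q) =
      (q.roots.map fun b => P.1.valuation (y - algebraMap k K b)).prod := by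
    conv_lhs => rw [hprod]
    have e1 : ∀ s : Multiset k, P.1.valuation (Polynomial.aeval y
        (s.map fun b => Polynomial.X - Polynomial.C b).prod) =
        (s.map fun b => P.1.valuation (y - algebraMap k K b)).prod := by
      intro s
      induction s using Multiset.induction_on with
      | empty => simp
      | cons b s ih =>
        rw [Multiset.map_cons, Multiset.prod_cons, Multiset.map_cons, Multiset.prod_cons, map_mul,
          map_mul, ih, map_sub, Polynomial.aeval_X, Polynomial.aeval_C]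
    exact e1 _
  rw [← hev, hev2] at hy
  have key : ∀ s : Multiset k, (s.map fun b => P.1.valuation (y - algebraMap k K b)).prod < 1 →
      ∃ b ∈ s, P.1.valuation (y - algebraMap k K b) < 1 := by
    intro s
    induction s using Multiset.induction_on with
    | empty => intro h; simp at h
    | cons b s ih =>
      intro h
      rw [Multiset.map_cons, Multiset.prod_cons] at h
      rcases lt_or_ge (P.1.valuation (y - algebraMap k K b)) 1 with h1 | h1
      · exact ⟨b, Multiset.mem_cons_self b s, h1⟩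
      · obtain ⟨b', hb', h2⟩ := ih (by
          by_contra h3
          rw [not_lt] at h3
          exact absurd h (not_lt.2 (one_le_mul h1 h3)))
        exact ⟨b', Multiset.mem_cons_of_mem hb', h2⟩
  obtain ⟨β, hβ, h2⟩ := key _ hy
  refine ⟨β, ?_, h2⟩
  have h3 := (Polynomial.mem_roots hq.ne_zero).1 hβ
  have h4 : β ^ p - (β + a) = 0 := by
    simpa [q, Polynomial.IsRoot] using h3
  linear_combination h4

end fin

end LOC

open LOC in
theorem t_LOC (hT3 : S_T3) (hTT : S_TT) : S_LOC := by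
  intro p hp k _ _ _ B f J d hPD K _ _ ι y hK P j hj hO
  obtain ⟨c, rfl⟩ : ∃ c, j = some c := by
    cases j with
    | none => exact absurd hPD.inf hj
    | some c => exact ⟨c, rfl⟩
  have hfreg : rg B (some c) f := hPD.reg _ hj
  obtain ⟨f1, hf1, hf2⟩ := split B hTT (some c) f hfreg
  have ht := (mem_iff P.1 _).1 hO
  have hcoe : ∀ b ∈ R B ι y (some c), ∀ P' : Pt k K, Over ι P' (some c) → y ∈ P'.1 → b ∈ P'.1 := by
    intro b hb P' hO' hy'
    have : R B ι y (some c) ≤ P'.1.toSubring := by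
      unfold R
      rw [Subring.closure_le]
      rintro x (⟨φ, hφ, rfl⟩ | hx)
      · exact (hT3 p k B K ι P' (some c) hO' φ).2 hφ
      · rw [Set.mem_singleton_iff] at hx
        subst hx
        exact hy'
    exact this hb
  have hιf : ι f - algebraMap k K ((B.ex (some c) f).coeff 0) = ι (tt (some c)) * ι f1 := by
    have h1 := congrArg ι hf2
    rw [map_add, ι_C, map_mul] at h1
    rw [h1]
    ring
  have hv : P.1.valuation (y ^ p - y - algebraMap k K ((B.ex (some c) f).coeff 0)) < 1 := by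
    rw [hK.eq, hιf, map_mul]
    exact mul_lt_one_of_lt_of_le ht.2
      ((P.1.valuation_le_one_iff _).2 ((hT3 p k B K ι P (some c) hO f1).2 hf1))
  obtain ⟨β, hβ, hβ2⟩ := root (p := p) y P _ hv
  have hyβ0 : y - algebraMap k K β ≠ 0 := by
    intro h0
    have h1 : y = algebraMap k K β := sub_eq_zero.1 h0
    have h2 := hK.eq
    rw [h1, ← map_pow, ← map_sub, ← ι_C ι] at h2
    have h3 : f = RatFunc.C (β ^ p - β) := (ι.toRingHom.injective h2).symm
    have h4 := hPD.lead none hPD.inf
    have h5 := hPD.pos none hPD.inf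
    rw [h3, B.ex_C, HahnSeries.C_apply, HahnSeries.coeff_single_of_ne (by omega)] at h4
    exact h4 rfl
  have hs : ((y - algebraMap k K β) ^ (p - 1) - 1) * (y - algebraMap k K β) =
      ι (tt (some c)) * ι f1 := by
    rw [← hιf, ← hβ, ← hK.eq, sub_mul, one_mul, ← pow_succ, Nat.sub_add_cancel hp.out.pos,
      sub_pow_p, map_sub]
    ring
  have hyp : ∀ P' : Pt k K, Over ι P' (some c) → P'.1.valuation (y - algebraMap k K β) < 1 →
      Hyp B ι y P' (some c) β := by
    intro P' hO' h'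
    have ht' := (mem_iff P'.1 _).1 hO'
    have hy' : y ∈ P'.1 := by
      have h1 := add_mem ((P'.1.valuation_le_one_iff _).1 h'.le) (P'.2.1 β)
      rwa [sub_add_cancel] at h1
    exact ⟨ht'.1, ht'.2, hyβ0, h', fun b hb =>
      (P'.1.valuation_le_one_iff _).2 (hcoe b hb P' hO' hy')⟩
  have hH := hyp P hO hβ2
  have hyβ := (mem_iff P.1 (y - algebraMap k K β)).2 ⟨hyβ0, hβ2⟩
  refine ⟨β, hβ, hyβ.1, hyβ.2, fun u hu => ?_, fun P' hO' h1 h2 => ?_⟩
  · obtain ⟨c1, hc1, c2, hc2, h0, h1, e⟩ := main_quot B f ι y hTT hT3 hK hO hH hf1 hs hu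
    refine ⟨c1, c2, inR_of_mem B f ι y hK.eq hfreg hc1, inR_of_mem B f ι y hK.eq hfreg hc2, h0,
      ?_, e⟩
    rw [← P.1.valuation_le_one_iff, map_inv₀, h1, inv_one]
  · have h3 := (mem_iff P'.1 (y - algebraMap k K β)).1 ⟨h1, h2⟩
    have hH' := hyp P' hO' h3.2
    exact Subtype.ext (le_antisymm (le_of B f ι y hTT hT3 hK hO' hH' hH hf1 hs)
      (le_of B f ι y hTT hT3 hK hO hH hH' hf1 hs))

end Pool.Agent.Helper61.EO
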