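import Pool.Agent.Helper61.EO.Stm

/-!
Project EO: final assembly.
-/

set_option autoImplicit false

namespace Pool.Agent.Helper61.EO

open PowerSeries

noncomputable section

namespace MAIN

theorem base (hBD : S_BD) (hBX : S_BX) (hBC : S_BC) (p : ℕ) (k : Type) [Field k] [IsAlgClosed k]
    [CharP k p] (hp : p.Prime) : Nonempty (Base p k) := by
  obtain ⟨D, hD⟩ := hBD k
  obtain ⟨ex, h1, h2, h3⟩ := hBX k
  obtain ⟨car, c1, c2, c3⟩ := hBC p k hp D hD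
  exact ⟨⟨D, hD, ex, h1, h2, h3, car, c1, c2, c3⟩⟩

/-- reduction to a pole at infinity -/
theorem red (hRED1 : S_RED1) (hRED2 : S_RED2) (p : ℕ) (k : Type) [Field k]
    [DecidableEq k] [IsAlgClosed k] [CharP k p] (B : Base p k) (K : Type) [Field K] [Algebra k K]
    (f : RatFunc k) (hK : IsArtinSchreier k K p f) (h0 : poleOrders f ≠ 0)
    (hd : ∀ d ∈ poleOrders f, d ∣ p - 1) :
    ∃ (f1 : RatFunc k) (J : Finset (Option k)) (d : Option k → ℕ), IsArtinSchreier k K p f1 ∧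
      PoleData B f1 J d ∧ J.val.map d = poleOrders f := by
  obtain ⟨f1, hf1, ho, hlt⟩ : ∃ f1 : RatFunc k, IsArtinSchreier k K p f1 ∧
      poleOrders f1 = poleOrders f ∧ f1.denom.natDegree < f1.num.natDegree := by
    by_cases h : f.denom.natDegree < f.num.natDegree
    · exact ⟨f, hK, rfl, h⟩
    · exact hRED2 p k K f hK h0 h
  obtain ⟨J, d, h1, h2, h3, h4⟩ := hRED1 p k B f1
  refine ⟨f1, J, d, hf1, ⟨h2.2 hlt, fun j hj => (h3 j hj).1, fun j hj => ?_,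
    fun j hj => (h3 j hj).2.1, fun j hj => (h3 j hj).2.2, h4⟩, h1.trans ho⟩
  refine hd _ ?_
  rw [← ho, ← h1]
  exact Multiset.mem_map_of_mem d hj

end MAIN

theorem t_MAIN (hBD : S_BD) (hBX : S_BX) (hBC : S_BC) (hFM : S_FM) (hVM : S_VM) (hMT : S_MT)
    (hFIN : S_FIN) (hCOMB : S_COMB) (hT0 : S_T0) (hTR : S_TR) (hRED1 : S_RED1) (hRED2 : S_RED2)
    (hEP : S_EP) : S_MAIN := by
  intro p hp k _ _ _ _ K K' _ _ _ _ f f' hK hK' h0 hd hff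
  haveI : Fact p.Prime := ⟨hp⟩
  obtain ⟨B⟩ := MAIN.base hBD hBX hBC p k hp
  obtain ⟨f1, J, d, hK1, hP, hJ⟩ := MAIN.red hRED1 hRED2 p k B K f hK h0 hd
  obtain ⟨f2, J', d', hK2, hP', hJ'⟩ := MAIN.red hRED1 hRED2 p k B K' f' hK' (by rwa [hff])
    (by rwa [hff])
  obtain ⟨F, hF⟩ := hFM p k B f1 J d hP
  obtain ⟨V, hV⟩ := hVM p k B f1 J d hP
  obtain ⟨F', hF'⟩ := hFM p k B f2 J' d' hP'
  obtain ⟨V', hV'⟩ := hVM p k B f2 J' d' hP'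
  obtain ⟨w, hw, hwF, hwV⟩ := hMT p k B f1 J d hP F V hF hV
  obtain ⟨w', hw', hwF', hwV'⟩ := hMT p k B f2 J' d' hP' F' V' hF' hV'
  obtain ⟨σ, hσ⟩ := hCOMB p k J J' d d' hP.inf hP'.inf (fun j hj => ⟨hP.pos j hj, hP.dvd j hj⟩)
    (fun j hj => ⟨hP'.pos j hj, hP'.dvd j hj⟩) (hJ.trans (hff.symm.trans hJ'.symm))
  obtain ⟨Ψ, hΨF, hΨV⟩ := hFIN p k (Hm B f1 J d) (Hm B f2 J' d') (p - 1) (IB J d) (IB J' d') w w'
    (fun b => ee p d b.1) (fun b => ee p d' b.1) σ F V F' V' hw hw' hσ hF.1 hV.1 hF'.1 hV'.1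
    hwF hwV hwF' hwV'
  obtain ⟨ι, y, hι⟩ := hT0 p k K f1 hK1
  obtain ⟨ι', y', hι'⟩ := hT0 p k K' f2 hK2
  obtain ⟨Θ, hΘF, hΘV⟩ := hTR p k B f1 J d hP K ι y hι F V hF hV
  obtain ⟨Θ', hΘF', hΘV'⟩ := hTR p k B f2 J' d' hP' K' ι' y' hι' F' V' hF' hV'
  let Ψk : Hm B f1 J d ≃ₗ[k] Hm B f2 J' d' :=
    { Ψ.toAddEquiv with
      map_smul' := fun c m => by
        simp only [RingHom.id_apply]
        exact Ψ.map_smul (PowerSeries.C c) m }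
  have hΨk : ∀ m, Ψk m = Ψ m := fun _ => rfl
  let Φ : HdR k K ≃ₗ[k] HdR k K' := (Θ.symm.trans Ψk).trans Θ'
  have hΦ : ∀ m, Φ (Θ m) = Θ' (Ψ m) := fun m => by
    simp only [Φ, LinearEquiv.trans_apply, LinearEquiv.symm_apply_apply, hΨk]
  have hΦF : ∀ v w, IsF k K p v w ↔ IsF k K' p (Φ v) (Φ w) := by
    intro v w
    obtain ⟨v, rfl⟩ := Θ.surjective v
    obtain ⟨w, rfl⟩ := Θ.surjective w
    rw [hΦ, hΦ, hΘF, hΘF', ← hΨF, EmbeddingLike.apply_eq_iff_eq]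
  have hΦV : ∀ v w, IsV k K p v w ↔ IsV k K' p (Φ v) (Φ w) := by
    intro v w
    obtain ⟨v, rfl⟩ := Θ.surjective v
    obtain ⟨w, rfl⟩ := Θ.surjective w
    rw [hΦ, hΦ, hΘV, hΘV', ← hΨV, EmbeddingLike.apply_eq_iff_eq]
  exact ⟨⟨Φ, hΦF, hΦV⟩, hEP p k K K' Φ hΦF hΦV⟩

end

end Pool.Agent.Helper61.EO
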