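import Pool.Agent.Helper61.EO.Stm

/-!
Project EO: the main theorem on the model.
-/

set_option autoImplicit false

namespace Pool.Agent.Helper61.EO

open PowerSeries

noncomputable section

namespace MT

variable {p : ℕ} {k : Type} [Field k] {B : Base p k} {f : RatFunc k} {J : Finset (Option k)}
  {d : Option k → ℕ}

theorem cl_eq {z z' : Zm B f J d} :
    Hm.cl B f J d z = Hm.cl B f J d z' ↔ z.1 - z'.1 ∈ Bm B f J d := by
  rw [Submodule.Quotient.eq, Submodule.submoduleOf, Submodule.mem_comap]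
  rfl

theorem cl_zero {z : Zm B f J d} :
    Hm.cl B f J d z = 0 ↔ z.1 ∈ Bm B f J d := by
  rw [← Submodule.Quotient.mk_zero, cl_eq]
  simp

theorem hol_mem {w : (RatFunc k)⟦X⟧} (hw : hol B J d w) : (w, 0) ∈ Zm B f J d :=
  ⟨hw.1, fun j hj => by
    simp only [Pi.zero_apply, nab_zero, sub_zero]
    exact hw.2 j hj⟩

/-- classes of holomorphic forms -/
def Hol (B : Base p k) (f : RatFunc k) (J : Finset (Option k)) (d : Option k → ℕ) :
    Submodule (k⟦X⟧) (Hm B f J d) where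
  carrier := {m | ∃ (w : _) (hw : hol B J d w), m = Hm.cl B f J d ⟨(w, 0), hol_mem hw⟩}
  add_mem' := by
    rintro _ _ ⟨w, hw, rfl⟩ ⟨w', hw', rfl⟩
    refine ⟨w + w', ⟨hw.1.add B hw'.1, fun j hj => (hw.2 j hj).add B (hw'.2 j hj)⟩, ?_⟩
    rw [← Submodule.Quotient.mk_add, cl_eq]
    simp only [Submodule.coe_add, Prod.mk_add_mk, add_zero, sub_self]
    exact zero_mem _
  zero_mem' := ⟨0, ⟨inA.zero B, fun _ _ => inW.zero B⟩, by
    symm
    rw [cl_zero]
    exact zero_mem _⟩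
  smul_mem' := by
    rintro s _ ⟨w, hw, rfl⟩
    refine ⟨s • w, ⟨hw.1.sm B s, fun j hj => (hw.2 j hj).sm B s⟩, ?_⟩
    rw [← Submodule.Quotient.mk_smul, cl_eq]
    have : (s • (⟨(w, 0), hol_mem hw⟩ : Zm B f J d)).1 = (s • w, 0) := by
      simp
    rw [this]
    simp only [sub_self]
    exact zero_mem _

variable [Fact p.Prime] [IsAlgClosed k] [CharP k p]

/-- the basis -/
def v (hVZ : S_VZ) (hP : PoleData B f J d) (b : IB J d) : Hm B f J d :=
  Hm.cl B f J d ⟨vb B f d b.1, hVZ p k B f J d hP b.1 b.2⟩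

theorem sum_cl (hVZ : S_VZ) (hP : PoleData B f J d) (s : (Σ _ : Option k, ℕ) → k⟦X⟧) :
    ∃ h : ∑ b ∈ IB J d, s b • vb B f d b ∈ Zm B f J d,
      ∑ b : IB J d, s b.1 • v hVZ hP b = Hm.cl B f J d ⟨_, h⟩ := by
  have h : ∑ b ∈ IB J d, s b • vb B f d b ∈ Zm B f J d :=
    Submodule.sum_mem _ fun b hb => Submodule.smul_mem _ _ (hVZ p k B f J d hP b hb)
  refine ⟨h, ?_⟩
  have h1 : ∑ b : IB J d, s b.1 • v hVZ hP b = Hm.cl B f J d
      (∑ b : IB J d, s b.1 • (⟨vb B f d b.1, hVZ p k B f J d hP b.1 b.2⟩ : Zm B f J d)) := by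
    unfold v
    simp only [Hm.cl, ← Submodule.mkQ_apply, map_sum, map_smul]
  rw [h1, cl_eq]
  have h2 : (↑(∑ b : IB J d, s b.1 • (⟨vb B f d b.1, hVZ p k B f J d hP b.1 b.2⟩ :
      Zm B f J d)) : (RatFunc k)⟦X⟧ × (Option k → (RatFunc k)⟦X⟧)) =
      ∑ b ∈ IB J d, s b • vb B f d b := by
    rw [Submodule.coe_sum]
    simp only [Submodule.coe_smul]
    exact Finset.sum_coe_sort (IB J d) (fun b => s b • vb B f d b)
  rw [h2]
  simp only [sub_self]
  exact zero_mem _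

/-- extend a family on `IB J d` by zero -/
theorem ext_fam (s : IB J d → k⟦X⟧) : ∃ s' : (Σ _ : Option k, ℕ) → k⟦X⟧,
    ∀ b : IB J d, s' b.1 = s b := by
  classical
  exact ⟨fun b => if h : b ∈ IB J d then s ⟨b, h⟩ else 0, fun b => by simp [b.2]⟩

theorem hol_comb (hVZ : S_VZ) (hHOL : S_HOL) (hP : PoleData B f J d) {m : Hm B f J d}
    (hm : m ∈ Hol B f J d) : ∃ s : IB J d → k⟦X⟧,
      m = ∑ b, (X ^ (p - 1 - ee p d b.1) * s b) • v hVZ hP b := by
  obtain ⟨w, hw, rfl⟩ := hm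
  obtain ⟨s, hs⟩ := hHOL p k B f J d hP w hw
  refine ⟨fun b => s b.1, ?_⟩
  obtain ⟨h, h'⟩ := sum_cl hVZ hP (fun b => X ^ (p - 1 - ee p d b) * s b)
  rw [h', cl_eq]
  exact hs

theorem isB (hVZ : S_VZ) (hKIL : S_KIL) (hIND : S_IND) (hHOL : S_HOL) (hSPAN : S_SPAN)
    (hP : PoleData B f J d) : IsB k (p - 1) (v hVZ hP) := by
  refine ⟨fun m => ?_, fun s => ⟨fun h => ?_, fun h => ?_⟩⟩
  · obtain ⟨z, rfl⟩ := Submodule.Quotient.mk_surjective _ m
    obtain ⟨s, w, hw, hs⟩ := hSPAN p k B f J d hP z.1 z.2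
    obtain ⟨t, ht⟩ := hol_comb hVZ hHOL hP (m := Hm.cl B f J d ⟨(w, 0), hol_mem hw⟩) ⟨w, hw, rfl⟩
    refine ⟨fun b => s b.1 + X ^ (p - 1 - ee p d b.1) * t b, ?_⟩
    simp only [add_smul, Finset.sum_add_distrib]
    rw [← ht]
    obtain ⟨h, h'⟩ := sum_cl hVZ hP s
    rw [h', ← Submodule.Quotient.mk_add, cl_eq]
    have e : z.1 - ((⟨∑ b ∈ IB J d, s b • vb B f d b, h⟩ : Zm B f J d) +
        ⟨(w, 0), hol_mem hw⟩).1 = z.1 - (w, 0) - ∑ b ∈ IB J d, s b • vb B f d b := by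
      change z.1 - (∑ b ∈ IB J d, s b • vb B f d b + (w, 0)) = _
      rw [sub_sub, add_comm]
    rw [e]
    exact hs
  · obtain ⟨s', hs'⟩ := ext_fam s
    obtain ⟨h1, h2⟩ := sum_cl hVZ hP s'
    simp only [hs'] at h2
    rw [h2, cl_zero] at h
    intro b
    rw [← hs' b]
    exact hIND p k B f J d hP s' h b.1 b.2
  · refine Finset.sum_eq_zero fun b _ => ?_
    obtain ⟨t, ht⟩ := h b
    rw [ht, mul_comm, mul_smul]
    have : (X : k⟦X⟧) ^ (p - 1) • v hVZ hP b = 0 := by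
      unfold v
      rw [← Submodule.Quotient.mk_smul, cl_zero]
      exact hKIL p k B f J d hP b.1 b.2
    rw [this, smul_zero]

/-! ### consequences of the specifications -/

variable {F V : Hm B f J d →+ Hm B f J d}

theorem V_sm (hV : VSpec B f J d V) (s : k⟦X⟧) (m : Hm B f J d) :
    s • V m = V (fr p k s • m) := (hV.1 s m).symm

theorem fr_X (m : ℕ) : fr p k (X ^ m) = X ^ m := by
  rw [map_pow, fr, PowerSeries.map_X]

theorem V_X (hV : VSpec B f J d V) (n : ℕ) (m : Hm B f J d) :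
    V ((X : k⟦X⟧) ^ n • m) = (X : k⟦X⟧) ^ n • V m := by
  have := hV.1 (X ^ n) m
  rwa [fr_X] at this

theorem V_mem (hV : VSpec B f J d V) (z : Zm B f J d) : (carS B f z.1.1, 0) ∈ Zm B f J d := by
  obtain ⟨z', h1, h2, h3⟩ := hV.2 z
  rw [← h1, ← h2]
  exact z'.2

/-- `V` of a class -/
theorem V_cl (hV : VSpec B f J d V) (z : Zm B f J d) :
    V (Hm.cl B f J d z) = Hm.cl B f J d ⟨(carS B f z.1.1, 0), V_mem hV z⟩ := by
  obtain ⟨z', h1, h2, h3⟩ := hV.2 z
  rw [h3]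
  congr 1
  apply Subtype.ext
  exact Prod.ext h2 h1

theorem kill (hVZ : S_VZ) (hP : PoleData B f J d) (hb : IsB k (p - 1) (v hVZ hP))
    (m : Hm B f J d) : (X : k⟦X⟧) ^ (p - 1) • m = 0 := by
  obtain ⟨s, rfl⟩ := hb.1 m
  rw [Finset.smul_sum]
  simp only [smul_smul]
  exact (hb.2 _).2 fun i => dvd_mul_right _ _

theorem ib_mem {b : Σ _ : Option k, ℕ} (hb : b ∈ IB J d) (hP : PoleData B f J d) :
    b.1 ∈ J ∧ b.2 ≤ d b.1 ∧ (b.1 = none → 1 ≤ b.2) := by
  rw [IB, Finset.mem_sigma] at hb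
  refine ⟨hb.1, ?_⟩
  rcases b with ⟨j, a⟩
  cases j with
  | none =>
    have := hb.2
    simp only [Finset.mem_Ico] at this
    exact ⟨this.2.le, fun _ => this.1⟩
  | some c =>
    have := hb.2
    simp only [Finset.mem_range] at this
    exact ⟨by simpa using Nat.lt_succ_iff.1 this, fun h => by simp at h⟩

theorem EE_mul {j : Option k} (hj : j ∈ J) (hP : PoleData B f J d) : EE p d j * d j = p - 1 :=
  Nat.div_mul_cancel (hP.dvd j hj)

theorem EE_pos {j : Option k} (hj : j ∈ J) (hP : PoleData B f J d) : 0 < EE p d j := by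
  have hp := (Fact.out : p.Prime).two_le
  exact Nat.div_pos (Nat.le_of_dvd (by omega) (hP.dvd j hj)) (hP.pos j hj)

theorem ee_le {b : Σ _ : Option k, ℕ} (hb : b ∈ IB J d) (hP : PoleData B f J d) :
    ee p d b ≤ p - 1 := by
  obtain ⟨h1, h2, -⟩ := ib_mem hb hP
  rw [← EE_mul h1 hP]
  exact Nat.mul_le_mul_left _ h2

theorem ee_lt {b : Σ _ : Option k, ℕ} (hb : b ∈ IB J d) (hP : PoleData B f J d)
    (h : b.2 < d b.1) : ee p d b < p - 1 := by
  obtain ⟨h1, h2, -⟩ := ib_mem hb hP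
  rw [← EE_mul h1 hP]
  exact Nat.mul_lt_mul_of_pos_left h (EE_pos h1 hP)

theorem ee_eq {b : Σ _ : Option k, ℕ} (hb : b ∈ IB J d) (hP : PoleData B f J d)
    (h : b.2 = d b.1) : ee p d b = p - 1 := by
  obtain ⟨h1, h2, -⟩ := ib_mem hb hP
  rw [← EE_mul h1 hP, ee, h]

/-- the relation between `V` and the classes of `gb` -/
theorem V_gb (hVZ : S_VZ) (hGZ : S_GZ) (hGV : S_GV) (hP : PoleData B f J d)
    (hV : VSpec B f J d V) (b : IB J d) (h : b.1.2 < d b.1.1) : ∃ η ∈ Hol B f J d,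
      V (Hm.cl B f J d ⟨gb B f d b.1, (hGZ p k B f J d hP b.1 b.2 h).1⟩) =
        -((X : k⟦X⟧) ^ (p - 1 - ee p d b.1) • v hVZ hP b) +
          (X : k⟦X⟧) ^ (p - ee p d b.1) • η := by
  obtain ⟨w, hw, h1⟩ := hGV p k B f J d hP b.1 b.2 h
  refine ⟨_, ⟨w, hw, rfl⟩, ?_⟩
  rw [V_cl hV, eq_comm, neg_add_eq_iff_eq_add, eq_comm, v, ← Submodule.Quotient.mk_smul,
    ← Submodule.Quotient.mk_smul, ← Submodule.Quotient.mk_add, cl_eq]
  have e : ((X : k⟦X⟧) ^ (p - 1 - ee p d b.1) • (⟨vb B f d b.1, hVZ p k B f J d hP b.1 b.2⟩ :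
      Zm B f J d) + ⟨(carS B f (gb B f d b.1).1, 0),
        V_mem hV ⟨gb B f d b.1, (hGZ p k B f J d hP b.1 b.2 h).1⟩⟩).1 -
      ((X : k⟦X⟧) ^ (p - ee p d b.1) • (⟨(w, 0), hol_mem hw⟩ : Zm B f J d)).1 =
      (carS B f (gb B f d b.1).1, 0) + (X : k⟦X⟧) ^ (p - 1 - ee p d b.1) • vb B f d b.1 -
      (X : k⟦X⟧) ^ (p - ee p d b.1) • (w, 0) := by
    change ((X : k⟦X⟧) ^ (p - 1 - ee p d b.1) • vb B f d b.1 +
      (carS B f (gb B f d b.1).1, 0)) - (X : k⟦X⟧) ^ (p - ee p d b.1) • (w, 0) = _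
    rw [add_comm]
  rw [e]
  exact h1

theorem V_top (hVZ : S_VZ) (hGD : S_GD) (hP : PoleData B f J d)
    (hV : VSpec B f J d V) (b : IB J d) (h : b.1.2 = d b.1.1) : ∃ η ∈ Hol B f J d,
      V (v hVZ hP b) = v hVZ hP b + (X : k⟦X⟧) • η := by
  obtain ⟨w, hw, h1⟩ := hGD p k B f J d hP b.1 b.2 h
  refine ⟨_, ⟨w, hw, rfl⟩, ?_⟩
  rw [v, V_cl hV, ← Submodule.Quotient.mk_smul, ← Submodule.Quotient.mk_add, cl_eq]
  change (carS B f (vb B f d b.1).1, 0) - (vb B f d b.1 + (X : k⟦X⟧) • (w, 0)) ∈ Bm B f J d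
  rw [← sub_sub]
  exact h1

/-- `V` is onto the holomorphic forms -/
theorem V_onto (hVZ : S_VZ) (hHOL : S_HOL) (hGZ : S_GZ) (hGV : S_GV) (hGD : S_GD)
    (hP : PoleData B f J d) (hV : VSpec B f J d V) (hb : IsB k (p - 1) (v hVZ hP))
    {m : Hm B f J d} (hm : m ∈ Hol B f J d) : ∃ z, V z = m := by
  have step1 : ∀ b : IB J d, ∃ z, ∃ η ∈ Hol B f J d,
      (X : k⟦X⟧) ^ (p - 1 - ee p d b.1) • v hVZ hP b = V z + (X : k⟦X⟧) • η := by
    intro b
    rcases lt_or_eq_of_le (ib_mem b.2 hP).2.1 with h | h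
    · obtain ⟨η, hη, h1⟩ := V_gb hVZ hGZ hGV hP hV b h
      refine ⟨-Hm.cl B f J d ⟨gb B f d b.1, (hGZ p k B f J d hP b.1 b.2 h).1⟩,
        (X : k⟦X⟧) ^ (p - 1 - ee p d b.1) • η, Submodule.smul_mem _ _ hη, ?_⟩
      rw [map_neg, h1, smul_smul, ← pow_succ']
      have e : p - 1 - ee p d b.1 + 1 = p - ee p d b.1 := by
        have := ee_lt b.2 hP h
        omega
      rw [e]
      abel
    · obtain ⟨η, hη, h1⟩ := V_top hVZ hGD hP hV b h
      refine ⟨v hVZ hP b, -η, neg_mem hη, ?_⟩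
      rw [ee_eq b.2 hP h, h1, Nat.sub_self, pow_zero, one_smul, smul_neg]
      abel
  have step2 : ∀ m ∈ Hol B f J d, ∃ z, ∃ η ∈ Hol B f J d, m = V z + (X : k⟦X⟧) • η := by
    intro m hm
    obtain ⟨s, rfl⟩ := hol_comb hVZ hHOL hP hm
    choose z η hη h using step1
    refine ⟨∑ b, fr p k (s b) • z b, ∑ b, s b • η b,
      Submodule.sum_mem _ fun b _ => Submodule.smul_mem _ _ (hη b), ?_⟩
    rw [map_sum, Finset.smul_sum, ← Finset.sum_add_distrib]
    refine Finset.sum_congr rfl fun b _ => ?_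
    rw [mul_comm, mul_smul, h b, smul_add, V_sm hV, smul_smul, smul_smul, mul_comm X]
  have step3 : ∀ (n : ℕ) (m), m ∈ Hol B f J d → ∃ z, ∃ η ∈ Hol B f J d,
      m = V z + (X : k⟦X⟧) ^ n • η := by
    intro n
    induction n with
    | zero => exact fun m hm => ⟨0, m, hm, by simp⟩
    | succ n ih =>
      intro m hm
      obtain ⟨z, η, hη, rfl⟩ := ih m hm
      obtain ⟨z', η', hη', rfl⟩ := step2 η hη
      refine ⟨z + (X : k⟦X⟧) ^ n • z', η', hη', ?_⟩
      rw [map_add, V_X hV, smul_add, smul_smul, ← pow_succ, add_assoc]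
  obtain ⟨z, η, -, h⟩ := step3 (p - 1) m hm
  exact ⟨z, by rw [h, kill hVZ hP hb, add_zero]⟩

/-! ### leading coefficients -/

omit [Fact p.Prime] [IsAlgClosed k] [CharP k p] in
/-- `A` has order at least `m`, with coefficient `α` at `m` -/
def Low (A : LaurentSeries k) (m : ℤ) (α : k) : Prop :=
  (∀ i < m, A.coeff i = 0) ∧ A.coeff m = α

omit [Fact p.Prime] [IsAlgClosed k] [CharP k p] in
theorem Low.mul {A A' : LaurentSeries k} {m n : ℤ} {α β : k} (hA : Low A m α)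
    (hB : Low A' n β) : Low (A * A') (m + n) (α * β) := by
  refine ⟨fun i hi => ?_, ?_⟩
  · rw [HahnSeries.coeff_mul]
    refine Finset.sum_eq_zero fun x hx => ?_
    rw [Finset.mem_antidiagonal] at hx
    obtain ⟨h1, h2, h3⟩ := hx
    rcases lt_or_ge x.1 m with h | h
    · rw [hA.1 _ h, zero_mul]
    · rw [hB.1 x.2 (by omega), mul_zero]
  · rw [HahnSeries.coeff_mul]
    by_cases hm : α = 0
    · rw [hm, zero_mul]
      refine Finset.sum_eq_zero fun x hx => ?_
      rw [Finset.mem_antidiagonal] at hx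
      obtain ⟨h1, h2, h3⟩ := hx
      rcases lt_or_ge x.1 m with h | h
      · rw [hA.1 _ h, zero_mul]
      · rcases lt_or_ge x.2 n with h' | h'
        · rw [hB.1 _ h', mul_zero]
        · have : x.1 = m := by omega
          rw [this, hA.2, hm, zero_mul]
    by_cases hn : β = 0
    · rw [hn, mul_zero]
      refine Finset.sum_eq_zero fun x hx => ?_
      rw [Finset.mem_antidiagonal] at hx
      obtain ⟨h1, h2, h3⟩ := hx
      rcases lt_or_ge x.1 m with h | h
      · rw [hA.1 _ h, zero_mul]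
      · rcases lt_or_ge x.2 n with h' | h'
        · rw [hB.1 _ h', mul_zero]
        · have : x.2 = n := by omega
          rw [this, hB.2, hn, mul_zero]
    rw [Finset.sum_eq_single (m, n), hA.2, hB.2]
    · intro x hx hne
      rw [Finset.mem_antidiagonal] at hx
      obtain ⟨h1, h2, h3⟩ := hx
      rcases lt_or_ge x.1 m with h | h
      · rw [hA.1 _ h, zero_mul]
      · rcases lt_or_ge x.2 n with h' | h'
        · rw [hB.1 _ h', mul_zero]
        · exact absurd (Prod.ext (by omega) (by omega) : x = (m, n)) hne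
    · intro h
      exfalso
      apply h
      rw [Finset.mem_antidiagonal]
      exact ⟨by rw [HahnSeries.mem_support, hA.2]; exact hm,
        by rw [HahnSeries.mem_support, hB.2]; exact hn, rfl⟩

omit [Fact p.Prime] [IsAlgClosed k] [CharP k p] in
theorem Low.one : Low (1 : LaurentSeries k) 0 1 := by
  refine ⟨fun i hi => ?_, ?_⟩
  · rw [HahnSeries.coeff_one, if_neg (by omega)]
  · rw [HahnSeries.coeff_one, if_pos rfl]

omit [Fact p.Prime] [IsAlgClosed k] [CharP k p] in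
theorem Low.pow {A : LaurentSeries k} {m : ℤ} {α : k} (hA : Low A m α) (n : ℕ) :
    Low (A ^ n) (n * m) (α ^ n) := by
  induction n with
  | zero => simpa using Low.one
  | succ n ih =>
    have := ih.mul hA
    rw [pow_succ, pow_succ]
    convert this using 1
    push_cast
    ring

/-- the coefficient `0` of the second component of `gb` has order exactly `b.2` -/
theorem gb_low (hTT : S_TT) (hP : PoleData B f J d) {b : Σ _ : Option k, ℕ} (hb : b ∈ IB J d)
    (h : b.2 < d b.1) : ∃ α : k, α ≠ 0 ∧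
      Low (B.ex b.1 (coeff 0 (mk fun i => if i + ee p d b < p then
      (((i + ee p d b).factorial : ℕ) : RatFunc k)⁻¹ * f ^ (i + ee p d b) * tt b.1 ^ (p * b.2)
      else 0 : (RatFunc k)⟦X⟧))) (b.2 : ℤ) α := by
  have hp := (Fact.out : p.Prime)
  have hJ := (ib_mem hb hP).1
  have he := ee_lt hb hP h
  have hlt : ee p d b < p := by omega
  rw [coeff_mk, zero_add, if_pos hlt]
  have hf : Low (B.ex b.1 f) (-(d b.1 : ℤ)) ((B.ex b.1 f).coeff (-(d b.1 : ℤ))) :=
    ⟨fun i hi => hP.low _ hJ i hi, rfl⟩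
  have ht : Low (B.ex b.1 (tt b.1)) 1 1 := by
    rw [(hTT p k B).1]
    refine ⟨fun i hi => ?_, ?_⟩
    · rw [HahnSeries.coeff_single_of_ne (by omega)]
    · rw [HahnSeries.coeff_single_same]
  have hfac : (((ee p d b).factorial : ℕ) : k) ≠ 0 := by
    intro h0
    rw [CharP.cast_eq_zero_iff k p, hp.dvd_factorial] at h0
    omega
  have hc : Low (B.ex b.1 ((((ee p d b).factorial : ℕ) : RatFunc k)⁻¹)) 0
      ((((ee p d b).factorial : ℕ) : k)⁻¹) := by
    have e1 : ((((ee p d b).factorial : ℕ) : RatFunc k)⁻¹) =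
        RatFunc.C ((((ee p d b).factorial : ℕ) : k)⁻¹) := by
      rw [map_inv₀, map_natCast]
    rw [e1, B.ex_C]
    refine ⟨fun i hi => ?_, ?_⟩
    · rw [HahnSeries.C_apply, HahnSeries.coeff_single_of_ne (by omega)]
    · rw [HahnSeries.C_apply, HahnSeries.coeff_single_same]
  have h1 := (hc.mul (hf.pow (ee p d b))).mul (ht.pow (p * b.2))
  rw [← map_pow, ← map_pow, ← map_mul, ← map_mul] at h1
  have e3 : (0 : ℤ) + ↑(ee p d b) * -↑(d b.fst) + ↑(p * b.snd) * 1 = (b.2 : ℤ) := by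
    have e2 : (ee p d b : ℤ) * d b.1 = (p - 1 : ℤ) * b.2 := by
      have := EE_mul hJ hP
      have h2 : (ee p d b : ℤ) * d b.1 = ((EE p d b.1 * d b.1 : ℕ) : ℤ) * b.2 := by
        rw [ee]
        push_cast
        ring
      rw [h2, this, Nat.cast_sub hp.one_lt.le]
      push_cast
      ring
    push_cast
    linarith [e2]
  rw [e3] at h1
  refine ⟨_, ?_, h1⟩
  rw [one_pow, mul_one]
  exact mul_ne_zero (inv_ne_zero hfac) (pow_ne_zero _ (hP.lead _ hJ))

/-- the data for the semilinear lemma: an element `g` -/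
theorem exists_g (hVZ : S_VZ) (hHOL : S_HOL) (hSPAN0 : S_SPAN0) (hGZ : S_GZ) (hGV : S_GV)
    (hGD : S_GD) (hTT : S_TT) (hP : PoleData B f J d) (hF : FSpec B f J d F)
    (hV : VSpec B f J d V) (hb : IsB k (p - 1) (v hVZ hP)) (b : IB J d) :
    ∃ (g : Hm B f J d) (u : IB J d → k⟦X⟧), F (v hVZ hP b) = (X : k⟦X⟧) ^ ee p d b.1 • g ∧
      V g = -((X : k⟦X⟧) ^ (p - 1 - ee p d b.1) • v hVZ hP b) ∧ g = ∑ c, u c • v hVZ hP c ∧
      (∀ c, ee p d c.1 ≤ ee p d b.1 → c ≠ b → constantCoeff (u c) = 0) ∧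
      constantCoeff (u b) ≠ 0 := by
  classical
  have hp := (Fact.out : p.Prime)
  have hFv : F (v hVZ hP b) = Hm.cl B f J d (hF.2 ⟨vb B f d b.1, hVZ p k B f J d hP b.1 b.2⟩).choose :=
    (hF.2 ⟨vb B f d b.1, hVZ p k B f J d hP b.1 b.2⟩).choose_spec.2.2
  obtain ⟨z', hz1, hz2, hz3⟩ := hF.2 ⟨vb B f d b.1, hVZ p k B f J d hP b.1 b.2⟩
  rcases lt_or_eq_of_le (ib_mem b.2 hP).2.1 with h | h
  · -- the case `b.2 < d`
    obtain ⟨η, hη, hVη⟩ := V_gb hVZ hGZ hGV hP hV b h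
    obtain ⟨z, hz⟩ := V_onto hVZ hHOL hGZ hGV hGD hP hV hb hη
    obtain ⟨hg1, hg2⟩ := hGZ p k B f J d hP b.1 b.2 h
    obtain ⟨r, hr⟩ := hb.1 z
    obtain ⟨α, hα, hlow⟩ := gb_low hTT hP b.2 h
    obtain ⟨s, w', hw', hs1, hs2, hs3⟩ := hSPAN0 p k B f J d hP b.1.1 _ _ (ib_mem b.2 hP).1 hg1
      (fun m hm => hlow.1 m (by omega)) (fun hj => hlow.1 0 (by
        have := (ib_mem b.2 hP).2.2 hj
        omega))
    obtain ⟨t, ht⟩ := hol_comb hVZ hHOL hP (m := Hm.cl B f J d ⟨(w', 0), hol_mem hw'⟩)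
      ⟨w', hw', rfl⟩
    have hlt := ee_lt b.2 hP h
    refine ⟨Hm.cl B f J d ⟨gb B f d b.1, hg1⟩ - (X : k⟦X⟧) ^ (p - ee p d b.1) • z,
      fun c => s c.1 + X ^ (p - 1 - ee p d c.1) * t c - X ^ (p - ee p d b.1) * r c,
      ?_, ?_, ?_, ?_, ?_⟩
    · rw [smul_sub, smul_smul, ← pow_add]
      have e1 : ee p d b.1 + (p - ee p d b.1) = (p - 1) + 1 := by omega
      rw [e1, pow_succ', mul_smul, kill hVZ hP hb, smul_zero, sub_zero, v, hz3,
        ← Submodule.Quotient.mk_smul, eq_comm, cl_eq]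
      have e2 : z'.1 = (0, at' b.1.1 (expo p f * C (tt b.1.1 ^ (p * b.1.2)))) := by
        refine Prod.ext hz1 (funext fun j => ?_)
        have e0 : (vb B f d b.1).2 j = at' b.1.1 (C (tt b.1.1 ^ b.1.2)) j := by
          rw [vb, if_pos h]
        refine (hz2 j).trans ?_
        change expo p f * fr p (RatFunc k) ((vb B f d b.1).2 j) = _
        rw [e0]
        simp only [at']
        split_ifs
        · rw [fr, PowerSeries.map_C, frobenius_def, ← pow_mul, mul_comm b.1.2]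
        · rw [map_zero, mul_zero]
      rw [e2]
      exact hg2
    · rw [map_sub, V_X hV, hz, hVη, add_sub_cancel_right]
    · simp only [sub_smul, add_smul, Finset.sum_sub_distrib, Finset.sum_add_distrib, mul_smul]
      rw [← Finset.smul_sum, ← hr]
      simp only [← mul_smul]
      rw [← ht]
      congr 1
      obtain ⟨h1, h2⟩ := sum_cl hVZ hP s
      rw [h2, ← Submodule.Quotient.mk_add, cl_eq]
      change gb B f d b.1 - (∑ b ∈ IB J d, s b • vb B f d b + (w', 0)) ∈ Bm B f J d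
      have e3 : gb B f d b.1 - (∑ b ∈ IB J d, s b • vb B f d b + (w', 0)) =
        gb B f d b.1 - (w', 0) - ∑ b ∈ IB J d, s b • vb B f d b := by
        rw [sub_sub, add_comm]
      rw [e3]
      exact hs1
    · intro c hc hne
      have hc2 : c.1.2 < d c.1.1 := by
        rcases lt_or_eq_of_le (ib_mem c.2 hP).2.1 with h' | h'
        · exact h'
        · rw [ee_eq c.2 hP h'] at hc
          omega
      have h1 : p - 1 - ee p d c.1 ≠ 0 := by omega
      have h2 : p - ee p d b.1 ≠ 0 := by omega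
      simp only [map_sub, map_add, map_mul, map_pow, constantCoeff_X, zero_pow h1, zero_pow h2,
        zero_mul, add_zero, sub_zero]
      by_cases hj : c.1.1 = b.1.1
      · rw [hs3 c.1 c.2 hc2 hj]
        refine hlow.1 _ ?_
        have hE := EE_pos (ib_mem b.2 hP).1 hP
        have h3 : c.1.2 ≤ b.1.2 := by
          rw [ee, ee, hj] at hc
          exact Nat.le_of_mul_le_mul_left hc hE
        have h4 : c.1.2 ≠ b.1.2 := by
          intro h5
          apply hne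
          apply Subtype.ext
          exact Sigma.ext hj (heq_of_eq h5)
        omega
      · exact hs2 c.1 c.2 hc2 hj
    · have h1 : p - 1 - ee p d b.1 ≠ 0 := by omega
      have h2 : p - ee p d b.1 ≠ 0 := by omega
      simp only [map_sub, map_add, map_mul, map_pow, constantCoeff_X, zero_pow h1, zero_pow h2,
        zero_mul, add_zero, sub_zero]
      rw [hs3 b.1 b.2 h rfl, hlow.2]
      exact hα
  · -- the case `b.2 = d`
    obtain ⟨η, hη, hVη⟩ := V_top hVZ hGD hP hV b h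
    obtain ⟨z, hz⟩ := V_onto hVZ hHOL hGZ hGV hGD hP hV hb hη
    obtain ⟨r, hr⟩ := hb.1 z
    have he := ee_eq b.2 hP h
    refine ⟨-v hVZ hP b + (X : k⟦X⟧) • z, fun c => (if c = b then -1 else 0) + X * r c,
      ?_, ?_, ?_, ?_, ?_⟩
    · rw [he, kill hVZ hP hb, v, hz3, cl_zero]
      have e2 : z'.1 = 0 := by
        refine Prod.ext hz1 (funext fun j => ?_)
        have e0 : (vb B f d b.1).2 j = 0 := by
          rw [vb, if_neg (by omega)]
          rfl
        refine (hz2 j).trans ?_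
        change expo p f * fr p (RatFunc k) ((vb B f d b.1).2 j) = _
        rw [e0]
        simp
      rw [e2]
      exact zero_mem _
    · have h1 := V_X hV 1 z
      rw [pow_one] at h1
      rw [map_add, map_neg, h1, hz, hVη, he, Nat.sub_self, pow_zero, one_smul]
      abel
    · simp only [add_smul, Finset.sum_add_distrib, mul_smul]
      rw [← Finset.smul_sum, ← hr]
      congr 1
      rw [Finset.sum_eq_single b]
      · simp
      · intro c _ hc
        simp [hc]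
      · intro h'
        exact absurd (Finset.mem_univ b) h'
    · intro c _ hne
      simp [hne]
    · simp

end MT

theorem t_MT (hFM : S_FM) (hVM : S_VM) (hVZ : S_VZ) (hKIL : S_KIL) (hIND : S_IND) (hHOL : S_HOL)
    (hSPAN : S_SPAN) (hSPAN0 : S_SPAN0) (hGZ : S_GZ) (hGV : S_GV) (hGD : S_GD) (hSLM : S_SLM)
    (hTT : S_TT) : S_MT := by
  classical
  intro p _ k _ _ _ B f J d hP F V hF hV
  have hb := MT.isB hVZ hKIL hIND hHOL hSPAN hP
  choose g U h1 h2 h3 h4 h5 using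
    MT.exists_g hVZ hHOL hSPAN0 hGZ hGV hGD hTT hP hF hV hb
  exact hSLM p k (Hm B f J d) (p - 1) (IB J d) (MT.v hVZ hP) g (fun b => ee p d b.1)
    (fun c b => U b c) F V hb (fun b => MT.ee_le b.2 hP) hF.1 hV.1 h1 h2 h3
    (fun b c hc hne => h4 b c hc hne) h5

end

end Pool.Agent.Helper61.EO
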