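import Pool.Agent.Helper61.EO.Stm

/-!
# A rational function without poles is constant
-/

set_option autoImplicit false

namespace Pool.Agent.Helper61.EO

noncomputable section

namespace P1

variable {p : ℕ} {k : Type} [Field k] (B : Base p k)

/-- the expansion of a polynomial at a finite point -/
theorem ex_poly (c : k) (q : Polynomial k) :
    B.ex (some c) (algebraMap (Polynomial k) (RatFunc k) q) =
      HahnSeries.ofPowerSeries ℤ k ((Polynomial.taylor c q : Polynomial k) : PowerSeries k) := by
  have h : (B.ex (some c)).comp (algebraMap (Polynomial k) (RatFunc k)) =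
      (HahnSeries.ofPowerSeries ℤ k).comp (Polynomial.coeToPowerSeries.ringHom.comp
        (Polynomial.taylorAlgHom c).toRingHom) := by
    refine Polynomial.ringHom_ext (fun a => ?_) ?_
    · change B.ex (some c) (algebraMap (Polynomial k) (RatFunc k) (Polynomial.C a)) =
        HahnSeries.ofPowerSeries ℤ k
          ((Polynomial.taylor c (Polynomial.C a) : Polynomial k) : PowerSeries k)
      rw [RatFunc.algebraMap_C, B.ex_C, Polynomial.taylor_C, Polynomial.coe_C,
        HahnSeries.ofPowerSeries_C]
    · change B.ex (some c) (algebraMap (Polynomial k) (RatFunc k) Polynomial.X) =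
        HahnSeries.ofPowerSeries ℤ k
          ((Polynomial.taylor c Polynomial.X : Polynomial k) : PowerSeries k)
      rw [RatFunc.algebraMap_X, B.ex_some, Polynomial.taylor_X, Polynomial.coe_add,
        Polynomial.coe_C, Polynomial.coe_X, map_add, HahnSeries.ofPowerSeries_C,
        HahnSeries.ofPowerSeries_X, add_comm]
  exact RingHom.congr_fun h q

/-- the expansion of a polynomial at infinity -/
theorem ex_inf (q : Polynomial k) (n : ℕ) :
    (B.ex none (algebraMap (Polynomial k) (RatFunc k) q)).coeff (-(n : ℤ)) = q.coeff n := by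
  induction q using Polynomial.induction_on' with
  | add q r hq hr => rw [map_add, map_add, HahnSeries.coeff_add, hq, hr, Polynomial.coeff_add]
  | monomial m a =>
    rw [← Polynomial.C_mul_X_pow_eq_monomial, map_mul, map_pow, RatFunc.algebraMap_X,
      RatFunc.algebraMap_C, map_mul, map_pow, B.ex_C, B.ex_none, HahnSeries.single_pow, one_pow,
      nsmul_eq_mul, mul_neg_one, HahnSeries.C_mul_eq_smul, HahnSeries.coeff_smul,
      Polynomial.coeff_C_mul_X_pow]
    by_cases h : n = m
    · subst h
      rw [HahnSeries.coeff_single_same, if_pos rfl, smul_eq_mul, mul_one]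
    · rw [if_neg h, HahnSeries.coeff_single_of_ne (by omega), smul_zero]

/-- series without negative terms -/
theorem exists_ps (u : LaurentSeries k) (h : ∀ m < 0, u.coeff m = 0) :
    ∃ P : PowerSeries k, u = HahnSeries.ofPowerSeries ℤ k P := by
  refine ⟨PowerSeries.mk fun n => u.coeff n, ?_⟩
  ext m
  change u.coeff m = ((PowerSeries.mk fun n => u.coeff n : PowerSeries k) :
    LaurentSeries k).coeff m
  rw [PowerSeries.coeff_coe]
  split_ifs with hm
  · exact h m hm
  · rw [PowerSeries.coeff_mk]
    congr 1
    omega

theorem no_root {φ : RatFunc k} (c : k)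
    (h : ∀ m : ℤ, m < 0 → (B.ex (some c) φ).coeff m = 0) : φ.denom.eval c ≠ 0 := by
  intro h0
  obtain ⟨P, hP⟩ := exists_ps _ h
  have h1 : φ * algebraMap (Polynomial k) (RatFunc k) φ.denom =
      algebraMap (Polynomial k) (RatFunc k) φ.num := by
    have h2 := RatFunc.num_div_denom φ
    rw [div_eq_iff (RatFunc.algebraMap_ne_zero φ.denom_ne_zero)] at h2
    exact h2.symm
  have h2 := congrArg (B.ex (some c)) h1
  rw [map_mul, hP, ex_poly, ex_poly, ← map_mul] at h2
  have h3 := HahnSeries.ofPowerSeries_injective h2
  have h4 := congrArg PowerSeries.constantCoeff h3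
  rw [map_mul, Polynomial.constantCoeff_coe, Polynomial.constantCoeff_coe] at h4
  rw [Polynomial.taylor_coeff_zero, Polynomial.taylor_coeff_zero, h0, mul_zero] at h4
  obtain ⟨a, b, hab⟩ := φ.isCoprime_num_denom
  have h5 := congrArg (Polynomial.eval c) hab
  rw [Polynomial.eval_add, Polynomial.eval_mul, Polynomial.eval_mul, ← h4, h0, mul_zero, mul_zero,
    add_zero, Polynomial.eval_one] at h5
  exact zero_ne_one h5

end P1

open P1 in
theorem t_P1 : S_P1 := by
  intro p k _ _ B φ h
  have h1 : φ.denom = 1 := by
    have h2 : φ.denom.degree = 0 := by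
      by_contra hd
      obtain ⟨c, hc⟩ := IsAlgClosed.exists_root φ.denom hd
      exact no_root B c (fun m hm => h _ m hm) hc
    exact (Polynomial.Monic.degree_le_zero_iff_eq_one φ.monic_denom).1 h2.le
  have h2 : φ = algebraMap (Polynomial k) (RatFunc k) φ.num := by
    conv_lhs => rw [← RatFunc.num_div_denom φ, h1]
    rw [map_one, div_one]
  refine ⟨φ.num.coeff 0, ?_⟩
  have h3 : φ.num = Polynomial.C (φ.num.coeff 0) := by
    ext n
    rcases Nat.eq_zero_or_pos n with rfl | hn
    · rw [Polynomial.coeff_C_zero]
    · rw [Polynomial.coeff_C_ne_zero hn.ne', ← ex_inf B φ.num n, ← h2]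
      exact h none _ (by omega)
  conv_lhs => rw [h2, h3]
  rw [RatFunc.algebraMap_C]

end

end Pool.Agent.Helper61.EO
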