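import Pool.Agent.Helper61.EO.Stm

/-!
# A `p`-basis of the field of rational functions
-/

set_option autoImplicit false

namespace Pool.Agent.Helper61.EO

namespace PB

/-- `φ` is a combination of the powers of `t` with coefficients `p`-th powers. -/
def Gd {k : Type} [Field k] (p : ℕ) (t φ : RatFunc k) : Prop :=
  ∃ a : ℕ → RatFunc k, φ = ∑ i ∈ Finset.range p, a i ^ p * t ^ i

theorem Gd.zero {k : Type} [Field k] {p : ℕ} (hp : p.Prime) (t : RatFunc k) : Gd p t 0 :=
  ⟨fun _ => 0, by simp [hp.ne_zero]⟩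

theorem Gd.add {k : Type} [Field k] {p : ℕ} [CharP k p] (hp : p.Prime) {t φ ψ : RatFunc k}
    (h1 : Gd p t φ) (h2 : Gd p t ψ) : Gd p t (φ + ψ) := by
  obtain ⟨a, rfl⟩ := h1
  obtain ⟨b, rfl⟩ := h2
  haveI : Fact p.Prime := ⟨hp⟩
  haveI : CharP (RatFunc k) p :=
    charP_of_injective_algebraMap (algebraMap k (RatFunc k)).injective p
  refine ⟨fun i => a i + b i, ?_⟩
  rw [← Finset.sum_add_distrib]
  refine Finset.sum_congr rfl fun i _ => ?_
  rw [add_pow_char, add_mul]

theorem Gd.sum {k : Type} [Field k] {p : ℕ} [CharP k p] (hp : p.Prime) {t : RatFunc k}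
    {ι : Type} (s : Finset ι) (f : ι → RatFunc k) (h : ∀ i ∈ s, Gd p t (f i)) :
    Gd p t (∑ i ∈ s, f i) := by
  classical
  induction s using Finset.induction_on with
  | empty => exact Gd.zero hp t
  | insert i s hi ih =>
    rw [Finset.sum_insert hi]
    exact Gd.add hp (h i (Finset.mem_insert_self i s))
      (ih fun j hj => h j (Finset.mem_insert_of_mem hj))

theorem Gd.mul {k : Type} [Field k] {p : ℕ} {t φ : RatFunc k} (b : RatFunc k)
    (h : Gd p t φ) : Gd p t (b ^ p * φ) := by
  obtain ⟨a, rfl⟩ := h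
  refine ⟨fun i => b * a i, ?_⟩
  rw [Finset.mul_sum]
  refine Finset.sum_congr rfl fun i _ => ?_
  rw [mul_pow, mul_assoc]

theorem Gd.pow {k : Type} [Field k] {p : ℕ} (hp : p.Prime) (t : RatFunc k) (n : ℕ) :
    Gd p t (t ^ n) := by
  refine ⟨fun i => if i = n % p then t ^ (n / p) else 0, ?_⟩
  rw [Finset.sum_eq_single (n % p)]
  · beta_reduce
    rw [if_pos rfl, ← pow_mul, ← pow_add]
    congr 1
    have := Nat.div_add_mod n p
    rw [mul_comm] at this
    exact this.symm
  · intro i _ hi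
    beta_reduce
    rw [if_neg hi, zero_pow hp.ne_zero, zero_mul]
  · intro h
    exact absurd (Finset.mem_range.2 (Nat.mod_lt n hp.pos)) h

theorem gd_some {k : Type} [Field k] [IsAlgClosed k] {p : ℕ} [CharP k p] (hp : p.Prime) (c : k)
    (φ : RatFunc k) : Gd p (RatFunc.X - RatFunc.C c) φ := by
  have hpoly : ∀ q : Polynomial k,
      Gd p (RatFunc.X - RatFunc.C c) (algebraMap (Polynomial k) (RatFunc k) q) := by
    intro q
    rw [← Polynomial.sum_taylor_eq q c, Polynomial.sum_def, map_sum]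
    refine Gd.sum hp _ _ fun i _ => ?_
    obtain ⟨b, hb⟩ := IsAlgClosed.exists_pow_nat_eq ((Polynomial.taylor c q).coeff i) hp.pos
    have e : algebraMap (Polynomial k) (RatFunc k)
        (Polynomial.C ((Polynomial.taylor c q).coeff i) * (Polynomial.X - Polynomial.C c) ^ i) =
        RatFunc.C b ^ p * (RatFunc.X - RatFunc.C c) ^ i := by
      rw [map_mul, map_pow, map_sub, RatFunc.algebraMap_X, RatFunc.algebraMap_C,
        RatFunc.algebraMap_C, ← hb, map_pow]
    rw [e]
    exact Gd.mul _ (Gd.pow hp _ _)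
  have hden : algebraMap (Polynomial k) (RatFunc k) φ.denom ≠ 0 :=
    RatFunc.algebraMap_ne_zero φ.denom_ne_zero
  have e : φ = (algebraMap (Polynomial k) (RatFunc k) φ.denom)⁻¹ ^ p *
      algebraMap (Polynomial k) (RatFunc k) (φ.num * φ.denom ^ (p - 1)) := by
    conv_lhs => rw [← RatFunc.num_div_denom φ]
    rw [map_mul, map_pow, inv_pow]
    have h1 : (algebraMap (Polynomial k) (RatFunc k) φ.denom) ^ p =
        (algebraMap (Polynomial k) (RatFunc k) φ.denom) ^ (p - 1) *
          algebraMap (Polynomial k) (RatFunc k) φ.denom := by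
      rw [← pow_succ, Nat.sub_add_cancel hp.one_lt.le]
    rw [h1]
    field_simp
  rw [e]
  exact Gd.mul _ (hpoly _)

end PB

open PB in
theorem t_PB : S_PB := by
  intro p k _ _ _ hp j φ
  cases j with
  | some c => exact gd_some hp c φ
  | none =>
    obtain ⟨a, ha⟩ := gd_some hp 0 φ
    change Gd p (RatFunc.X⁻¹) φ
    rw [ha]
    refine Gd.sum hp _ _ fun i hi => Gd.mul _ ?_
    have hX : (RatFunc.X : RatFunc k) ≠ 0 := RatFunc.X_ne_zero
    rw [map_zero, sub_zero]
    rcases Nat.eq_zero_or_pos i with rfl | h0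
    · exact Gd.pow hp _ 0
    · have hip := Finset.mem_range.1 hi
      have e : (RatFunc.X : RatFunc k) ^ i = RatFunc.X ^ p * (RatFunc.X⁻¹) ^ (p - i) := by
        have h1 : (RatFunc.X : RatFunc k) ^ p = RatFunc.X ^ i * RatFunc.X ^ (p - i) := by
          rw [← pow_add]
          congr 1
          omega
        rw [h1, mul_assoc, ← mul_pow, mul_inv_cancel₀ hX, one_pow, mul_one]
      rw [e]
      exact Gd.mul _ (Gd.pow hp _ _)

end Pool.Agent.Helper61.EO
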