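import Pool.Agent.Helper61.EO.Stm

/-!
Project EO, job PFW: partial fractions of differential forms.
-/

set_option autoImplicit false
set_option linter.unusedSectionVars false

namespace Pool.Agent.Helper61.EO

namespace PFW

variable {p : ℕ} {k : Type} [Field k] (B : Base p k)

theorem exW_mul (j : Option k) (φ ψ : RatFunc k) : exW B j (φ * ψ) = B.ex j φ * exW B j ψ := by
  unfold exW; rw [map_mul, mul_assoc]

theorem exW_add (j : Option k) (φ ψ : RatFunc k) :
    exW B j (φ + ψ) = exW B j φ + exW B j ψ := by unfold exW; rw [map_add, add_mul]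

theorem exW_sub (j : Option k) (φ ψ : RatFunc k) :
    exW B j (φ - ψ) = exW B j φ - exW B j ψ := by unfold exW; rw [map_sub, sub_mul]

theorem exW_sum (j : Option k) {α : Type} (s : Finset α) (g : α → RatFunc k) :
    exW B j (∑ i ∈ s, g i) = ∑ i ∈ s, exW B j (g i) := by
  unfold exW; rw [map_sum, Finset.sum_mul]

theorem exW_C (j : Option k) (c : k) (φ : RatFunc k) (m : ℤ) :
    (exW B j (RatFunc.C c * φ)).coeff m = c * (exW B j φ).coeff m := by
  rw [exW_mul, B.ex_C, HahnSeries.C_mul_eq_smul, HahnSeries.coeff_smul, smul_eq_mul]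

theorem exW_some (c : k) (φ : RatFunc k) : exW B (some c) φ = B.ex (some c) φ := by
  unfold exW dxdt; rw [mul_one]

theorem exW_none (φ : RatFunc k) (m : ℤ) :
    (exW B none φ).coeff m = -(B.ex none φ).coeff (m + 2) := by
  unfold exW dxdt
  rw [mul_neg, HahnSeries.coeff_neg]
  congr 1
  rw [mul_comm, HahnSeries.coeff_single_mul, one_mul]
  congr 1

end PFW

open PFW in
theorem t_PFW (hP1 : S_P1) (hFO : S_FO) (hTT : S_TT) : S_PFW := by
  classical
  intro p k _ _ B J hJ φ hreg N hN
  obtain ⟨F1, F2, F3, F4⟩ := hFO p k B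
  set r : Option k → k := fun j => if 2 ≤ N then (exW B j φ).coeff (-1) else 0 with hr
  refine ⟨r, ?_⟩
  set A := ∑ j ∈ J, ∑ n ∈ Finset.Ico 2 N,
      RatFunc.C ((exW B j φ).coeff (-(n : ℤ))) * fo B j n with hA
  set Q := ∑ j ∈ J with j ≠ none, RatFunc.C (r j) * fo B j 1 with hQ
  -- coefficients of `A`
  have cA : ∀ (j : Option k) (m : ℤ), m < 0 → (exW B j A).coeff m =
      if j ∈ J ∧ m ≤ -2 ∧ -(N : ℤ) < m then (exW B j φ).coeff m else 0 := by
    intro j m hm
    rw [hA, exW_sum, HahnSeries.coeff_sum]
    have e1 : ∀ i ∈ J, (exW B j (∑ n ∈ Finset.Ico 2 N,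
        RatFunc.C ((exW B i φ).coeff (-(n : ℤ))) * fo B i n)).coeff m =
        if i = j then (if m ≤ -2 ∧ -(N : ℤ) < m then (exW B j φ).coeff m else 0) else 0 := by
      intro i _
      rw [exW_sum, HahnSeries.coeff_sum]
      split_ifs with h1 h2
      · subst h1
        obtain ⟨n, rfl⟩ : ∃ n : ℕ, m = -(n : ℤ) := ⟨(-m).toNat, by omega⟩
        rw [Finset.sum_eq_single_of_mem n (Finset.mem_Ico.2 ⟨by omega, by omega⟩)]
        · rw [exW_C, F1, HahnSeries.coeff_single_same, mul_one]
        · intro n' _ hne
          rw [exW_C, F1, HahnSeries.coeff_single_of_ne (by omega), mul_zero]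
      · subst h1
        refine Finset.sum_eq_zero fun n hn => ?_
        rw [Finset.mem_Ico] at hn
        rw [exW_C, F1, HahnSeries.coeff_single_of_ne (by omega), mul_zero]
      · refine Finset.sum_eq_zero fun n hn => ?_
        rw [Finset.mem_Ico] at hn
        rw [exW_C, F2 i j n hn.1 (Ne.symm h1) m hm, mul_zero]
    rw [Finset.sum_congr rfl e1, Finset.sum_ite_eq']
    by_cases h1 : j ∈ J
    · by_cases h2 : m ≤ -2 ∧ -(N : ℤ) < m
      · rw [if_pos h1, if_pos h2, if_pos ⟨h1, h2⟩]
      · rw [if_pos h1, if_neg h2, if_neg (fun h => h2 h.2)]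
    · rw [if_neg h1, if_neg (fun h => h1 h.1)]
  -- coefficients of `Q` at finite points
  have cQ : ∀ (c : k) (m : ℤ), m < 0 → (exW B (some c) Q).coeff m =
      if some c ∈ J ∧ m = -1 then r (some c) else 0 := by
    intro c m hm
    rw [hQ, exW_sum, HahnSeries.coeff_sum]
    have e1 : ∀ i ∈ J.filter (fun j => j ≠ none), (exW B (some c) (RatFunc.C (r i) *
        fo B i 1)).coeff m = if i = some c then (if m = -1 then r (some c) else 0) else 0 := by
      intro i hi
      rw [Finset.mem_filter] at hi
      rw [exW_C]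
      split_ifs with h1 h2
      · subst h1; subst h2
        rw [F1]
        norm_num
      · subst h1
        rw [F1, HahnSeries.coeff_single_of_ne (by push_cast; omega), mul_zero]
      · obtain ⟨c', rfl⟩ : ∃ c', i = some c' := by
          cases i with
          | none => exact absurd rfl hi.2
          | some c' => exact ⟨c', rfl⟩
        rw [F3 c' (some c) (Ne.symm h1) (by simp) m hm, mul_zero]
    rw [Finset.sum_congr rfl e1, Finset.sum_ite_eq']
    simp only [Finset.mem_filter, ne_eq, reduceCtorEq, not_false_eq_true, and_true]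
    by_cases h1 : some c ∈ J
    · by_cases h2 : m = -1
      · rw [if_pos h1, if_pos h2, if_pos ⟨h1, h2⟩]
      · rw [if_pos h1, if_neg h2, if_neg (fun h => h2 h.2)]
    · rw [if_neg h1, if_neg (fun h => h1 h.1)]
  have cQ' : ∀ m : ℤ, m < -1 → (exW B none Q).coeff m = 0 := by
    intro m hm
    rw [hQ, exW_sum, HahnSeries.coeff_sum]
    refine Finset.sum_eq_zero fun i hi => ?_
    rw [Finset.mem_filter] at hi
    obtain ⟨c', rfl⟩ : ∃ c', i = some c' := by
      cases i with
      | none => exact absurd rfl hi.2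
      | some c' => exact ⟨c', rfl⟩
    rw [exW_C, F4 c' m hm, mul_zero]
  -- `ψ` is a constant
  obtain ⟨c0, hc0⟩ := hP1 p k B (φ - (A + Q)) (by
    intro j m hm
    cases j with
    | some c =>
      rw [← exW_some, exW_sub, exW_add, HahnSeries.coeff_sub, HahnSeries.coeff_add,
        cA (some c) m hm, cQ c m hm]
      by_cases hcJ : some c ∈ J
      · have h1 := hN (some c) hcJ m
        rcases lt_or_ge m (-1) with h2 | h2
        · rw [if_neg (fun h => by omega : ¬ (some c ∈ J ∧ m = -1)), add_zero]
          split_ifs with h3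
          · rw [sub_self]
          · have h4 : m ≤ -(N : ℤ) := by
              by_contra h5
              exact h3 ⟨hcJ, by omega, by omega⟩
            rw [h1 h4, sub_zero]
        · have h3 : m = -1 := by omega
          subst h3
          rw [if_neg (fun h => by omega : ¬ (some c ∈ J ∧ (-1 : ℤ) ≤ -2 ∧ -(N : ℤ) < -1)),
            if_pos ⟨hcJ, rfl⟩, zero_add, hr]
          dsimp only
          split_ifs with h4
          · rw [sub_self]
          · rw [h1 (by omega), sub_zero]
      · rw [if_neg (fun h => hcJ h.1), if_neg (fun h => hcJ h.1), exW_some, hreg _ hcJ m hm]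
        simp
    | none =>
      have h1 := exW_none B (φ - (A + Q)) (m - 2)
      rw [sub_add_cancel] at h1
      have h2 : (exW B none (φ - (A + Q))).coeff (m - 2) = 0 := by
        rw [exW_sub, exW_add, HahnSeries.coeff_sub, HahnSeries.coeff_add,
          cA none (m - 2) (by omega), cQ' (m - 2) (by omega), add_zero]
        split_ifs with h3
        · rw [sub_self]
        · have h4 : m - 2 ≤ -(N : ℤ) := by
            by_contra h5
            exact h3 ⟨hJ, by omega, by omega⟩
          rw [hN none hJ _ h4, sub_zero]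
      rw [h2] at h1
      exact neg_eq_zero.1 h1.symm)
  have hc : c0 = 0 := by
    have h1 := exW_none B (φ - (A + Q)) (-2)
    have h2 : (exW B none (φ - (A + Q))).coeff (-2) = 0 := by
      rw [exW_sub, exW_add, HahnSeries.coeff_sub, HahnSeries.coeff_add,
        cA none (-2) (by omega), cQ' (-2) (by omega), add_zero]
      split_ifs with h3
      · rw [sub_self]
      · have h4 : (-2 : ℤ) ≤ -(N : ℤ) := by
          by_contra h5
          exact h3 ⟨hJ, by omega, by omega⟩
        rw [hN none hJ _ h4, sub_zero]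
    rw [h2, hc0, B.ex_C, HahnSeries.C_apply] at h1
    norm_num at h1
    exact h1
  rw [hc, map_zero] at hc0
  exact sub_eq_zero.1 hc0

end Pool.Agent.Helper61.EO
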