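import Pool.Agent.Helper61.EO.J.FO

/-!
# Project EO: functions with given principal parts
-/

set_option autoImplicit false

namespace Pool.Agent.Helper61.EO

open TT FO in
theorem t_PP (_hTT : S_TT) : S_PP := by
  intro p k _ B J c N
  have hreg : ∀ j j' : Option k, j ≠ j' → vge (B.ex j (∑ n ∈ Finset.range N,
      RatFunc.C (c j' n) * ((tt j')⁻¹) ^ (n + 1))) 0 := by
    intro j j' h
    rw [map_sum]
    refine vge_sum _ _ _ fun n _ => ?_
    rw [map_mul, B.ex_C, map_pow]
    exact ((vge_C _).mul ((ex_inv B h).pow (n + 1))).mono (by simp)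
  refine ⟨fun j hj m hm => ?_, fun j hj n => ?_⟩
  · rw [map_sum]
    exact vge_sum _ _ 0 (fun j' hj' => hreg j j' (by rintro rfl; exact hj hj')) m hm
  · rw [map_sum, HahnSeries.coeff_sum, Finset.sum_eq_single j]
    · rw [map_sum, HahnSeries.coeff_sum]
      have h1 : ∀ n' ∈ Finset.range N, (B.ex j (RatFunc.C (c j n') *
          ((tt j)⁻¹) ^ (n' + 1))).coeff (-((n : ℤ) + 1)) = if n' = n then c j n else 0 := by
        intro n' _
        rw [map_mul, B.ex_C, map_pow, map_inv₀, ex_tt, single_inv, single_pow,
          HahnSeries.C_apply, HahnSeries.single_mul_single, zero_add, mul_one]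
        by_cases h : n' = n
        · rw [if_pos h, h]
          have h2 : (-((n : ℤ) + 1)) = -(((n + 1 : ℕ)) : ℤ) := by push_cast; ring
          rw [h2, HahnSeries.coeff_single_same]
        · rw [if_neg h, HahnSeries.coeff_single_of_ne (by push_cast; omega)]
      rw [Finset.sum_congr rfl h1, Finset.sum_ite_eq']
      simp only [Finset.mem_range]
    · intro j' _ hjj
      exact hreg j j' (Ne.symm hjj) _ (by omega)
    · intro h
      exact absurd hj h

end Pool.Agent.Helper61.EO
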