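import Pool.Agent.Helper61.EO.J.P1

/-!
Project EO: the poles of a rational function.
-/

set_option autoImplicit false

namespace Pool.Agent.Helper61.EO

noncomputable section

namespace RED1

open P1

section

variable {k : Type} [Field k]

/-- the order is `n` -/
def Ord (n : ℤ) (u : LaurentSeries k) : Prop := u.coeff n ≠ 0 ∧ ∀ m < n, u.coeff m = 0

theorem Ord.iff {n : ℤ} {u : LaurentSeries k} : Ord n u ↔ u ≠ 0 ∧ u.order = n := by
  constructor
  · rintro ⟨h1, h2⟩
    have h0 : u ≠ 0 := by
      rintro rfl
      simp at h1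
    refine ⟨h0, le_antisymm (HahnSeries.order_le_of_coeff_ne_zero h1) ?_⟩
    by_contra hlt
    exact h0 (HahnSeries.coeff_order_eq_zero.1 (h2 _ (not_le.1 hlt)))
  · rintro ⟨h1, rfl⟩
    exact ⟨fun h => h1 (HahnSeries.coeff_order_eq_zero.1 h),
      fun m hm => HahnSeries.coeff_eq_zero_of_lt_order hm⟩

theorem Ord.mul {n n' : ℤ} {u v : LaurentSeries k} (hu : Ord n u) (hv : Ord n' v) :
    Ord (n + n') (u * v) := by
  rw [Ord.iff] at *
  refine ⟨mul_ne_zero hu.1 hv.1, ?_⟩
  rw [HahnSeries.order_mul hu.1 hv.1, hu.2, hv.2]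

theorem Ord.div {n n' : ℤ} {u v w : LaurentSeries k} (hv : Ord n v) (hw : Ord n' w)
    (h : u * v = w) : Ord (n' - n) u := by
  rw [Ord.iff] at *
  have hu : u ≠ 0 := by
    rintro rfl
    rw [zero_mul] at h
    exact hw.1 h.symm
  refine ⟨hu, ?_⟩
  have := HahnSeries.order_mul hu hv.1
  rw [h, hw.2, hv.2] at this
  omega

end

section

variable {p : ℕ} {k : Type} [Field k] (B : Base p k)

theorem ord_some (c : k) (q : Polynomial k) (hq : q ≠ 0) :
    Ord (q.rootMultiplicity c : ℤ) (B.ex (some c) (algebraMap (Polynomial k) (RatFunc k) q)) := by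
  obtain ⟨r, hr, hr2⟩ := Polynomial.exists_eq_pow_rootMultiplicity_mul_and_not_dvd q hq c
  have h1 : algebraMap (Polynomial k) (RatFunc k) q =
      (RatFunc.X - RatFunc.C c) ^ q.rootMultiplicity c * algebraMap (Polynomial k) (RatFunc k) r := by
    conv_lhs => rw [hr]
    rw [map_mul, map_pow, map_sub, RatFunc.algebraMap_X, RatFunc.algebraMap_C]
  have h2 : B.ex (some c) (RatFunc.X - RatFunc.C c) = HahnSeries.single 1 1 := by
    rw [map_sub, B.ex_some, B.ex_C, add_sub_cancel_left]
  have h3 : Ord 0 (B.ex (some c) (algebraMap (Polynomial k) (RatFunc k) r)) := by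
    rw [ex_poly]
    constructor
    · have h4 : (HahnSeries.ofPowerSeries ℤ k
          ((Polynomial.taylor c r : Polynomial k) : PowerSeries k)).coeff ((0 : ℕ) : ℤ) =
          r.eval c := by
        rw [HahnSeries.ofPowerSeries_apply_coeff, Polynomial.coeff_coe,
          Polynomial.taylor_coeff_zero]
      rw [Nat.cast_zero] at h4
      rw [h4]
      intro h5
      exact hr2 (Polynomial.dvd_iff_isRoot.2 h5)
    · intro m hm
      have := PowerSeries.coeff_coe (f := ((Polynomial.taylor c r : Polynomial k) :
        PowerSeries k)) m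
      rw [if_pos hm] at this
      exact this
  rw [h1, map_mul, map_pow, h2, HahnSeries.single_pow, one_pow]
  have h5 : Ord (q.rootMultiplicity c : ℤ)
      (HahnSeries.single (q.rootMultiplicity c • (1 : ℤ)) (1 : k)) := by
    rw [nsmul_eq_mul, mul_one]
    exact ⟨by rw [HahnSeries.coeff_single_same]; exact one_ne_zero,
      fun m hm => HahnSeries.coeff_single_of_ne hm.ne⟩
  have := h5.mul h3
  rwa [add_zero] at this

theorem ord_none (q : Polynomial k) (hq : q ≠ 0) :
    Ord (-(q.natDegree : ℤ)) (B.ex none (algebraMap (Polynomial k) (RatFunc k) q)) := by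
  constructor
  · rw [ex_inf]
    exact Polynomial.leadingCoeff_ne_zero.2 hq
  · intro m hm
    obtain ⟨n, rfl⟩ : ∃ n : ℕ, m = -(n : ℤ) := ⟨(-m).toNat, by omega⟩
    rw [ex_inf]
    exact Polynomial.coeff_eq_zero_of_natDegree_lt (by omega)

theorem ord_quot (j : Option k) (f : RatFunc k) (a b : ℤ)
    (ha : Ord a (B.ex j (algebraMap (Polynomial k) (RatFunc k) f.num)))
    (hb : Ord b (B.ex j (algebraMap (Polynomial k) (RatFunc k) f.denom))) :
    Ord (a - b) (B.ex j f) := by
  refine hb.div ha ?_
  rw [← map_mul]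
  congr 1
  have h2 := RatFunc.num_div_denom f
  rw [div_eq_iff (RatFunc.algebraMap_ne_zero f.denom_ne_zero)] at h2
  exact h2.symm

theorem num_ne (f : RatFunc k) (c : k) (h : f.denom.eval c = 0) : f.num.eval c ≠ 0 := by
  intro h0
  obtain ⟨a, b, hab⟩ := f.isCoprime_num_denom
  have h5 := congrArg (Polynomial.eval c) hab
  rw [Polynomial.eval_add, Polynomial.eval_mul, Polynomial.eval_mul, h, h0, mul_zero, mul_zero,
    add_zero, Polynomial.eval_one] at h5
  exact zero_ne_one h5

end

end RED1

open RED1 in
theorem t_RED1 (_hP1 : S_P1) : S_RED1 := by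
  intro p k _ _ _ B f
  by_cases hf : f = 0
  · subst hf
    refine ⟨∅, fun _ => 1, ?_, ?_, ?_, ?_⟩
    · simp [poleOrders]
    · simp
    · simp
    · simp
  have hn : f.num ≠ 0 := RatFunc.num_ne_zero hf
  have hd : f.denom ≠ 0 := f.denom_ne_zero
  obtain ⟨d, hdd⟩ : ∃ d : Option k → ℕ, (∀ c, d (some c) = f.denom.rootMultiplicity c) ∧
      d none = f.num.natDegree - f.denom.natDegree :=
    ⟨fun j => match j with
      | none => f.num.natDegree - f.denom.natDegree
      | some c => f.denom.rootMultiplicity c, fun _ => rfl, rfl⟩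
  have hsome : ∀ c : k, f.denom.eval c = 0 → 1 ≤ d (some c) ∧
      (B.ex (some c) f).coeff (-(d (some c) : ℤ)) ≠ 0 ∧
      ∀ m : ℤ, m < -(d (some c) : ℤ) → (B.ex (some c) f).coeff m = 0 := by
    intro c hc
    have h1 : f.num.rootMultiplicity c = 0 :=
      Polynomial.rootMultiplicity_eq_zero (num_ne f c hc)
    have h2 := ord_quot B (some c) f _ _ (ord_some B c f.num hn) (ord_some B c f.denom hd)
    rw [h1, Nat.cast_zero, zero_sub, ← hdd.1 c] at h2
    refine ⟨?_, h2.1, h2.2⟩
    rw [hdd.1 c]
    exact (Polynomial.rootMultiplicity_pos hd).2 hc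
  have hsome' : ∀ c : k, f.denom.eval c ≠ 0 → ∀ m : ℤ, m < 0 → (B.ex (some c) f).coeff m = 0 := by
    intro c hc m hm
    have h1 : f.denom.rootMultiplicity c = 0 := Polynomial.rootMultiplicity_eq_zero hc
    have h2 := ord_quot B (some c) f _ _ (ord_some B c f.num hn) (ord_some B c f.denom hd)
    rw [h1] at h2
    exact h2.2 m (by omega)
  have hnone := ord_quot B none f _ _ (ord_none B f.num hn) (ord_none B f.denom hd)
  have hmem : ∀ c : k, some c ∈ f.denom.roots.toFinset.map Function.Embedding.some ↔
      f.denom.eval c = 0 := by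
    intro c
    rw [Finset.mem_map]
    constructor
    · rintro ⟨c', hc', h⟩
      have : c' = c := Option.some_injective _ h
      subst this
      rw [Multiset.mem_toFinset, Polynomial.mem_roots hd] at hc'
      exact hc'
    · intro hc
      exact ⟨c, by rw [Multiset.mem_toFinset, Polynomial.mem_roots hd]; exact hc, rfl⟩
  have hmemn : none ∉ f.denom.roots.toFinset.map Function.Embedding.some := by
    rw [Finset.mem_map]
    rintro ⟨c', _, h⟩
    exact absurd h (by simp)
  have hmap : (f.denom.roots.toFinset.map Function.Embedding.some).val.map d =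
      f.denom.roots.dedup.map (fun c => f.denom.rootMultiplicity c) := by
    rw [Finset.map_val, Multiset.map_map, Multiset.toFinset_val]
    exact Multiset.map_congr rfl fun c _ => hdd.1 c
  by_cases hdeg : f.denom.natDegree < f.num.natDegree
  · refine ⟨Finset.cons none _ hmemn, d, ?_, ?_, ?_, ?_⟩
    · rw [Finset.cons_val, Multiset.map_cons, hmap]
      unfold poleOrders
      rw [if_pos hdeg, ← hdd.2, add_comm, Multiset.singleton_add]
    · exact ⟨fun _ => hdeg, fun _ => Finset.mem_cons_self _ _⟩
    · intro j hj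
      rw [Finset.mem_cons] at hj
      rcases j with _ | c
      · have h1 : -(f.num.natDegree : ℤ) - -(f.denom.natDegree : ℤ) = -(d none : ℤ) := by
          rw [hdd.2]
          omega
        rw [h1] at hnone
        refine ⟨?_, hnone.1, hnone.2⟩
        rw [hdd.2]
        omega
      · rcases hj with hj | hj
        · exact absurd hj (by simp)
        · exact hsome c ((hmem c).1 hj)
    · intro j hj
      rw [Finset.mem_cons, not_or] at hj
      rcases j with _ | c
      · exact absurd rfl hj.1
      · exact hsome' c fun h => hj.2 ((hmem c).2 h)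
  · refine ⟨f.denom.roots.toFinset.map Function.Embedding.some, d, ?_, ?_, ?_, ?_⟩
    · rw [hmap]
      unfold poleOrders
      rw [if_neg hdeg, add_zero]
    · exact ⟨fun h => absurd h hmemn, fun h => absurd h hdeg⟩
    · intro j hj
      rcases j with _ | c
      · exact absurd hj hmemn
      · exact hsome c ((hmem c).1 hj)
    · intro j hj
      rcases j with _ | c
      · intro m hm
        exact hnone.2 m (by omega)
      · exact hsome' c fun h => hj ((hmem c).2 h)

end

end Pool.Agent.Helper61.EO
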