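import Pool.Agent.Helper61.EO.Stm

/-!
Project EO: moving a pole to infinity.
-/

set_option autoImplicit false

namespace Pool.Agent.Helper61.EO

namespace RED2

open Polynomial

variable {k : Type} [Field k]

/-- numerator and denominator of a reduced fraction -/
theorem num_denom_of_coprime (p q : k[X]) (hq : q ≠ 0) (h : IsCoprime p q) :
    ∃ u : k, u ≠ 0 ∧ RatFunc.num (algebraMap k[X] (RatFunc k) p / algebraMap k[X] (RatFunc k) q) =
      C u * p ∧
      RatFunc.denom (algebraMap k[X] (RatFunc k) p / algebraMap k[X] (RatFunc k) q) = C u * q := by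
  classical
  set f := algebraMap k[X] (RatFunc k) p / algebraMap k[X] (RatFunc k) q with hf
  have h1 : f.num * q = p * f.denom := (RatFunc.num_mul_eq_mul_denom_iff hq).2 hf
  have h2 : f.denom ∣ q := RatFunc.denom_div_dvd p q
  have h3 : q ∣ f.denom := h.symm.dvd_of_dvd_mul_left ⟨f.num, by rw [mul_comm q, h1]⟩
  obtain ⟨v, hv⟩ : ∃ v : k[X]ˣ, q * v = f.denom := associated_of_dvd_dvd h3 h2
  obtain ⟨u, hu, hu'⟩ := Polynomial.isUnit_iff.1 v.isUnit
  refine ⟨u, hu.ne_zero, ?_, ?_⟩
  · have h4 : f.num * q = (C u * p) * q := by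
      rw [h1, ← hv, ← hu']
      ring
    exact mul_right_cancel₀ hq h4
  · rw [← hv, ← hu']
    ring

/-- root multiplicities of the reversed polynomial -/
theorem rootMult_reverse (P : k[X]) (hP : P ≠ 0) (a : k) (ha : a ≠ 0) :
    rootMultiplicity a⁻¹ P.reverse = rootMultiplicity a P := by
  obtain ⟨Q, hQ, hQ'⟩ := P.exists_eq_pow_rootMultiplicity_mul_and_not_dvd hP a
  set m := rootMultiplicity a P with hm
  have hQ0 : Q ≠ 0 := by
    rintro rfl
    exact hQ' (dvd_zero _)
  have hrp : ∀ n : ℕ, ((X - C a : k[X]) ^ n).reverse = ((X - C a : k[X]).reverse) ^ n := by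
    intro n
    induction n with
    | zero => rw [pow_zero, pow_zero, ← C_1, reverse_C]
    | succ n ih => rw [pow_succ, reverse_mul_of_domain, ih, pow_succ]
  have hr1 : (X - C a : k[X]).reverse = C (-a) * (X - C a⁻¹) := by
    have : (X - C a : k[X]) = X + C (-a) := by rw [C_neg, sub_eq_add_neg]
    have hX : (X : k[X]).reverse = 1 := by
      have h := Polynomial.reverse_mul_X (1 : k[X])
      rw [one_mul, ← C_1, reverse_C] at h
      rw [h, C_1]
    rw [this, reverse_add_C, hX]
    simp only [natDegree_X, pow_one, C_neg, neg_mul, mul_sub, ← C_mul, mul_inv_cancel₀ ha, C_1]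
    ring
  have hrev : P.reverse = (C ((-a) ^ m) * Q.reverse) * (X - C a⁻¹) ^ m := by
    conv_lhs => rw [hQ]
    rw [reverse_mul_of_domain, hrp, hr1, mul_pow, ← C_pow]
    ring
  have hQr0 : Q.reverse ≠ 0 := by
    intro h0
    apply hQ0
    rwa [Polynomial.reverse_eq_zero] at h0
  have ha' : (-a) ^ m ≠ 0 := pow_ne_zero _ (neg_ne_zero.2 ha)
  have hne : C ((-a) ^ m) * Q.reverse ≠ 0 := mul_ne_zero (by rwa [Ne, C_eq_zero]) hQr0
  rw [hrev, rootMultiplicity_mul_X_sub_C_pow hne]
  have h0 : rootMultiplicity a⁻¹ (C ((-a) ^ m) * Q.reverse) = 0 := by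
    apply rootMultiplicity_eq_zero
    intro hr
    rw [IsRoot.def, eval_mul, eval_C, mul_eq_zero] at hr
    rcases hr with hr | hr
    · exact ha' hr
    · let _ : Invertible a := invertibleOfNonzero ha
      have h5 := (eval₂_reverse_eq_zero_iff (RingHom.id k) a Q).1 (by
        rw [invOf_eq_inv]
        exact hr)
      apply hQ'
      rw [dvd_iff_isRoot]
      exact h5
  omega

theorem rootMult_comp (P : k[X]) (a c : k) :
    rootMultiplicity a (P.comp (X + C c)) = rootMultiplicity (a + c) P := by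
  rw [rootMultiplicity_eq_rootMultiplicity (p := P) (t := a + c),
    rootMultiplicity_eq_rootMultiplicity (p := P.comp (X + C c)) (t := a), comp_assoc]
  congr 2
  simp [add_assoc]

/-- values of the reflected polynomial -/
theorem aeval_reflect {K : Type} [Field K] [Algebra k K] (P : k[X]) (c : k) (N : ℕ)
    (hN : (P.comp (X + C c)).natDegree ≤ N) (x : K) (hx : x - algebraMap k K c ≠ 0) :
    aeval (x - algebraMap k K c)⁻¹ (reflect N (P.comp (X + C c))) * (x - algebraMap k K c) ^ N =
      aeval x P := by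
  let _ : Invertible (x - algebraMap k K c) := invertibleOfNonzero hx
  have h := eval₂_reflect_mul_pow (algebraMap k K) (x - algebraMap k K c) N
    (P.comp (X + C c)) hN
  rw [invOf_eq_inv] at h
  rw [aeval_def, h, eval₂_comp]
  simp [aeval_def]

theorem main (p : ℕ) [DecidableEq k] [IsAlgClosed k] (K : Type) [Field K] [Algebra k K]
    (f : RatFunc k) (hAS : IsArtinSchreier k K p f) (h0 : poleOrders f ≠ 0)
    (hlt : ¬ (f.denom.natDegree < f.num.natDegree)) :
    ∃ f1 : RatFunc k, IsArtinSchreier k K p f1 ∧ poleOrders f1 = poleOrders f ∧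
      f1.denom.natDegree < f1.num.natDegree := by
  obtain ⟨n, hn⟩ : ∃ n, n = f.num := ⟨_, rfl⟩
  obtain ⟨d, hd⟩ : ∃ d, d = f.denom := ⟨_, rfl⟩
  have hd0 : d ≠ 0 := hd ▸ RatFunc.denom_ne_zero f
  have hcop : IsCoprime n d := by
    rw [hn, hd]
    exact RatFunc.isCoprime_num_denom f
  have hpf : poleOrders f = d.roots.dedup.map (fun c => d.rootMultiplicity c) := by
    rw [poleOrders, if_neg hlt, ← hd, add_zero]
  rw [← hn, ← hd] at hlt
  -- a root
  have hroot : ∃ c, c ∈ d.roots := by
    by_contra hno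
    push Not at hno
    have h1 : d.roots = 0 := Multiset.eq_zero_of_forall_notMem hno
    apply h0
    rw [hpf, h1]
    simp
  obtain ⟨c, hc⟩ := hroot
  have hdc : d.eval c = 0 := (mem_roots hd0).1 hc
  have hbez : ∀ a : k, n.eval a = 0 → d.eval a = 0 → False := by
    intro a h1 h2
    obtain ⟨u, v, huv⟩ := hcop
    have h3 := congrArg (eval a) huv
    simp [h1, h2] at h3
  have hnc : n.eval c ≠ 0 := fun h => hbez c h hdc
  obtain ⟨D, hD⟩ : ∃ D, D = d.natDegree := ⟨_, rfl⟩
  obtain ⟨d', hd'⟩ : ∃ d', d' = d.comp (X + C c) := ⟨_, rfl⟩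
  obtain ⟨n', hn'⟩ : ∃ n', n' = n.comp (X + C c) := ⟨_, rfl⟩
  have hd'D : d'.natDegree = D := by rw [hd', natDegree_comp, hD]; simp
  have hn'D : n'.natDegree ≤ D := by
    rw [hn', natDegree_comp, hD]
    simpa using not_lt.1 hlt
  have hd'0 : d' ≠ 0 := by
    intro h
    apply hd0
    rw [hd'] at h
    have h1 : (d.comp (X + C c)).comp (X - C c) = 0 := by rw [h, zero_comp]
    rwa [comp_assoc, add_comp, X_comp, C_comp, sub_add_cancel, comp_X] at h1
  obtain ⟨N1, hN1⟩ : ∃ N1, N1 = reflect D n' := ⟨_, rfl⟩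
  obtain ⟨D1, hD1⟩ : ∃ D1, D1 = reflect D d' := ⟨_, rfl⟩
  have hD1r : D1 = d'.reverse := by rw [hD1, reverse, hd'D]
  have hD10 : D1 ≠ 0 := by
    rw [hD1r]
    intro h
    exact hd'0 (reverse_eq_zero.1 h)
  have hcN : N1.coeff D = n.eval c := by
    rw [hN1, coeff_reflect, revAt_le le_rfl, Nat.sub_self, coeff_zero_eq_eval_zero, hn', eval_comp]
    simp
  have hN1deg : N1.natDegree = D := by
    refine le_antisymm ?_ (le_natDegree_of_ne_zero (by rw [hcN]; exact hnc))
    rw [hN1]
    exact natDegree_reflect_le.trans (by simp [hn'D])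
  obtain ⟨m, hm⟩ : ∃ m, m = rootMultiplicity c d := ⟨_, rfl⟩
  have hm1 : 1 ≤ m := by
    rw [hm]
    exact (rootMultiplicity_pos hd0).2 hdc
  have hmt : m = d'.natTrailingDegree := by
    rw [hm, rootMultiplicity_eq_natTrailingDegree, hd']
  have hmD : m ≤ D := by
    rw [hmt, ← hd'D]
    exact natTrailingDegree_le_natDegree d'
  have hD1deg : D1.natDegree = D - m := by
    rw [hD1r, reverse_natDegree, hd'D, hmt]
  -- roots
  have hrefl : ∀ (P : k[X]) (a : k), (P.comp (X + C c)).natDegree ≤ D → a ≠ 0 →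
      (eval a (reflect D (P.comp (X + C c))) = 0 ↔ eval (a⁻¹ + c) P = 0) := by
    intro P a hP ha
    let _ : Invertible a⁻¹ := invertibleOfNonzero (inv_ne_zero ha)
    have h := eval₂_reflect_eq_zero_iff (RingHom.id k) a⁻¹ D (P.comp (X + C c)) hP
    rw [invOf_eq_inv, inv_inv] at h
    have h2 : eval₂ (RingHom.id k) a⁻¹ (P.comp (X + C c)) = eval (a⁻¹ + c) P := by
      change eval a⁻¹ (P.comp (X + C c)) = _
      rw [eval_comp]
      simp
    rw [h2] at h
    exact h
  have hD1z : eval 0 D1 ≠ 0 := by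
    rw [← coeff_zero_eq_eval_zero, hD1r, coeff_zero_reverse]
    exact leadingCoeff_ne_zero.2 hd'0
  have hND : IsCoprime N1 D1 := by
    rw [Polynomial.isCoprime_iff_aeval_ne_zero_of_isAlgClosed k k]
    intro a
    by_contra hno
    push Not at hno
    obtain ⟨h1, h2⟩ := hno
    rw [coe_aeval_eq_eval] at h1 h2
    have ha : a ≠ 0 := by
      rintro rfl
      exact hD1z h2
    rw [hN1, hn'] at h1
    rw [hD1, hd'] at h2
    exact hbez (a⁻¹ + c) ((hrefl n a (hn' ▸ hn'D) ha).1 h1)
      ((hrefl d a (by rw [← hd', hd'D]) ha).1 h2)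
  obtain ⟨u, hu, hu1, hu2⟩ := num_denom_of_coprime N1 D1 hD10 hND
  obtain ⟨f1, hf1⟩ : ∃ f1, f1 = algebraMap k[X] (RatFunc k) N1 / algebraMap k[X] (RatFunc k) D1 :=
    ⟨_, rfl⟩
  rw [← hf1] at hu1 hu2
  have hdeg1 : f1.num.natDegree = D := by
    rw [hu1, natDegree_C_mul hu, hN1deg]
  have hdeg2 : f1.denom.natDegree = D - m := by
    rw [hu2, natDegree_C_mul hu, hD1deg]
  refine ⟨f1, ?_, ?_, by rw [hdeg1, hdeg2]; omega⟩
  · -- the curve
    obtain ⟨x, y, hx, hxy, hy⟩ := hAS
    have hxc : x - algebraMap k K c ≠ 0 := by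
      intro h
      apply hx
      rw [sub_eq_zero] at h
      rw [h]
      exact isAlgebraic_algebraMap c
    have htr : Transcendental k (x - algebraMap k K c)⁻¹ := by
      intro halg
      apply hx
      have h1 : IsAlgebraic k (x - algebraMap k K c) := by
        have := halg.inv
        rwa [inv_inv] at this
      have h2 := h1.add (isAlgebraic_algebraMap (A := K) c)
      rwa [sub_add_cancel] at h2
    refine ⟨(x - algebraMap k K c)⁻¹, y, htr, ?_, ?_⟩
    · rw [eq_top_iff, ← hxy, IntermediateField.adjoin_le_iff]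
      intro z hz
      rcases hz with rfl | hz
      · have h1 : (z - algebraMap k K c)⁻¹ ∈
            IntermediateField.adjoin k {(z - algebraMap k K c)⁻¹, y} :=
          IntermediateField.subset_adjoin _ _ (by simp)
        have h2 := IntermediateField.inv_mem _ h1
        rw [inv_inv] at h2
        have h3 := add_mem h2 (IntermediateField.algebraMap_mem
          (IntermediateField.adjoin k {(z - algebraMap k K c)⁻¹, y}) c)
        rwa [sub_add_cancel] at h3
      · have hz' : z = y := hz
        rw [hz']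
        exact IntermediateField.subset_adjoin _ _ (by simp)
    · rw [hy, hu1, hu2, ← hn, ← hd]
      have e1 := aeval_reflect n c D (hn' ▸ hn'D) x hxc
      have e2 := aeval_reflect d c D (by rw [← hd', hd'D]) x hxc
      rw [← hn', ← hN1] at e1
      rw [← hd', ← hD1] at e2
      rw [← e1, ← e2, mul_div_mul_right _ _ (pow_ne_zero D hxc), map_mul, map_mul, aeval_C,
        mul_div_mul_left]
      rw [Ne, map_eq_zero]
      exact hu
  · -- pole orders
    rw [hpf, poleOrders, hdeg1, hdeg2, if_pos (by omega), show D - (D - m) = m by omega]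
    have hr : f1.denom.roots = D1.roots := by rw [hu2, roots_C_mul _ hu]
    have hmul : ∀ a, rootMultiplicity a f1.denom = rootMultiplicity a D1 := by
      intro a
      rw [← count_roots, ← count_roots, hr]
    have hset : D1.roots.dedup = (d.roots.dedup.erase c).map (fun a => (a - c)⁻¹) := by
      have hnd : (d.roots.dedup.erase c).Nodup := (Multiset.nodup_dedup _).erase c
      have hinj : Function.Injective (fun a : k => (a - c)⁻¹) := by
        intro a b hab
        have h1 : (a - c)⁻¹ = (b - c)⁻¹ := hab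
        have h2 := inv_injective h1
        exact sub_left_injective h2
      rw [Multiset.Nodup.ext (Multiset.nodup_dedup _) (hnd.map hinj)]
      intro a
      rw [Multiset.mem_dedup, mem_roots hD10, IsRoot.def, Multiset.mem_map]
      constructor
      · intro h
        have ha : a ≠ 0 := by
          rintro rfl
          exact hD1z h
        refine ⟨a⁻¹ + c, ?_, by simp⟩
        rw [(Multiset.nodup_dedup _).mem_erase_iff, Multiset.mem_dedup, mem_roots hd0]
        refine ⟨by simpa using ha, ?_⟩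
        rw [hD1, hd'] at h
        exact (hrefl d a (by rw [← hd', hd'D]) ha).1 h
      · rintro ⟨b, hb, rfl⟩
        rw [(Multiset.nodup_dedup _).mem_erase_iff, Multiset.mem_dedup, mem_roots hd0] at hb
        obtain ⟨hbc, hb⟩ := hb
        have hbc' : (b - c)⁻¹ ≠ 0 := inv_ne_zero (sub_ne_zero.2 hbc)
        rw [hD1, hd']
        refine (hrefl d _ (by rw [← hd', hd'D]) hbc').2 ?_
        rw [inv_inv, sub_add_cancel]
        exact hb
    rw [hr, hset, Multiset.map_map]
    have hcm : c ∈ d.roots.dedup := Multiset.mem_dedup.2 hc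
    have hcongr : (d.roots.dedup.erase c).map
        ((fun a => rootMultiplicity a f1.denom) ∘ fun a => (a - c)⁻¹) =
        (d.roots.dedup.erase c).map (fun a => rootMultiplicity a d) := by
      apply Multiset.map_congr rfl
      intro b hb
      rw [(Multiset.nodup_dedup _).mem_erase_iff, Multiset.mem_dedup, mem_roots hd0] at hb
      obtain ⟨hbc, hb⟩ := hb
      change rootMultiplicity ((b - c)⁻¹) f1.denom = rootMultiplicity b d
      rw [hmul, hD1r, rootMult_reverse d' hd'0 _ (sub_ne_zero.2 hbc), hd', rootMult_comp,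
        sub_add_cancel]
    rw [hcongr]
    conv_rhs => rw [← Multiset.cons_erase hcm]
    rw [Multiset.map_cons, ← hm, ← Multiset.singleton_add, add_comm]

end RED2

theorem t_RED2 : S_RED2 := fun p _ _ _ _ K _ _ f hAS h0 hlt => RED2.main p K f hAS h0 hlt

end Pool.Agent.Helper61.EO
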