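import Pool.Agent.Helper61.EO.Stm

/-!
Project EO: every cocycle of the model is a combination of the basis and of a holomorphic form.
-/

set_option autoImplicit false

namespace Pool.Agent.Helper61.EO

open PowerSeries

namespace SPAN

noncomputable section

variable {p : ℕ} {k : Type} [Field k] (B : Base p k)

theorem mul_low {x y : LaurentSeries k} {a b : ℤ} (hx : ∀ m < a, x.coeff m = 0)
    (hy : ∀ m < b, y.coeff m = 0) : ∀ m < a + b, (x * y).coeff m = 0 := by
  intro m hm
  rw [HahnSeries.coeff_mul]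
  refine Finset.sum_eq_zero fun ij hij => ?_
  rw [Finset.mem_antidiagonal] at hij
  obtain ⟨_, _, h3⟩ := hij
  by_cases h : ij.1 < a
  · rw [hx _ h, zero_mul]
  · rw [hy _ (by omega), mul_zero]

theorem exW_sub (j : Option k) (a b : RatFunc k) : exW B j (a - b) = exW B j a - exW B j b := by
  unfold exW
  rw [map_sub, sub_mul]

theorem exW_mul (j : Option k) (a b : RatFunc k) : exW B j (a * b) = exW B j a * B.ex j b := by
  unfold exW
  rw [map_mul]
  ring

theorem exW_some (c : k) (a : RatFunc k) : exW B (some c) a = B.ex (some c) a := by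
  unfold exW dxdt
  rw [mul_one]

theorem coeff_nab_zero (f : RatFunc k) (h : (RatFunc k)⟦X⟧) :
    coeff 0 (nab B f h) = B.D (coeff 0 h) := by
  unfold nab
  rw [map_sub, coeff_mk, coeff_zero_X_mul, sub_zero]

theorem coeff_nab_succ (f : RatFunc k) (h : (RatFunc k)⟦X⟧) (i : ℕ) :
    coeff (i + 1) (nab B f h) = B.D (coeff (i + 1) h) - B.D f * coeff i h := by
  unfold nab
  rw [map_sub, coeff_mk, coeff_succ_X_mul, coeff_C_mul]

/-- derivatives of series without negative coefficients -/
theorem exD_reg (hEXD : S_EXD) (c : k) (φ : RatFunc k)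
    (h : ∀ m : ℤ, m < 0 → (B.ex (some c) φ).coeff m = 0) :
    ∀ m : ℤ, m < 0 → (B.ex (some c) (B.D φ)).coeff m = 0 := by
  intro m hm
  have h1 := hEXD p k B (some c) φ m
  rw [exW_some] at h1
  rw [h1]
  rcases eq_or_ne m (-1) with h2 | h2
  · subst h2
    simp
  · rw [h _ (by omega), mul_zero]

variable {B} {f : RatFunc k} {J : Finset (Option k)} {d : Option k → ℕ}

theorem inA_nab (hEXD : S_EXD) (hP : PoleData B f J d) {g : (RatFunc k)⟦X⟧} (hg : inA B J g) :
    inA B J (nab B f g) := by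
  intro i hi j hj m hm
  obtain ⟨c, rfl⟩ : ∃ c, j = some c := by
    cases j with
    | none => exact absurd hP.inf hj
    | some c => exact ⟨c, rfl⟩
  cases i with
  | zero =>
    rw [coeff_nab_zero]
    exact exD_reg B hEXD c _ (hg 0 hi _ hj) m hm
  | succ i =>
    rw [coeff_nab_succ, map_sub, HahnSeries.coeff_sub,
      exD_reg B hEXD c _ (hg (i + 1) hi _ hj) m hm, map_mul]
    have h1 := mul_low (a := 0) (b := 0) (exD_reg B hEXD c f (hP.reg _ hj))
      (hg i (by omega) _ hj) m (by omega)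
    rw [h1, sub_zero]

theorem EE_facts (hp : p.Prime) (hP : PoleData B f J d) {j : Option k} (hj : j ∈ J) :
    1 ≤ EE p d j ∧ EE p d j * d j = p - 1 := by
  have h1 := hP.pos j hj
  have h2 := hP.dvd j hj
  have hp2 := hp.two_le
  unfold EE
  refine ⟨?_, Nat.div_mul_cancel h2⟩
  exact Nat.div_pos (Nat.le_of_dvd (by omega) h2) h1

theorem inW_nab (hp : p.Prime) (hEXD : S_EXD) (hP : PoleData B f J d) {j : Option k} (hj : j ∈ J)
    {u : (RatFunc k)⟦X⟧} (hu : inO B d j u) : inW B d j (nab B f u) := by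
  obtain ⟨hE, hEd⟩ := EE_facts hp hP hj
  intro i hi m hm
  have hfl : ∀ i < p, i / EE p d j ≤ d j := by
    intro i hi
    rw [Nat.div_le_iff_le_mul_add_pred hE]
    have : EE p d j * d j = p - 1 := hEd
    omega
  have hDu : (exW B j (B.D (coeff i u))).coeff m = 0 := by
    rw [hEXD p k B j _ m]
    rcases eq_or_ne m (-1) with h2 | h2
    · subst h2
      simp
    · have hm0 : m + 1 < 0 := by
        have : (0 : ℤ) ≤ (((i + EE p d j - 1) / EE p d j : ℕ) : ℤ) := Int.natCast_nonneg _
        omega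
      have := hfl i hi
      rw [hu i hi (m + 1) (by omega), mul_zero]
  cases i with
  | zero => rw [coeff_nab_zero]; exact hDu
  | succ i =>
    rw [coeff_nab_succ, exW_sub, HahnSeries.coeff_sub, hDu, exW_mul]
    have h1 : ∀ m < -(d j : ℤ) - 1, (exW B j (B.D f)).coeff m = 0 := by
      intro m hm
      rw [hEXD p k B j f m, hP.low j hj _ (by omega), mul_zero]
    have h3 : (i + 1 + EE p d j - 1) / EE p d j = i / EE p d j + 1 := by
      rw [show i + 1 + EE p d j - 1 = i + EE p d j by omega, Nat.add_div_right _ hE]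
    rw [h3] at hm
    have h2 := mul_low h1 (hu i (by omega)) m (by push_cast at hm; omega)
    rw [h2, sub_zero]

theorem exists_bound (x : LaurentSeries k) : ∃ N : ℕ, ∀ n : ℕ, N ≤ n →
    x.coeff (-((n : ℤ) + 1)) = 0 := by
  refine ⟨(-x.order).toNat, fun n hn => ?_⟩
  apply HahnSeries.coeff_eq_zero_of_lt_order
  omega

theorem coeff_C_zero (c : k) {m : ℤ} (hm : m ≠ 0) : (HahnSeries.C c : LaurentSeries k).coeff m = 0 := by
  rw [HahnSeries.C_apply, HahnSeries.coeff_single_of_ne hm]

/-- functions which approximate given families -/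
theorem exists_g (hPP : S_PP) (h : Option k → (RatFunc k)⟦X⟧) :
    ∃ g : (RatFunc k)⟦X⟧, inA B J g ∧
      (∀ j ∈ J, ∀ i < p, ∀ m : ℤ, m < 0 → (B.ex j (coeff i (h j - g))).coeff m = 0) ∧
      (∀ i < p, (B.ex none (coeff i (h none - g))).coeff 0 = 0) ∧
      ((∀ j ∈ J, ∀ m : ℤ, m < 0 → (B.ex j (coeff 0 (h j))).coeff m = 0) →
        (B.ex none (coeff 0 (h none))).coeff 0 = 0 → coeff 0 g = 0) := by
  choose N0 hN0 using fun x : LaurentSeries k => exists_bound x
  set N : ℕ := ∑ i ∈ Finset.range p, ∑ j ∈ J, N0 (B.ex j (coeff i (h j))) with hN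
  have hNle : ∀ i < p, ∀ j ∈ J, N0 (B.ex j (coeff i (h j))) ≤ N := by
    intro i hi j hj
    rw [hN]
    refine le_trans ?_ (Finset.single_le_sum (f := fun i => ∑ j ∈ J, N0 (B.ex j (coeff i (h j))))
      (fun _ _ => Nat.zero_le _) (Finset.mem_range.2 hi))
    exact Finset.single_le_sum (f := fun j => N0 (B.ex j (coeff i (h j))))
      (fun _ _ => Nat.zero_le _) hj
  set c : ℕ → Option k → ℕ → k := fun i j n => (B.ex j (coeff i (h j))).coeff (-((n : ℤ) + 1))
    with hc
  set G : ℕ → RatFunc k := fun i => ∑ j' ∈ J, ∑ n ∈ Finset.range N,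
    RatFunc.C (c i j' n) * ((tt j')⁻¹) ^ (n + 1) with hG
  set c0 : ℕ → k := fun i => (B.ex none (coeff i (h none))).coeff 0 - (B.ex none (G i)).coeff 0
    with hc0
  refine ⟨mk fun i => G i + RatFunc.C (c0 i), ?_, ?_, ?_, ?_⟩
  · intro i hi j hj m hm
    rw [coeff_mk, map_add, HahnSeries.coeff_add, B.ex_C, coeff_C_zero _ (by omega), add_zero]
    exact (hPP p k B J (c i) N).1 j hj m hm
  · intro j hj i hi m hm
    rw [map_sub, coeff_mk, map_sub, map_add, HahnSeries.coeff_sub, HahnSeries.coeff_add, B.ex_C,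
      coeff_C_zero _ (by omega), add_zero]
    obtain ⟨n, rfl⟩ : ∃ n : ℕ, m = -((n : ℤ) + 1) := ⟨(-m - 1).toNat, by omega⟩
    rw [(hPP p k B J (c i) N).2 j hj n]
    split_ifs with hn
    · rw [hc]
      exact sub_self _
    · rw [sub_zero]
      exact hN0 _ n (by have := hNle i hi j hj; omega)
  · intro i hi
    rw [map_sub, coeff_mk, map_sub, map_add, HahnSeries.coeff_sub, HahnSeries.coeff_add, B.ex_C,
      HahnSeries.C_apply, HahnSeries.coeff_single_same, hc0]
    ring
  · intro h1 h2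
    have hG0 : G 0 = 0 := by
      rw [hG]
      refine Finset.sum_eq_zero fun j hj => Finset.sum_eq_zero fun n _ => ?_
      have : c 0 j n = 0 := h1 j hj _ (by omega)
      rw [this, map_zero, zero_mul]
    rw [coeff_mk, hG0, hc0]
    simp only
    rw [hG0, h2, map_zero, HahnSeries.coeff_zero, sub_zero, map_zero, add_zero]

/-- coefficients of `s • t ^ a` -/
theorem ex_sC (hTT : S_TT) (j : Option k) (a : ℕ) (s : k⟦X⟧) (i : ℕ) (m : ℤ) :
    (B.ex j (coeff i (s • (C (tt j ^ a) : (RatFunc k)⟦X⟧)))).coeff m =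
      if m = a then coeff i s else 0 := by
  have h1 : coeff i (s • (C (tt j ^ a) : (RatFunc k)⟦X⟧)) = RatFunc.C (coeff i s) * tt j ^ a := by
    rw [coeff_sm, Finset.sum_eq_single (i, 0)]
    · rw [coeff_zero_C]
    · rintro ⟨x, y⟩ hxy hne
      have h2 := Finset.HasAntidiagonal.mem_antidiagonal.1 hxy
      have hy : y ≠ 0 := by
        rintro rfl
        apply hne
        simp only [add_zero] at h2
        rw [h2]
      rw [coeff_C, if_neg hy, mul_zero]
    · intro h
      exact absurd (Finset.HasAntidiagonal.mem_antidiagonal.2 (by simp)) h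
  rw [h1, map_mul, map_pow, B.ex_C, (hTT p k B).1 j, HahnSeries.single_pow, one_pow,
    HahnSeries.C_mul_eq_smul, HahnSeries.coeff_smul]
  rw [show (a • (1 : ℤ)) = (a : ℤ) by simp]
  split_ifs with h
  · subst h
    rw [HahnSeries.coeff_single_same, smul_eq_mul, mul_one]
  · rw [HahnSeries.coeff_single_of_ne h, smul_zero]

open scoped Classical in
theorem ex_vb (hTT : S_TT) (j : Option k) (b : Σ _ : Option k, ℕ) (s : k⟦X⟧) (i : ℕ) (m : ℤ) :
    (B.ex j (coeff i (s • (vb B f d b).2 j))).coeff m =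
      if b.1 = j ∧ b.2 < d b.1 ∧ m = (b.2 : ℤ) then coeff i s else 0 := by
  obtain ⟨j', a⟩ := b
  unfold vb
  by_cases h1 : a < d j'
  · rw [if_pos h1]
    show (B.ex j (coeff i (s • at' j' (C (tt j' ^ a)) j))).coeff m = _
    unfold at'
    by_cases h2 : j = j'
    · subst h2
      rw [if_pos rfl, ex_sC hTT]
      by_cases h3 : m = (a : ℤ)
      · rw [if_pos h3, if_pos ⟨rfl, h1, h3⟩]
      · rw [if_neg h3, if_neg fun h4 => h3 h4.2.2]
    · rw [if_neg h2, smul_zero, map_zero, map_zero, HahnSeries.coeff_zero, if_neg]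
      rintro ⟨h3, _⟩
      exact h2 h3.symm
  · rw [if_neg h1]
    show (B.ex j (coeff i (s • (0 : (RatFunc k)⟦X⟧)))).coeff m = _
    rw [smul_zero, map_zero, map_zero, HahnSeries.coeff_zero, if_neg]
    rintro ⟨_, h3, _⟩
    exact h1 h3

omit [Field k] in
theorem mem_IB {j : Option k} {a : ℕ} (hj : j ∈ J) (h : a < d j) (h0 : j = none → a ≠ 0) :
    (⟨j, a⟩ : Σ _ : Option k, ℕ) ∈ IB J d := by
  unfold IB
  rw [Finset.mem_sigma]
  refine ⟨hj, ?_⟩
  cases j with
  | none =>
    have := h0 rfl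
    show a ∈ Finset.Ico 1 (d none)
    rw [Finset.mem_Ico]
    omega
  | some c =>
    show a ∈ Finset.range (d (some c) + 1)
    rw [Finset.mem_range]
    omega

/-- the coefficients with respect to the basis -/
def sfun (B : Base p k) (d : Option k → ℕ) (h : Option k → (RatFunc k)⟦X⟧) (g : (RatFunc k)⟦X⟧)
    (b : Σ _ : Option k, ℕ) : k⟦X⟧ :=
  if b.2 < d b.1 then mk (fun i => if i < p - 1 - ee p d b then
    (B.ex b.1 (coeff i (h b.1 - g))).coeff (b.2 : ℤ) else 0) else 0

/-- `S_SPAN` with an explicit description of the coefficients -/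
theorem core [Fact p.Prime] [IsAlgClosed k] [CharP k p] (hTT : S_TT) (hEXD : S_EXD) (hVZ : S_VZ)
    (hP : PoleData B f J d) (z : (RatFunc k)⟦X⟧ × (Option k → (RatFunc k)⟦X⟧))
    (hz : z ∈ Zm B f J d) (g : (RatFunc k)⟦X⟧) (hgA : inA B J g)
    (hneg : ∀ j ∈ J, ∀ i < p, ∀ m : ℤ, m < 0 → (B.ex j (coeff i (z.2 j - g))).coeff m = 0)
    (hzero : ∀ i < p, (B.ex none (coeff i (z.2 none - g))).coeff 0 = 0) :
    ∃ w : (RatFunc k)⟦X⟧, hol B J d w ∧
      z - (w, 0) - ∑ b ∈ IB J d, sfun B d z.2 g b • vb B f d b ∈ Bm B f J d := by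
  have hp : p.Prime := Fact.out
  set s : (Σ _ : Option k, ℕ) → k⟦X⟧ := sfun B d z.2 g with hs
  set S := ∑ b ∈ IB J d, s b • vb B f d b with hS
  set z' := z - (nab B f g, fun _ => g) - S with hz'def
  have hgZ : ((nab B f g, fun _ => g) : (RatFunc k)⟦X⟧ × (Option k → (RatFunc k)⟦X⟧)) ∈
      Zm B f J d := by
    refine ⟨inA_nab hEXD hP hgA, fun j _ => ?_⟩
    show inW B d j (nab B f g - nab B f g)
    rw [sub_self]
    exact inW.zero B
  have hgB : ((nab B f g, fun _ => g) : (RatFunc k)⟦X⟧ × (Option k → (RatFunc k)⟦X⟧)) ∈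
      Bm B f J d := by
    refine ⟨g, hgA, fun _ _ => rfl, fun j _ => ?_⟩
    show inO B d j (g - g)
    rw [sub_self]
    exact inO.zero B
  have hSZ : S ∈ Zm B f J d :=
    Submodule.sum_mem _ fun b hb => Submodule.smul_mem _ _ (hVZ p k B f J d hP b hb)
  have hz' : z' ∈ Zm B f J d := sub_mem (sub_mem hz hgZ) hSZ
  have hu : ∀ j ∈ J, inO B d j (z'.2 j) := by
    intro j hj i hi m hm
    obtain ⟨hE, hEd⟩ := EE_facts hp hP hj
    have e1 : z'.2 j = (z.2 j - g) - ∑ b ∈ IB J d, s b • (vb B f d b).2 j := by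
      rw [hz'def, hS]
      simp only [Prod.snd_sub, Prod.snd_sum, Pi.sub_apply, Finset.sum_apply, Prod.smul_snd,
        Pi.smul_apply]
    rw [e1, map_sub, map_sub, HahnSeries.coeff_sub, map_sum, map_sum, HahnSeries.coeff_sum]
    rw [Finset.sum_congr rfl fun b _ => ex_vb hTT j b (s b) i m]
    rcases lt_or_ge m 0 with hm0 | hm0
    · rw [hneg j hj i hi m hm0, Finset.sum_eq_zero, sub_zero]
      intro b _
      rw [if_neg]
      rintro ⟨_, _, h3⟩
      omega
    · obtain ⟨a, rfl⟩ := Int.eq_ofNat_of_zero_le hm0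
      obtain ⟨t, ht⟩ : ∃ t, t = i / EE p d j := ⟨_, rfl⟩
      rw [← ht] at hm
      have ha : a + t < d j := by omega
      have had : a < d j := by omega
      by_cases h0 : j = none → a ≠ 0
      · rw [Finset.sum_eq_single (⟨j, a⟩ : Σ _ : Option k, ℕ)]
        · rw [if_pos ⟨rfl, had, rfl⟩, hs]
          unfold sfun
          simp only
          rw [if_pos had, coeff_mk, if_pos, sub_self]
          unfold ee
          show i < p - 1 - EE p d j * a
          have h1 : i < (t + 1) * EE p d j := by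
            rw [add_mul, one_mul, ht]
            exact Nat.lt_div_mul_add hE
          have h2 : (t + 1) * EE p d j + EE p d j * a ≤ EE p d j * d j := by
            calc (t + 1) * EE p d j + EE p d j * a
                = EE p d j * (a + t + 1) := by ring
              _ ≤ EE p d j * d j := Nat.mul_le_mul_left _ (by omega)
          omega
        · rintro ⟨j', a'⟩ _ hne
          rw [if_neg]
          rintro ⟨h3, _, h4⟩
          apply hne
          simp only at h3 h4
          obtain rfl := h3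
          have : a' = a := by exact_mod_cast h4.symm
          rw [this]
        · intro h
          exact absurd (mem_IB hj had h0) h
      · rw [Classical.not_imp, not_not] at h0
        obtain ⟨rfl, rfl⟩ := h0
        have h5 : (B.ex none (coeff i (z.2 none - g))).coeff ((0 : ℕ) : ℤ) = 0 := by
          rw [Nat.cast_zero]
          exact hzero i hi
        rw [h5, Finset.sum_eq_zero, sub_zero]
        rintro ⟨j', a'⟩ hb
        rw [if_neg]
        rintro ⟨h3, _, h4⟩
        simp only at h3 h4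
        subst h3
        have h6 : a' = 0 := by exact_mod_cast h4.symm
        subst h6
        unfold IB at hb
        rw [Finset.mem_sigma] at hb
        have h7 : (0 : ℕ) ∈ Finset.Ico 1 (d none) := hb.2
        rw [Finset.mem_Ico] at h7
        omega
  refine ⟨z'.1, ⟨hz'.1, fun j hj => ?_⟩, ?_⟩
  · have := (hz'.2 j hj).add B (inW_nab hp hEXD hP hj (hu j hj))
    rwa [sub_add_cancel] at this
  · have h0 : ((0, z'.2) : (RatFunc k)⟦X⟧ × (Option k → (RatFunc k)⟦X⟧)) ∈ Bm B f J d := by
      refine ⟨0, inA.zero B, fun i _ => ?_, fun j hj => ?_⟩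
      · rw [nab_zero]
      · rw [sub_zero]
        exact hu j hj
    have h1 := add_mem h0 hgB
    have h2 : z - (z'.1, 0) - S = (0, z'.2) + (nab B f g, fun _ => g) := by
      rw [hz'def]
      apply Prod.ext
      · simp only [Prod.fst_sub, Prod.fst_add]
        abel
      · simp only [Prod.snd_sub, Prod.snd_add]
        abel
    rw [h2]
    exact h1

end

end SPAN

open SPAN in
theorem t_SPAN (hPP : S_PP) (hTT : S_TT) (hEXD : S_EXD) (hVZ : S_VZ) : S_SPAN := by
  intro p _ k _ _ _ B f J d hP z hz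
  obtain ⟨g, hgA, hneg, hzero, _⟩ := exists_g (p := p) (B := B) (J := J) hPP z.2
  exact ⟨sfun B d z.2 g, core hTT hEXD hVZ hP z hz g hgA hneg hzero⟩

end Pool.Agent.Helper61.EO
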