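import Pool.Agent.Helper61.EO.J.SPAN

/-!
Project EO: the case of `S_SPAN` which describes the coefficients modulo `λ`.
-/

set_option autoImplicit false

namespace Pool.Agent.Helper61.EO

open PowerSeries

open SPAN in
theorem t_SPAN0 (hPP : S_PP) (hTT : S_TT) (hEXD : S_EXD) (hVZ : S_VZ) : S_SPAN0 := by
  intro p _ k _ _ _ B f J d hP j w h hj hz hneg0 hzero0
  have hp : p.Prime := Fact.out
  obtain ⟨g, hgA, hneg, hzero, h0⟩ := exists_g (p := p) (B := B) (J := J) hPP (at' j h)
  have hg0 : coeff 0 g = 0 := by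
    refine h0 (fun j' _ m hm => ?_) ?_
    · unfold at'
      by_cases h1 : j' = j
      · subst h1
        rw [if_pos rfl]
        exact hneg0 m hm
      · rw [if_neg h1, map_zero, map_zero, HahnSeries.coeff_zero]
    · unfold at'
      by_cases h1 : none = j
      · rw [if_pos h1, h1]
        exact hzero0 h1.symm
      · rw [if_neg h1, map_zero, map_zero, HahnSeries.coeff_zero]
  obtain ⟨w', hw', hB⟩ := core hTT hEXD hVZ hP (w, at' j h) hz g hgA hneg hzero
  have hs : ∀ b ∈ IB J d, b.2 < d b.1 → constantCoeff (sfun B d (at' j h) g b) =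
      (B.ex b.1 (coeff 0 (at' j h b.1))).coeff (b.2 : ℤ) := by
    intro b hb hlt
    have hbJ : b.1 ∈ J := by
      unfold IB at hb
      exact (Finset.mem_sigma.1 hb).1
    obtain ⟨hE, hEd⟩ := EE_facts hp hP hbJ
    unfold sfun
    rw [if_pos hlt, ← coeff_zero_eq_constantCoeff_apply, coeff_mk, if_pos, map_sub, hg0, sub_zero]
    unfold ee
    have h2 : EE p d b.1 * b.2 < EE p d b.1 * d b.1 := Nat.mul_lt_mul_of_pos_left hlt hE
    omega
  refine ⟨sfun B d (at' j h) g, w', hw', hB, fun b hb hlt hne => ?_, fun b hb hlt he => ?_⟩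
  · rw [hs b hb hlt]
    unfold at'
    rw [if_neg hne, map_zero, map_zero, HahnSeries.coeff_zero]
  · rw [hs b hb hlt]
    unfold at'
    rw [if_pos he, he]

end Pool.Agent.Helper61.EO
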