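import Pool.Agent.Helper61.EO.Stm

set_option autoImplicit false

namespace Pool.Agent.Helper61.EO

noncomputable section

theorem t_T0 : S_T0 := by
  intro p _ k _ _ _ K _ _ f hf
  obtain ⟨x, y, hx, hgen, heq⟩ := hf
  have hinj : Function.Injective (Polynomial.aeval (R := k) x) := transcendental_iff_injective.1 hx
  let ι : RatFunc k →ₐ[k] K := RatFunc.liftAlgHom (Polynomial.aeval (R := k) x)
    (nonZeroDivisors_le_comap_nonZeroDivisors_of_injective _ hinj)
  have hX : ι RatFunc.X = x := by
    change RatFunc.liftAlgHom _ _ _ = _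
    rw [RatFunc.liftAlgHom_apply, RatFunc.num_X, RatFunc.denom_X]
    simp
  refine ⟨ι, y, ?_, ?_⟩
  · rw [heq]
    change _ = RatFunc.liftAlgHom _ _ f
    rw [RatFunc.liftAlgHom_apply]
  · rw [hX, hgen]

end

end Pool.Agent.Helper61.EO
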