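import Pool.Agent.Helper61.EO.J.T5

set_option autoImplicit false

namespace Pool.Agent.Helper61.EO

noncomputable section

namespace T1

variable {k : Type} [Field k] [IsAlgClosed k] {K : Type} [Field K] [Algebra k K]

/-- nonzero polynomials in `x` are units of `P` if all `x - c` are -/
theorem aeval_mem (P : Pt k K) {x : K} (hx : x ∈ P.1) (h : ∀ c : k, (x - algebraMap k K c)⁻¹ ∈ P.1)
    (q : Polynomial k) : Polynomial.aeval x q ∈ P.1 ∧ (Polynomial.aeval x q)⁻¹ ∈ P.1 := by
  have h1 : ∀ q : Polynomial k, Polynomial.aeval x q ∈ P.1 := by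
    intro q
    induction q using Polynomial.induction_on' with
    | add a b ha hb => rw [map_add]; exact add_mem ha hb
    | monomial n a =>
      rw [Polynomial.aeval_monomial]
      exact mul_mem (P.2.1 a) (pow_mem hx n)
  refine ⟨h1 q, ?_⟩
  by_cases hq : q = 0
  · rw [hq, map_zero, inv_zero]
    exact zero_mem _
  rw [(IsAlgClosed.splits q).eq_prod_roots, map_mul, Polynomial.aeval_C, mul_inv,
    ← map_inv₀, map_multiset_prod, Multiset.map_map]
  refine mul_mem (P.2.1 _) ?_
  have h2 : ∀ s : Multiset k, ((s.map fun a => (Polynomial.aeval x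
      (Polynomial.X - Polynomial.C a) : K)).prod)⁻¹ ∈ P.1 := by
    intro s
    induction s using Multiset.induction_on with
    | empty => simp [one_mem]
    | cons a s ih =>
      rw [Multiset.map_cons, Multiset.prod_cons, mul_inv]
      refine mul_mem ?_ ih
      rw [map_sub, Polynomial.aeval_X, Polynomial.aeval_C]
      exact h a
  exact h2 q.roots

end T1

theorem t_T1 : S_T1 := by
  intro p _ k _ _ _ K _ _ f ι y hK P
  have hp := (Fact.out : p.Prime)
  have hXC : ∀ c : k, ι (RatFunc.C c) = algebraMap k K c := fun c => by
    rw [← RatFunc.algebraMap_eq_C]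
    exact ι.commutes c
  have htc : ∀ c : k, ι (tt (some c)) = ι RatFunc.X - algebraMap k K c := fun c => by
    rw [tt, map_sub, hXC]
  have htn : ι (tt none) = (ι RatFunc.X)⁻¹ := by
    rw [tt, map_inv₀]
  by_cases hx : ι RatFunc.X ∈ P.1
  · -- some point `c`
    have hex : ∃ c : k, (ι RatFunc.X - algebraMap k K c)⁻¹ ∉ P.1 := by
      by_contra hcon
      push Not at hcon
      apply P.2.2
      -- the image of `k(x)` is contained in `P`
      have h1 : ∀ φ : RatFunc k, ι φ ∈ P.1 := by
        intro φ
        rw [← RatFunc.num_div_denom φ, map_div₀, div_eq_mul_inv]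
        have e : ∀ q : Polynomial k, ι (algebraMap (Polynomial k) (RatFunc k) q) =
            Polynomial.aeval (ι RatFunc.X) q := by
          intro q
          have : (ι.comp (Algebra.ofId (Polynomial k) (RatFunc k) |>.restrictScalars k)) =
              Polynomial.aeval (ι RatFunc.X) := by
            ext
            simp [Algebra.ofId_apply]
          exact DFunLike.congr_fun this q
        rw [e, e]
        exact mul_mem (T1.aeval_mem P hx hcon _).1 (T1.aeval_mem P hx hcon _).2
      -- `y` is integral
      have hy : y ∈ P.1 := by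
        by_contra hy
        have hyi : y⁻¹ ∈ P.1 := (P.1.mem_or_inv_mem y).resolve_left hy
        have hy0 : y ≠ 0 := by
          rintro rfl
          exact hy (zero_mem _)
        have h2 : y = ι f * (y⁻¹) ^ (p - 1) + (y⁻¹) ^ (p - 2) := by
          have h3 := hK.eq
          obtain ⟨m, rfl⟩ : ∃ m, p = m + 2 := ⟨p - 2, by have := hp.two_le; omega⟩
          have e1 : y * y⁻¹ = 1 := mul_inv_cancel₀ hy0
          have e2 : y ^ (m + 1) * (y⁻¹) ^ (m + 1) = 1 := by rw [← mul_pow, e1, one_pow]
          rw [← h3]
          have e3 : m + 2 - 1 = m + 1 := rfl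
          have e4 : m + 2 - 2 = m := rfl
          rw [e3, e4]
          have e5 : y ^ (m + 2) * (y⁻¹) ^ (m + 1) = y := by
            rw [pow_succ y (m + 1), mul_right_comm, e2, one_mul]
          have e6 : y * (y⁻¹) ^ (m + 1) = (y⁻¹) ^ m := by
            rw [pow_succ, mul_left_comm, e1, mul_one]
          rw [sub_mul, e5, e6]
          ring
        apply hy
        rw [h2]
        exact add_mem (mul_mem (h1 f) (pow_mem hyi _)) (pow_mem hyi _)
      -- `K` is contained in `P`
      rw [eq_top_iff]
      intro u _
      obtain ⟨q, -, hq⟩ := T5.exists_poly hK u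
      rw [← hq, Polynomial.eval₂_eq_sum_range]
      exact sum_mem fun i _ => mul_mem (h1 _) (pow_mem hy _)
    obtain ⟨c, hc⟩ := hex
    refine ⟨some c, ⟨?_, ?_⟩, ?_⟩
    · rw [htc]
      exact sub_mem hx (P.2.1 c)
    · rwa [htc]
    · intro j hj
      cases j with
      | none =>
        exfalso
        apply hj.2
        rw [htn, inv_inv]
        exact hx
      | some c' =>
        congr 1
        by_contra hne
        have h1 := hj.2
        rw [htc] at h1
        -- `(x - c)` and `(x - c')` are in the maximal ideal
        have hne' : algebraMap k K (c - c') ≠ 0 := by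
          rw [Ne, map_eq_zero, sub_eq_zero]
          exact fun h => hne h.symm
        have key : ∀ u : K, u ∈ P.1 → u⁻¹ ∉ P.1 → P.1.valuation u < 1 := by
          intro u hu hu'
          refine lt_of_le_of_ne ((P.1.valuation_le_one_iff u).2 hu) fun h => hu' ?_
          rw [← P.1.valuation_le_one_iff, map_inv₀, h, inv_one]
        have h2 := key _ (sub_mem hx (P.2.1 c)) hc
        have h3 := key _ (sub_mem hx (P.2.1 c')) h1
        have h4 : P.1.valuation (algebraMap k K (c - c')) < 1 := by
          have e : algebraMap k K (c - c') =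
              (ι RatFunc.X - algebraMap k K c') - (ι RatFunc.X - algebraMap k K c) := by
            rw [map_sub]
            ring
          rw [e]
          exact lt_of_le_of_lt (Valuation.map_sub _ _ _) (max_lt h3 h2)
        have h5 : (algebraMap k K (c - c'))⁻¹ ∈ P.1 := by
          rw [← map_inv₀]
          exact P.2.1 _
        rw [← P.1.valuation_le_one_iff, map_inv₀] at h5
        have h6 : P.1.valuation (algebraMap k K (c - c')) ≠ 0 := (Valuation.ne_zero_iff _).2 hne'
        exact absurd ((inv_le_one₀ (zero_lt_iff.2 h6)).1 h5) (not_le.2 h4)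
  · -- the point at infinity
    have hxi : (ι RatFunc.X)⁻¹ ∈ P.1 := (P.1.mem_or_inv_mem _).resolve_left hx
    refine ⟨none, ⟨?_, ?_⟩, ?_⟩
    · rwa [htn]
    · rwa [htn, inv_inv]
    · intro j hj
      cases j with
      | none => rfl
      | some c =>
        exfalso
        apply hx
        have := hj.1
        rw [htc] at this
        simpa using add_mem this (P.2.1 c)

end

end Pool.Agent.Helper61.EO
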