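import Pool.Agent.Helper61.EO.Stm

/-!
Project EO, T10: strong approximation.
-/

set_option autoImplicit false

namespace Pool.Agent.Helper61.EO

namespace T10

section

variable {k K : Type} [Field k] [Field K] [Algebra k K]

theorem aeval_mem (P : Pt k K) {u : K} (hu : u ∈ P.1) (q : Polynomial k) :
    Polynomial.aeval u q ∈ P.1 := by
  induction q using Polynomial.induction_on' with
  | add a b ha hb => rw [map_add]; exact add_mem ha hb
  | monomial n c =>
    rw [Polynomial.aeval_monomial]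
    exact mul_mem (P.2.1 c) (pow_mem hu n)

/-- the expansion -/
theorem expand (P : Pt k K) {t : K}
    (h : ∀ u ∈ P.1, ∃ c : k, ∃ u' ∈ P.1, u = algebraMap k K c + t * u') :
    ∀ (n : ℕ) (u : K), u ∈ P.1 → ∃ q : Polynomial k, ∃ u' ∈ P.1,
      u = Polynomial.aeval t q + t ^ n * u' := by
  intro n
  induction n with
  | zero => intro u hu; exact ⟨0, u, hu, by simp⟩
  | succ n ih =>
    intro u hu
    obtain ⟨c, u1, hu1, h1⟩ := h u hu
    obtain ⟨q, u2, hu2, h2⟩ := ih u1 hu1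
    refine ⟨Polynomial.C c + Polynomial.X * q, u2, hu2, ?_⟩
    rw [map_add, map_mul, Polynomial.aeval_C, Polynomial.aeval_X, h1, h2]
    ring

/-- elements of the maximal ideal are divisible by `t` -/
theorem mem_max (P : Pt k K) {t z : K} (ht : t ∈ P.1) (ht' : t⁻¹ ∉ P.1) (hz' : z⁻¹ ∉ P.1)
    (h : ∃ c : k, ∃ u' ∈ P.1, z = algebraMap k K c + t * u') : ∃ u' ∈ P.1, z = t * u' := by
  obtain ⟨c, u', hu', rfl⟩ := h
  by_cases hc : c = 0
  · exact ⟨u', hu', by rw [hc, map_zero, zero_add]⟩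
  · exfalso
    apply hz'
    have hvt : P.1.valuation t < 1 := by
      refine lt_of_le_of_ne ((P.1.valuation_le_one_iff _).2 ht) fun h1 => ht' ?_
      rw [← P.1.valuation_le_one_iff, map_inv₀, h1, inv_one]
    have hvu : P.1.valuation (t * u') < 1 := by
      rw [map_mul]
      exact mul_lt_one_of_lt_of_le hvt ((P.1.valuation_le_one_iff _).2 hu')
    have hvc : P.1.valuation (algebraMap k K c) = 1 := by
      refine le_antisymm ((P.1.valuation_le_one_iff _).2 (P.2.1 c)) ?_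
      have h1 := (P.1.valuation_le_one_iff _).2 (P.2.1 c⁻¹)
      rw [map_inv₀, map_inv₀] at h1
      have h2 : P.1.valuation (algebraMap k K c) ≠ 0 := by
        rw [Valuation.ne_zero_iff]
        simpa using hc
      exact (inv_le_one₀ (zero_lt_iff.2 h2)).1 h1
    have h3 : P.1.valuation (algebraMap k K c + t * u') = 1 := by
      rw [← hvc]
      exact Valuation.map_add_eq_of_lt_left _ (by
        rw [hvc]
        exact hvu)
    have h4 : P.1.valuation (algebraMap k K c + t * u')⁻¹ ≤ 1 := by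
      rw [map_inv₀, h3, inv_one]
    exact (P.1.valuation_le_one_iff _).1 h4

/-- the auxiliary polynomials -/
theorem exists_e (p : ℕ) [Fact p.Prime] [CharP k p] (β f0 : k) (h : β ^ p - β = f0) (n : ℕ) :
    ∃ a b G : Polynomial k, a * (Polynomial.X - Polynomial.C β) ^ n + b * G ^ n = 1 ∧
      ∀ β' : k, β' ^ p - β' = f0 → β' ≠ β →
        ∃ G1 : Polynomial k, G = (Polynomial.X - Polynomial.C β') * G1 := by
  obtain ⟨F, hF⟩ : ∃ F : Polynomial k, F = Polynomial.X ^ p - Polynomial.X - Polynomial.C f0 :=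
    ⟨_, rfl⟩
  have hroot : ∀ b : k, b ^ p - b = f0 → F.eval b = 0 := by
    intro b hb
    rw [hF]
    simp only [Polynomial.eval_sub, Polynomial.eval_pow, Polynomial.eval_X, Polynomial.eval_C]
    rw [hb, sub_self]
  obtain ⟨G, hG⟩ := Polynomial.dvd_iff_isRoot.2 (hroot β h)
  have hd : F.derivative = -1 := by
    rw [hF]
    simp [Polynomial.derivative_X_pow]
  have hGβ : G.eval β = -1 := by
    have h1 := congrArg (Polynomial.eval β) hd
    rw [hG] at h1
    simpa [Polynomial.derivative_mul] using h1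
  have hcop : IsCoprime (Polynomial.X - Polynomial.C β) G := by
    rw [(Polynomial.irreducible_X_sub_C β).coprime_iff_not_dvd, Polynomial.dvd_iff_isRoot,
      Polynomial.IsRoot, hGβ]
    exact neg_ne_zero.2 one_ne_zero
  obtain ⟨a, b, hab⟩ := hcop.pow (m := n) (n := n)
  refine ⟨a, b, G, hab, fun β' hβ' hne => ?_⟩
  have h1 := hroot β' hβ'
  rw [hG, Polynomial.eval_mul, Polynomial.eval_sub, Polynomial.eval_X, Polynomial.eval_C] at h1
  have h2 := (mul_eq_zero.1 h1).resolve_left (sub_ne_zero.2 hne)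
  obtain ⟨G1, hG1⟩ := Polynomial.dvd_iff_isRoot.2 h2
  exact ⟨G1, hG1⟩

end

/-- one point -/
theorem onept (hT3 : S_T3) (hT8 : S_T8) (hLOC : S_LOC) (hTT : S_TT)
    (p : ℕ) [Fact p.Prime] (k : Type) [Field k] [IsAlgClosed k] [CharP k p]
    (B : Base p k) (f : RatFunc k) (J : Finset (Option k)) (d : Option k → ℕ)
    (hPD : PoleData B f J d) (K : Type) [Field K] [Algebra k K] (ι : RatFunc k →ₐ[k] K) (y : K)
    (hK : KData K p f ι y) (P : Pt k K) (j : Option k) (hj : j ∉ J) (hP : Over ι P j) (u : K) :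
    ∃ g : K, g - u ∈ P.1 ∧ ∀ (P' : Pt k K) (j' : Option k), P' ≠ P → j' ∉ J → Over ι P' j' →
      g ∈ P'.1 := by
  have hPD' := hPD
  obtain ⟨β, hβ, hyβ, hyβ', -, huniq⟩ := hLOC p k B f J d hPD K ι y hK P j hj hP
  obtain ⟨h8a, h8b, -⟩ := hT8 p k B f J d hPD K ι y hK P j hj hP
  obtain ⟨t, ht⟩ : ∃ t, t = ι (tt j) := ⟨_, rfl⟩
  have htP : t ∈ P.1 := by rw [ht]; exact hP.1
  have htP' : t⁻¹ ∉ P.1 := by rw [ht]; exact hP.2
  have ht0 : t ≠ 0 := by
    rintro h0
    apply htP'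
    rw [h0, inv_zero]
    exact zero_mem _
  rw [← ht] at h8a h8b
  obtain ⟨n, hn⟩ := h8b u
  obtain ⟨q, v, hv, hqv⟩ := expand P h8a n _ hn
  obtain ⟨a, b, G, hab, hG⟩ := exists_e p β ((B.ex j f).coeff 0) hβ n
  have hyP : ∀ (P' : Pt k K) (γ : k), y - algebraMap k K γ ∈ P'.1 → y ∈ P'.1 := by
    intro P' γ h
    have := add_mem h (P'.2.1 γ)
    rwa [sub_add_cancel] at this
  refine ⟨(t⁻¹) ^ n * Polynomial.aeval t q * Polynomial.aeval y (b * G ^ n), ?_, ?_⟩
  · obtain ⟨w, hw, hyw⟩ := mem_max P htP htP' hyβ' (h8a _ hyβ)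
    have h1 : Polynomial.aeval y (b * G ^ n) = 1 - Polynomial.aeval y a * (t * w) ^ n := by
      have h2 := congrArg (Polynomial.aeval y) hab
      rw [map_add, map_mul, map_pow, map_sub, Polynomial.aeval_X, Polynomial.aeval_C, map_one,
        hyw] at h2
      rw [← h2]
      ring
    have hu : u = (t⁻¹) ^ n * Polynomial.aeval t q + v := by
      have h3 : u = (t⁻¹) ^ n * (t ^ n * u) := by
        rw [← mul_assoc, ← mul_pow, inv_mul_cancel₀ ht0, one_pow, one_mul]
      rw [h3, hqv, mul_add, ← mul_assoc ((t⁻¹) ^ n) (t ^ n) v, ← mul_pow, inv_mul_cancel₀ ht0,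
        one_pow, one_mul]
    have h4 : (t⁻¹) ^ n * Polynomial.aeval t q * Polynomial.aeval y (b * G ^ n) - u =
        -(Polynomial.aeval t q * Polynomial.aeval y a * w ^ n) - v := by
      have h5 : (t⁻¹) ^ n * t ^ n = 1 := by rw [← mul_pow, inv_mul_cancel₀ ht0, one_pow]
      rw [h1, hu, mul_pow]
      linear_combination (-(Polynomial.aeval t q * Polynomial.aeval y a * w ^ n)) * h5
    rw [h4]
    exact sub_mem (neg_mem (mul_mem (mul_mem (aeval_mem P htP q) (aeval_mem P (hyP P β hyβ) a))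
      (pow_mem hw n))) hv
  · intro P' j' hne hj' hP'
    obtain ⟨β', hβ', hy1, hy2, -, -⟩ := hLOC p k B f J d hPD K ι y hK P' j' hj' hP'
    have hyP' : y ∈ P'.1 := hyP P' β' hy1
    by_cases hjj : j' = j
    · subst hjj
      obtain ⟨h8a', -, -⟩ := hT8 p k B f J d hPD K ι y hK P' j' hj' hP'
      rw [← ht] at h8a'
      have htQ : t ∈ P'.1 := by rw [ht]; exact hP'.1
      have htQ' : t⁻¹ ∉ P'.1 := by rw [ht]; exact hP'.2
      have hββ : β' ≠ β := by
        rintro rfl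
        exact hne (huniq P' hP' hy1 hy2)
      obtain ⟨G1, hG1⟩ := hG β' hβ' hββ
      obtain ⟨w, hw, hyw⟩ := mem_max P' htQ htQ' hy2 (h8a' _ hy1)
      have h1 : Polynomial.aeval y G = t * w * Polynomial.aeval y G1 := by
        rw [hG1, map_mul, map_sub, Polynomial.aeval_X, Polynomial.aeval_C, hyw]
      have h4 : (t⁻¹) ^ n * Polynomial.aeval t q * Polynomial.aeval y (b * G ^ n) =
          Polynomial.aeval t q * Polynomial.aeval y b * w ^ n * (Polynomial.aeval y G1) ^ n := by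
        have h5 : (t⁻¹) ^ n * t ^ n = 1 := by rw [← mul_pow, inv_mul_cancel₀ ht0, one_pow]
        rw [map_mul, map_pow, h1, mul_pow, mul_pow]
        linear_combination (Polynomial.aeval t q * Polynomial.aeval y b * w ^ n *
          (Polynomial.aeval y G1) ^ n) * h5
      rw [h4]
      exact mul_mem (mul_mem (mul_mem (aeval_mem P' htQ q) (aeval_mem P' hyP' b)) (pow_mem hw n))
        (pow_mem (aeval_mem P' hyP' G1) n)
    · have h1 : t⁻¹ ∈ P'.1 := by
        rw [ht, ← map_inv₀]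
        exact (hT3 p k B K ι P' j' hP' _).2 ((hTT p k B).2.1 j j' hjj)
      have h2 : t ∈ P'.1 := by
        rw [ht]
        match j, j', hj, hj', hP' with
        | none, _, hj, _, _ => exact absurd hPD.inf hj
        | _, none, _, hj', _ => exact absurd hPD.inf hj'
        | some c, some c', _, _, hP' =>
          have h3 : (tt (some c) : RatFunc k) = tt (some c') + algebraMap k (RatFunc k) (c' - c) := by
            simp only [tt, RatFunc.algebraMap_eq_C, map_sub]
            ring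
          rw [h3, map_add, AlgHom.commutes]
          exact add_mem hP'.1 (P'.2.1 _)
      exact mul_mem (mul_mem (pow_mem h1 n) (aeval_mem P' h2 q)) (aeval_mem P' hyP' _)

end T10

/-- strong approximation -/
theorem t_T10 (_hT1 : S_T1) (hT3 : S_T3) (hT8 : S_T8) (hLOC : S_LOC) (hTT : S_TT) : S_T10 := by
  intro p _ k _ _ _ B f J d hPD K _ _ ι y hK h hfin
  classical
  choose g hg1 hg2 using fun (P : {P : Pt k K // ∃ j, j ∉ J ∧ Over ι P j}) =>
    T10.onept hT3 hT8 hLOC hTT p k B f J d hPD K ι y hK P.1 P.2.choose P.2.choose_spec.1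
      P.2.choose_spec.2 (h P.1)
  obtain ⟨G, hG⟩ : ∃ G : Pt k K → K, ∀ P (hP : ∃ j, j ∉ J ∧ Over ι P j), G P = g ⟨P, hP⟩ :=
    ⟨fun P => if hP : ∃ j, j ∉ J ∧ Over ι P j then g ⟨P, hP⟩ else 0, fun P hP => dif_pos hP⟩
  obtain ⟨S, hS⟩ : ∃ S : Finset (Pt k K), ∀ P, P ∈ S ↔ h P ∉ P.1 ∧ ∃ j, j ∉ J ∧ Over ι P j := by
    have hf : {P | h P ∉ P.1 ∧ ∃ j, j ∉ J ∧ Over ι P j}.Finite := hfin.subset fun P hP => hP.1
    exact ⟨hf.toFinset, fun P => by rw [Set.Finite.mem_toFinset]; rfl⟩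
  have hG1 : ∀ P, (∃ j, j ∉ J ∧ Over ι P j) → G P - h P ∈ P.1 := by
    intro P hP
    rw [hG P hP]
    exact hg1 ⟨P, hP⟩
  have hG2 : ∀ P P' : Pt k K, (∃ j, j ∉ J ∧ Over ι P j) → (∃ j, j ∉ J ∧ Over ι P' j) → P' ≠ P →
      G P ∈ P'.1 := by
    rintro P P' hP ⟨j', hj', hP'⟩ hne
    rw [hG P hP]
    exact hg2 ⟨P, hP⟩ P' j' hne hj' hP'
  refine ⟨∑ P ∈ S, G P, fun P j hj hP => ?_⟩
  by_cases hPS : P ∈ S
  · rw [← Finset.add_sum_erase _ _ hPS, ← sub_sub]
    refine sub_mem ?_ (sum_mem fun Q hQ => ?_)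
    · have := neg_mem (hG1 P ⟨j, hj, hP⟩)
      rwa [neg_sub] at this
    · rw [Finset.mem_erase] at hQ
      exact hG2 Q P ((hS Q).1 hQ.2).2 ⟨j, hj, hP⟩ hQ.1.symm
  · have h1 : h P ∈ P.1 := by
      by_contra hc
      exact hPS ((hS P).2 ⟨hc, j, hj, hP⟩)
    refine sub_mem h1 (sum_mem fun Q hQ => ?_)
    exact hG2 Q P ((hS Q).1 hQ).2 ⟨j, hj, hP⟩ fun h2 => hPS (h2 ▸ hQ)

end Pool.Agent.Helper61.EO
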