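import Pool.Agent.Helper61.EO.Stm

/-!
Project EO, job T11: `p`-th powers.
-/

set_option autoImplicit false

namespace Pool.Agent.Helper61.EO

open PowerSeries

noncomputable section

namespace T11

theorem fac_ne {p : ℕ} [hp : Fact p.Prime] (R : Type) [Field R] [CharP R p] {i : ℕ} (hi : i < p) :
    ((i.factorial : ℕ) : R) ≠ 0 := by
  intro h
  rw [CharP.cast_eq_zero_iff R p] at h
  have := (Nat.Prime.dvd_factorial hp.out).1 h
  omega

theorem binom {p : ℕ} [hp : Fact p.Prime] (R : Type) [Field R] [CharP R p] (a b : R) {m : ℕ}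
    (hm : m < p) : (b + a) ^ m * ((m.factorial : ℕ) : R)⁻¹ = ∑ s ∈ Finset.range (m + 1),
      (((s.factorial : ℕ) : R)⁻¹ * a ^ s) * (b ^ (m - s) * (((m - s).factorial : ℕ) : R)⁻¹) := by
  rw [add_comm b a, add_pow, Finset.sum_mul]
  refine Finset.sum_congr rfl fun s hs => ?_
  have hs' := Finset.mem_range.1 hs
  have h2 := Nat.choose_mul_factorial_mul_factorial (show s ≤ m by omega)
  have h3 : ((m.choose s : ℕ) : R) * ((s.factorial : ℕ) : R) *
      (((m - s).factorial : ℕ) : R) = ((m.factorial : ℕ) : R) := by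
    rw [← h2]
    push_cast
    ring
  have e1 := fac_ne (p := p) R (i := s) (by omega)
  have e2 := fac_ne (p := p) R (i := m - s) (by omega)
  have e3 := fac_ne (p := p) R hm
  field_simp
  rw [← h3]
  ring

end T11

theorem t_T11 : S_T11 := by
  intro p hp k _ _ _ f K _ _ ι y hK h
  have : CharP K p := charP_of_injective_algebraMap (algebraMap k K).injective p
  have hy : y ^ p = y + ι f := by
    have := hK.eq
    linear_combination this
  have hL : Psi p ι y h ^ p = ∑ i ∈ Finset.range p, ∑ s ∈ Finset.range (p - 1 - i + 1),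
      ι (coeff i h) ^ p * ((((s.factorial : ℕ) : K)⁻¹ * ι f ^ s) *
        (y ^ (p - 1 - i - s) * (((p - 1 - i - s).factorial : ℕ) : K)⁻¹)) := by
    unfold Psi
    rw [sum_pow_char]
    refine Finset.sum_congr rfl fun i hi => ?_
    have hi' := Finset.mem_range.1 hi
    rw [← Finset.mul_sum, ← T11.binom (p := p) K (ι f) y (m := p - 1 - i) (by omega), mul_pow,
      mul_pow, ← pow_mul, mul_comm (p - 1 - i) p, pow_mul, hy, mul_assoc, inv_pow]
    congr 3
    have := map_natCast (frobenius K p) (p - 1 - i).factorial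
    rwa [frobenius_def] at this
  have hR : Psi p ι y (expo p f * fr p (RatFunc k) h) = ∑ i ∈ Finset.range p,
      ∑ s ∈ Finset.range (i + 1), ι (coeff (i - s) h) ^ p * ((((s.factorial : ℕ) : K)⁻¹ *
        ι f ^ s) * (y ^ (p - 1 - i) * (((p - 1 - i).factorial : ℕ) : K)⁻¹)) := by
    unfold Psi
    refine Finset.sum_congr rfl fun i hi => ?_
    have hi' := Finset.mem_range.1 hi
    rw [coeff_mul, map_sum, Finset.Nat.sum_antidiagonal_eq_sum_range_succ_mk, Finset.sum_mul,
      Finset.sum_mul]
    refine Finset.sum_congr rfl fun s hs => ?_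
    have hs' := Finset.mem_range.1 hs
    have e1 : coeff (i - s) (fr p (RatFunc k) h) = (coeff (i - s) h) ^ p := by
      unfold fr
      rw [PowerSeries.coeff_map]
      rfl
    have e2 : coeff s (expo p f) = ((s.factorial : ℕ) : RatFunc k)⁻¹ * f ^ s := by
      unfold expo
      rw [coeff_mk, if_pos (by omega)]
    dsimp only
    rw [e1, e2, map_mul, map_mul, map_inv₀, map_natCast, map_pow, map_pow]
    ring
  rw [hL, hR, Finset.sum_sigma', Finset.sum_sigma']
  refine Finset.sum_nbij' (fun x => ⟨x.1 + x.2, x.2⟩) (fun x => ⟨x.1 - x.2, x.2⟩) ?_ ?_ ?_ ?_ ?_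
  · rintro ⟨i, s⟩ hx
    simp only [Finset.mem_sigma, Finset.mem_range] at hx ⊢
    omega
  · rintro ⟨i, s⟩ hx
    simp only [Finset.mem_sigma, Finset.mem_range] at hx ⊢
    omega
  · rintro ⟨i, s⟩ hx
    simp
  · rintro ⟨i, s⟩ hx
    simp only [Finset.mem_sigma, Finset.mem_range] at hx
    simp only [Sigma.mk.injEq, heq_eq_eq, and_true]
    omega
  · rintro ⟨i, s⟩ hx
    simp only [Finset.mem_sigma, Finset.mem_range] at hx
    dsimp only
    rw [show i + s - s = i by omega, show p - 1 - (i + s) = p - 1 - i - s by omega]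

end

end Pool.Agent.Helper61.EO
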