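import Pool.Agent.Helper61.EO.Stm

/-!
Project EO, job T12: the Cartier operator of `K`.
-/

set_option autoImplicit false
set_option linter.unusedSectionVars false

namespace Pool.Agent.Helper61.EO

open PowerSeries

noncomputable section

namespace T12

section one

variable {p : ℕ} {k : Type} [Field k] (B : Base p k)

/-- coefficientwise derivation -/
def dS (h : (RatFunc k)⟦X⟧) : (RatFunc k)⟦X⟧ := mk fun i => B.D (coeff i h)

theorem coeff_dS (h : (RatFunc k)⟦X⟧) (i : ℕ) : coeff i (dS B h) = B.D (coeff i h) :=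
  coeff_mk _ _

theorem dS_mul (g h : (RatFunc k)⟦X⟧) : dS B (g * h) = dS B g * h + g * dS B h := by
  ext i
  rw [coeff_dS, coeff_mul, map_sum, map_add, coeff_mul, coeff_mul, ← Finset.sum_add_distrib]
  refine Finset.sum_congr rfl fun x _ => ?_
  rw [Derivation.leibniz, coeff_dS, coeff_dS]
  simp only [smul_eq_mul]
  ring

/-- congruence modulo `λ ^ p` -/
def E (p : ℕ) (g h : (RatFunc k)⟦X⟧) : Prop := ∀ i < p, coeff i g = coeff i h

theorem E.refl (g : (RatFunc k)⟦X⟧) : E p g g := fun _ _ => rfl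

theorem E.symm {g h : (RatFunc k)⟦X⟧} (H : E p g h) : E p h g := fun i hi => (H i hi).symm

theorem E.trans {g h r : (RatFunc k)⟦X⟧} (H : E p g h) (H' : E p h r) : E p g r :=
  fun i hi => (H i hi).trans (H' i hi)

theorem E.add {g h g' h' : (RatFunc k)⟦X⟧} (H : E p g h) (H' : E p g' h') :
    E p (g + g') (h + h') := fun i hi => by rw [map_add, map_add, H i hi, H' i hi]

theorem E.sub {g h g' h' : (RatFunc k)⟦X⟧} (H : E p g h) (H' : E p g' h') :
    E p (g - g') (h - h') := fun i hi => by rw [map_sub, map_sub, H i hi, H' i hi]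

theorem E.mul {g h g' h' : (RatFunc k)⟦X⟧} (H : E p g h) (H' : E p g' h') :
    E p (g * g') (h * h') := fun i hi => by
  rw [coeff_mul, coeff_mul]
  refine Finset.sum_congr rfl fun x hx => ?_
  have := Finset.HasAntidiagonal.mem_antidiagonal.1 hx
  rw [H x.1 (by omega), H' x.2 (by omega)]

theorem E.dS {g h : (RatFunc k)⟦X⟧} (H : E p g h) : E p (dS B g) (dS B h) := fun i hi => by
  rw [coeff_dS, coeff_dS, H i hi]

theorem nab_eq (f : RatFunc k) (h : (RatFunc k)⟦X⟧) :
    nab B f h = dS B h - X * (C (B.D f) * h) := rfl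

theorem E.nab {g h : (RatFunc k)⟦X⟧} (f : RatFunc k) (H : E p g h) :
    E p (nab B f g) (nab B f h) := by
  rw [nab_eq, nab_eq]
  exact (H.dS B).sub ((E.refl _).mul ((E.refl _).mul H))

end one

section two

variable {p : ℕ} {k : Type} [Field k] [hp : Fact p.Prime] [CharP k p] (B : Base p k)

theorem fac_ne (R : Type) [Field R] [CharP R p] {i : ℕ} (hi : i < p) :
    ((i.factorial : ℕ) : R) ≠ 0 := by
  intro h
  rw [CharP.cast_eq_zero_iff R p] at h
  have := (Nat.Prime.dvd_factorial hp.out).1 h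
  omega

theorem nat_ne (R : Type) [Field R] [CharP R p] {i : ℕ} (hi : i < p) (h0 : 0 < i) :
    ((i : ℕ) : R) ≠ 0 := by
  intro h
  rw [CharP.cast_eq_zero_iff R p] at h
  have := Nat.le_of_dvd h0 h
  omega

theorem coeff_expo (f : RatFunc k) {i : ℕ} (hi : i < p) :
    coeff i (expo p f) = ((i.factorial : ℕ) : RatFunc k)⁻¹ * f ^ i := by
  unfold expo
  rw [coeff_mk, if_pos hi]

theorem expo_mul (f : RatFunc k) : E p (expo p f * expo p (-f)) 1 := by
  intro i hi
  rw [coeff_mul, coeff_one]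
  have h1 : ∀ x ∈ Finset.HasAntidiagonal.antidiagonal i,
      coeff x.1 (expo p f) * coeff x.2 (expo p (-f)) =
      ((i.factorial : ℕ) : RatFunc k)⁻¹ * (i.choose x.1 • (f ^ x.1 * (-f) ^ x.2)) := by
    intro x hx
    have hx' := Finset.HasAntidiagonal.mem_antidiagonal.1 hx
    rw [coeff_expo f (by omega), coeff_expo (-f) (by omega), nsmul_eq_mul]
    have h2 := Nat.add_choose_mul_factorial_mul_factorial x.1 x.2
    rw [hx'] at h2
    have h3 : ((i.choose x.1 : ℕ) : RatFunc k) * ((x.1.factorial : ℕ) : RatFunc k) *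
        ((x.2.factorial : ℕ) : RatFunc k) = ((i.factorial : ℕ) : RatFunc k) := by
      rw [← h2, ← hx', Nat.choose_symm_add]
      push_cast
      ring
    have e1 := fac_ne (p := p) (RatFunc k) (i := x.1) (by omega)
    have e2 := fac_ne (p := p) (RatFunc k) (i := x.2) (by omega)
    have e3 := fac_ne (p := p) (RatFunc k) hi
    field_simp
    rw [← h3]
    ring
  rw [Finset.sum_congr rfl h1, ← Finset.mul_sum,
    ← (Commute.all f (-f)).add_pow' i, add_neg_cancel]
  split_ifs with h0
  · subst h0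
    simp
  · rw [zero_pow h0, mul_zero]

theorem inv_cast (n : ℕ) : ((n : RatFunc k))⁻¹ = algebraMap k (RatFunc k) ((n : k)⁻¹) := by
  rw [map_inv₀, map_natCast]

theorem D_inv_cast (n : ℕ) (φ : RatFunc k) : B.D (((n : RatFunc k))⁻¹ * φ) =
    ((n : RatFunc k))⁻¹ * B.D φ := by
  rw [inv_cast, ← Algebra.smul_def, ← Algebra.smul_def, Derivation.map_smul]

theorem dS_expo (f : RatFunc k) : E p (dS B (expo p f)) (X * (C (B.D f) * expo p f)) := by
  intro i hi
  rw [coeff_dS, coeff_expo f hi, D_inv_cast, Derivation.leibniz_pow]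
  cases i with
  | zero => simp
  | succ n =>
    rw [coeff_succ_X_mul, coeff_C_mul, coeff_expo f (by omega)]
    simp only [Nat.add_sub_cancel, smul_eq_mul, nsmul_eq_mul]
    rw [Nat.factorial_succ]
    have e1 := nat_ne (p := p) (RatFunc k) hi (by omega)
    have e2 := fac_ne (p := p) (RatFunc k) (i := n) (by omega)
    rw [Nat.cast_mul]
    field_simp

theorem nab_expo (f : RatFunc k) (v : (RatFunc k)⟦X⟧) :
    E p (nab B f (expo p f * v)) (expo p f * dS B v) := by
  have h1 : nab B f (expo p f * v) =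
      (dS B (expo p f) - X * (C (B.D f) * expo p f)) * v + expo p f * dS B v := by
    rw [nab_eq, dS_mul]
    ring
  rw [h1]
  have h2 : E p ((dS B (expo p f) - X * (C (B.D f) * expo p f)) * v + expo p f * dS B v)
      ((X * (C (B.D f) * expo p f) - X * (C (B.D f) * expo p f)) * v + expo p f * dS B v) :=
    (((dS_expo B f).sub (E.refl _)).mul (E.refl _)).add (E.refl _)
  rwa [sub_self, zero_mul, zero_add] at h2

theorem expo_cancel (f : RatFunc k) (w : (RatFunc k)⟦X⟧) :
    E p (expo p f * (expo p (-f) * w)) w := by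
  have := (expo_mul (p := p) f).mul (E.refl w)
  rwa [one_mul, mul_assoc] at this

theorem expo_cancel' (f : RatFunc k) (w : (RatFunc k)⟦X⟧) :
    E p (expo p (-f) * (expo p f * w)) w := by
  have := expo_cancel (p := p) (-f) w
  rwa [neg_neg] at this

theorem D_pow_p (a φ : RatFunc k) : B.D (a ^ p * φ) = a ^ p * B.D φ := by
  rw [Derivation.leibniz, Derivation.leibniz_pow]
  simp

theorem car_X : B.car (RatFunc.X ^ (p - 1)) = 1 := by
  have := B.car_log RatFunc.X
  rwa [B.D_X, mul_one] at this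

theorem decomp [IsAlgClosed k] (hPB : S_PB) (φ : RatFunc k) :
    ∃ v, φ = (B.car φ) ^ p * RatFunc.X ^ (p - 1) + B.D v := by
  obtain ⟨a, ha⟩ := hPB p k hp.out (some 0) φ
  have htt : (tt (some (0 : k)) : RatFunc k) = RatFunc.X := by
    unfold tt
    simp
  rw [htt] at ha
  have hp1 : p = (p - 1) + 1 := by have := hp.out.pos; omega
  have h1 : φ = a (p - 1) ^ p * RatFunc.X ^ (p - 1) +
      B.D (∑ i ∈ Finset.range (p - 1),
        a i ^ p * (((i + 1 : ℕ) : RatFunc k)⁻¹ * RatFunc.X ^ (i + 1))) := by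
    rw [ha, map_sum]
    have h2 : ∑ i ∈ Finset.range p, a i ^ p * RatFunc.X ^ i =
        ∑ i ∈ Finset.range ((p - 1) + 1), a i ^ p * (RatFunc.X : RatFunc k) ^ i := by
      rw [← hp1]
    rw [h2, Finset.sum_range_succ, add_comm]
    congr 1
    refine Finset.sum_congr rfl fun i hi => ?_
    have hi' := Finset.mem_range.1 hi
    rw [D_pow_p, D_inv_cast, Derivation.leibniz_pow, B.D_X]
    have e1 := nat_ne (p := p) (RatFunc k) (i := i + 1) (by omega) (by omega)
    simp only [Nat.add_sub_cancel, smul_eq_mul, nsmul_eq_mul, mul_one]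
    field_simp
  have h3 : B.car φ = a (p - 1) := by
    rw [h1, map_add, B.car_pow, B.car_D, car_X, mul_one, add_zero]
  exact ⟨_, by rw [h3]; exact h1⟩

end two

section three

variable {p : ℕ} {k : Type} [Field k] [hp : Fact p.Prime] [CharP k p]
  {K : Type} [Field K] [Algebra k K] (ι : RatFunc k →ₐ[k] K) (y : K)

theorem Psi_congr {g h : (RatFunc k)⟦X⟧} (H : E p g h) : Psi p ι y g = Psi p ι y h := by
  unfold Psi
  refine Finset.sum_congr rfl fun i hi => ?_
  rw [H i (Finset.mem_range.1 hi)]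

theorem Psi_add (g h : (RatFunc k)⟦X⟧) : Psi p ι y (g + h) = Psi p ι y g + Psi p ι y h := by
  unfold Psi
  rw [← Finset.sum_add_distrib]
  refine Finset.sum_congr rfl fun i _ => ?_
  rw [map_add, map_add]
  ring

theorem Psi_sub (g h : (RatFunc k)⟦X⟧) : Psi p ι y (g - h) = Psi p ι y g - Psi p ι y h := by
  unfold Psi
  rw [← Finset.sum_sub_distrib]
  refine Finset.sum_congr rfl fun i _ => ?_
  rw [map_sub, map_sub]
  ring

theorem Psi_mul_C (g : (RatFunc k)⟦X⟧) (φ : RatFunc k) :
    Psi p ι y (g * C φ) = Psi p ι y g * ι φ := by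
  unfold Psi
  rw [Finset.sum_mul]
  refine Finset.sum_congr rfl fun i _ => ?_
  rw [coeff_mul_C, map_mul]
  ring

theorem Psi_top (φ : RatFunc k) : Psi p ι y (X ^ (p - 1) * C φ) = ι φ := by
  unfold Psi
  have hp1 : p - 1 < p := by have := hp.out.pos; omega
  rw [Finset.sum_eq_single (p - 1)]
  · rw [coeff_mul_C, coeff_X_pow, if_pos rfl]
    simp
  · intro i _ hi
    rw [coeff_mul_C, coeff_X_pow, if_neg hi]
    simp
  · intro h
    exact absurd (Finset.mem_range.2 hp1) h

end three

section four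

variable {p : ℕ} {k : Type} [Field k] [hp : Fact p.Prime] [CharP k p] [IsAlgClosed k]
  (B : Base p k) {f : RatFunc k} {J : Finset (Option k)} {d : Option k → ℕ}
  (hPD : PoleData B f J d) {K : Type} [Field K] [Algebra k K] [CharP K p]
  {ι : RatFunc k →ₐ[k] K} {y : K} (hK : KData K p f ι y)


/-- the relation `C ω = c dx` -/
def Rel (p : ℕ) (ι : RatFunc k →ₐ[k] K) (ω : Ω[K⁄k]) (c : K) : Prop :=
  ∃ b : K, ω = KaehlerDifferential.D k K b +
    (c ^ p * ι RatFunc.X ^ (p - 1)) • KaehlerDifferential.D k K (ι RatFunc.X)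

omit hp [CharP k p] [IsAlgClosed k] in
theorem p_smul (z : Ω[K⁄k]) : p • z = 0 := by
  rw [← Nat.cast_smul_eq_nsmul K, CharP.cast_eq_zero, zero_smul]

omit hp [CharP k p] [IsAlgClosed k] in
theorem KD_pow (a b : K) : KaehlerDifferential.D k K (a ^ p * b) =
    a ^ p • KaehlerDifferential.D k K b := by
  rw [Derivation.leibniz, Derivation.leibniz_pow, p_smul, smul_zero, add_zero]

include hPD hK in
theorem relA (hPB : S_PB) (hT6 : S_T6) (hT11 : S_T11)
    (w : (RatFunc k)⟦X⟧) : Rel p ι (Psi p ι y w • KaehlerDifferential.D k K (ι RatFunc.X)) (Psi p ι y (carS B f w)) := by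
  choose v hv using decomp (p := p) B hPB
  set u := expo p (-f) * w with hu
  set V : (RatFunc k)⟦X⟧ := mk fun i => v (coeff i u) with hV
  have h1 : u = fr p (RatFunc k) (carS B f w) * C (RatFunc.X ^ (p - 1)) + dS B V := by
    ext i
    rw [map_add, coeff_mul_C, coeff_dS]
    have e1 : coeff i (fr p (RatFunc k) (carS B f w)) = (B.car (coeff i u)) ^ p := by
      unfold fr
      rw [PowerSeries.coeff_map]
      unfold carS
      rw [coeff_mk]
      rfl
    have e2 : coeff i V = v (coeff i u) := by rw [hV, coeff_mk]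
    rw [e1, e2]
    exact hv _
  have h2 : E p w (expo p f * fr p (RatFunc k) (carS B f w) * C (RatFunc.X ^ (p - 1)) +
      nab B f (expo p f * V)) := by
    refine (expo_cancel (p := p) f w).symm.trans ?_
    rw [← hu, h1, mul_add, ← mul_assoc]
    exact (E.refl _).add (nab_expo B f V).symm
  refine ⟨Psi p ι y (expo p f * V), ?_⟩
  rw [(hT6 p k B f K ι y hK).1, ← add_smul]
  congr 1
  rw [Psi_congr ι y h2, Psi_add, Psi_mul_C, ← hT11 p k f K ι y hK, map_pow]
  ring

include hPD hK in
theorem relB (hT5 : S_T5) (hT6 : S_T6) {b c : K}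
    (h : KaehlerDifferential.D k K b = (c ^ p * ι RatFunc.X ^ (p - 1)) • KaehlerDifferential.D k K (ι RatFunc.X)) : c = 0 := by
  by_contra hc
  have h1 : KaehlerDifferential.D k K ((c⁻¹) ^ p * b) = (ι RatFunc.X ^ (p - 1)) • KaehlerDifferential.D k K (ι RatFunc.X) := by
    rw [KD_pow, h, smul_smul]
    congr 1
    rw [← mul_assoc, ← mul_pow, inv_mul_cancel₀ hc, one_pow, one_mul]
  obtain ⟨g, hg⟩ := (hT5 p k B f J d hPD K ι y hK).1 ((c⁻¹) ^ p * b)
  rw [← hg, (hT6 p k B f K ι y hK).1] at h1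
  have h2 : Psi p ι y (nab B f g) = Psi p ι y (X ^ (p - 1) * C (RatFunc.X ^ (p - 1))) := by
    rw [Psi_top, map_pow]
    have h3 := (hT6 p k B f K ι y hK).2.1 (Psi p ι y (nab B f g) - ι RatFunc.X ^ (p - 1))
      (by rw [sub_smul, h1, sub_self])
    exact sub_eq_zero.1 h3
  have h4 : E p (nab B f g) (X ^ (p - 1) * C (RatFunc.X ^ (p - 1))) := by
    intro i hi
    have h5 := ((hT5 p k B f J d hPD K ι y hK).2
      (nab B f g - X ^ (p - 1) * C (RatFunc.X ^ (p - 1)))).1 (by rw [Psi_sub, h2, sub_self]) i hi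
    rw [map_sub] at h5
    exact sub_eq_zero.1 h5
  have h6 : E p (dS B (expo p (-f) * g)) (expo p (-f) * (X ^ (p - 1) * C (RatFunc.X ^ (p - 1)))) := by
    refine E.trans ?_ ((E.refl (expo p (-f))).mul h4)
    have e1 : E p (nab B f g) (expo p f * dS B (expo p (-f) * g)) :=
      ((expo_cancel (p := p) f g).symm.nab B f).trans (nab_expo B f _)
    exact (((E.refl (expo p (-f))).mul e1).trans (expo_cancel' f _)).symm
  have hp1 : p - 1 < p := by have := hp.out.pos; omega
  have h7 := h6 (p - 1) hp1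
  rw [coeff_dS, ← mul_assoc, coeff_mul_C, mul_comm (expo p (-f)) (X ^ (p - 1)),
    coeff_X_pow_mul'] at h7
  rw [if_pos le_rfl, Nat.sub_self, coeff_expo (-f) hp.out.pos] at h7
  simp only [Nat.factorial_zero, Nat.cast_one, inv_one, pow_zero, one_mul] at h7
  have h8 := B.car_D (coeff (p - 1) (expo p (-f) * g))
  rw [h7, car_X] at h8
  exact one_ne_zero h8

omit hp [CharP k p] [IsAlgClosed k] [CharP K p] in
theorem Rel.addD {ω : Ω[K⁄k]} {c : K} (h : Rel p ι ω c) (b : K) :
    Rel p ι (ω + KaehlerDifferential.D k K b) c := by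
  obtain ⟨b', hb'⟩ := h
  refine ⟨b' + b, ?_⟩
  rw [hb', map_add]
  abel

omit [CharP k p] [IsAlgClosed k] in
theorem Rel.add {ω ω' : Ω[K⁄k]} {c c' : K} (h : Rel p ι ω c) (h' : Rel p ι ω' c') :
    Rel p ι (ω + ω') (c + c') := by
  obtain ⟨b, hb⟩ := h
  obtain ⟨b', hb'⟩ := h'
  refine ⟨b + b', ?_⟩
  rw [hb, hb', map_add, add_pow_char, add_mul, add_smul]
  abel

omit hp [CharP k p] [IsAlgClosed k] in
theorem Rel.smul {ω : Ω[K⁄k]} {c : K} (h : Rel p ι ω c) (a : K) :
    Rel p ι (a ^ p • ω) (a * c) := by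
  obtain ⟨b, hb⟩ := h
  refine ⟨a ^ p * b, ?_⟩
  rw [hb, KD_pow, smul_add, smul_smul, mul_pow, mul_assoc]

include hPD hK in
theorem Rel.unique (hT5 : S_T5) (hT6 : S_T6) {ω : Ω[K⁄k]} {c c' : K} (h : Rel p ι ω c)
    (h' : Rel p ι ω c') : c = c' := by
  obtain ⟨b, hb⟩ := h
  obtain ⟨b', hb'⟩ := h'
  have h1 : KaehlerDifferential.D k K (b' - b) = ((c - c') ^ p * ι RatFunc.X ^ (p - 1)) • KaehlerDifferential.D k K (ι RatFunc.X) := by
    rw [sub_pow_char, sub_mul, sub_smul, map_sub]
    rw [hb] at hb'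
    rw [sub_eq_sub_iff_add_eq_add, ← hb', add_comm]
  exact sub_eq_zero.1 (relB B hPD hK hT5 hT6 h1)

omit [IsAlgClosed k] in
/-- `((g + 1) ^ (p - 1) - g ^ (p - 1)) dg` is exact -/
theorem exact_succ (g : K) : ∃ b : K, (g + 1) ^ (p - 1) • KaehlerDifferential.D k K (g + 1) =
    g ^ (p - 1) • KaehlerDifferential.D k K g + KaehlerDifferential.D k K b := by
  refine ⟨∑ i ∈ Finset.range (p - 1), algebraMap k K ((((p - 1).choose i : ℕ) : k) *
    ((i + 1 : ℕ) : k)⁻¹) * g ^ (i + 1), ?_⟩
  have h0 : KaehlerDifferential.D k K (g + 1) = KaehlerDifferential.D k K g := by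
    rw [map_add, Derivation.map_one_eq_zero, add_zero]
  rw [h0, add_pow, Finset.sum_range_succ, add_smul, add_comm]
  congr 1
  · simp
  · rw [map_sum, Finset.sum_smul]
    refine Finset.sum_congr rfl fun i hi => ?_
    have hi' := Finset.mem_range.1 hi
    rw [← Algebra.smul_def, Derivation.map_smul, Derivation.leibniz_pow, Nat.add_sub_cancel,
      ← Nat.cast_smul_eq_nsmul K, smul_smul,
      ← algebraMap_smul K (((((p - 1).choose i : ℕ) : k) * ((i + 1 : ℕ) : k)⁻¹)), smul_smul]
    congr 1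
    have e1 := nat_ne (p := p) k (i := i + 1) (by omega) (by omega)
    have e2 : ((i + 1 : ℕ) : K) = algebraMap k K ((i + 1 : ℕ) : k) := by rw [map_natCast]
    have e3 : (((p - 1).choose i : ℕ) : K) = algebraMap k K (((p - 1).choose i : ℕ) : k) := by
      rw [map_natCast]
    rw [one_pow, mul_one, e3, e2, ← mul_assoc, ← map_mul, mul_assoc _ _ ((i + 1 : ℕ) : k),
      inv_mul_cancel₀ e1, mul_one, mul_comm]

include hPD hK in
theorem derivation (hPB : S_PB) (hT5 : S_T5) (hT6 : S_T6) (hT11 : S_T11) :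
    ∃ δ : Derivation k K K, ∀ g : K, Rel p ι (g ^ (p - 1) • KaehlerDifferential.D k K g) (δ g) := by
  have hex : ∀ g : K, ∃ c, Rel p ι (g ^ (p - 1) • KaehlerDifferential.D k K g) c := by
    intro g
    obtain ⟨g', hg'⟩ := (hT6 p k B f K ι y hK).2.2 (g ^ (p - 1) • KaehlerDifferential.D k K g)
    obtain ⟨w, hw⟩ := (hT5 p k B f J d hPD K ι y hK).1 g'
    rw [hg', ← hw]
    exact ⟨_, relA B hPD hK hPB hT6 hT11 w⟩
  choose δ hδ using hex
  have hu : ∀ g c, Rel p ι (g ^ (p - 1) • KaehlerDifferential.D k K g) c → δ g = c :=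
    fun g c h => Rel.unique B hPD hK hT5 hT6 (hδ g) h
  have hp1 : (p - 1) + 1 = p := by have := hp.out.pos; omega
  have hmul : ∀ a b : K, δ (a * b) = a * δ b + b * δ a := by
    intro a b
    apply hu
    have h1 : (a * b) ^ (p - 1) • KaehlerDifferential.D k K (a * b) =
        a ^ p • (b ^ (p - 1) • KaehlerDifferential.D k K b) +
        b ^ p • (a ^ (p - 1) • KaehlerDifferential.D k K a) := by
      rw [Derivation.leibniz, smul_add, smul_smul, smul_smul, smul_smul, smul_smul, mul_pow]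
      have e1 : a ^ (p - 1) * b ^ (p - 1) * a = a ^ p * b ^ (p - 1) := by
        rw [show a ^ p = a ^ (p - 1) * a by rw [← pow_succ, hp1]]
        ring
      have e2 : a ^ (p - 1) * b ^ (p - 1) * b = b ^ p * a ^ (p - 1) := by
        rw [show b ^ p = b ^ (p - 1) * b by rw [← pow_succ, hp1]]
        ring
      rw [e1, e2]
    rw [h1]
    exact ((hδ b).smul a).add ((hδ a).smul b)
  have hconst : ∀ c : k, δ (algebraMap k K c) = 0 := by
    intro c
    apply hu
    refine ⟨0, ?_⟩
    rw [Derivation.map_algebraMap, smul_zero, map_zero, zero_pow hp.out.ne_zero, zero_mul,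
      zero_smul, add_zero]
  have hsucc : ∀ g : K, δ (g + 1) = δ g := by
    intro g
    apply hu
    obtain ⟨b, hb⟩ := exact_succ (p := p) (k := k) g
    rw [hb]
    exact (hδ g).addD b
  have hadd : ∀ a b : K, δ (a + b) = δ a + δ b := by
    intro a b
    by_cases hb : b = 0
    · subst hb
      have := hconst 0
      rw [map_zero] at this
      rw [add_zero, this, add_zero]
    · have h1 : a + b = b * (a / b + 1) := by field_simp
      have h2 : a = b * (a / b) := by field_simp
      rw [h1, hmul, hsucc]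
      conv_rhs => rw [h2, hmul]
      ring
  refine ⟨Derivation.mk' ⟨⟨δ, hadd⟩, fun c a => ?_⟩ hmul, hδ⟩
  change δ (c • a) = c • δ a
  rw [Algebra.smul_def, hmul, hconst, mul_zero, add_zero, Algebra.smul_def]

end four

end T12

/-- the Cartier operator of `K` -/
theorem t_T12 (hPB : S_PB) (hT5 : S_T5) (hT6 : S_T6) (hT11 : S_T11) : S_T12 := by
  intro p hp k _ _ _ B f J d hPD K _ _ ι y hK w η
  have : CharP K p := charP_of_injective_algebraMap (algebraMap k K).injective p
  have hA := T12.relA B hPD hK hPB hT6 hT11 w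
  have hpx : ∀ c : K, (c ^ p * ι RatFunc.X ^ (p - 1)) • KaehlerDifferential.D k K (ι RatFunc.X) =
    (c ^ p * ι RatFunc.X ^ (p - 1)) • KaehlerDifferential.D k K (ι RatFunc.X) := fun _ => rfl
  constructor
  · rintro ⟨n, a, g, b, h1, h2⟩
    obtain ⟨δ, hδ⟩ := T12.derivation B hPD hK hPB hT5 hT6 hT11
    have hx : δ (ι RatFunc.X) = 1 := by
      refine T12.Rel.unique B hPD hK hT5 hT6 (hδ _) ⟨0, ?_⟩
      rw [map_zero, zero_add, one_pow, one_mul]
    have hD : ∀ u : K, KaehlerDifferential.D k K u =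
        δ u • KaehlerDifferential.D k K (ι RatFunc.X) := by
      intro u
      obtain ⟨u', hu'⟩ := (hT6 p k B f K ι y hK).2.2 (KaehlerDifferential.D k K u)
      have h3 := congrArg δ.liftKaehlerDifferential hu'
      rw [map_smul, Derivation.liftKaehlerDifferential_comp_D,
        Derivation.liftKaehlerDifferential_comp_D, hx, smul_eq_mul, mul_one] at h3
      rw [hu', h3]
    have h4 : η = (∑ i, a i * δ (g i)) • KaehlerDifferential.D k K (ι RatFunc.X) := by
      rw [h1, Finset.sum_smul]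
      refine Finset.sum_congr rfl fun i _ => ?_
      rw [hD (g i), smul_smul]
    have h5 : ∀ s : Finset (Fin n), T12.Rel p ι (∑ i ∈ s, (a i ^ p * g i ^ (p - 1)) •
        KaehlerDifferential.D k K (g i)) (∑ i ∈ s, a i * δ (g i)) := by
      classical
      intro s
      induction s using Finset.induction_on with
      | empty =>
        refine ⟨0, ?_⟩
        rw [Finset.sum_empty, Finset.sum_empty, map_zero, zero_pow hp.out.ne_zero, zero_mul,
          zero_smul, add_zero]
      | insert i s hi ih =>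
        rw [Finset.sum_insert hi, Finset.sum_insert hi]
        refine T12.Rel.add ?_ ih
        rw [← smul_smul]
        exact (hδ (g i)).smul (a i)
    have h6 : T12.Rel p ι (Psi p ι y w • KaehlerDifferential.D k K (ι RatFunc.X))
        (∑ i, a i * δ (g i)) := by
      rw [h2, add_comm]
      exact (h5 Finset.univ).addD b
    rw [h4, T12.Rel.unique B hPD hK hT5 hT6 hA h6]
  · intro h
    obtain ⟨b, hb⟩ := hA
    refine ⟨1, fun _ => Psi p ι y (carS B f w), fun _ => ι RatFunc.X, b, ?_, ?_⟩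
    · rw [h]
      simp
    · rw [hb]
      simp

end

end Pool.Agent.Helper61.EO
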