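import Pool.Agent.Helper61.EO.Stm

/-!
Project EO, job T2: there is a point of the curve over every point of the projective line.
-/

set_option autoImplicit false

namespace Pool.Agent.Helper61.EO

noncomputable section

theorem t_T2 : S_T2 := by
  intro k _ _ K _ _ ι j
  -- the local parameter
  have htr : ∀ q : Polynomial k, Polynomial.aeval (ι (tt j)) q = 0 → q = 0 := by
    have hX : Transcendental k (RatFunc.X : RatFunc k) := RatFunc.transcendental_X
    have ht : Transcendental k (tt j : RatFunc k) := by
      cases j with
      | none =>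
        rw [tt]
        intro h
        exact hX (by simpa using h.inv)
      | some c =>
        rw [tt]
        intro h
        apply hX
        have h1 : IsAlgebraic k (RatFunc.C c : RatFunc k) := by
          rw [← RatFunc.algebraMap_eq_C]
          exact isAlgebraic_algebraMap c
        simpa using h.add h1
    intro q hq
    have h1 : ι (Polynomial.aeval (tt j) q) = 0 := by
      rw [← Polynomial.aeval_algHom_apply]
      exact hq
    have h2 : Polynomial.aeval (tt j : RatFunc k) q = 0 := by
      rwa [map_eq_zero] at h1
    exact transcendental_iff.1 ht q h2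
  set t := ι (tt j) with hdt
  let A : Subring K := (Algebra.adjoin k {t}).toSubring
  have htA : t ∈ A := Algebra.subset_adjoin (Set.mem_singleton t)
  let I : Ideal A := Ideal.span {⟨t, htA⟩}
  have hI : I ≠ ⊤ := by
    intro h
    rw [Ideal.eq_top_iff_one, Ideal.mem_span_singleton'] at h
    obtain ⟨⟨a, ha⟩, h1⟩ := h
    have h2 : a * t = 1 := congrArg Subtype.val h1
    have h3 : a ∈ Algebra.adjoin k {t} := ha
    rw [Algebra.adjoin_singleton_eq_range_aeval] at h3
    obtain ⟨q, rfl⟩ := h3
    have h4 := htr (q * Polynomial.X - 1) (by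
      rw [map_sub, map_mul, Polynomial.aeval_X, map_one]
      exact sub_eq_zero.2 h2)
    have h5 := congrArg (Polynomial.eval 0) h4
    simp at h5
  obtain ⟨V, hV1, hV2⟩ := Ideal.image_subset_nonunits_valuationSubring I hI
  have hc : ∀ c : k, algebraMap k K c ∈ V := fun c =>
    hV1 ((Algebra.adjoin k {t}).algebraMap_mem c)
  have ht0 : t ∈ V.nonunits := hV2 ⟨⟨t, htA⟩, Ideal.subset_span rfl, rfl⟩
  have ht1 : t ≠ 0 := by
    intro h0
    have := htr Polynomial.X (by rw [Polynomial.aeval_X]; exact h0)
    exact Polynomial.X_ne_zero this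
  have htinv : t⁻¹ ∉ V := by
    intro h
    rw [ValuationSubring.mem_nonunits_iff] at ht0
    rw [← V.valuation_le_one_iff, map_inv₀] at h
    have h6 : V.valuation t ≠ 0 := (Valuation.ne_zero_iff _).2 ht1
    exact absurd ((inv_le_one₀ (zero_lt_iff.2 h6)).1 h) (not_le.2 ht0)
  refine ⟨⟨V, hc, ?_⟩, ?_, htinv⟩
  · rintro rfl
    exact htinv trivial
  · exact hV1 htA

end

end Pool.Agent.Helper61.EO
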