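import Pool.Agent.Helper61.EO.Stm

/-!
Project EO, job T3: `P ∩ k(x)` is the local ring at `j`.
-/

set_option autoImplicit false
set_option linter.unusedSectionVars false

namespace Pool.Agent.Helper61.EO

namespace T3

section

variable {p : ℕ} {k : Type} [Field k] [IsAlgClosed k] (B : Base p k)

theorem ex_tt (j : Option k) : B.ex j (tt j) = HahnSeries.single 1 1 := by
  cases j with
  | some c =>
    unfold tt
    rw [map_sub, B.ex_some, B.ex_C, add_sub_cancel_left]
  | none =>
    unfold tt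
    rw [map_inv₀, B.ex_none]
    refine inv_eq_of_mul_eq_one_right ?_
    rw [HahnSeries.single_mul_single]
    simp

theorem tt_ne (j : Option k) : tt j ≠ 0 := by
  cases j with
  | some c =>
    change RatFunc.X - RatFunc.C c ≠ 0
    rw [← RatFunc.algebraMap_X, ← RatFunc.algebraMap_C, ← map_sub]
    exact (map_ne_zero_iff _ (RatFunc.algebraMap_injective k)).2 (Polynomial.X_sub_C_ne_zero c)
  | none =>
    unfold tt
    exact inv_ne_zero RatFunc.X_ne_zero

theorem ex_ne {j : Option k} {φ : RatFunc k} (h : φ ≠ 0) : B.ex j φ ≠ 0 :=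
  (map_ne_zero _).2 h

theorem order_eq {x : LaurentSeries k} {n : ℤ} (h : x.coeff n ≠ 0) (h' : ∀ m < n, x.coeff m = 0) :
    x.order = n := by
  have hx : x ≠ 0 := by rintro rfl; exact h rfl
  refine le_antisymm (HahnSeries.order_le_of_coeff_ne_zero h) ?_
  by_contra h1
  rw [not_le] at h1
  exact (HahnSeries.coeff_order_eq_zero.not.2 hx) (h' _ h1)

variable {K : Type} [Field K] [Algebra k K] (ι : RatFunc k →ₐ[k] K) (P : Pt k K)

theorem val_c {c : k} (hc : c ≠ 0) : P.1.valuation (algebraMap k K c) = 1 := by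
  have h1 := (P.1.valuation_le_one_iff _).2 (P.2.1 c)
  have h2 := (P.1.valuation_le_one_iff _).2 (P.2.1 c⁻¹)
  rw [map_inv₀, map_inv₀] at h2
  have h0 : P.1.valuation (algebraMap k K c) ≠ 0 :=
    (Valuation.ne_zero_iff _).2 ((map_ne_zero _).2 hc)
  refine le_antisymm h1 ?_
  exact (inv_le_one₀ (zero_lt_iff.2 h0)).1 h2

theorem ι_C (c : k) : ι (RatFunc.C c) = algebraMap k K c := by
  rw [← RatFunc.algebraMap_eq_C]; exact ι.commutes c

/-- the claim -/
def Cl (j : Option k) (φ : RatFunc k) : Prop :=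
  P.1.valuation (ι φ) = P.1.valuation (ι (tt j)) ^ (B.ex j φ).order

variable {P} {ι} {B} {j : Option k}

theorem t_ne : P.1.valuation (ι (tt j)) ≠ 0 :=
  (Valuation.ne_zero_iff _).2 ((map_ne_zero _).2 (tt_ne j))

theorem Cl.mul {φ ψ : RatFunc k} (hφ : φ ≠ 0) (hψ : ψ ≠ 0) (h : Cl B ι P j φ)
    (h' : Cl B ι P j ψ) : Cl B ι P j (φ * ψ) := by
  unfold Cl at *
  rw [map_mul, map_mul, map_mul, HahnSeries.order_mul (ex_ne B hφ) (ex_ne B hψ), h, h',
    zpow_add₀ t_ne]

theorem Cl.c {c : k} (hc : c ≠ 0) : Cl B ι P j (RatFunc.C c) := by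
  unfold Cl
  rw [ι_C, val_c P hc, B.ex_C, HahnSeries.order_C, zpow_zero]

theorem Cl.one : Cl B ι P j 1 := by
  have := Cl.c (B := B) (ι := ι) (P := P) (j := j) (c := 1) one_ne_zero
  rwa [map_one] at this

theorem Cl.inv {φ : RatFunc k} (hφ : φ ≠ 0) (h : Cl B ι P j φ) : Cl B ι P j φ⁻¹ := by
  have h1 := ex_ne B (j := j) hφ
  have h2 := ex_ne B (j := j) (inv_ne_zero hφ)
  have h3 := HahnSeries.order_mul h1 h2
  rw [← map_mul, mul_inv_cancel₀ hφ, map_one, HahnSeries.order_one] at h3
  unfold Cl at *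
  rw [map_inv₀, map_inv₀, h, ← zpow_neg]
  congr 1
  omega

theorem Cl.tt : Cl B ι P j (tt j) := by
  unfold Cl
  rw [ex_tt, HahnSeries.order_single one_ne_zero, zpow_one]

theorem Cl.lin (hO : Over ι P j) {a b : k} (ha : a ≠ 0) :
    Cl B ι P j (RatFunc.C a + RatFunc.C b * EO.tt j) := by
  unfold Cl
  have h1 : P.1.valuation (ι (EO.tt j)) < 1 := by
    have h2 := hO.2
    rw [← P.1.valuation_le_one_iff, map_inv₀, not_le] at h2
    exact (one_lt_inv₀ (zero_lt_iff.2 t_ne)).1 h2
  have h3 : P.1.valuation (ι (RatFunc.C b * EO.tt j)) < 1 := by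
    rw [map_mul, map_mul, ι_C]
    exact (mul_le_of_le_one_left zero_le ((P.1.valuation_le_one_iff _).2 (P.2.1 b))).trans_lt h1
  rw [map_add, Valuation.map_add_eq_of_lt_left, ι_C, val_c P ha]
  · rw [order_eq (n := 0), zpow_zero]
    · rw [map_add, map_mul, B.ex_C, B.ex_C, ex_tt, HahnSeries.coeff_add, HahnSeries.C_mul_eq_smul,
        HahnSeries.coeff_smul, HahnSeries.coeff_single_of_ne (by norm_num), HahnSeries.C_apply,
        HahnSeries.coeff_single_same]
      simpa using ha
    · intro m hm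
      rw [map_add, map_mul, B.ex_C, B.ex_C, ex_tt, HahnSeries.coeff_add, HahnSeries.C_mul_eq_smul,
        HahnSeries.coeff_smul, HahnSeries.coeff_single_of_ne (by omega), HahnSeries.C_apply,
        HahnSeries.coeff_single_of_ne (by omega)]
      simp
  · rw [ι_C, val_c P ha]; exact h3

theorem lin_ne (j : Option k) {a b : k} (ha : a ≠ 0) : RatFunc.C a + RatFunc.C b * EO.tt j ≠ 0 := by
  cases j with
  | some c =>
    unfold EO.tt
    intro h
    have h1 : algebraMap (Polynomial k) (RatFunc k) (Polynomial.C a + Polynomial.C b *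
        (Polynomial.X - Polynomial.C c)) = 0 := by
      simpa [RatFunc.algebraMap_C, RatFunc.algebraMap_X] using h
    rw [map_eq_zero_iff _ (RatFunc.algebraMap_injective k)] at h1
    have h2 := congrArg (Polynomial.eval c) h1
    simp at h2
    exact ha h2
  | none =>
    unfold EO.tt
    intro h
    have hX : (RatFunc.X : RatFunc k) ≠ 0 := RatFunc.X_ne_zero
    have h0 : RatFunc.C a * RatFunc.X + RatFunc.C b = 0 := by
      have : (RatFunc.C a + RatFunc.C b * RatFunc.X⁻¹) * RatFunc.X = 0 := by rw [h, zero_mul]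
      rwa [add_mul, mul_assoc, inv_mul_cancel₀ hX, mul_one] at this
    have h1 : algebraMap (Polynomial k) (RatFunc k) (Polynomial.C a * Polynomial.X +
        Polynomial.C b) = 0 := by
      simpa [RatFunc.algebraMap_C, RatFunc.algebraMap_X] using h0
    rw [map_eq_zero_iff _ (RatFunc.algebraMap_injective k)] at h1
    have h2 := congrArg (fun q => Polynomial.coeff q 1) h1
    simp at h2
    exact ha h2

theorem Cl.sub (hO : Over ι P j) (a : k) : Cl B ι P j (RatFunc.X - RatFunc.C a) := by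
  cases j with
  | some c =>
    rcases eq_or_ne a c with h | h
    · subst h
      exact Cl.tt
    · have h1 := Cl.lin (B := B) hO (a := c - a) (b := 1) (sub_ne_zero.2 h.symm)
      unfold EO.tt at h1
      rwa [map_one, one_mul, map_sub, show RatFunc.C c - RatFunc.C a + (RatFunc.X - RatFunc.C c) =
        (RatFunc.X - RatFunc.C a : RatFunc k) by ring] at h1
  | none =>
    have hX : (RatFunc.X : RatFunc k) ≠ 0 := RatFunc.X_ne_zero
    have h1 := Cl.lin (B := B) hO (a := 1) (b := -a) one_ne_zero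
    have h2 : Cl B ι P none (EO.tt none)⁻¹ := Cl.tt.inv (tt_ne none)
    have h3 := h2.mul (inv_ne_zero (tt_ne none)) (lin_ne none one_ne_zero) h1
    have h4 : (EO.tt none)⁻¹ * (RatFunc.C 1 + RatFunc.C (-a) * EO.tt none) =
        (RatFunc.X - RatFunc.C a : RatFunc k) := by
      unfold EO.tt
      rw [map_neg, map_one]
      field_simp
      ring
    rwa [h4] at h3

theorem sub_ne (a : k) : (RatFunc.X - RatFunc.C a : RatFunc k) ≠ 0 := tt_ne (some a)

theorem Cl.poly (hO : Over ι P j) (q : Polynomial k) (hq : q ≠ 0) :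
    Cl B ι P j (algebraMap (Polynomial k) (RatFunc k) q) := by
  have hsp : q.Splits := IsAlgClosed.splits q
  have hprod := hsp.eq_prod_roots
  have key : ∀ s : Multiset k, algebraMap (Polynomial k) (RatFunc k)
      (s.map fun b => Polynomial.X - Polynomial.C b).prod ≠ 0 ∧
      Cl B ι P j (algebraMap (Polynomial k) (RatFunc k)
        (s.map fun b => Polynomial.X - Polynomial.C b).prod) := by
    intro s
    induction s using Multiset.induction_on with
    | empty => simpa using Cl.one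
    | cons b s ih =>
      rw [Multiset.map_cons, Multiset.prod_cons, map_mul, map_sub, RatFunc.algebraMap_X,
        RatFunc.algebraMap_C]
      exact ⟨mul_ne_zero (sub_ne b) ih.1, (Cl.sub hO b).mul (sub_ne b) ih.1 ih.2⟩
  have hl : q.leadingCoeff ≠ 0 := Polynomial.leadingCoeff_ne_zero.2 hq
  rw [hprod, map_mul, RatFunc.algebraMap_C]
  exact (Cl.c hl).mul ((map_ne_zero _).2 hl) (key _).1 (key _).2

theorem Cl.all (hO : Over ι P j) (φ : RatFunc k) (hφ : φ ≠ 0) : Cl B ι P j φ := by
  rw [← RatFunc.num_div_denom φ, div_eq_mul_inv]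
  have h1 : φ.num ≠ 0 := RatFunc.num_ne_zero hφ
  have h2 : φ.denom ≠ 0 := RatFunc.denom_ne_zero φ
  have h1' : algebraMap (Polynomial k) (RatFunc k) φ.num ≠ 0 :=
    (map_ne_zero_iff _ (RatFunc.algebraMap_injective k)).2 h1
  have h2' : algebraMap (Polynomial k) (RatFunc k) φ.denom ≠ 0 :=
    (map_ne_zero_iff _ (RatFunc.algebraMap_injective k)).2 h2
  exact (Cl.poly hO _ h1).mul h1' (inv_ne_zero h2') ((Cl.poly hO _ h2).inv h2')

end

end T3

open T3 in
theorem t_T3 : S_T3 := by
  intro p k _ _ B K _ _ ι P j hO φ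
  rcases eq_or_ne φ 0 with rfl | hφ
  · simp
  have h := Cl.all (B := B) hO φ hφ
  unfold Cl at h
  have h1 : P.1.valuation (ι (tt j)) < 1 := by
    have h2 := hO.2
    rw [← P.1.valuation_le_one_iff, map_inv₀, not_le] at h2
    exact (one_lt_inv₀ (zero_lt_iff.2 t_ne)).1 h2
  have h0 : 0 < P.1.valuation (ι (tt j)) := zero_lt_iff.2 t_ne
  rw [← P.1.valuation_le_one_iff, h]
  have hx := ex_ne B (j := j) hφ
  constructor
  · intro h3 m hm
    refine HahnSeries.coeff_eq_zero_of_lt_order (hm.trans_le ?_)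
    by_contra h4
    rw [not_le] at h4
    have h5 := one_lt_zpow_of_neg₀ h0 h1 h4
    exact absurd h3 (not_le.2 h5)
  · intro h3
    have h4 : 0 ≤ (B.ex j φ).order := by
      by_contra h4
      rw [not_le] at h4
      exact (HahnSeries.coeff_order_eq_zero.not.2 hx) (h3 _ h4)
    exact zpow_le_one₀ h0 h1.le h4

end Pool.Agent.Helper61.EO
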