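import Pool.Agent.Helper61.EO.Stm

/-!
Project EO, job T4: points over the poles, membership.
-/

set_option autoImplicit false

namespace Pool.Agent.Helper61.EO

open PowerSeries

noncomputable section

namespace T4

/-- a sum of elements with pairwise distinct valuations -/
theorem sum_mem {K : Type} [Field K] (P : ValuationSubring K) {κ : Type} [DecidableEq κ]
    (s : Finset κ) (a : κ → K)
    (hd : ∀ i ∈ s, ∀ j ∈ s, a i ≠ 0 → a j ≠ 0 → i ≠ j → P.valuation (a i) ≠ P.valuation (a j))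
    (h : ∑ i ∈ s, a i ∈ P) : ∀ i ∈ s, a i ∈ P := by
  intro i hi
  by_cases h0 : a i = 0
  · rw [h0]; exact zero_mem _
  obtain ⟨j, hj, hmax⟩ := Finset.exists_max_image s (fun i => P.valuation (a i)) ⟨i, hi⟩
  have hj0 : a j ≠ 0 := by
    intro hc
    have := hmax i hi
    simp only [hc, map_zero] at this
    exact h0 ((_root_.map_eq_zero _).1 (le_antisymm this zero_le))
  have hlt : ∀ l ∈ s \ {j}, P.valuation (a l) < P.valuation (a j) := by
    intro l hl
    rw [Finset.mem_sdiff, Finset.mem_singleton] at hl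
    by_cases hl0 : a l = 0
    · rw [hl0, map_zero]
      exact zero_lt_iff.2 ((Valuation.ne_zero_iff _).2 hj0)
    · exact lt_of_le_of_ne (hmax l hl.1) (hd l hl.1 j hj hl0 hj0 hl.2)
  have hv := Valuation.map_sum_eq_of_lt P.valuation hj hlt
  rw [← P.valuation_le_one_iff] at h ⊢
  rw [hv] at h
  exact (hmax i hi).trans h

theorem order_inv {k : Type} [Field k] (x : LaurentSeries k) : x⁻¹.order = - x.order := by
  by_cases hx : x = 0
  · simp [hx]
  have h := HahnSeries.order_mul hx (inv_ne_zero hx)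
  rw [mul_inv_cancel₀ hx, HahnSeries.order_one] at h
  omega

theorem order_zpow {k : Type} [Field k] (x : LaurentSeries k) (n : ℤ) :
    (x ^ n).order = n * x.order := by
  cases n with
  | ofNat n => simp [HahnSeries.order_pow]
  | negSucc n =>
    rw [zpow_negSucc, order_inv, HahnSeries.order_pow, Int.negSucc_eq, nsmul_eq_mul]
    push_cast
    ring

section

variable {p : ℕ} {k : Type} [Field k]

theorem tt_ne {K : Type} [Field K] [Algebra k K] {ι : RatFunc k →ₐ[k] K} {P : Pt k K}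
    {j : Option k} (hP : Over ι P j) : ι (tt j) ≠ 0 := by
  intro h
  apply hP.2
  rw [h, inv_zero]
  exact zero_mem _

theorem val_tt_lt {K : Type} [Field K] [Algebra k K] {ι : RatFunc k →ₐ[k] K} {P : Pt k K}
    {j : Option k} (hP : Over ι P j) : P.1.valuation (ι (tt j)) < 1 := by
  have h1 := (P.1.valuation_le_one_iff _).2 hP.1
  refine lt_of_le_of_ne h1 fun h => hP.2 ?_
  rw [← P.1.valuation_le_one_iff, map_inv₀, h, inv_one]

theorem val_tt_pos {K : Type} [Field K] [Algebra k K] {ι : RatFunc k →ₐ[k] K} {P : Pt k K}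
    {j : Option k} (hP : Over ι P j) : 0 < P.1.valuation (ι (tt j)) :=
  zero_lt_iff.2 ((Valuation.ne_zero_iff _).2 (tt_ne hP))

/-- valuations of functions of `x` -/
theorem val_iota [IsAlgClosed k] (hT3 : S_T3) (hTT : S_TT) (B : Base p k) {K : Type} [Field K]
    [Algebra k K] {ι : RatFunc k →ₐ[k] K} {P : Pt k K} {j : Option k} (hP : Over ι P j)
    {φ : RatFunc k} (hφ : φ ≠ 0) :
    P.1.valuation (ι φ) = P.1.valuation (ι (tt j)) ^ (B.ex j φ).order := by
  have ht : tt j ≠ 0 := fun h => tt_ne hP (by rw [h, map_zero])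
  set n := (B.ex j φ).order with hn
  set ψ : RatFunc k := φ * tt j ^ (-n) with hψ
  have hψ0 : ψ ≠ 0 := mul_ne_zero hφ (zpow_ne_zero _ ht)
  have hord : (B.ex j ψ).order = 0 := by
    rw [hψ, map_mul, map_zpow₀, (hTT p k B).1 j, HahnSeries.order_mul, order_zpow,
      HahnSeries.order_single one_ne_zero, ← hn]
    · ring
    · exact (map_ne_zero _).2 hφ
    · exact zpow_ne_zero _ (HahnSeries.single_ne_zero one_ne_zero)
  have hord' : (B.ex j ψ⁻¹).order = 0 := by
    rw [map_inv₀, order_inv, hord, neg_zero]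
  have h1 : ι ψ ∈ P.1 := (hT3 p k B K ι P j hP ψ).2 fun m hm =>
    HahnSeries.coeff_eq_zero_of_lt_order (by rw [hord]; exact hm)
  have h2 : ι ψ⁻¹ ∈ P.1 := (hT3 p k B K ι P j hP ψ⁻¹).2 fun m hm =>
    HahnSeries.coeff_eq_zero_of_lt_order (by rw [hord']; exact hm)
  rw [← P.1.valuation_le_one_iff] at h1 h2
  rw [map_inv₀, map_inv₀] at h2
  have h0 : 0 < P.1.valuation (ι ψ) :=
    zero_lt_iff.2 ((Valuation.ne_zero_iff _).2 ((map_ne_zero _).2 hψ0))
  have h3 : P.1.valuation (ι ψ) = 1 := le_antisymm h1 ((inv_le_one₀ h0).1 h2)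
  rw [hψ, map_mul, map_mul, map_zpow₀, map_zpow₀, zpow_neg] at h3
  rw [← div_eq_mul_inv, div_eq_one_iff_eq (zpow_ne_zero _ (val_tt_pos hP).ne')] at h3
  exact h3

/-- the condition on coefficients in terms of the order -/
theorem low_iff (B : Base p k) (j : Option k) (φ : RatFunc k) (hφ : φ ≠ 0) (N : ℤ) :
    (∀ m : ℤ, m < N → (B.ex j φ).coeff m = 0) ↔ N ≤ (B.ex j φ).order := by
  constructor
  · intro h
    by_contra hc
    rw [not_le] at hc
    have := h _ hc
    rw [HahnSeries.coeff_order_eq_zero, _root_.map_eq_zero] at this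
    exact hφ this
  · intro h m hm
    exact HahnSeries.coeff_eq_zero_of_lt_order (by omega)

/-- arithmetic -/
theorem arith (p d E i : ℕ) (n : ℤ) (hE : d * E = p - 1) (hd : 1 ≤ d) (hp : 2 ≤ p) (hi : i < p) :
    0 ≤ (p : ℤ) * n - d * ((p - 1 - i : ℕ) : ℤ) ↔ (d : ℤ) - (i / E : ℕ) ≤ n := by
  have hE0 : 0 < E := by
    rcases Nat.eq_zero_or_pos E with h | h
    · rw [h] at hE; omega
    · exact h
  set q := i / E with hq
  have hi2 : i = E * q + i % E := (Nat.div_add_mod i E).symm
  set r := i % E with hr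
  have hrE : r < E := Nat.mod_lt _ hE0
  have hq2 : q ≤ d := by
    rw [hq]
    apply Nat.div_le_of_le_mul
    rw [mul_comm, hE]; omega
  have e1 : ((p - 1 - i : ℕ) : ℤ) = (p : ℤ) - 1 - i := by omega
  rw [e1]
  have e2 : (d : ℤ) * E = p - 1 := by
    have : ((d * E : ℕ) : ℤ) = ((p - 1 : ℕ) : ℤ) := by rw [hE]
    push_cast at this
    omega
  have e3 : (i : ℤ) = E * q + r := by exact_mod_cast hi2
  have e4 : (d : ℤ) * ((p : ℤ) - 1 - i) = p * (d - q) - (d - q + d * r) := by
    rw [e3]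
    have : (d : ℤ) * (E * q) = (p - 1) * q := by rw [← mul_assoc, e2]
    nlinarith [this]
  have h1 : (0 : ℤ) ≤ d - q + d * r := by
    have : (q : ℤ) ≤ d := by exact_mod_cast hq2
    have h0 : (0 : ℤ) ≤ d * r := by positivity
    linarith
  have h2 : (d : ℤ) - q + d * r < p := by
    have h3 : (d : ℤ) * r ≤ d * (E - 1) := by
      apply mul_le_mul_of_nonneg_left _ (by positivity)
      have : (r : ℤ) < E := by exact_mod_cast hrE
      omega
    have h4 : (0 : ℤ) ≤ q := by positivity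
    nlinarith
  rw [e4]
  constructor
  · intro h
    by_contra hc
    rw [not_le] at hc
    have h5 : n ≤ d - q - 1 := by omega
    have h6 : (p : ℤ) * n ≤ p * (d - q - 1) := mul_le_mul_of_nonneg_left h5 (by positivity)
    nlinarith
  · intro h
    have h6 : (p : ℤ) * (d - q) ≤ p * n := mul_le_mul_of_nonneg_left h (by positivity)
    linarith

end

end T4

open T4 in
theorem t_T4 (hT3 : S_T3) (hTT : S_TT) : S_T4 := by
  intro p hpf k _ _ _ B f J d hPD K _ _ ι y hK P j hj hP h
  have hp : p.Prime := hpf.out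
  have hp2 := hp.two_le
  have hd1 := hPD.pos j hj
  have hdvd := hPD.dvd j hj
  have hE : d j * EE p d j = p - 1 := Nat.mul_div_cancel' hdvd
  have hdp : ¬ p ∣ d j := by
    intro hc
    have := Nat.le_of_dvd (by omega) hdvd
    have := Nat.le_of_dvd (by omega) hc
    omega
  have : CharP K p := charP_of_injective_algebraMap (algebraMap k K).injective p
  set v := P.1.valuation with hv
  set t := ι (tt j) with ht
  have ht0 : 0 < v t := val_tt_pos hP
  have ht1 : v t < 1 := val_tt_lt hP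
  -- the valuation of `f`
  have hf0 : f ≠ 0 := by
    rintro rfl
    exact hPD.lead j hj (by simp)
  have hford : (B.ex j f).order = -(d j : ℤ) := by
    apply le_antisymm
    · exact HahnSeries.order_le_of_coeff_ne_zero (hPD.lead j hj)
    · exact (low_iff B j f hf0 _).1 (hPD.low j hj)
  have hvf : v (ι f) = v t ^ (-(d j : ℤ)) := by
    rw [← hford]; exact val_iota hT3 hTT B hP hf0
  -- the valuation of `y`
  have hvf1 : 1 < v (ι f) := by
    rw [hvf]
    exact one_lt_zpow_of_neg₀ ht0 ht1 (by omega)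
  have hvy1 : 1 < v y := by
    by_contra hc
    rw [not_lt, hv, P.1.valuation_le_one_iff] at hc
    have h1 : y ^ p - y ∈ P.1 := sub_mem (pow_mem hc p) hc
    rw [hK.eq, ← P.1.valuation_le_one_iff] at h1
    exact absurd hvf1 (not_lt.2 h1)
  have hvy : v y ^ p = v t ^ (-(d j : ℤ)) := by
    rw [← hvf, ← hK.eq, ← map_pow]
    symm
    apply Valuation.map_sub_eq_of_lt_left
    rw [map_pow]
    exact lt_self_pow₀ hvy1 hp.one_lt
  have hy0 : y ≠ 0 := by
    rintro rfl
    rw [map_zero] at hvy1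
    exact absurd hvy1 (not_lt.2 zero_le_one)
  -- the factorials
  have hfac : ∀ i < p, v (((p - 1 - i).factorial : ℕ) : K)⁻¹ = 1 := by
    intro i hi
    have h1 : ((((p - 1 - i).factorial : ℕ) : k)) ≠ 0 := by
      rw [Ne, CharP.cast_eq_zero_iff k p, hp.dvd_factorial]
      omega
    have h2 : (((p - 1 - i).factorial : ℕ) : K) = algebraMap k K (((p - 1 - i).factorial : ℕ) : k) := by
      rw [map_natCast]
    have h3 : (((p - 1 - i).factorial : ℕ) : K) ∈ P.1 := by
      rw [h2]; exact P.2.1 _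
    have h4 : (((p - 1 - i).factorial : ℕ) : K)⁻¹ ∈ P.1 := by
      rw [h2, ← map_inv₀]; exact P.2.1 _
    have h5 : (((p - 1 - i).factorial : ℕ) : K) ≠ 0 := by
      rw [h2]; exact (map_ne_zero _).2 h1
    rw [← P.1.valuation_le_one_iff] at h3 h4
    apply le_antisymm h4
    rw [map_inv₀]
    exact (one_le_inv₀ (zero_lt_iff.2 ((Valuation.ne_zero_iff _).2 h5))).2 h3
  -- the terms
  set a : ℕ → K := fun i => ι (coeff i h) * y ^ (p - 1 - i) * (((p - 1 - i).factorial : ℕ) : K)⁻¹
    with ha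
  have hva : ∀ i < p, coeff i h ≠ 0 → v (a i) ^ p =
      v t ^ ((p : ℤ) * (B.ex j (coeff i h)).order - d j * ((p - 1 - i : ℕ) : ℤ)) := by
    intro i hi h0
    rw [ha]
    simp only [map_mul, map_pow]
    rw [hfac i hi, mul_one, mul_pow, ← pow_mul, mul_comm (p - 1 - i) p, pow_mul, hvy,
      hv, val_iota hT3 hTT B hP h0, ← hv, ← ht, ← zpow_natCast, ← zpow_natCast, ← zpow_mul,
      ← zpow_mul, ← zpow_add₀ ht0.ne']
    congr 1
    ring
  have ha0 : ∀ i < p, a i ≠ 0 → coeff i h ≠ 0 := by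
    intro i _ h1 h2
    apply h1
    rw [ha]
    simp [h2]
  have hmem : ∀ i < p, (a i ∈ P.1 ↔ ∀ m : ℤ, m < (d j : ℤ) - (i / EE p d j : ℕ) →
      (B.ex j (coeff i h)).coeff m = 0) := by
    intro i hi
    by_cases h0 : coeff i h = 0
    · have : a i = 0 := by rw [ha]; simp [h0]
      rw [this, h0]
      simp
    · rw [low_iff B j _ h0, ← arith p (d j) (EE p d j) i _ hE hd1 hp2 hi,
        ← zpow_le_one_iff_right_of_lt_one₀ ht0 ht1, ← hva i hi h0, ← P.1.valuation_le_one_iff,
        pow_le_one_iff_of_nonneg zero_le hp.ne_zero]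
  have hPsi : Psi p ι y h = ∑ i ∈ Finset.range p, a i := rfl
  rw [hPsi]
  constructor
  · intro hs i hi
    rw [← hmem i hi]
    refine sum_mem P.1 (Finset.range p) a ?_ hs i (Finset.mem_range.2 hi)
    intro i hi i' hi' h0 h0' hne heq
    rw [Finset.mem_range] at hi hi'
    have h1 : v (a i) ^ p = v (a i') ^ p := by rw [hv, heq]
    rw [hva i hi (ha0 i hi h0), hva i' hi' (ha0 i' hi' h0'),
      zpow_right_inj₀ ht0 ht1.ne] at h1
    have e1 : ((p - 1 - i : ℕ) : ℤ) = (p : ℤ) - 1 - i := by omega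
    have e2 : ((p - 1 - i' : ℕ) : ℤ) = (p : ℤ) - 1 - i' := by omega
    rw [e1, e2] at h1
    have h2 : (p : ℤ) ∣ d j * (i - i') := by
      refine ⟨(B.ex j (coeff i' h)).order - (B.ex j (coeff i h)).order, ?_⟩
      linarith
    rcases (Nat.prime_iff_prime_int.1 hp).dvd_or_dvd h2 with h3 | h3
    · exact hdp (by exact_mod_cast h3)
    · have h4 : (i : ℤ) - i' = 0 := by
        apply Int.eq_zero_of_abs_lt_dvd h3
        rw [abs_lt]
        omega
      omega
  · intro hs
    refine _root_.sum_mem fun i hi => ?_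
    rw [Finset.mem_range] at hi
    rw [hmem i hi]
    exact hs i hi

end

end Pool.Agent.Helper61.EO
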