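import Pool.Agent.Helper61.EO.Stm

/-!
Project EO, job T5: `Psi` is surjective with kernel `λ ^ p`.
-/

set_option autoImplicit false

namespace Pool.Agent.Helper61.EO

open PowerSeries

noncomputable section

namespace T5

theorem fac_ne {p : ℕ} [hp : Fact p.Prime] (R : Type) [Field R] [CharP R p] {i : ℕ} (hi : i < p) :
    ((i.factorial : ℕ) : R) ≠ 0 := by
  intro h
  rw [CharP.cast_eq_zero_iff R p] at h
  have := (Nat.Prime.dvd_factorial hp.out).1 h
  omega

section

variable {p : ℕ} [hp : Fact p.Prime] {k : Type} [Field k] {f : RatFunc k}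
  {K : Type} [Field K] [Algebra k K] {ι : RatFunc k →ₐ[k] K} {y : K}

/-- the Artin-Schreier polynomial -/
def AS (p : ℕ) (f : RatFunc k) : Polynomial (RatFunc k) :=
  Polynomial.X ^ p + (-Polynomial.X - Polynomial.C f)

include hp in
theorem AS_aux : (-Polynomial.X - Polynomial.C f : Polynomial (RatFunc k)).natDegree < p := by
  have h2 := hp.out.two_le
  refine (Polynomial.natDegree_sub_le _ _).trans_lt ?_
  rw [Polynomial.natDegree_neg, Polynomial.natDegree_X, Polynomial.natDegree_C]
  simp
  omega

theorem AS_monic : (AS p f).Monic := by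
  refine Polynomial.monic_X_pow_add ?_
  exact (Polynomial.degree_le_natDegree).trans_lt (by exact_mod_cast AS_aux (p := p) (f := f))

theorem AS_natDegree : (AS p f).natDegree = p := by
  unfold AS
  rw [Polynomial.natDegree_add_eq_left_of_natDegree_lt, Polynomial.natDegree_X_pow]
  rw [Polynomial.natDegree_X_pow]
  exact AS_aux

/-- every element is a polynomial in `y` of degree `< p` -/
theorem exists_poly (hK : KData K p f ι y) (g : K) :
    ∃ q : Polynomial (RatFunc k), q.natDegree < p ∧ q.eval₂ ι.toRingHom y = g := by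
  let _ : Algebra (RatFunc k) K := ι.toRingHom.toAlgebra
  have hmap : ∀ φ : RatFunc k, algebraMap (RatFunc k) K φ = ι φ := fun _ => rfl
  have _ : IsScalarTower k (RatFunc k) K := IsScalarTower.of_algebraMap_eq fun c => by
    rw [hmap, ι.commutes]
  have hy0 : Polynomial.aeval y (AS p f) = 0 := by
    unfold AS
    simp only [map_add, map_sub, map_neg, map_pow, Polynomial.aeval_X, Polynomial.aeval_C, hmap]
    have := hK.eq
    linear_combination this
  have hint : IsIntegral (RatFunc k) y := ⟨AS p f, AS_monic, hy0⟩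
  have htop : IntermediateField.adjoin (RatFunc k) {y} = ⊤ := by
    rw [eq_top_iff]
    intro z _
    have h1 : (⊤ : IntermediateField k K) ≤
        (IntermediateField.adjoin (RatFunc k) {y}).restrictScalars k := by
      rw [← hK.gen, IntermediateField.adjoin_le_iff]
      rintro x (rfl | hx)
      · exact (IntermediateField.adjoin (RatFunc k) {y}).algebraMap_mem RatFunc.X
      · rw [Set.mem_singleton_iff] at hx
        subst hx
        exact IntermediateField.mem_adjoin_simple_self _ _
    exact h1 (IntermediateField.mem_top (x := z))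
  have halg : Algebra.adjoin (RatFunc k) {y} = ⊤ :=
    (IntermediateField.adjoin_simple_eq_top_iff_of_isAlgebraic hint.isAlgebraic).1 htop
  have hg : g ∈ Algebra.adjoin (RatFunc k) {y} := by rw [halg]; trivial
  rw [Algebra.adjoin_singleton_eq_range_aeval] at hg
  obtain ⟨q, hq⟩ := hg
  refine ⟨q %ₘ AS p f, ?_, ?_⟩
  · have h1 := Polynomial.natDegree_modByMonic_lt q (AS_monic (p := p) (f := f)) (by
      intro h
      have := AS_natDegree (p := p) (f := f)
      rw [h, Polynomial.natDegree_one] at this
      exact hp.out.ne_zero this.symm)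
    rwa [AS_natDegree] at h1
  · have h1 : Polynomial.aeval y (q %ₘ AS p f) = g := by
      have h2 := Polynomial.modByMonic_add_div q (AS p f)
      have h3 := congrArg (Polynomial.aeval y) h2
      rw [map_add, map_mul, hy0, zero_mul, add_zero] at h3
      exact h3.trans hq
    exact h1

theorem surj (hK : KData K p f ι y) [CharP K p] (g : K) : ∃ h, Psi p ι y h = g := by
  obtain ⟨q, hq, hg⟩ := exists_poly hK g
  have hpos := hp.out.pos
  refine ⟨mk fun i => q.coeff (p - 1 - i) * (((p - 1 - i).factorial : ℕ) : RatFunc k), ?_⟩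
  rw [← hg, Polynomial.eval₂_eq_sum_range' _ hq, ← Finset.sum_range_reflect]
  unfold Psi
  refine Finset.sum_congr rfl fun i hi => ?_
  have hi' := Finset.mem_range.1 hi
  rw [coeff_mk, map_mul, map_natCast]
  have e := fac_ne (p := p) K (i := p - 1 - i) (by omega)
  have e2 : ι.toRingHom (q.coeff (p - 1 - i)) = ι (q.coeff (p - 1 - i)) := rfl
  rw [e2]
  field_simp

end

end T5

theorem t_T5 (hT2 : S_T2) (_hT3 : S_T3) (hT4 : S_T4) : S_T5 := by
  intro p hp k _ _ _ B f J d hPD K _ _ ι y hK
  have : CharP K p := charP_of_injective_algebraMap (algebraMap k K).injective p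
  refine ⟨T5.surj hK, fun h => ⟨fun h0 i hi => ?_, fun h0 => ?_⟩⟩
  · obtain ⟨P, hP⟩ := hT2 k K ι none
    have h1 : ∀ N : ℕ, inO B d none (h * C (RatFunc.X ^ N)) := by
      intro N
      rw [← hT4 p k B f J d hPD K ι y hK P none hPD.inf hP]
      have h2 : Psi p ι y (h * C (RatFunc.X ^ N)) = Psi p ι y h * ι (RatFunc.X ^ N) := by
        unfold Psi
        rw [Finset.sum_mul]
        refine Finset.sum_congr rfl fun i _ => ?_
        rw [coeff_mul_C, map_mul]
        ring
      rw [h2, h0, zero_mul]
      exact zero_mem _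
    have h3 : B.ex none (coeff i h) = 0 := by
      ext n
      have hN : ∃ N : ℕ, (n - (N : ℤ)) < (d none : ℤ) - (i / EE p d none : ℕ) := by
        refine ⟨(n - ((d none : ℤ) - (i / EE p d none : ℕ)) + 1).toNat, ?_⟩
        have := Int.self_le_toNat (n - ((d none : ℤ) - (i / EE p d none : ℕ)) + 1)
        omega
      obtain ⟨N, hN⟩ := hN
      have h4 := h1 N i hi (n - N) hN
      rw [coeff_mul_C, map_mul, map_pow, B.ex_none, HahnSeries.single_pow, one_pow] at h4
      have h5 : n - (N : ℤ) = n + N • (-1 : ℤ) := by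
        rw [nsmul_eq_mul]
        ring
      rw [h5, HahnSeries.coeff_mul_single_add, mul_one] at h4
      rw [h4]
      rfl
    exact (map_eq_zero (B.ex none)).1 h3
  · unfold Psi
    refine Finset.sum_eq_zero fun i hi => ?_
    rw [h0 i (Finset.mem_range.1 hi)]
    simp

end

end Pool.Agent.Helper61.EO
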