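import Pool.Agent.Helper61.EO.J.T5

/-!
Project EO, job T6: differentials of `K`.
-/

set_option autoImplicit false
set_option linter.unusedSectionVars false

namespace Pool.Agent.Helper61.EO

open PowerSeries

noncomputable section

namespace T6

/-- two derivations of `k(x)` which agree at `x` are equal -/
theorem deriv_ext {k : Type} [Field k] {M : Type} [AddCommGroup M] [Module (RatFunc k) M]
    [Module k M] [IsScalarTower k (RatFunc k) M]
    (D1 D2 : Derivation k (RatFunc k) M) (h : D1 RatFunc.X = D2 RatFunc.X) : D1 = D2 := by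
  have hpoly : ∀ q : Polynomial k, D1 (algebraMap _ _ q) = D2 (algebraMap _ _ q) := by
    intro q
    have hX : ∀ q : Polynomial k, (algebraMap (Polynomial k) (RatFunc k) q) =
        Polynomial.aeval RatFunc.X q := by
      intro q
      induction q using Polynomial.induction_on' with
      | add a b ha hb => rw [map_add, map_add, ha, hb]
      | monomial n a =>
        rw [← Polynomial.C_mul_X_pow_eq_monomial, map_mul, map_pow, map_mul, map_pow,
          Polynomial.aeval_C, Polynomial.aeval_X, RatFunc.algebraMap_X, RatFunc.algebraMap_C,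
          RatFunc.algebraMap_eq_C]
    rw [hX, Derivation.map_aeval, Derivation.map_aeval, h]
  ext φ
  obtain ⟨a, b, hb, rfl⟩ := IsFractionRing.div_surjective (A := Polynomial k) φ
  have hb0 : algebraMap (Polynomial k) (RatFunc k) b ≠ 0 := by
    intro h0
    exact nonZeroDivisors.ne_zero hb ((map_eq_zero_iff _ (RatFunc.algebraMap_injective k)).1 h0)
  have h1 : ∀ D : Derivation k (RatFunc k) M,
      D (algebraMap (Polynomial k) (RatFunc k) a / algebraMap (Polynomial k) (RatFunc k) b) =
      (algebraMap (Polynomial k) (RatFunc k) b)⁻¹ • (D (algebraMap _ _ a) -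
      (algebraMap (Polynomial k) (RatFunc k) a / algebraMap (Polynomial k) (RatFunc k) b) •
        D (algebraMap _ _ b)) := by
    intro D
    have h2 : D (algebraMap (Polynomial k) (RatFunc k) a) =
        D (algebraMap (Polynomial k) (RatFunc k) b *
        (algebraMap (Polynomial k) (RatFunc k) a / algebraMap (Polynomial k) (RatFunc k) b)) := by
      rw [mul_div_cancel₀ _ hb0]
    rw [h2, Derivation.leibniz, add_sub_cancel_right, smul_smul, inv_mul_cancel₀ hb0, one_smul]
  rw [h1 D1, h1 D2, hpoly, hpoly]

section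

variable {p : ℕ} [hp : Fact p.Prime] {k : Type} [Field k] [CharP k p] (B : Base p k)
  {f : RatFunc k} {K : Type} [Field K] [Algebra k K] {ι : RatFunc k →ₐ[k] K} {y : K}

theorem AS_sep : (T5.AS p f).Separable := by
  unfold T5.AS
  rw [Polynomial.separable_def]
  have h : Polynomial.derivative (Polynomial.X ^ p + (-Polynomial.X - Polynomial.C f)) =
      -(1 : Polynomial (RatFunc k)) := by
    rw [Polynomial.derivative_add, Polynomial.derivative_X_pow, CharP.cast_eq_zero]
    simp
  rw [h]
  exact isCoprime_one_right.neg_right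

theorem sep [Algebra (RatFunc k) K] [IsScalarTower k (RatFunc k) K]
    (hmap : ∀ φ : RatFunc k, algebraMap (RatFunc k) K φ = ι φ) (hK : KData K p f ι y) :
    Algebra.IsSeparable (RatFunc k) K := by
  have hy0 : Polynomial.aeval y (T5.AS p f) = 0 := by
    unfold T5.AS
    simp only [map_add, map_sub, map_neg, map_pow, Polynomial.aeval_X, Polynomial.aeval_C, hmap]
    have := hK.eq
    linear_combination this
  have hs : IsSeparable (RatFunc k) y := AS_sep.of_dvd (minpoly.dvd _ _ hy0)
  have h0 : Algebra.IsSeparable (RatFunc k) (IntermediateField.adjoin (RatFunc k) {y}) :=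
    (IntermediateField.isSeparable_adjoin_simple_iff_isSeparable _ _).2 hs
  refine ⟨fun z => ?_⟩
  refine IntermediateField.isSeparable_of_mem_isSeparable (RatFunc k) K
    (L := IntermediateField.adjoin (RatFunc k) {y}) ?_
  have h1 : (⊤ : IntermediateField k K) ≤
      (IntermediateField.adjoin (RatFunc k) {y}).restrictScalars k := by
    rw [← hK.gen, IntermediateField.adjoin_le_iff]
    rintro x (rfl | hx)
    · rw [← hmap]
      exact (IntermediateField.adjoin (RatFunc k) {y}).algebraMap_mem RatFunc.X
    · rw [Set.mem_singleton_iff] at hx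
      subst hx
      exact IntermediateField.mem_adjoin_simple_self _ _
  exact h1 (IntermediateField.mem_top (x := z))

include B in
/-- a linear form with value one at `dx` -/
theorem form (hK : KData K p f ι y) : ∃ Λ : Ω[K⁄k] →ₗ[K] K,
    Λ (KaehlerDifferential.D k K (ι RatFunc.X)) = 1 := by
  let _ : Algebra (RatFunc k) K := ι.toRingHom.toAlgebra
  have hmap : ∀ φ : RatFunc k, algebraMap (RatFunc k) K φ = ι φ := fun _ => rfl
  have _ : IsScalarTower k (RatFunc k) K := IsScalarTower.of_algebraMap_eq fun c => by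
    rw [hmap, ι.commutes]
  have _ : Algebra.IsSeparable (RatFunc k) K := sep hmap hK
  have _ : Algebra.FormallyEtale (RatFunc k) K := Algebra.FormallyEtale.of_isSeparable _ _
  let ℓ : Ω[RatFunc k⁄k] →ₗ[RatFunc k] K :=
    (Algebra.linearMap (RatFunc k) K) ∘ₗ B.D.liftKaehlerDifferential
  refine ⟨(ℓ.liftBaseChange K) ∘ₗ
    (KaehlerDifferential.tensorKaehlerEquivOfFormallyEtale k (RatFunc k) K).symm.toLinearMap, ?_⟩
  rw [LinearMap.comp_apply, LinearEquiv.coe_coe, ← hmap,
    KaehlerDifferential.tensorKaehlerEquivOfFormallyEtale_symm_D_algebraMap,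
    LinearMap.liftBaseChange_tmul, one_smul]
  change algebraMap (RatFunc k) K (B.D.liftKaehlerDifferential
    (KaehlerDifferential.D k (RatFunc k) RatFunc.X)) = 1
  rw [Derivation.liftKaehlerDifferential_comp_D, B.D_X, map_one]

/-- the chain rule for functions of `x` -/
theorem D_iota (φ : RatFunc k) : KaehlerDifferential.D k K (ι φ) =
    ι (B.D φ) • KaehlerDifferential.D k K (ι RatFunc.X) := by
  let _ : Algebra (RatFunc k) K := ι.toRingHom.toAlgebra
  have hmap : ∀ φ : RatFunc k, algebraMap (RatFunc k) K φ = ι φ := fun _ => rfl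
  have _ : IsScalarTower k (RatFunc k) K := IsScalarTower.of_algebraMap_eq fun c => by
    rw [hmap, ι.commutes]
  let D1 : Derivation k (RatFunc k) (Ω[K⁄k]) :=
    (KaehlerDifferential.D k K).compAlgebraMap (RatFunc k)
  let D2 : Derivation k (RatFunc k) (Ω[K⁄k]) :=
    (LinearMap.toSpanSingleton (RatFunc k) (Ω[K⁄k])
      (KaehlerDifferential.D k K (ι RatFunc.X))).compDer B.D
  have h1 : D1 RatFunc.X = D2 RatFunc.X := by
    change KaehlerDifferential.D k K (algebraMap _ _ RatFunc.X) =
      B.D RatFunc.X • KaehlerDifferential.D k K (ι RatFunc.X)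
    rw [B.D_X, one_smul, hmap]
  have h2 := DFunLike.congr_fun (deriv_ext D1 D2 h1) φ
  have h3 : D1 φ = KaehlerDifferential.D k K (ι φ) := rfl
  have h4 : D2 φ = B.D φ • KaehlerDifferential.D k K (ι RatFunc.X) := rfl
  have h5 : ∀ (c : RatFunc k) (z : Ω[K⁄k]), c • z = ι c • z := fun c z => by
    rw [← hmap, algebraMap_smul]
  rw [← h3, h2, h4, h5]

theorem D_y (hK : KData K p f ι y) [CharP K p] : KaehlerDifferential.D k K y =
    -(ι (B.D f) • KaehlerDifferential.D k K (ι RatFunc.X)) := by
  have h1 := congrArg (KaehlerDifferential.D k K) hK.eq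
  rw [map_sub, Derivation.leibniz_pow, ← Nat.cast_smul_eq_nsmul K, CharP.cast_eq_zero, zero_smul,
    zero_sub, D_iota B] at h1
  rw [← h1, neg_neg]

theorem D_Psi (hK : KData K p f ι y) [CharP K p] (h : (RatFunc k)⟦X⟧) :
    KaehlerDifferential.D k K (Psi p ι y h) =
      Psi p ι y (nab B f h) • KaehlerDifferential.D k K (ι RatFunc.X) := by
  obtain ⟨q, rfl⟩ : ∃ q, p = q + 1 := ⟨p - 1, by have := hp.out.pos; omega⟩
  have h1 : ∀ i ≤ q, KaehlerDifferential.D k K
      (ι (coeff i h) * y ^ (q - i) * (((q - i).factorial : ℕ) : K)⁻¹) =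
      (ι (B.D (coeff i h)) * y ^ (q - i) * (((q - i).factorial : ℕ) : K)⁻¹ -
        (if i < q then ι (B.D f) * ι (coeff i h) * y ^ (q - (i + 1)) *
          (((q - (i + 1)).factorial : ℕ) : K)⁻¹ else 0)) •
          KaehlerDifferential.D k K (ι RatFunc.X) := by
    intro i hi
    have e1 : (((q - i).factorial : ℕ) : K)⁻¹ =
        algebraMap k K ((((q - i).factorial : ℕ) : k)⁻¹) := by
      rw [map_inv₀, map_natCast]
    rw [mul_comm (ι (coeff i h) * y ^ (q - i)), e1, ← Algebra.smul_def, Derivation.map_smul,
      Derivation.leibniz, Derivation.leibniz_pow, D_y B hK, D_iota B (coeff i h),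
      ← algebraMap_smul K, ← e1]
    rw [← Nat.cast_smul_eq_nsmul K, smul_neg, smul_neg, smul_neg, smul_smul, smul_smul, smul_smul,
      smul_smul, neg_add_eq_sub, ← sub_smul, smul_smul]
    congr 1
    split_ifs with hlt
    · obtain ⟨m, hm⟩ : ∃ m, q - i = m + 1 := ⟨q - i - 1, by omega⟩
      have hm' : q - (i + 1) = m := by omega
      rw [hm, hm', Nat.factorial_succ, Nat.add_sub_cancel, Nat.cast_mul]
      have e2 : ((m + 1 : ℕ) : K) ≠ 0 := by
        intro h
        rw [CharP.cast_eq_zero_iff K (q + 1)] at h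
        have := Nat.le_of_dvd (by omega) h
        omega
      have e3 := T5.fac_ne (p := q + 1) K (i := m) (by omega)
      field_simp
    · have hm : q - i = 0 := by omega
      rw [hm]
      simp
  have h2 : Psi (q + 1) ι y (nab B f h) = ∑ i ∈ Finset.range (q + 1),
      (ι (B.D (coeff i h)) * y ^ (q - i) * (((q - i).factorial : ℕ) : K)⁻¹ -
        (if i < q then ι (B.D f) * ι (coeff i h) * y ^ (q - (i + 1)) *
          (((q - (i + 1)).factorial : ℕ) : K)⁻¹ else 0)) := by
    have h3 : Psi (q + 1) ι y (nab B f h) = ∑ i ∈ Finset.range (q + 1),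
        (ι (B.D (coeff i h)) * y ^ (q - i) * (((q - i).factorial : ℕ) : K)⁻¹ -
        ι (coeff i (X * (C (B.D f) * h))) * y ^ (q - i) * (((q - i).factorial : ℕ) : K)⁻¹) := by
      unfold Psi
      refine Finset.sum_congr rfl fun i _ => ?_
      unfold nab
      rw [map_sub, coeff_mk, map_sub, Nat.add_sub_cancel]
      ring
    rw [h3, Finset.sum_sub_distrib, Finset.sum_sub_distrib]
    congr 1
    rw [Finset.sum_range_succ', coeff_zero_X_mul, map_zero, zero_mul, zero_mul, add_zero]
    symm
    rw [Finset.sum_range_succ, if_neg (lt_irrefl q), add_zero]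
    refine Finset.sum_congr rfl fun i hi => ?_
    rw [if_pos (Finset.mem_range.1 hi), coeff_succ_X_mul, coeff_C_mul, map_mul]
  rw [h2, Finset.sum_smul]
  unfold Psi
  rw [map_sum]
  refine Finset.sum_congr rfl fun i hi => ?_
  have hi' := Finset.mem_range.1 hi
  rw [← h1 i (by omega), Nat.add_sub_cancel]

end

end T6

theorem t_T6 : S_T6 := by
  intro p hp k _ _ _ B f K _ _ ι y hK
  have : CharP K p := charP_of_injective_algebraMap (algebraMap k K).injective p
  refine ⟨T6.D_Psi B hK, fun g hg => ?_, fun ω => ?_⟩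
  · obtain ⟨Λ, hΛ⟩ := T6.form B hK
    have := congrArg Λ hg
    rwa [map_smul, hΛ, smul_eq_mul, mul_one, map_zero] at this
  · have h1 : ω ∈ Submodule.span K (Set.range (KaehlerDifferential.D k K)) := by
      rw [KaehlerDifferential.span_range_derivation]
      trivial
    have h2 : Submodule.span K (Set.range (KaehlerDifferential.D k K)) ≤
        Submodule.span K {KaehlerDifferential.D k K (ι RatFunc.X)} := by
      rw [Submodule.span_le]
      rintro _ ⟨g, rfl⟩
      obtain ⟨h, rfl⟩ := T5.surj hK g
      rw [T6.D_Psi B hK]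
      exact Submodule.smul_mem _ _ (Submodule.mem_span_singleton_self _)
    obtain ⟨g, hg⟩ := Submodule.mem_span_singleton.1 (h2 h1)
    exact ⟨g, hg.symm⟩

end

end Pool.Agent.Helper61.EO
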