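import Pool.Agent.Helper61.EO.Stm

/-!
Project EO, T8: uniformizer and regular forms outside the poles.
-/

set_option autoImplicit false

namespace Pool.Agent.Helper61.EO

open KaehlerDifferential

namespace T8

section ring

variable {k K : Type} [Field k] [Field K] [Algebra k K]

/-- constants plus multiples of `t` -/
def Adm (P : Pt k K) (t u : K) : Prop := ∃ c : k, ∃ u' ∈ P.1, u = algebraMap k K c + t * u'

variable {P : Pt k K} {t u v : K}

theorem Adm.const (c : k) : Adm P t (algebraMap k K c) := ⟨c, 0, zero_mem _, by simp⟩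

theorem Adm.add (hu : Adm P t u) (hv : Adm P t v) : Adm P t (u + v) := by
  obtain ⟨c, u', hu', rfl⟩ := hu
  obtain ⟨d, v', hv', rfl⟩ := hv
  exact ⟨c + d, u' + v', add_mem hu' hv', by rw [map_add]; ring⟩

theorem Adm.mul (ht : t ∈ P.1) (hu : Adm P t u) (hv : Adm P t v) : Adm P t (u * v) := by
  obtain ⟨c, u', hu', rfl⟩ := hu
  obtain ⟨d, v', hv', rfl⟩ := hv
  refine ⟨c * d, algebraMap k K c * v' + u' * algebraMap k K d + t * u' * v', ?_, by
    rw [map_mul]; ring⟩
  exact add_mem (add_mem (mul_mem (P.2.1 c) hv') (mul_mem hu' (P.2.1 d)))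
    (mul_mem (mul_mem ht hu') hv')

theorem Adm.mem (ht : t ∈ P.1) (hu : Adm P t u) : u ∈ P.1 := by
  obtain ⟨c, u', hu', rfl⟩ := hu
  exact add_mem (P.2.1 c) (mul_mem ht hu')

theorem Adm.pow (ht : t ∈ P.1) (hu : Adm P t u) (n : ℕ) : Adm P t (u ^ n) := by
  induction n with
  | zero =>
    rw [pow_zero, ← map_one (algebraMap k K)]
    exact Adm.const 1
  | succ n ih =>
    rw [pow_succ]
    exact ih.mul ht hu

theorem Adm.sum {ι : Type} (s : Finset ι) (f : ι → K) (h : ∀ i ∈ s, Adm P t (f i)) :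
    Adm P t (∑ i ∈ s, f i) := by
  classical
  induction s using Finset.induction_on with
  | empty =>
    rw [Finset.sum_empty, ← map_zero (algebraMap k K)]
    exact Adm.const 0
  | insert a s ha ih =>
    rw [Finset.sum_insert ha]
    exact (h a (Finset.mem_insert_self a s)).add (ih fun i hi => h i (Finset.mem_insert_of_mem hi))

theorem Adm.inv (ht' : t⁻¹ ∉ P.1) (hu0 : u ≠ 0) (hu : Adm P t u) (hu' : u⁻¹ ∈ P.1) :
    Adm P t u⁻¹ := by
  obtain ⟨c, u1, hu1, h⟩ := hu
  have ht0 : t ≠ 0 := by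
    rintro rfl
    apply ht'
    rw [inv_zero]
    exact zero_mem _
  have hc : c ≠ 0 := by
    rintro rfl
    apply ht'
    rw [map_zero, zero_add] at h
    have h1 : t⁻¹ = u1 * u⁻¹ := by
      have hu10 : u1 ≠ 0 := by
        rintro rfl
        rw [mul_zero] at h
        exact hu0 h
      rw [h, mul_inv]
      field_simp
    rw [h1]
    exact mul_mem hu1 hu'
  refine ⟨c⁻¹, -(u1 * algebraMap k K c⁻¹ * u⁻¹), neg_mem (mul_mem (mul_mem hu1 (P.2.1 _)) hu'), ?_⟩
  have hc' : algebraMap k K c ≠ 0 := by simpa using hc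
  rw [map_inv₀]
  field_simp
  rw [h]
  ring

/-- units near `-1` -/
theorem unit_sub_one {z : K} (hz : z ∈ P.1) (hz' : z⁻¹ ∉ P.1) {n : ℕ} (hn : n ≠ 0) :
    z ^ n - 1 ≠ 0 ∧ (z ^ n - 1)⁻¹ ∈ P.1 := by
  have hvz : P.1.valuation z < 1 := by
    refine lt_of_le_of_ne ((P.1.valuation_le_one_iff _).2 hz) fun h1 => hz' ?_
    rw [← P.1.valuation_le_one_iff, map_inv₀, h1, inv_one]
  have hvn : P.1.valuation (z ^ n) < 1 := by
    rw [map_pow]
    exact pow_lt_one₀ zero_le hvz hn
  have h3 : P.1.valuation (z ^ n - 1) = 1 := by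
    have h1 : P.1.valuation (z ^ n) < P.1.valuation 1 := by
      rw [map_one]
      exact hvn
    rw [Valuation.map_sub_swap]
    exact (Valuation.map_sub_eq_of_lt_left _ h1).trans (map_one _)
  refine ⟨fun h0 => ?_, ?_⟩
  · rw [h0, map_zero] at h3
    exact zero_ne_one h3
  · have h4 : P.1.valuation (z ^ n - 1)⁻¹ ≤ 1 := by
      rw [map_inv₀, h3, inv_one]
    exact (P.1.valuation_le_one_iff _).1 h4

/-- elements of `P` whose differentials are regular multiples of `ω` -/
def Der (P : Pt k K) (ω : Ω[K⁄k]) (b : K) : Prop := b ∈ P.1 ∧ ∃ b' ∈ P.1, D k K b = b' • ω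

variable {ω : Ω[K⁄k]}

theorem Der.const (c : k) : Der P ω (algebraMap k K c) :=
  ⟨P.2.1 c, 0, zero_mem _, by rw [Derivation.map_algebraMap, zero_smul]⟩

theorem Der.add (hu : Der P ω u) (hv : Der P ω v) : Der P ω (u + v) := by
  obtain ⟨h1, u', hu', h2⟩ := hu
  obtain ⟨h3, v', hv', h4⟩ := hv
  exact ⟨add_mem h1 h3, u' + v', add_mem hu' hv', by rw [map_add, h2, h4, add_smul]⟩

theorem Der.mul (hu : Der P ω u) (hv : Der P ω v) : Der P ω (u * v) := by
  obtain ⟨h1, u', hu', h2⟩ := hu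
  obtain ⟨h3, v', hv', h4⟩ := hv
  refine ⟨mul_mem h1 h3, u * v' + v * u', add_mem (mul_mem h1 hv') (mul_mem h3 hu'), ?_⟩
  rw [Derivation.leibniz, h2, h4, smul_smul, smul_smul, add_smul]

theorem Der.pow (hu : Der P ω u) (n : ℕ) : Der P ω (u ^ n) := by
  induction n with
  | zero =>
    rw [pow_zero, ← map_one (algebraMap k K)]
    exact Der.const 1
  | succ n ih =>
    rw [pow_succ]
    exact ih.mul hu

theorem Der.sum {ι : Type} (s : Finset ι) (f : ι → K) (h : ∀ i ∈ s, Der P ω (f i)) :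
    Der P ω (∑ i ∈ s, f i) := by
  classical
  induction s using Finset.induction_on with
  | empty =>
    rw [Finset.sum_empty, ← map_zero (algebraMap k K)]
    exact Der.const 0
  | insert a s ha ih =>
    rw [Finset.sum_insert ha]
    exact (h a (Finset.mem_insert_self a s)).add (ih fun i hi => h i (Finset.mem_insert_of_mem hi))

theorem Der.inv (hu0 : u ≠ 0) (hu : Der P ω u) (hu' : u⁻¹ ∈ P.1) : Der P ω u⁻¹ := by
  obtain ⟨h1, b, hb, h2⟩ := hu
  refine ⟨hu', -(u⁻¹ * u⁻¹ * b), neg_mem (mul_mem (mul_mem hu' hu') hb), ?_⟩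
  have h3 : D k K (u * u⁻¹) = 0 := by
    rw [mul_inv_cancel₀ hu0, Derivation.map_one_eq_zero]
  rw [Derivation.leibniz, h2, smul_smul] at h3
  have h4 : D k K u⁻¹ = u⁻¹ • (u • D k K u⁻¹) := by
    rw [smul_smul, inv_mul_cancel₀ hu0, one_smul]
  rw [h4, eq_neg_of_add_eq_zero_left h3, smul_neg, smul_smul, ← neg_smul, mul_assoc]

end ring

section phi

variable {p : ℕ} {k : Type} [Field k] (B : Base p k)

/-- coefficients of a multiple of `tt j ^ n` -/
theorem coeff_tt (hTT : S_TT) (j : Option k) (n : ℕ) (φ : RatFunc k) (m : ℤ) :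
    (B.ex j (tt j ^ n * φ)).coeff (m + n) = (B.ex j φ).coeff m := by
  have h1 : B.ex j (tt j ^ n * φ) = HahnSeries.single (n : ℤ) 1 * B.ex j φ := by
    rw [map_mul, map_pow, (hTT p k B).1 j, HahnSeries.single_pow]
    simp
  rw [h1, HahnSeries.coeff_single_mul_add, one_mul]

theorem exists_phi1 (hTT : S_TT) (j : Option k) (hj0 : (tt j : RatFunc k) ≠ 0) {φ : RatFunc k}
    (h : ∀ m : ℤ, m < 0 → (B.ex j φ).coeff m = 0) : ∃ φ1 : RatFunc k,
      (∀ m : ℤ, m < 0 → (B.ex j φ1).coeff m = 0) ∧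
        φ = RatFunc.C ((B.ex j φ).coeff 0) + tt j * φ1 := by
  obtain ⟨φ1, hφ1⟩ : ∃ φ1, φ1 = (tt j)⁻¹ * (φ - RatFunc.C ((B.ex j φ).coeff 0)) := ⟨_, rfl⟩
  have h1 : tt j * φ1 = φ - RatFunc.C ((B.ex j φ).coeff 0) := by
    rw [hφ1, ← mul_assoc, mul_inv_cancel₀ hj0, one_mul]
  refine ⟨φ1, fun m hm => ?_, by rw [h1]; ring⟩
  have h2 := coeff_tt B hTT j 1 φ1 m
  rw [pow_one, h1, map_sub, B.ex_C, HahnSeries.coeff_sub] at h2
  rw [← h2, HahnSeries.C_apply]
  by_cases hm0 : m + (1 : ℕ) = 0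
  · rw [hm0, HahnSeries.coeff_single_same, sub_self]
  · rw [HahnSeries.coeff_single_of_ne hm0, sub_zero]
    apply h
    push_cast at hm0 ⊢
    omega

theorem exists_pow (hTT : S_TT) (j : Option k) (φ : RatFunc k) :
    ∃ n : ℕ, ∀ m : ℤ, m < 0 → (B.ex j (tt j ^ n * φ)).coeff m = 0 := by
  refine ⟨(-(B.ex j φ).order).toNat, fun m hm => ?_⟩
  have h1 := coeff_tt B hTT j (-(B.ex j φ).order).toNat φ (m - (-(B.ex j φ).order).toNat)
  rw [sub_add_cancel] at h1
  rw [h1]
  apply HahnSeries.coeff_eq_zero_of_lt_order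
  have := Int.self_le_toNat (-(B.ex j φ).order)
  linarith

end phi

section two

variable {p : ℕ} {k : Type} [Field k] (B : Base p k) {K : Type} [Field K]
  [Algebra k K] {f : RatFunc k} {ι : RatFunc k →ₐ[k] K} {y : K}

/-- every element of `K` is algebraic over `k(x)` -/
theorem exists_rel (hp : 1 < p) (hK : KData K p f ι y) {v : K} (hv : v ≠ 0) :
    ∃ q : Polynomial (RatFunc k), q.eval₂ (ι : RatFunc k →+* K) v = 0 ∧ q.coeff 0 ≠ 0 := by
  let _ : Algebra (RatFunc k) K := (ι : RatFunc k →+* K).toAlgebra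
  have hst : IsScalarTower k (RatFunc k) K := IsScalarTower.of_algebraMap_eq fun c =>
    (ι.commutes c).symm
  have hy : IsIntegral (RatFunc k) y := by
    refine ⟨Polynomial.X ^ p - (Polynomial.X + Polynomial.C f), ?_, ?_⟩
    · refine (Polynomial.monic_X_pow p).sub_of_left ?_
      rw [Polynomial.degree_X_pow]
      refine (Polynomial.degree_add_le _ _).trans_lt (max_lt ?_ ?_)
      · rw [Polynomial.degree_X]
        exact_mod_cast hp
      · refine Polynomial.degree_C_le.trans_lt ?_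
        exact_mod_cast (show 0 < p by omega)
    · rw [Polynomial.eval₂_sub, Polynomial.eval₂_add, Polynomial.eval₂_pow, Polynomial.eval₂_X,
        Polynomial.eval₂_C]
      have h1 := hK.eq
      change y ^ p - (y + ι f) = 0
      rw [← h1]
      ring
  have hall : ∀ v : K, IsAlgebraic (RatFunc k) v := by
    intro v
    have hmem : v ∈ IntermediateField.adjoin k {ι RatFunc.X, y} := by
      rw [hK.gen]
      exact IntermediateField.mem_top
    induction hmem using IntermediateField.adjoin_induction with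
    | mem x hx =>
      rcases hx with rfl | rfl
      · exact isAlgebraic_algebraMap (RatFunc.X : RatFunc k)
      · exact hy.isAlgebraic
    | algebraMap c =>
      rw [IsScalarTower.algebraMap_apply k (RatFunc k) K]
      exact isAlgebraic_algebraMap _
    | add x y _ _ hx hy => exact hx.add hy
    | inv x _ hx => exact hx.inv
    | mul x y _ _ hx hy => exact hx.mul hy
  have hint : IsIntegral (RatFunc k) v := (hall v).isIntegral
  exact ⟨minpoly (RatFunc k) v, minpoly.aeval (RatFunc k) v, minpoly.coeff_zero_ne_zero hint hv⟩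

include B

theorem exists_pow_mem (hT3 : S_T3) (hTT : S_TT) [IsAlgClosed k] {P : Pt k K} {j : Option k}
    (hP : Over ι P j) (φ : RatFunc k) : ∃ n : ℕ, ι (tt j) ^ n * ι φ ∈ P.1 := by
  obtain ⟨n, hn⟩ := exists_pow B hTT j φ
  refine ⟨n, ?_⟩
  rw [← map_pow, ← map_mul]
  exact (hT3 p k B K ι P j hP _).2 hn

theorem exists_pow_poly (hT3 : S_T3) (hTT : S_TT) [IsAlgClosed k] {P : Pt k K} {j : Option k}
    (hP : Over ι P j) {v : K} (hv : v ∈ P.1) (q : Polynomial (RatFunc k)) :
    ∃ n : ℕ, ι (tt j) ^ n * q.eval₂ (ι : RatFunc k →+* K) v ∈ P.1 := by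
  induction q using Polynomial.induction_on' with
  | add a b ha hb =>
    obtain ⟨n, hn⟩ := ha
    obtain ⟨m, hm⟩ := hb
    refine ⟨n + m, ?_⟩
    have h1 : ι (tt j) ^ (n + m) * (a + b).eval₂ (ι : RatFunc k →+* K) v =
        ι (tt j) ^ m * (ι (tt j) ^ n * a.eval₂ (ι : RatFunc k →+* K) v) +
          ι (tt j) ^ n * (ι (tt j) ^ m * b.eval₂ (ι : RatFunc k →+* K) v) := by
      rw [Polynomial.eval₂_add]
      ring
    rw [h1]
    exact add_mem (mul_mem (pow_mem hP.1 m) hn) (mul_mem (pow_mem hP.1 n) hm)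
  | monomial i φ =>
    obtain ⟨n, hn⟩ := exists_pow_mem B hT3 hTT hP φ
    refine ⟨n, ?_⟩
    rw [Polynomial.eval₂_monomial, ← mul_assoc]
    exact mul_mem hn (pow_mem hv i)

theorem part_two (hp : 1 < p) (hT3 : S_T3) (hTT : S_TT) [IsAlgClosed k] (hK : KData K p f ι y)
    {P : Pt k K} {j : Option k} (hP : Over ι P j) (u : K) : ∃ n : ℕ, ι (tt j) ^ n * u ∈ P.1 := by
  by_cases hu : u ∈ P.1
  · exact ⟨0, by rwa [pow_zero, one_mul]⟩
  · have hu0 : u ≠ 0 := by
      rintro rfl
      exact hu (zero_mem _)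
    have hv : u⁻¹ ∈ P.1 := (P.1.mem_or_inv_mem u).resolve_left hu
    obtain ⟨q, hq, hq0⟩ := exists_rel hp hK (inv_ne_zero hu0)
    obtain ⟨n, hn⟩ := exists_pow_poly B hT3 hTT hP hv q.divX
    obtain ⟨m, hm⟩ := exists_pow_mem B hT3 hTT hP (q.coeff 0)⁻¹
    have h1 : q.divX.eval₂ (ι : RatFunc k →+* K) u⁻¹ * u⁻¹ + ι (q.coeff 0) = 0 := by
      have h2 := Polynomial.divX_mul_X_add q
      rw [← h2, Polynomial.eval₂_add, Polynomial.eval₂_mul, Polynomial.eval₂_X,
        Polynomial.eval₂_C] at hq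
      exact hq
    have h3 : ι (q.coeff 0) ≠ 0 := by
      rw [Ne, map_eq_zero]
      exact hq0
    refine ⟨m + n, ?_⟩
    have h4 : ι (tt j) ^ (m + n) * u = -((ι (tt j) ^ m * ι (q.coeff 0)⁻¹) *
        (ι (tt j) ^ n * q.divX.eval₂ (ι : RatFunc k →+* K) u⁻¹)) := by
      have h5 : u = -(ι (q.coeff 0)⁻¹ * q.divX.eval₂ (ι : RatFunc k →+* K) u⁻¹) := by
        rw [map_inv₀]
        generalize q.divX.eval₂ (ι : RatFunc k →+* K) u⁻¹ = w at h1
        field_simp at h1 ⊢
        linear_combination h1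
      conv_lhs => rw [h5]
      ring
    rw [h4]
    exact neg_mem (mul_mem hm hn)

end two

end T8

/-- uniformizer and regular forms outside the poles -/
theorem t_T8 (hT3 : S_T3) (hTT : S_TT) (hLOC : S_LOC) (hT6 : S_T6) (hEXD : S_EXD) : S_T8 := by
  intro p _ k _ _ _ B f J d hPD K _ _ ι y hK P j hj hP
  have hp : p.Prime := Fact.out
  have hp1 : 1 < p := hp.one_lt
  obtain ⟨c, rfl⟩ : ∃ c, j = some c := by
    cases j with
    | none => exact absurd hPD.inf hj
    | some c => exact ⟨c, rfl⟩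
  have htt0 : (tt (some c) : RatFunc k) ≠ 0 := by
    intro h0
    apply hP.2
    rw [h0, map_zero, inv_zero]
    exact zero_mem _
  obtain ⟨t, ht⟩ : ∃ t, t = ι (tt (some c)) := ⟨_, rfl⟩
  have htP : t ∈ P.1 := by rw [ht]; exact hP.1
  have htP' : t⁻¹ ∉ P.1 := by rw [ht]; exact hP.2
  obtain ⟨β, hβ, hyβ, hyβ', hfrac, -⟩ := hLOC p k B f J d hPD K ι y hK P _ hj hP
  have hfreg := hPD.reg _ hj
  have hyP : y ∈ P.1 := by
    have := add_mem hyβ (P.2.1 β)
    rwa [sub_add_cancel] at this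
  have hchK : CharP K p := charP_of_injective_algebraMap (algebraMap k K).injective p
  -- `y - β` is a multiple of `t`
  have hyt : T8.Adm P t y := by
    obtain ⟨f1, hf1, hff1⟩ := T8.exists_phi1 B hTT (some c) htt0 hfreg
    have hf1P : ι f1 ∈ P.1 := (hT3 p k B K ι P _ hP _).2 hf1
    obtain ⟨hs0, hs⟩ := T8.unit_sub_one hyβ hyβ' (n := p - 1) (by omega)
    refine ⟨β, ι f1 * ((y - algebraMap k K β) ^ (p - 1) - 1)⁻¹, mul_mem hf1P hs, ?_⟩
    have h1 : (y - algebraMap k K β) * ((y - algebraMap k K β) ^ (p - 1) - 1) = t * ι f1 := by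
      have h2 : (y - algebraMap k K β) * (y - algebraMap k K β) ^ (p - 1) =
          y ^ p - algebraMap k K β ^ p := by
        rw [← pow_succ', Nat.sub_add_cancel hp1.le, sub_pow_char]
      have h3 : ι f = algebraMap k K (β ^ p - β) + t * ι f1 := by
        rw [hβ, ht]
        conv_lhs => rw [hff1]
        rw [map_add, map_mul]
        congr 1
        exact ι.commutes _
      have h4 := hK.eq
      rw [mul_sub, h2, mul_one]
      rw [map_sub, map_pow] at h3
      linear_combination h4 + h3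
    rw [← mul_assoc, ← h1, mul_assoc, mul_inv_cancel₀ hs0]
    ring
  refine ⟨?_, T8.part_two B hp1 hT3 hTT hK hP, ?_⟩
  · -- expansion
    intro u hu
    rw [← ht]
    obtain ⟨b1, b2, hb1, hb2, hb20, hb2', rfl⟩ := hfrac u hu
    have key : ∀ b, inR B ι y (some c) b → T8.Adm P t b := by
      rintro b ⟨φ, hφ, rfl⟩
      refine T8.Adm.sum _ _ fun r _ => T8.Adm.mul htP ?_ (hyt.pow htP r)
      obtain ⟨φ1, hφ1, h1⟩ := T8.exists_phi1 B hTT (some c) htt0 (hφ r)
      refine ⟨(B.ex (some c) (φ r)).coeff 0, ι φ1, (hT3 p k B K ι P _ hP _).2 hφ1, ?_⟩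
      conv_lhs => rw [h1]
      rw [map_add, map_mul, ht]
      congr 1
      exact ι.commutes _
    rw [div_eq_mul_inv]
    exact (key b1 hb1).mul htP ((key b2 hb2).inv htP' hb20 hb2')
  · -- forms
    obtain ⟨hT6a, hT6b, -⟩ := hT6 p k B f K ι y hK
    obtain ⟨ω, hω⟩ : ∃ ω, ω = D k K (ι RatFunc.X) := ⟨_, rfl⟩
    have hDι : ∀ φ : RatFunc k, D k K (ι φ) = ι (B.D φ) • ω := by
      intro φ
      have h1 := hT6a (PowerSeries.monomial (p - 1) φ)
      have h2 : Psi p ι y (PowerSeries.monomial (p - 1) φ) = ι φ := by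
        rw [Psi, Finset.sum_eq_single (p - 1)]
        · simp
        · intro i _ hi
          rw [PowerSeries.coeff_monomial, if_neg hi, map_zero, zero_mul, zero_mul]
        · intro h3
          exact absurd (Finset.mem_range.2 (by omega)) h3
      have h3 : Psi p ι y (nab B f (PowerSeries.monomial (p - 1) φ)) = ι (B.D φ) := by
        have hcoef : ∀ i < p, PowerSeries.coeff i (nab B f (PowerSeries.monomial (p - 1) φ)) =
            if i = p - 1 then B.D φ else 0 := by
          intro i hi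
          rw [nab, map_sub, PowerSeries.coeff_mk]
          have h4 : PowerSeries.coeff i (PowerSeries.X * (PowerSeries.C (B.D f) *
              PowerSeries.monomial (p - 1) φ)) = 0 := by
            cases i with
            | zero => rw [PowerSeries.coeff_zero_X_mul]
            | succ i =>
              rw [PowerSeries.coeff_succ_X_mul, PowerSeries.coeff_C_mul,
                PowerSeries.coeff_monomial, if_neg (by omega), mul_zero]
          rw [h4, sub_zero, PowerSeries.coeff_monomial]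
          split_ifs
          · rfl
          · exact map_zero _
        rw [Psi, Finset.sum_eq_single (p - 1)]
        · rw [hcoef _ (by omega), if_pos rfl]
          simp
        · intro i hi hi'
          rw [hcoef i (Finset.mem_range.1 hi), if_neg hi', map_zero, zero_mul, zero_mul]
        · intro h3
          exact absurd (Finset.mem_range.2 (by omega)) h3
      rw [h2, h3, ← hω] at h1
      exact h1
    have hDreg : ∀ φ : RatFunc k, (∀ m : ℤ, m < 0 → (B.ex (some c) φ).coeff m = 0) →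
        ι (B.D φ) ∈ P.1 := by
      intro φ hφ
      refine (hT3 p k B K ι P _ hP _).2 fun m hm => ?_
      have h1 := hEXD p k B (some c) φ m
      rw [exW] at h1
      simp only [dxdt, mul_one] at h1
      rw [h1]
      by_cases hm1 : m + 1 = 0
      · rw [hm1]
        simp
      · rw [hφ (m + 1) (by omega), mul_zero]
    have hyD : T8.Der P ω y := by
      refine ⟨hyP, -(ι (B.D f)), neg_mem (hDreg f hfreg), ?_⟩
      have h1 := congrArg (D k K) hK.eq
      rw [map_sub, hDι, Derivation.leibniz_pow] at h1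
      have h2 : (p • y ^ (p - 1) • D k K y : Ω[K⁄k]) = 0 := by
        rw [← Nat.cast_smul_eq_nsmul K, CharP.cast_eq_zero, zero_smul]
      rw [h2, zero_sub] at h1
      rw [neg_smul, ← h1, neg_neg]
    have hall : ∀ b ∈ P.1, T8.Der P ω b := by
      intro u hu
      obtain ⟨b1, b2, hb1, hb2, hb20, hb2', rfl⟩ := hfrac u hu
      have key : ∀ b, inR B ι y (some c) b → T8.Der P ω b := by
        rintro b ⟨φ, hφ, rfl⟩
        refine T8.Der.sum _ _ fun r _ => T8.Der.mul ?_ (hyD.pow r)
        exact ⟨(hT3 p k B K ι P _ hP _).2 (hφ r), _, hDreg _ (hφ r), hDι _⟩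
      rw [div_eq_mul_inv]
      exact (key b1 hb1).mul ((key b2 hb2).inv hb20 hb2')
    have hReg : ∀ η ∈ Reg k K P.1, ∃ g ∈ P.1, η = g • ω := by
      intro η hη
      unfold Reg at hη
      induction hη using AddSubgroup.closure_induction with
      | mem x hx =>
        obtain ⟨a, ha, b, hb, rfl⟩ := hx
        obtain ⟨-, b', hb', h1⟩ := hall b hb
        exact ⟨a * b', mul_mem ha hb', by rw [h1, smul_smul]⟩
      | zero => exact ⟨0, zero_mem _, by rw [zero_smul]⟩
      | add x y _ _ hx hy =>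
        obtain ⟨g1, hg1, rfl⟩ := hx
        obtain ⟨g2, hg2, rfl⟩ := hy
        exact ⟨g1 + g2, add_mem hg1 hg2, by rw [add_smul]⟩
      | neg x _ hx =>
        obtain ⟨g1, hg1, rfl⟩ := hx
        exact ⟨-g1, neg_mem hg1, by rw [neg_smul]⟩
    intro g
    rw [← hω]
    constructor
    · intro hg
      obtain ⟨g', hg', h1⟩ := hReg _ hg
      have h2 : (g - g') • D k K (ι RatFunc.X) = 0 := by
        rw [sub_smul, ← hω, h1, sub_self]
      rw [sub_eq_zero.1 (hT6b _ h2)]
      exact hg'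
    · intro hg
      have h1 : ω = D k K t := by
        have h2 : t = ι RatFunc.X - algebraMap k K c := by
          rw [ht, tt, map_sub]
          congr 1
          exact ι.commutes _
        rw [h2, map_sub, Derivation.map_algebraMap, sub_zero, hω]
      rw [h1]
      exact AddSubgroup.subset_closure ⟨g, hg, t, htP, rfl⟩

end Pool.Agent.Helper61.EO
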