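import Pool.Agent.Helper61.EO.Stm

/-!
# Functions which are regular outside the poles
-/

set_option autoImplicit false

namespace Pool.Agent.Helper61.EO

open PowerSeries

noncomputable section

namespace T9

/-! ### the automorphisms -/

section tau

variable {p : ℕ} {k : Type} [Field k] {K : Type} [Field K] [Algebra k K]

theorem psi_map (ι : RatFunc k →ₐ[k] K) (y y' : K) (τ : K →+* K) (h1 : ∀ φ, τ (ι φ) = ι φ)
    (h2 : τ y = y') (h : (RatFunc k)⟦X⟧) : τ (Psi p ι y h) = Psi p ι y' h := by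
  unfold Psi
  rw [map_sum]
  refine Finset.sum_congr rfl fun i _ => ?_
  rw [map_mul, map_mul, h1, map_pow, h2, map_inv₀, map_natCast]

theorem fact_ne {R : Type} [Ring R] [CharP R p] (hp : p.Prime) {n : ℕ} (hn : n < p) :
    ((n.factorial : ℕ) : R) ≠ 0 := by
  intro h
  have h1 := (CharP.cast_eq_zero_iff R p _).1 h
  have h2 := (hp.dvd_factorial).1 h1
  omega

theorem exists_tau (hp : p.Prime) [CharP K p] (ι : RatFunc k →ₐ[k] K) (y : K) (f : RatFunc k)
    (hy : y ^ p - y = ι f) (e : K) (he : e ^ p = e) (hs : ∀ g : K, ∃ h, Psi p ι y h = g)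
    (hk : ∀ h, Psi p ι y h = 0 → ∀ i < p, coeff i h = 0) :
    ∃ τ : K →+* K, (∀ φ, τ (ι φ) = ι φ) ∧ τ y = y + e := by
  haveI : Fact p.Prime := ⟨hp⟩
  set ev : Polynomial (RatFunc k) →+* K := Polynomial.eval₂RingHom (ι : RatFunc k →+* K) y with hev
  set gv : Polynomial (RatFunc k) →+* K :=
    Polynomial.eval₂RingHom (ι : RatFunc k →+* K) (y + e) with hgv
  have hsurj : Function.Surjective ev := by
    intro g
    obtain ⟨h, rfl⟩ := hs g
    refine ⟨∑ i ∈ Finset.range p, Polynomial.C (coeff i h *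
      (((p - 1 - i).factorial : ℕ) : RatFunc k)⁻¹) * Polynomial.X ^ (p - 1 - i), ?_⟩
    rw [map_sum]
    unfold Psi
    refine Finset.sum_congr rfl fun i _ => ?_
    rw [hev, map_mul, map_pow, Polynomial.coe_eval₂RingHom, Polynomial.eval₂_C,
      Polynomial.eval₂_X, map_mul, map_inv₀, map_natCast]
    change ι _ * _ * _ = _
    ring
  have hker : RingHom.ker ev ≤ RingHom.ker gv := by
    intro F hF
    rw [RingHom.mem_ker] at hF ⊢
    set Q : Polynomial (RatFunc k) := Polynomial.X ^ p - (Polynomial.X + Polynomial.C f) with hQ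
    have hd : (Polynomial.X + Polynomial.C f : Polynomial (RatFunc k)).degree <
        (Polynomial.X ^ p : Polynomial (RatFunc k)).degree := by
      rw [Polynomial.degree_X_add_C, Polynomial.degree_X_pow]
      exact_mod_cast hp.one_lt
    have hQm : Q.Monic := Polynomial.Monic.sub_of_left (Polynomial.monic_X_pow p) hd
    have hQd : Q.degree = p := by
      rw [hQ, Polynomial.degree_sub_eq_left_of_degree_lt hd, Polynomial.degree_X_pow]
    have e1 : ev Q = 0 := by
      rw [hQ, hev, map_sub, map_add, map_pow, Polynomial.coe_eval₂RingHom, Polynomial.eval₂_C,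
        Polynomial.eval₂_X]
      change y ^ p - (y + ι f) = 0
      rw [← hy]
      ring
    have e2 : gv Q = 0 := by
      rw [hQ, hgv, map_sub, map_add, map_pow, Polynomial.coe_eval₂RingHom, Polynomial.eval₂_C,
        Polynomial.eval₂_X]
      change (y + e) ^ p - (y + e + ι f) = 0
      rw [add_pow_char, he, ← hy]
      ring
    have hF2 := Polynomial.modByMonic_add_div F Q
    set R := F %ₘ Q with hR
    have hRd : R.natDegree < p := by
      have h1 := Polynomial.degree_modByMonic_lt F hQm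
      rw [hQd] at h1
      rcases eq_or_ne R 0 with h0 | h0
      · rw [h0, Polynomial.natDegree_zero]
        exact hp.pos
      · exact (Polynomial.natDegree_lt_iff_degree_lt h0).2 h1
    have e3 : ev R = 0 := by
      have := congrArg ev hF2
      rw [map_add, map_mul, e1, zero_mul, add_zero, hF] at this
      exact this
    have e4 : ∀ r < p, R.coeff r = 0 := by
      have h1 : Psi p ι y (mk fun i => R.coeff (p - 1 - i) *
          (((p - 1 - i).factorial : ℕ) : RatFunc k)) = 0 := by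
        rw [← e3, hev, Polynomial.coe_eval₂RingHom, Polynomial.eval₂_eq_sum_range' _ hRd,
          ← Finset.sum_range_reflect]
        unfold Psi
        refine Finset.sum_congr rfl fun i hi => ?_
        have hi' := Finset.mem_range.1 hi
        have hne : (((p - 1 - i).factorial : ℕ) : K) ≠ 0 := fact_ne hp (by omega)
        rw [coeff_mk, map_mul, map_natCast]
        change _ = ι _ * _
        field_simp
      intro r hr
      have h2 := hk _ h1 (p - 1 - r) (by omega)
      haveI : CharP (RatFunc k) p := by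
        refine ⟨fun n => ?_⟩
        rw [← CharP.cast_eq_zero_iff K p n, ← map_natCast ι n]
        exact (map_eq_zero_iff ι ι.injective).symm
      rw [coeff_mk, show p - 1 - (p - 1 - r) = r by omega] at h2
      exact (mul_eq_zero.1 h2).resolve_right (fact_ne hp hr)
    have e5 : R = 0 := by
      ext r
      rcases Nat.lt_or_ge r p with h | h
      · rw [e4 r h, Polynomial.coeff_zero]
      · rw [Polynomial.coeff_eq_zero_of_natDegree_lt (by omega), Polynomial.coeff_zero]
    rw [← hF2, e5, zero_add, map_mul, e2, zero_mul]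
  refine ⟨ev.liftOfSurjective hsurj ⟨gv, hker⟩, fun φ => ?_, ?_⟩
  · have h1 : ι φ = ev (Polynomial.C φ) := by
      rw [hev, Polynomial.coe_eval₂RingHom, Polynomial.eval₂_C]
      rfl
    have h2 : gv (Polynomial.C φ) = ι φ := by
      rw [hgv, Polynomial.coe_eval₂RingHom, Polynomial.eval₂_C]
      rfl
    conv_lhs => rw [h1]
    rw [RingHom.liftOfSurjective_comp_apply]
    exact h2
  · have h1 : y = ev Polynomial.X := by
      rw [hev, Polynomial.coe_eval₂RingHom, Polynomial.eval₂_X]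
    conv_lhs => rw [h1]
    rw [RingHom.liftOfSurjective_comp_apply]
    change gv Polynomial.X = _
    rw [hgv, Polynomial.coe_eval₂RingHom, Polynomial.eval₂_X]

end tau

/-! ### the residue field -/

section res

variable {p : ℕ} {k : Type} [Field k] {K : Type} [Field K] [Algebra k K] (P : Pt k K)

/-- the residue map -/
def rs : P.1 →+* IsLocalRing.ResidueField P.1 := IsLocalRing.residue P.1

/-- the constants in the residue field -/
def kk : k →+* IsLocalRing.ResidueField P.1 :=
  (rs P).comp ((algebraMap k K).codRestrict P.1 P.2.1)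

theorem kk_eq (c : k) (h : algebraMap k K c ∈ P.1) : rs P ⟨algebraMap k K c, h⟩ = kk P c := rfl

variable {ι : RatFunc k →ₐ[k] K} {j : Option k} {P}

theorem rs_t (hj : Over ι P j) : rs P ⟨ι (tt j), hj.1⟩ = 0 := by
  unfold rs
  rw [IsLocalRing.residue_eq_zero_iff, IsLocalRing.mem_maximalIdeal, mem_nonunits_iff]
  intro h
  obtain ⟨v, hv⟩ := h.exists_right_inv
  apply hj.2
  have h1 : ι (tt j) * (v : K) = 1 := congrArg (fun x : P.1 => (x : K)) hv
  rw [inv_eq_of_mul_eq_one_right h1]
  exact v.2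

theorem rs_reg [IsAlgClosed k] (B : Base p k) (hT3 : S_T3) (hTT : S_TT) (hj : Over ι P j) {φ : RatFunc k}
    (hφ : ∀ m : ℤ, m < 0 → (B.ex j φ).coeff m = 0) (h : ι φ ∈ P.1) :
    rs P ⟨ι φ, h⟩ = kk P ((B.ex j φ).coeff 0) := by
  set c := (B.ex j φ).coeff 0 with hc
  have ht : B.ex j (tt j) = HahnSeries.single 1 1 := (hTT p k B).1 j
  have ht0 : tt j ≠ 0 := by
    intro h0
    rw [h0, map_zero] at ht
    exact one_ne_zero (HahnSeries.single_eq_zero_iff.1 ht.symm)
  set φ' : RatFunc k := (φ - RatFunc.C c) * (tt j)⁻¹ with hφ'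
  have h2 : ι φ' ∈ P.1 := by
    refine (hT3 p k B K ι P j hj φ').2 fun m hm => ?_
    rw [hφ', map_mul, map_sub, map_inv₀, ht, B.ex_C, HahnSeries.inv_single, inv_one]
    have e1 : m = (m + 1) + (-1) := by ring
    rw [e1, HahnSeries.coeff_mul_single_add, mul_one, HahnSeries.coeff_sub]
    rcases lt_or_eq_of_le (show m + 1 ≤ 0 by omega) with h3 | h3
    · rw [hφ _ h3, HahnSeries.C_apply, HahnSeries.coeff_single_of_ne (by omega), sub_zero]
    · rw [h3, HahnSeries.C_apply, HahnSeries.coeff_single_same, ← hc, sub_self]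
  have h3 : φ = RatFunc.C c + tt j * φ' := by
    rw [hφ']
    field_simp
    ring
  have h4 : (⟨ι φ, h⟩ : P.1) = ⟨algebraMap k K c, P.2.1 c⟩ + ⟨ι (tt j), hj.1⟩ * ⟨ι φ', h2⟩ := by
    apply Subtype.ext
    change ι φ = algebraMap k K c + ι (tt j) * ι φ'
    conv_lhs => rw [h3]
    rw [map_add, map_mul, ← RatFunc.algebraMap_eq_C, ι.commutes]
  rw [h4, map_add, map_mul, rs_t hj, zero_mul, add_zero, kk_eq]

theorem y_mem {f : RatFunc k} {y : K} (hp : 2 ≤ p) (hy : y ^ p - y = ι f) (hf : ι f ∈ P.1) :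
    y ∈ P.1 := by
  by_contra h
  have h1 : y⁻¹ ∈ P.1 := (P.1.mem_or_inv_mem y).resolve_left h
  have hy0 : y ≠ 0 := by
    rintro rfl
    exact h (zero_mem _)
  have h2 : y = y⁻¹ ^ (p - 2) + ι f * y⁻¹ ^ (p - 1) := by
    have e1 : y ^ p = y * y ^ (p - 1) := by
      rw [← pow_succ']
      congr 1
      omega
    have e2 : y ^ (p - 1) = y * y ^ (p - 2) := by
      rw [← pow_succ']
      congr 1
      omega
    have e3 : y ^ (p - 1) * y⁻¹ ^ (p - 1) = 1 := by
      rw [← mul_pow, mul_inv_cancel₀ hy0, one_pow]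
    have e4 : y⁻¹ ^ (p - 1) = y⁻¹ * y⁻¹ ^ (p - 2) := by
      rw [← pow_succ']
      congr 1
      omega
    have e5 : y * y⁻¹ = 1 := mul_inv_cancel₀ hy0
    rw [← hy, e1]
    calc y = y * 1 := (mul_one y).symm
      _ = y * (y ^ (p - 1) * y⁻¹ ^ (p - 1)) := by rw [e3]
      _ = y⁻¹ ^ (p - 2) + (y * y ^ (p - 1) - y) * y⁻¹ ^ (p - 1) := by
        rw [e4]
        linear_combination (y⁻¹ ^ (p - 2)) * e5
  apply h
  rw [h2]
  exact add_mem (pow_mem h1 _) (mul_mem hf (pow_mem h1 _))

theorem exists_beta [IsAlgClosed k] (B : Base p k) (hT3 : S_T3) (hTT : S_TT) (hp : 2 ≤ p)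
    (hj : Over ι P j) {f : RatFunc k} (hf : ∀ m : ℤ, m < 0 → (B.ex j f).coeff m = 0) {y : K}
    (hy : y ^ p - y = ι f) (h : y ∈ P.1) : ∃ β : k, rs P ⟨y, h⟩ = kk P β := by
  have hfP : ι f ∈ P.1 := (hT3 p k B K ι P j hj f).2 hf
  have h1 := rs_reg B hT3 hTT hj hf hfP
  set c := (B.ex j f).coeff 0 with hc
  set q : Polynomial k := Polynomial.X ^ p - (Polynomial.X + Polynomial.C c) with hq
  have hd : (Polynomial.X + Polynomial.C c : Polynomial k).degree <
      (Polynomial.X ^ p : Polynomial k).degree := by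
    rw [Polynomial.degree_X_add_C, Polynomial.degree_X_pow]
    exact_mod_cast hp
  have hqm : q.Monic := Polynomial.Monic.sub_of_left (Polynomial.monic_X_pow p) hd
  have h2 : (⟨ι f, hfP⟩ : P.1) = ⟨y, h⟩ ^ p - ⟨y, h⟩ := Subtype.ext hy.symm
  rw [h2, map_sub, map_pow] at h1
  have h3 : (q.map (kk P)).IsRoot (rs P ⟨y, h⟩) := by
    rw [Polynomial.IsRoot, hq, Polynomial.map_sub, Polynomial.map_add, Polynomial.map_pow,
      Polynomial.map_X, Polynomial.map_C, Polynomial.eval_sub, Polynomial.eval_add,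
      Polynomial.eval_pow, Polynomial.eval_X, Polynomial.eval_C, ← h1]
    ring
  obtain ⟨β, hβ⟩ := (IsAlgClosed.splits q).mem_range_of_isRoot hqm.ne_zero h3
  exact ⟨β, hβ.symm⟩

/-- the polynomial -/
def GG (p : ℕ) (a : ℕ → k) : Polynomial k :=
  ∑ i ∈ Finset.range p, Polynomial.C (a i * (((p - 1 - i).factorial : ℕ) : k)⁻¹) *
    Polynomial.X ^ (p - 1 - i)

theorem GG_coeff (a : ℕ → k) {i : ℕ} (hi : i < p) :
    (GG p a).coeff (p - 1 - i) = a i * (((p - 1 - i).factorial : ℕ) : k)⁻¹ := by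
  unfold GG
  rw [Polynomial.finsetSum_coeff, Finset.sum_eq_single_of_mem i (Finset.mem_range.2 hi)]
  · rw [Polynomial.coeff_C_mul_X_pow, if_pos rfl]
  · intro b hb hne
    have := Finset.mem_range.1 hb
    rw [Polynomial.coeff_C_mul_X_pow, if_neg (by omega)]

theorem GG_deg (a : ℕ → k) (hp : 1 ≤ p) : (GG p a).natDegree < p := by
  have : (GG p a).natDegree ≤ p - 1 := by
    unfold GG
    refine Polynomial.natDegree_sum_le_of_forall_le _ _ fun i _ => ?_
    exact (Polynomial.natDegree_C_mul_X_pow_le _ _).trans (Nat.sub_le _ _)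
  omega

theorem core [IsAlgClosed k] (B : Base p k) (hT3 : S_T3) (hTT : S_TT) (hj : Over ι P j)
    {g : (RatFunc k)⟦X⟧} {y₁ : K} {β₁ : k} (hy₁ : y₁ ∈ P.1) (hβ : rs P ⟨y₁, hy₁⟩ = kk P β₁)
    (hS : Psi p ι y₁ g ∈ P.1) {n : ℕ}
    (hg : ∀ i < p, ∀ m : ℤ, m < 0 → (B.ex j (tt j ^ (n + 1) * coeff i g)).coeff m = 0) :
    (GG p fun i => (B.ex j (tt j ^ (n + 1) * coeff i g)).coeff 0).eval β₁ = 0 := by
  have hw : ∀ i : Fin p, ι (tt j ^ (n + 1) * coeff (i : ℕ) g) ∈ P.1 := fun i =>
    (hT3 p k B K ι P j hj _).2 (hg i i.2)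
  have e1 : (⟨ι (tt j), hj.1⟩ : P.1) ^ (n + 1) * ⟨Psi p ι y₁ g, hS⟩ =
      ∑ i : Fin p, (⟨ι (tt j ^ (n + 1) * coeff (i : ℕ) g), hw i⟩ : P.1) *
        (⟨y₁, hy₁⟩ : P.1) ^ (p - 1 - (i : ℕ)) *
        ⟨algebraMap k K (((p - 1 - (i : ℕ)).factorial : ℕ) : k)⁻¹, P.2.1 _⟩ := by
    apply Subtype.ext
    change ι (tt j) ^ (n + 1) * Psi p ι y₁ g = P.1.subtype (∑ i : Fin p, _)
    rw [map_sum]
    unfold Psi
    rw [Finset.mul_sum, Finset.sum_range]
    refine Finset.sum_congr rfl fun i _ => ?_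
    rw [map_mul, map_mul, map_pow]
    change _ = ι (tt j ^ (n + 1) * coeff (i : ℕ) g) * y₁ ^ (p - 1 - (i : ℕ)) *
      algebraMap k K (((p - 1 - (i : ℕ)).factorial : ℕ) : k)⁻¹
    rw [map_mul, map_pow, map_inv₀, map_natCast]
    ring
  have e2 := congrArg (rs P) e1
  rw [map_mul, map_pow, rs_t hj, zero_pow (Nat.succ_ne_zero n), zero_mul, map_sum] at e2
  apply (map_eq_zero_iff (kk P) (kk P).injective).1
  rw [e2, GG, Polynomial.eval_finsetSum, map_sum, Finset.sum_range]
  refine Finset.sum_congr rfl fun i _ => ?_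
  have h1 := rs_reg B hT3 hTT hj (hg i i.2) (hw i)
  have h3 := kk_eq P ((((p - 1 - (i : ℕ)).factorial : ℕ) : k)⁻¹) (P.2.1 _)
  rw [Polynomial.eval_mul, Polynomial.eval_C, Polynomial.eval_pow, Polynomial.eval_X]
  generalize (B.ex j (tt j ^ (n + 1) * coeff (i : ℕ) g)).coeff 0 = a at h1 ⊢
  rw [map_mul (kk P), map_mul (kk P), map_pow (kk P), map_mul (rs P), map_mul (rs P),
    map_pow (rs P), hβ, h1, h3]
  ring

end res

/-- the valuation rings given by the automorphisms -/
theorem over_comap {k : Type} [Field k] {K : Type} [Field K] [Algebra k K]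
    {ι : RatFunc k →ₐ[k] K} {j : Option k} {P : Pt k K} (hj : Over ι P j) {τ : K →+* K}
    (hτ : ∀ φ, τ (ι φ) = ι φ) :
    ∃ P' : Pt k K, Over ι P' j ∧ ∀ x, x ∈ P'.1 ↔ τ x ∈ P.1 := by
  have h1 : ¬ (ι (tt j))⁻¹ ∈ P.1.comap τ := by
    rw [ValuationSubring.mem_comap, map_inv₀, hτ]
    exact hj.2
  refine ⟨⟨P.1.comap τ, fun c => ?_, fun h => ?_⟩, ⟨?_, h1⟩, fun x => Iff.rfl⟩
  · rw [ValuationSubring.mem_comap, ← ι.commutes, hτ, ι.commutes]
    exact P.2.1 c
  · apply h1
    rw [h]
    exact ValuationSubring.mem_top _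
  · change ι (tt j) ∈ P.1.comap τ
    rw [ValuationSubring.mem_comap, hτ]
    exact hj.1

end T9

open T9 in
theorem t_T9 (hT3 : S_T3) (hT2 : S_T2) (hTT : S_TT) (hT5 : S_T5) : S_T9 := by
  intro p _ k _ _ _ B f J d hJ K _ _ ι y hK g
  have hp : p.Prime := Fact.out
  haveI : CharP K p := charP_of_injective_algebraMap (algebraMap k K).injective p
  have hy : y ^ p - y = ι f := hK.eq
  constructor
  · intro H i hi j hj
    have ht : B.ex j (tt j) = HahnSeries.single 1 1 := (hTT p k B).1 j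
    have hco : ∀ (n : ℕ) (φ : RatFunc k) (m : ℤ),
        (B.ex j (tt j ^ n * φ)).coeff m = (B.ex j φ).coeff (m - n) := by
      intro n φ m
      rw [map_mul, map_pow, ht, HahnSeries.single_pow, one_pow, nsmul_eq_mul, mul_one]
      have e1 : m = (m - n) + (n : ℤ) := by ring
      conv_lhs => rw [e1]
      rw [HahnSeries.coeff_single_mul_add, one_mul]
    have hfr : ∀ m : ℤ, m < 0 → (B.ex j f).coeff m = 0 := hJ.reg j hj
    obtain ⟨P, hP⟩ := hT2 k K ι j
    have hfP : ι f ∈ P.1 := (hT3 p k B K ι P j hP f).2 hfr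
    have hyP : y ∈ P.1 := y_mem hp.two_le hy hfP
    obtain ⟨β, hβ⟩ := exists_beta B hT3 hTT hp.two_le hP hfr hy hyP
    -- the step
    have step : ∀ n : ℕ,
        (∀ i < p, ∀ m : ℤ, m < 0 → (B.ex j (tt j ^ (n + 1) * coeff i g)).coeff m = 0) →
        ∀ i < p, ∀ m : ℤ, m < 0 → (B.ex j (tt j ^ n * coeff i g)).coeff m = 0 := by
      intro n hn
      have hG : GG p (fun i => (B.ex j (tt j ^ (n + 1) * coeff i g)).coeff 0) = 0 := by
        refine Polynomial.eq_zero_of_natDegree_lt_card_of_eval_eq_zero _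
          (f := fun i : Fin p => β + ((i : ℕ) : k)) ?_ (fun i => ?_) ?_
        · intro a b hab
          have h1 : ((a : ℕ) : k) = ((b : ℕ) : k) := add_left_cancel hab
          exact Fin.ext (CharP.natCast_injOn_Iio k p a.2 b.2 h1)
        · have he : (((i : ℕ) : K)) ^ p = ((i : ℕ) : K) := by
            have := map_natCast (frobenius K p) (i : ℕ)
            rwa [frobenius_def] at this
          obtain ⟨τ, hτ1, hτ2⟩ := exists_tau hp ι y f hy ((i : ℕ) : K) he
            (hT5 p k B f J d hJ K ι y hK).1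
            (fun h h0 => ((hT5 p k B f J d hJ K ι y hK).2 h).1 h0)
          obtain ⟨P', hP', hP2⟩ := over_comap hP hτ1
          have hS := (hP2 _).1 (H P' j hj hP')
          rw [psi_map ι y _ τ hτ1 hτ2] at hS
          have hi1 : algebraMap k K ((i : ℕ) : k) ∈ P.1 := P.2.1 _
          have hi2 : algebraMap k K ((i : ℕ) : k) = ((i : ℕ) : K) := map_natCast _ _
          rw [← hi2] at hS
          refine core B hT3 hTT hP (add_mem hyP hi1) ?_ hS hn
          have h2 : (⟨y + algebraMap k K ((i : ℕ) : k), add_mem hyP hi1⟩ : P.1) =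
              ⟨y, hyP⟩ + ⟨algebraMap k K ((i : ℕ) : k), hi1⟩ := rfl
          rw [h2, map_add, hβ, kk_eq, map_add]
        · rw [Fintype.card_fin]
          exact GG_deg _ hp.one_lt.le
      intro i hi m hm
      rw [hco]
      rcases lt_or_eq_of_le (show m ≤ -1 by omega) with h1 | h1
      · have h2 := hn i hi (m + 1) (by omega)
        rw [hco] at h2
        rw [← h2]
        congr 1
        push_cast
        ring
      · have h2 := GG_coeff (fun i => (B.ex j (tt j ^ (n + 1) * coeff i g)).coeff 0) hi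
        rw [hG, Polynomial.coeff_zero] at h2
        have h3 := (mul_eq_zero.1 h2.symm).resolve_right
          (inv_ne_zero (fact_ne hp (show p - 1 - i < p by omega)))
        rw [hco] at h3
        rw [← h3, h1]
        congr 1
        push_cast
        ring
    have fin : ∀ n : ℕ,
        (∀ i < p, ∀ m : ℤ, m < 0 → (B.ex j (tt j ^ n * coeff i g)).coeff m = 0) →
        ∀ i < p, ∀ m : ℤ, m < 0 → (B.ex j (coeff i g)).coeff m = 0 := by
      intro n
      induction n with
      | zero =>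
        intro h i hi m hm
        have := h i hi m hm
        rwa [pow_zero, one_mul] at this
      | succ n ih => exact fun h => ih (step n h)
    refine fin ((Finset.range p).sup fun i => (-(B.ex j (coeff i g)).order).toNat) ?_ i hi
    intro i hi m hm
    have h1 : (-(B.ex j (coeff i g)).order).toNat ≤
        (Finset.range p).sup fun i => (-(B.ex j (coeff i g)).order).toNat :=
      Finset.le_sup (f := fun i => (-(B.ex j (coeff i g)).order).toNat) (Finset.mem_range.2 hi)
    rw [hco]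
    exact HahnSeries.coeff_eq_zero_of_lt_order (by omega)
  · intro H P j hj hP
    have hfP : ι f ∈ P.1 := (hT3 p k B K ι P j hP f).2 (hJ.reg j hj)
    have hyP : y ∈ P.1 := y_mem hp.two_le hy hfP
    unfold Psi
    refine sum_mem fun i hi => ?_
    refine mul_mem (mul_mem ?_ (pow_mem hyP _)) ?_
    · exact (hT3 p k B K ι P j hP _).2 (H i (Finset.mem_range.1 hi) j hj)
    · have h1 : (((p - 1 - i).factorial : ℕ) : K)⁻¹ =
          algebraMap k K (((p - 1 - i).factorial : ℕ) : k)⁻¹ := by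
        rw [map_inv₀, map_natCast]
      rw [h1]
      exact P.2.1 _

end

end Pool.Agent.Helper61.EO
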