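import Pool.Agent.Helper61.EO.Stm

/-!
Project EO: the model is `H¹_dR`.
-/

set_option autoImplicit false

namespace Pool.Agent.Helper61.EO

open PowerSeries

noncomputable section

namespace TR

section

variable {p : ℕ} [Fact p.Prime] {k : Type} [Field k] [IsAlgClosed k] [CharP k p] {B : Base p k}
  {f : RatFunc k} {J : Finset (Option k)} {d : Option k → ℕ} {K : Type} [Field K] [Algebra k K]
  {ι : RatFunc k →ₐ[k] K} {y : K}

omit [Fact p.Prime] [IsAlgClosed k] [CharP k p] in
theorem psi_add (h h' : (RatFunc k)⟦X⟧) : Psi p ι y (h + h') = Psi p ι y h + Psi p ι y h' := by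
  unfold Psi
  rw [← Finset.sum_add_distrib]
  refine Finset.sum_congr rfl fun i _ => ?_
  rw [map_add, map_add]
  ring

omit [Fact p.Prime] [IsAlgClosed k] [CharP k p] in
theorem psi_zero : Psi p ι y 0 = 0 := by
  unfold Psi
  simp

omit [Fact p.Prime] [IsAlgClosed k] [CharP k p] in
theorem psi_neg (h : (RatFunc k)⟦X⟧) : Psi p ι y (-h) = -Psi p ι y h := by
  have := psi_add (p := p) (ι := ι) (y := y) h (-h)
  rw [add_neg_cancel, psi_zero] at this
  exact (neg_eq_of_add_eq_zero_right this.symm).symm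

omit [Fact p.Prime] [IsAlgClosed k] [CharP k p] in
theorem psi_sub (h h' : (RatFunc k)⟦X⟧) : Psi p ι y (h - h') = Psi p ι y h - Psi p ι y h' := by
  rw [sub_eq_add_neg, psi_add, psi_neg, sub_eq_add_neg]

omit [Fact p.Prime] [IsAlgClosed k] [CharP k p] in
theorem psi_congr {h h' : (RatFunc k)⟦X⟧} (hh : ∀ i < p, coeff i h = coeff i h') :
    Psi p ι y h = Psi p ι y h' := by
  unfold Psi
  refine Finset.sum_congr rfl fun i hi => ?_
  rw [hh i (Finset.mem_range.1 hi)]

omit [Fact p.Prime] [IsAlgClosed k] [CharP k p] in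
theorem psi_smul (c : k) (h : (RatFunc k)⟦X⟧) :
    Psi p ι y ((PowerSeries.C c : k⟦X⟧) • h) = c • Psi p ι y h := by
  unfold Psi
  rw [Finset.smul_sum]
  refine Finset.sum_congr rfl fun i _ => ?_
  have e : coeff i ((PowerSeries.C c : k⟦X⟧) • h) = c • coeff i h := by
    rw [coeff_sm, Finset.sum_eq_single (0, i)]
    · rw [coeff_zero_C, Algebra.smul_def, RatFunc.algebraMap_eq_C]
    · rintro ⟨a, b⟩ hab hne
      rw [Finset.HasAntidiagonal.mem_antidiagonal] at hab
      rw [coeff_C, if_neg, map_zero, zero_mul]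
      rintro rfl
      apply hne
      simp only [Prod.mk.injEq, true_and]
      simpa using hab
    · intro h'
      exact absurd (Finset.HasAntidiagonal.mem_antidiagonal.2 (zero_add i)) h'
  rw [e, map_smul, smul_mul_assoc, smul_mul_assoc]

/-- the point of the projective line below `P` -/
def jP (hT1 : S_T1) (hK : KData K p f ι y) (P : Pt k K) : Option k :=
  (hT1 p k K f ι y hK P).choose

theorem over_jP (hT1 : S_T1) (hK : KData K p f ι y) (P : Pt k K) : Over ι P (jP hT1 hK P) :=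
  (hT1 p k K f ι y hK P).choose_spec.1

theorem jP_eq (hT1 : S_T1) (hK : KData K p f ι y) {P : Pt k K} {j : Option k}
    (h : Over ι P j) : jP hT1 hK P = j :=
  ((hT1 p k K f ι y hK P).choose_spec.2 j h).symm

open scoped Classical in
/-- the comparison map -/
def th (J : Finset (Option k)) (hT1 : S_T1) (hK : KData K p f ι y)
    (z : (RatFunc k)⟦X⟧ × (Option k → (RatFunc k)⟦X⟧)) : Ω[K⁄k] × (Pt k K → K) :=
  (Psi p ι y z.1 • KaehlerDifferential.D k K (ι RatFunc.X), fun P =>
    if jP hT1 hK P ∈ J then Psi p ι y (z.2 (jP hT1 hK P)) else 0)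

open scoped Classical in
theorem th_add (hT1 : S_T1) (hK : KData K p f ι y)
    (z z' : (RatFunc k)⟦X⟧ × (Option k → (RatFunc k)⟦X⟧)) :
    th J hT1 hK (z + z') = th J hT1 hK z + th J hT1 hK z' := by
  refine Prod.ext ?_ (funext fun P => ?_)
  · change Psi p ι y (z.1 + z'.1) • _ = _ • _ + _ • _
    rw [psi_add, add_smul]
  · change (if _ then Psi p ι y (z.2 _ + z'.2 _) else 0) = (if _ then _ else _) + if _ then _ else _
    split_ifs
    · rw [psi_add]
    · rw [add_zero]

theorem th_sub (hT1 : S_T1) (hK : KData K p f ι y)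
    (z z' : (RatFunc k)⟦X⟧ × (Option k → (RatFunc k)⟦X⟧)) :
    th J hT1 hK (z - z') = th J hT1 hK z - th J hT1 hK z' := by
  rw [eq_sub_iff_add_eq, ← th_add, sub_add_cancel]

open scoped Classical in
theorem th_smul (hT1 : S_T1) (hK : KData K p f ι y) (c : k)
    (z : (RatFunc k)⟦X⟧ × (Option k → (RatFunc k)⟦X⟧)) :
    th J hT1 hK ((PowerSeries.C c : k⟦X⟧) • z) = c • th J hT1 hK z := by
  refine Prod.ext ?_ (funext fun P => ?_)
  · change Psi p ι y ((PowerSeries.C c : k⟦X⟧) • z.1) • _ = c • _ • _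
    rw [psi_smul, smul_assoc]
  · change (if _ then Psi p ι y ((PowerSeries.C c : k⟦X⟧) • z.2 _) else 0) =
      c • (if _ then _ else _)
    split_ifs
    · rw [psi_smul]
    · rw [smul_zero]

variable (hP : PoleData B f J d) (hK : KData K p f ι y)

include hP in
theorem mem_coc (hT1 : S_T1) (hT4 : S_T4) (hT5 : S_T5) (hT6 : S_T6) (hT7 : S_T7) (hT8 : S_T8)
    (hT9 : S_T9) {z : (RatFunc k)⟦X⟧ × (Option k → (RatFunc k)⟦X⟧)} (hz : z ∈ Zm B f J d) :
    th J hT1 hK z ∈ Coc k K := by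
  refine ⟨fun P => ?_, ?_⟩
  · have hj := over_jP hT1 hK P
    by_cases h : jP hT1 hK P ∈ J
    · have e : (th J hT1 hK z).2 P = Psi p ι y (z.2 (jP hT1 hK P)) := if_pos h
      rw [e, (hT6 p k B f K ι y hK).1]
      change Psi p ι y z.1 • _ - _ ∈ _
      rw [← sub_smul, ← psi_sub]
      exact (hT7 p k B f J d hP K ι y hK P _ h hj _).2 (hz.2 _ h)
    · have e : (th J hT1 hK z).2 P = 0 := if_neg h
      rw [e, map_zero, sub_zero]
      exact ((hT8 p k B f J d hP K ι y hK P _ h hj).2.2 _).2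
        ((hT9 p k B f J d hP K ι y hK z.1).2 hz.1 P _ h hj)
  · have h1 : {P : Pt k K | (th J hT1 hK z).2 P ∉ P.1} ⊆ {P | jP hT1 hK P ∈ J} := by
      intro P hPP
      by_contra h
      apply hPP
      have e : (th J hT1 hK z).2 P = 0 := if_neg h
      rw [e]
      exact zero_mem _
    refine Set.Finite.subset ?_ h1
    refine Set.Finite.of_finite_image (f := jP hT1 hK) (J.finite_toSet.subset ?_) ?_
    · rintro _ ⟨P, hPP, rfl⟩
      exact hPP
    · intro P hPP P' hPP' he
      apply Subtype.ext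
      ext u
      obtain ⟨h, rfl⟩ := (hT5 p k B f J d hP K ι y hK).1 u
      rw [hT4 p k B f J d hP K ι y hK P _ hPP (over_jP hT1 hK P),
        hT4 p k B f J d hP K ι y hK P' _ hPP' (over_jP hT1 hK P'), he]

include hP in
open scoped Classical in
theorem mem_cob (hT1 : S_T1) (hT2 : S_T2) (hT4 : S_T4) (hT5 : S_T5) (hT6 : S_T6)
    (hT9 : S_T9) (z : (RatFunc k)⟦X⟧ × (Option k → (RatFunc k)⟦X⟧)) :
    th J hT1 hK z ∈ Cob k K ↔ z ∈ Bm B f J d := by
  constructor
  · rintro ⟨g', h1, h2⟩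
    obtain ⟨g, rfl⟩ := (hT5 p k B f J d hP K ι y hK).1 g'
    refine ⟨g, ?_, ?_, ?_⟩
    · rw [← hT9 p k B f J d hP K ι y hK g]
      intro P j hj hPj
      have h3 := h2 P
      have e : (th J hT1 hK z).2 P = 0 := if_neg (by rw [jP_eq hT1 hK hPj]; exact hj)
      rw [e, zero_sub] at h3
      simpa using neg_mem h3
    · have h3 : Psi p ι y z.1 • KaehlerDifferential.D k K (ι RatFunc.X) = _ := h1
      rw [(hT6 p k B f K ι y hK).1, ← sub_eq_zero, ← sub_smul] at h3
      have h4 := (hT6 p k B f K ι y hK).2.1 _ h3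
      rw [← psi_sub, (hT5 p k B f J d hP K ι y hK).2] at h4
      intro i hi
      have := h4 i hi
      rwa [map_sub, sub_eq_zero] at this
    · intro j hj
      obtain ⟨P, hPj⟩ := hT2 k K ι j
      have h3 := h2 P
      have e : (th J hT1 hK z).2 P = Psi p ι y (z.2 j) := by
        change (if _ then _ else _) = _
        rw [if_pos (by rw [jP_eq hT1 hK hPj]; exact hj), jP_eq hT1 hK hPj]
      rw [e, ← psi_sub] at h3
      exact (hT4 p k B f J d hP K ι y hK P j hj hPj _).1 h3
  · rintro ⟨g, h1, h2, h3⟩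
    refine ⟨Psi p ι y g, ?_, fun P => ?_⟩
    · rw [(hT6 p k B f K ι y hK).1]
      change Psi p ι y z.1 • _ = _
      rw [psi_congr h2]
    · have hj := over_jP hT1 hK P
      by_cases h : jP hT1 hK P ∈ J
      · have e : (th J hT1 hK z).2 P = Psi p ι y (z.2 (jP hT1 hK P)) := if_pos h
        rw [e, ← psi_sub]
        exact (hT4 p k B f J d hP K ι y hK P _ h hj _).2 (h3 _ h)
      · have e : (th J hT1 hK z).2 P = 0 := if_neg h
        rw [e, zero_sub]
        exact neg_mem ((hT9 p k B f J d hP K ι y hK g).2 h1 P _ h hj)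

include hP in
theorem surj (hT1 : S_T1) (hT2 : S_T2) (hT4 : S_T4) (hT5 : S_T5) (hT6 : S_T6) (hT7 : S_T7)
    (hT8 : S_T8) (hT9 : S_T9) (hT10 : S_T10) {c : Ω[K⁄k] × (Pt k K → K)} (hc : c ∈ Coc k K) :
    ∃ z ∈ Zm B f J d, c - th J hT1 hK z ∈ Cob k K := by
  classical
  obtain ⟨g, hg⟩ := hT10 p k B f J d hP K ι y hK c.2 hc.2
  obtain ⟨w', hw'⟩ := (hT6 p k B f K ι y hK).2.2 (c.1 - KaehlerDifferential.D k K g)
  obtain ⟨w, rfl⟩ := (hT5 p k B f J d hP K ι y hK).1 w'
  choose Pj hPj using hT2 k K ι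
  choose h hh using fun j => (hT5 p k B f J d hP K ι y hK).1 (c.2 (Pj j) - g)
  have hDreg : ∀ (P : Pt k K) (b : K), b ∈ P.1 → KaehlerDifferential.D k K b ∈ Reg k K P.1 :=
    fun P b hb => AddSubgroup.subset_closure ⟨1, one_mem _, b, hb, by rw [one_smul]⟩
  refine ⟨(w, h), ⟨?_, fun j hj => ?_⟩, ⟨g, ?_, fun P => ?_⟩⟩
  · change inA B J w
    rw [← hT9 p k B f J d hP K ι y hK w]
    intro P j hj hPj'
    rw [← (hT8 p k B f J d hP K ι y hK P j hj hPj').2.2, ← hw']
    have h1 := add_mem (hc.1 P) (hDreg P _ (hg P j hj hPj'))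
    rw [map_sub] at h1
    convert h1 using 1
    abel
  · change inW B d j (w - nab B f (h j))
    rw [← hT7 p k B f J d hP K ι y hK (Pj j) j hj (hPj j), psi_sub, sub_smul, ← hw',
      ← (hT6 p k B f K ι y hK).1, hh, map_sub]
    convert hc.1 (Pj j) using 1
    abel
  · change c.1 - Psi p ι y w • _ = _
    rw [← hw']
    abel
  · change c.2 P - (th J hT1 hK (w, h)).2 P - g ∈ P.1
    have hj := over_jP hT1 hK P
    by_cases h' : jP hT1 hK P ∈ J
    · have e : (th J hT1 hK (w, h)).2 P = Psi p ι y (h (jP hT1 hK P)) := if_pos h'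
      have e2 : Pj (jP hT1 hK P) = P := by
        apply Subtype.ext
        ext u
        obtain ⟨u', rfl⟩ := (hT5 p k B f J d hP K ι y hK).1 u
        rw [hT4 p k B f J d hP K ι y hK P _ h' hj,
          hT4 p k B f J d hP K ι y hK _ _ h' (hPj _)]
      rw [e, hh, e2]
      have : c.2 P - (c.2 P - g) - g = 0 := by ring
      rw [this]
      exact zero_mem _
    · have e : (th J hT1 hK (w, h)).2 P = 0 := if_neg h'
      rw [e, sub_zero]
      exact hg P _ h' hj

end

/-- `IsF` is functional -/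
theorem isF_fun {p : ℕ} [Fact p.Prime] {k : Type} [Field k] [CharP k p] {K : Type} [Field K]
    [Algebra k K] {v w w' : HdR k K} (h : IsF k K p v w) (h' : IsF k K p v w') : w = w' := by
  haveI : CharP K p := charP_of_injective_algebraMap (algebraMap k K).injective p
  obtain ⟨z, z1, rfl, rfl, h3, h4⟩ := h
  obtain ⟨z', z2, h5, rfl, h6, h7⟩ := h'
  rw [eq_comm, Submodule.Quotient.eq] at h5
  obtain ⟨g, hg1, hg2⟩ := h5
  rw [Submodule.Quotient.eq]
  refine ⟨g ^ p, ?_, fun P => ?_⟩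
  · change z1.1.1 - z2.1.1 = _
    rw [h3, h6, Derivation.leibniz_pow, ← Nat.cast_smul_eq_nsmul K, CharP.cast_eq_zero, zero_smul,
      sub_zero]
  · change z1.1.2 P - z2.1.2 P - g ^ p ∈ P.1.1
    rw [h4, h7]
    have e : z.1.2 P ^ p - z'.1.2 P ^ p - g ^ p = (z.1.2 P - z'.1.2 P - g) ^ p := by
      rw [sub_pow_char, sub_pow_char]
    rw [e]
    exact pow_mem (hg2 P) p

end TR

theorem t_TR (hT1 : S_T1) (hT2 : S_T2) (hT4 : S_T4) (hT5 : S_T5) (hT6 : S_T6) (hT7 : S_T7)
    (hT8 : S_T8) (hT9 : S_T9) (hT10 : S_T10) (hT11 : S_T11) (hT12 : S_T12) : S_TR := by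
  classical
  intro p _ k _ _ _ B f J d hP K _ _ ι y hK F V hF hV
  have hp := (Fact.out : p.Prime)
  -- the map
  let rep : Hm B f J d → Zm B f J d := fun m => (Submodule.Quotient.mk_surjective _ m).choose
  have hrep : ∀ m, Hm.cl B f J d (rep m) = m := fun m =>
    (Submodule.Quotient.mk_surjective _ m).choose_spec
  let tz : Zm B f J d → Coc k K := fun z =>
    ⟨TR.th J hT1 hK z.1, TR.mem_coc hP hK hT1 hT4 hT5 hT6 hT7 hT8 hT9 z.2⟩
  have htz : ∀ z z' : Zm B f J d, HdR.mk k K (tz z) = HdR.mk k K (tz z') ↔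
      Hm.cl B f J d z = Hm.cl B f J d z' := by
    intro z z'
    rw [Submodule.Quotient.eq, Submodule.Quotient.eq]
    change TR.th J hT1 hK z.1 - TR.th J hT1 hK z'.1 ∈ Cob k K ↔ z.1 - z'.1 ∈ Bm B f J d
    rw [← TR.th_sub, TR.mem_cob hP hK hT1 hT2 hT4 hT5 hT6 hT9]
  have htz1 : ∀ m z, HdR.mk k K (tz (rep m)) = HdR.mk k K (tz z) ↔ m = Hm.cl B f J d z := by
    intro m z
    rw [htz, hrep]
  let Θ0 : Hm B f J d →ₗ[k] HdR k K :=
    { toFun := fun m => HdR.mk k K (tz (rep m))
      map_add' := fun m m' => by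
        have e : HdR.mk k K (tz (rep m)) + HdR.mk k K (tz (rep m')) =
            HdR.mk k K (tz (rep m + rep m')) := by
          rw [← Submodule.Quotient.mk_add]
          congr 1
          apply Subtype.ext
          exact (TR.th_add hT1 hK _ _).symm
        rw [e, htz1]
        change m + m' = Hm.cl B f J d (rep m) + Hm.cl B f J d (rep m')
        rw [hrep, hrep]
      map_smul' := fun c m => by
        have e : (RingHom.id k) c • HdR.mk k K (tz (rep m)) =
            HdR.mk k K (tz ((PowerSeries.C c : k⟦X⟧) • rep m)) := by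
          rw [RingHom.id_apply, ← Submodule.Quotient.mk_smul]
          congr 1
          apply Subtype.ext
          exact (TR.th_smul hT1 hK _ _).symm
        rw [e, htz1]
        change c • m = (PowerSeries.C c : k⟦X⟧) • Hm.cl B f J d (rep m)
        rw [hrep, Hm.smulk] }
  have hΘcl : ∀ z, Θ0 (Hm.cl B f J d z) = HdR.mk k K (tz z) := fun z => (htz1 _ z).2 rfl
  have hbij : Function.Bijective Θ0 := by
    constructor
    · intro m m' h
      have := (htz1 m (rep m')).1 h
      rwa [hrep] at this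
    · intro c
      obtain ⟨c, rfl⟩ := Submodule.Quotient.mk_surjective _ c
      obtain ⟨z, hz, h⟩ := TR.surj hP hK hT1 hT2 hT4 hT5 hT6 hT7 hT8 hT9 hT10 c.2
      refine ⟨Hm.cl B f J d ⟨z, hz⟩, ?_⟩
      rw [hΘcl, eq_comm, Submodule.Quotient.eq]
      exact h
  let Θ : Hm B f J d ≃ₗ[k] HdR k K := LinearEquiv.ofBijective Θ0 hbij
  have hΘ : ∀ z, Θ (Hm.cl B f J d z) = HdR.mk k K (tz z) := hΘcl
  refine ⟨Θ, ?_, ?_⟩
  · have key : ∀ v, IsF k K p (Θ v) (Θ (F v)) := by
      intro v
      obtain ⟨z, rfl⟩ : ∃ z, Hm.cl B f J d z = v := ⟨rep v, hrep v⟩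
      obtain ⟨z', h1, h2, h3⟩ := hF.2 z
      rw [h3, hΘ, hΘ]
      refine ⟨tz z, tz z', rfl, rfl, ?_, fun P => ?_⟩
      · change Psi p ι y z'.1.1 • _ = _
        rw [h1, TR.psi_zero, zero_smul]
      · change (if _ then _ else _) = (if _ then _ else _) ^ p
        split_ifs
        · rw [h2, hT11 p k f K ι y hK]
        · rw [zero_pow hp.ne_zero]
    intro v w
    constructor
    · intro h
      exact Θ.injective (TR.isF_fun h (key v))
    · rintro rfl
      exact key v
  · have key : ∀ v, IsV k K p (Θ v) (Θ (V v)) := by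
      intro v
      obtain ⟨z, rfl⟩ : ∃ z, Hm.cl B f J d z = v := ⟨rep v, hrep v⟩
      obtain ⟨z', h1, h2, h3⟩ := hV.2 z
      rw [h3, hΘ, hΘ]
      refine ⟨tz z, tz z', rfl, rfl, funext fun P => ?_, ?_⟩
      · change (if _ then _ else _) = (0 : K)
        split_ifs
        · rw [h1]
          exact TR.psi_zero
        · rfl
      · change IsCartier k K p (Psi p ι y z.1.1 • _) (Psi p ι y z'.1.1 • _)
        rw [hT12 p k B f J d hP K ι y hK, h2]
    have fun' : ∀ v w w' : HdR k K, IsV k K p v w → IsV k K p v w' → w = w' := by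
      rintro v w w' ⟨z, z1, rfl, rfl, h3, h4⟩ ⟨z', z2, h5, rfl, h6, h7⟩
      rw [eq_comm, Submodule.Quotient.eq] at h5
      obtain ⟨g, hg1, hg2⟩ := h5
      have e : z.1.1 = z'.1.1 + KaehlerDifferential.D k K g := by
        rw [← hg1]
        change z.1.1 = z'.1.1 + (z.1.1 - z'.1.1)
        abel
      obtain ⟨u, hu⟩ := (hT6 p k B f K ι y hK).2.2 z.1.1
      obtain ⟨u, rfl⟩ := (hT5 p k B f J d hP K ι y hK).1 u
      have h8 : IsCartier k K p z.1.1 z2.1.1 := by
        obtain ⟨n, a, g', b, h9, h10⟩ := h7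
        refine ⟨n, a, g', b + g, h9, ?_⟩
        rw [e, h10, map_add]
        abel
      rw [hu, hT12 p k B f J d hP K ι y hK] at h4 h8
      have : z1 = z2 := by
        apply Subtype.ext
        exact Prod.ext (h4.trans h8.symm) (h3.trans h6.symm)
      rw [this]
    intro v w
    constructor
    · intro h
      exact Θ.injective (fun' _ _ _ h (key v))
    · rintro rfl
      exact key v

end

end Pool.Agent.Helper61.EO
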