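import Pool.Agent.Helper61.EO.Stm

/-!
# Project EO: the local parameters
-/

set_option autoImplicit false

namespace Pool.Agent.Helper61.EO

namespace TT

/-- the coefficients below `n` are zero -/
def vge {k : Type} [Field k] (φ : LaurentSeries k) (n : ℤ) : Prop := ∀ m : ℤ, m < n → φ.coeff m = 0

section

variable {k : Type} [Field k]

theorem vge.mono {φ : LaurentSeries k} {n n' : ℤ} (h : vge φ n) (hn : n' ≤ n) : vge φ n' :=
  fun m hm => h m (by omega)

theorem vge.mul {φ ψ : LaurentSeries k} {n n' : ℤ} (h : vge φ n) (h' : vge ψ n') :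
    vge (φ * ψ) (n + n') := by
  intro m hm
  rw [HahnSeries.coeff_mul]
  refine Finset.sum_eq_zero fun x hx => ?_
  have h1 := (Finset.mem_antidiagonal.1 hx).2.2
  rcases lt_or_ge x.1 n with h2 | h2
  · rw [h x.1 h2, zero_mul]
  · rw [h' x.2 (by omega), mul_zero]

theorem vge_single (n : ℤ) (c : k) : vge (HahnSeries.single n c : LaurentSeries k) n := by
  intro m hm
  rw [HahnSeries.coeff_single_of_ne (by omega)]

theorem vge_C (c : k) : vge (HahnSeries.C c : LaurentSeries k) 0 := vge_single 0 c

theorem vge_one : vge (1 : LaurentSeries k) 0 := vge_single 0 1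

theorem vge.add {φ ψ : LaurentSeries k} {n : ℤ} (h : vge φ n) (h' : vge ψ n) : vge (φ + ψ) n := by
  intro m hm
  rw [HahnSeries.coeff_add, h m hm, h' m hm, add_zero]

theorem vge.neg {φ : LaurentSeries k} {n : ℤ} (h : vge φ n) : vge (-φ) n := by
  intro m hm
  rw [HahnSeries.coeff_neg, h m hm, neg_zero]

theorem vge.pow {φ : LaurentSeries k} {n : ℤ} (h : vge φ n) (r : ℕ) : vge (φ ^ r) (r * n) := by
  induction r with
  | zero =>
    rw [pow_zero]
    exact vge_one.mono (by simp)
  | succ r ih =>
    rw [pow_succ]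
    refine (ih.mul h).mono (le_of_eq ?_)
    push_cast
    ring

theorem vge_sum {ι : Type} (s : Finset ι) (φ : ι → LaurentSeries k) (n : ℤ)
    (h : ∀ i ∈ s, vge (φ i) n) : vge (∑ i ∈ s, φ i) n := by
  intro m hm
  rw [HahnSeries.coeff_sum]
  exact Finset.sum_eq_zero fun i hi => h i hi m hm

theorem single_inv : (HahnSeries.single (1 : ℤ) (1 : k))⁻¹ = HahnSeries.single (-1 : ℤ) (1 : k) := by
  apply inv_eq_of_mul_eq_one_right
  rw [HahnSeries.single_mul_single]
  norm_num

theorem single_inv' : (HahnSeries.single (-1 : ℤ) (1 : k))⁻¹ = HahnSeries.single (1 : ℤ) (1 : k) := by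
  rw [← single_inv, inv_inv]

theorem vge_ps (φ : PowerSeries k) : vge (HahnSeries.ofPowerSeries ℤ k φ) 0 := by
  intro m hm
  rw [PowerSeries.coeff_coe, if_pos hm]

/-- the inverse of a unit -/
theorem vge_inv {a : k} (ha : a ≠ 0) (b : k) :
    vge ((HahnSeries.C a + HahnSeries.single (1 : ℤ) b : LaurentSeries k)⁻¹) 0 := by
  have h1 : (HahnSeries.C a + HahnSeries.single (1 : ℤ) b : LaurentSeries k) =
      HahnSeries.ofPowerSeries ℤ k (PowerSeries.C a + PowerSeries.C b * PowerSeries.X) := by
    rw [map_add, map_mul, HahnSeries.ofPowerSeries_C, HahnSeries.ofPowerSeries_C,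
      HahnSeries.ofPowerSeries_X]
    congr 1
    rw [HahnSeries.C_apply, HahnSeries.single_mul_single, zero_add, mul_one]
  have h2 : PowerSeries.constantCoeff (PowerSeries.C a + PowerSeries.C b * PowerSeries.X) ≠
      (0 : k) := by
    simpa using ha
  have h3 : (HahnSeries.C a + HahnSeries.single (1 : ℤ) b : LaurentSeries k)⁻¹ =
      HahnSeries.ofPowerSeries ℤ k (PowerSeries.C a + PowerSeries.C b * PowerSeries.X)⁻¹ := by
    apply inv_eq_of_mul_eq_one_right
    rw [h1, ← map_mul, PowerSeries.mul_inv_cancel _ h2, map_one]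
  rw [h3]
  exact vge_ps _

variable {p : ℕ} (B : Base p k)

theorem ex_tt (j : Option k) : B.ex j (tt j) = HahnSeries.single 1 1 := by
  cases j with
  | none =>
    change B.ex none (RatFunc.X⁻¹) = _
    rw [map_inv₀, B.ex_none, single_inv']
  | some c =>
    change B.ex (some c) (RatFunc.X - RatFunc.C c) = _
    rw [map_sub, B.ex_some, B.ex_C, add_sub_cancel_left]

/-- the inverse of `x - c` at infinity -/
theorem ex_none_inv (c : k) : vge (B.ex none (tt (some c))⁻¹) 1 := by
  have h1 : B.ex none (tt (some c))⁻¹ = HahnSeries.single (1 : ℤ) (1 : k) *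
      (HahnSeries.C 1 + HahnSeries.single (1 : ℤ) (-c) : LaurentSeries k)⁻¹ := by
    change B.ex none (RatFunc.X - RatFunc.C c)⁻¹ = _
    rw [map_inv₀, map_sub, B.ex_none, B.ex_C, ← single_inv', ← mul_inv]
    congr 1
    rw [mul_add, RingHom.map_one, mul_one, HahnSeries.single_mul_single, sub_eq_add_neg,
      HahnSeries.C_apply, ← HahnSeries.single_neg, one_mul, neg_add_cancel]
  rw [h1]
  exact ((vge_single 1 1).mul (vge_inv one_ne_zero _)).mono (by norm_num)

theorem ex_inv {j j' : Option k} (h : j' ≠ j) : vge (B.ex j' (tt j)⁻¹) 0 := by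
  cases j with
  | none =>
    cases j' with
    | none => exact absurd rfl h
    | some c =>
      change vge (B.ex (some c) (RatFunc.X⁻¹)⁻¹) 0
      rw [inv_inv, B.ex_some]
      exact (vge_C c).add ((vge_single 1 1).mono (by norm_num))
  | some c =>
    cases j' with
    | none => exact (ex_none_inv B c).mono (by norm_num)
    | some c' =>
      change vge (B.ex (some c') (RatFunc.X - RatFunc.C c)⁻¹) 0
      have h1 : c' - c ≠ 0 := by
        intro h2
        apply h
        rw [sub_eq_zero.1 h2]
      rw [map_inv₀, map_sub, B.ex_some, B.ex_C, add_sub_right_comm, ← map_sub]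
      exact vge_inv h1 1

end

end TT

open TT in
theorem t_TT : S_TT := by
  intro p k _ B
  exact ⟨ex_tt B, fun j j' h m hm => ex_inv B h m hm,
    fun c => ex_none_inv B c 0 (by norm_num)⟩

end Pool.Agent.Helper61.EO
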