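import Pool.Agent.Helper61.EO.Stm

/-!
Project EO: Verschiebung on the model.
-/

set_option autoImplicit false

namespace Pool.Agent.Helper61.EO

open PowerSeries

noncomputable section

namespace VM

section low

variable {k : Type} [Field k]

/-- the coefficients below `n` vanish -/
def Low (u : LaurentSeries k) (n : ℤ) : Prop := ∀ m < n, u.coeff m = 0

theorem Low.mono {u : LaurentSeries k} {n n' : ℤ} (h : Low u n) (hn : n' ≤ n) : Low u n' :=
  fun m hm => h m (lt_of_lt_of_le hm hn)

theorem Low.mul {u v : LaurentSeries k} {n n' : ℤ} (hu : Low u n) (hv : Low v n') :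
    Low (u * v) (n + n') := by
  intro m hm
  rw [HahnSeries.coeff_mul]
  refine Finset.sum_eq_zero fun x hx => ?_
  have h1 : x.1 + x.2 = m := (Finset.mem_antidiagonal.1 hx).2.2
  rcases lt_or_ge x.1 n with h | h
  · rw [hu _ h, zero_mul]
  · rw [hv _ (by omega), mul_zero]

theorem Low.one : Low (1 : LaurentSeries k) 0 := by
  intro m hm
  rw [HahnSeries.coeff_one, if_neg hm.ne]

theorem Low.pow {u : LaurentSeries k} {n : ℤ} (h : Low u n) (s : ℕ) : Low (u ^ s) (s * n) := by
  induction s with
  | zero =>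
    rw [pow_zero, Nat.cast_zero, zero_mul]
    exact Low.one
  | succ s ih =>
    rw [pow_succ]
    refine (ih.mul h).mono (le_of_eq ?_)
    push_cast
    ring

theorem Low.neg {u : LaurentSeries k} {n : ℤ} (h : Low u n) : Low (-u) n := by
  intro m hm
  rw [HahnSeries.coeff_neg, h m hm, neg_zero]

theorem Low.sum {ι : Type} (s : Finset ι) (F : ι → LaurentSeries k) {n : ℤ}
    (h : ∀ i ∈ s, Low (F i) n) : Low (∑ i ∈ s, F i) n := by
  intro m hm
  rw [HahnSeries.coeff_sum]
  exact Finset.sum_eq_zero fun i hi => h i hi m hm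

theorem Low.C (c : k) : Low (HahnSeries.C c : LaurentSeries k) 0 := by
  intro m hm
  rw [HahnSeries.C_apply, HahnSeries.coeff_single_of_ne hm.ne]

end low

variable {p : ℕ} {k : Type} [Field k] (B : Base p k)

theorem low_expo {j : Option k} {f : RatFunc k} {n : ℤ} (hf : Low (B.ex j f) n) (s : ℕ) :
    Low (B.ex j (coeff s (expo p (-f)))) (s * n) := by
  unfold expo
  rw [coeff_mk]
  split_ifs with h
  · have e : ((s.factorial : ℕ) : RatFunc k)⁻¹ = RatFunc.C (((s.factorial : ℕ) : k)⁻¹) := by
      rw [map_inv₀, map_natCast]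
    rw [map_mul, map_pow, map_neg, e, B.ex_C]
    refine ((Low.C _).mul (hf.neg.pow s)).mono (le_of_eq ?_)
    rw [zero_add]
  · rw [map_zero]
    intro m _
    rfl

/-- coefficientwise derivation -/
def dd (h : (RatFunc k)⟦X⟧) : (RatFunc k)⟦X⟧ := mk fun i => B.D (coeff i h)

theorem dd_mul (a b : (RatFunc k)⟦X⟧) : dd B (a * b) = dd B a * b + a * dd B b := by
  ext i
  unfold dd
  rw [coeff_mk, map_add, coeff_mul, coeff_mul, coeff_mul, map_sum, ← Finset.sum_add_distrib]
  refine Finset.sum_congr rfl fun x _ => ?_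
  rw [coeff_mk, coeff_mk, Derivation.leibniz, smul_eq_mul, smul_eq_mul]
  ring

theorem congr_mul {n : ℕ} {a a' : (RatFunc k)⟦X⟧} (b : (RatFunc k)⟦X⟧)
    (h : ∀ i < n, coeff i a = coeff i a') : ∀ i < n, coeff i (a * b) = coeff i (a' * b) := by
  intro i hi
  rw [coeff_mul, coeff_mul]
  refine Finset.sum_congr rfl fun x hx => ?_
  have := Finset.HasAntidiagonal.mem_antidiagonal.1 hx
  rw [h x.1 (by omega)]

theorem dd_expo [Fact p.Prime] [CharP k p] (f : RatFunc k) : ∀ s < p,
    coeff s (dd B (expo p (-f))) = coeff s (-(X * (C (B.D f) * expo p (-f)))) := by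
  intro s hs
  unfold dd
  rw [coeff_mk]
  cases s with
  | zero =>
    rw [map_neg, coeff_zero_X_mul, neg_zero]
    unfold expo
    rw [coeff_mk, if_pos hs]
    simp
  | succ s =>
    rw [map_neg, coeff_succ_X_mul, coeff_C_mul]
    unfold expo
    rw [coeff_mk, coeff_mk, if_pos hs, if_pos (by omega)]
    have e : (((s + 1).factorial : ℕ) : RatFunc k)⁻¹ =
        RatFunc.C ((((s + 1).factorial : ℕ) : k)⁻¹) := by
      rw [map_inv₀, map_natCast]
    have h1 : ((s + 1 : ℕ) : RatFunc k) ≠ 0 := by
      intro h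
      have h2 := (CharP.cast_eq_zero_iff (RatFunc k) p (s + 1)).1 h
      exact absurd (Nat.le_of_dvd (Nat.succ_pos s) h2) (by omega)
    rw [e, Derivation.leibniz, ← RatFunc.algebraMap_eq_C, Derivation.map_algebraMap, smul_zero,
      add_zero, Derivation.leibniz_pow, map_neg, RatFunc.algebraMap_eq_C, ← e,
      Nat.factorial_succ]
    simp only [smul_eq_mul, nsmul_eq_mul, Nat.add_sub_cancel]
    push_cast at h1 ⊢
    rw [mul_inv]
    field_simp

theorem car_nab [Fact p.Prime] [CharP k p] (f : RatFunc k) (g : (RatFunc k)⟦X⟧) : ∀ i < p,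
    coeff i (carS B f (nab B f g)) = 0 := by
  intro i hi
  unfold carS
  rw [coeff_mk]
  have h1 : coeff i (expo p (-f) * nab B f g) = B.D (coeff i (expo p (-f) * g)) := by
    have h2 : B.D (coeff i (expo p (-f) * g)) = coeff i (dd B (expo p (-f) * g)) := by
      unfold dd
      rw [coeff_mk]
    have h3 : nab B f g = dd B g - X * (C (B.D f) * g) := rfl
    rw [h2, dd_mul, h3, mul_sub, map_sub, map_add, congr_mul g (dd_expo B f) i hi, add_comm,
      sub_eq_add_neg, ← map_neg]
    congr 2
    ring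
  rw [h1, B.car_D]

theorem car_add (f : RatFunc k) (w w' : (RatFunc k)⟦X⟧) :
    carS B f (w + w') = carS B f w + carS B f w' := by
  ext i
  unfold carS
  rw [map_add, coeff_mk, coeff_mk, coeff_mk, mul_add, map_add, map_add]

theorem car_congr {f : RatFunc k} {n : ℕ} {w w' : (RatFunc k)⟦X⟧}
    (h : ∀ i < n, coeff i w = coeff i w') :
    ∀ i < n, coeff i (carS B f w) = coeff i (carS B f w') := by
  intro i hi
  unfold carS
  rw [coeff_mk, coeff_mk, mul_comm, congr_mul (expo p (-f)) h i hi, mul_comm]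

theorem car_sm [Fact p.Prime] [CharP k p] (f : RatFunc k) (s : k⟦X⟧) (w : (RatFunc k)⟦X⟧) :
    carS B f (fr p k s • w) = s • carS B f w := by
  ext i
  rw [coeff_sm]
  unfold carS
  rw [coeff_mk, mul_smul_comm, coeff_sm, map_sum]
  refine Finset.sum_congr rfl fun x _ => ?_
  rw [coeff_mk]
  have e : coeff x.1 (fr p k s) = coeff x.1 s ^ p := by
    unfold fr
    rw [PowerSeries.coeff_map, frobenius_def]
  rw [e, map_pow, B.car_pow]

theorem div_le {E u : ℕ} (hE : 1 ≤ E) : (u + E - 1) / E ≤ u := by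
  rcases Nat.eq_zero_or_pos u with rfl | hu
  · rw [zero_add, Nat.div_eq_of_lt (by omega)]
  · refine Nat.div_le_of_le_mul ?_
    obtain ⟨v, rfl⟩ : ∃ v, u = v + 1 := ⟨u - 1, by omega⟩
    obtain ⟨F, rfl⟩ : ∃ F, E = F + 1 := ⟨E - 1, by omega⟩
    have : v + 1 + (F + 1) - 1 = v + F + 1 := by omega
    rw [this]
    nlinarith [Nat.zero_le (v * F)]

theorem le_div {E i : ℕ} (hE : 1 ≤ E) : i ≤ E * ((i + E - 1) / E) := by
  have h1 := Nat.div_add_mod (i + E - 1) E
  have h2 := Nat.mod_lt (i + E - 1) (show 0 < E by omega)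
  omega

end VM

open VM

theorem t_VM (hEXC : S_EXC) (hEXD : S_EXD) : S_VM := by
  intro p _ k _ _ _ B f J d hP
  have hp : p.Prime := Fact.out
  -- regularity
  have hA : ∀ w : (RatFunc k)⟦X⟧, inA B J w → inA B J (carS B f w) := by
    intro w hw i hi j hj m hm
    cases j with
    | none => exact absurd hP.inf hj
    | some c =>
      have h1 := hEXC p k hp B (some c) (coeff i (expo p (-f) * w)) m
      have e : ∀ φ, exW B (some c) φ = B.ex (some c) φ := fun φ => mul_one _
      rw [e, e] at h1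
      have h2 : Low (B.ex (some c) (coeff i (expo p (-f) * w))) 0 := by
        rw [coeff_mul, map_sum]
        refine Low.sum _ _ fun x hx => ?_
        have hx' := Finset.HasAntidiagonal.mem_antidiagonal.1 hx
        rw [map_mul]
        have h3 : Low (B.ex (some c) f) 0 := hP.reg _ hj
        have h4 : Low (B.ex (some c) (coeff x.2 w)) 0 := hw x.2 (by omega) _ hj
        refine ((low_expo B h3 x.1).mul h4).mono ?_
        simp
      rw [h2 _ (by
        have : (p : ℤ) * (m + 1) ≤ 0 := mul_nonpos_of_nonneg_of_nonpos (by positivity) (by omega)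
        omega)] at h1
      have h5 : (B.ex (some c) (coeff i (carS B f w))).coeff m ^ p = 0 := by
        unfold carS
        rw [coeff_mk]
        exact h1
      exact eq_zero_of_pow_eq_zero h5
  have hW : ∀ j ∈ J, ∀ r : (RatFunc k)⟦X⟧, inW B d j r → inW B d j (carS B f r) := by
    intro j hj r hr i hi m hm
    obtain ⟨E, hE⟩ := hP.dvd j hj
    have hd := hP.pos j hj
    have hEE : EE p d j = E := by
      unfold EE
      rw [hE, Nat.mul_div_cancel_left _ hd]
    have hE1 : 1 ≤ E := by
      rcases Nat.eq_zero_or_pos E with rfl | h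
      · rw [mul_zero] at hE
        have := hp.two_le
        omega
      · exact h
    rw [hEE] at hm
    have h1 := hEXC p k hp B j (coeff i (expo p (-f) * r)) m
    have h2 : Low (exW B j (coeff i (expo p (-f) * r)))
        (-((p : ℤ) * (((i + E - 1) / E : ℕ) : ℤ))) := by
      unfold exW
      rw [coeff_mul, map_sum, Finset.sum_mul]
      refine Low.sum _ _ fun x hx => ?_
      have hx' := Finset.HasAntidiagonal.mem_antidiagonal.1 hx
      rw [map_mul, mul_assoc]
      have h3 : Low (B.ex j f) (-(d j : ℤ)) := hP.low j hj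
      have h4 : Low (B.ex j (coeff x.2 r) * dxdt j) (-(((x.2 + E - 1) / E : ℕ) : ℤ)) := by
        have := hr x.2 (by omega)
        rw [hEE] at this
        exact this
      refine ((low_expo B h3 x.1).mul h4).mono ?_
      have h5 : (x.2 + E - 1) / E ≤ x.2 := div_le hE1
      have h6 : i ≤ E * ((i + E - 1) / E) := le_div hE1
      generalize (x.2 + E - 1) / E = a at h5
      generalize (i + E - 1) / E = q at h6
      have h7 : p = d j * E + 1 := by
        have := hp.two_le
        omega
      have h8 : d j * x.1 + a ≤ p * q := by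
        calc d j * x.1 + a ≤ d j * x.1 + d j * x.2 := by nlinarith
          _ = d j * i := by rw [← hx']; ring
          _ ≤ d j * (E * q) := Nat.mul_le_mul_left _ h6
          _ ≤ p * q := by rw [h7]; nlinarith
      have h9 : ((d j * x.1 + a : ℕ) : ℤ) ≤ ((p * q : ℕ) : ℤ) := by exact_mod_cast h8
      push_cast at h9
      linarith
    rw [h2 _ (by
      have h3 : m + 1 ≤ -(((i + E - 1) / E : ℕ) : ℤ) := by omega
      have h4 : (p : ℤ) * (m + 1) ≤ (p : ℤ) * -(((i + E - 1) / E : ℕ) : ℤ) :=
        mul_le_mul_of_nonneg_left h3 (by positivity)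
      linarith)] at h1
    have h5 : (exW B j (coeff i (carS B f r))).coeff m ^ p = 0 := by
      unfold carS
      rw [coeff_mk]
      exact h1
    exact eq_zero_of_pow_eq_zero h5
  -- cocycles
  have hZ : ∀ z ∈ Zm B f J d, (carS B f z.1, (0 : Option k → (RatFunc k)⟦X⟧)) ∈ Zm B f J d := by
    rintro z ⟨hz, hz'⟩
    refine ⟨hA _ hz, fun j hj => ?_⟩
    have h1 := hW j hj _ (hz' j hj)
    intro i hi m hm
    have h2 : coeff i (carS B f z.1 - nab B f 0) =
        coeff i (carS B f (z.1 - nab B f (z.2 j))) := by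
      have h3 : carS B f z.1 = carS B f (z.1 - nab B f (z.2 j)) + carS B f (nab B f (z.2 j)) := by
        rw [← car_add, sub_add_cancel]
      rw [nab_zero, sub_zero, h3, map_add, car_nab B f _ i hi, add_zero]
    change (exW B j (coeff i (carS B f z.1 - nab B f 0))).coeff m = 0
    rw [h2]
    exact h1 i hi m hm
  have hB : ∀ z ∈ Bm B f J d, (carS B f z.1, (0 : Option k → (RatFunc k)⟦X⟧)) ∈ Bm B f J d := by
    rintro z ⟨g, hg, h1, h2⟩
    refine ⟨0, inA.zero B, fun i hi => ?_, fun j _ => ?_⟩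
    · change coeff i (carS B f z.1) = _
      rw [car_congr B h1 i hi, car_nab B f g i hi, nab_zero, map_zero]
    · change inO B d j ((0 : Option k → (RatFunc k)⟦X⟧) j - 0)
      rw [Pi.zero_apply, sub_zero]
      exact inO.zero B
  -- the operator on cocycles
  let V0 : Zm B f J d → Zm B f J d := fun z => ⟨(carS B f z.1.1, 0), hZ z.1 z.2⟩
  have hadd : ∀ z w, V0 (z + w) = V0 z + V0 w := by
    intro z w
    apply Subtype.ext
    refine Prod.ext ?_ ?_
    · exact car_add B f _ _
    · change (0 : Option k → (RatFunc k)⟦X⟧) = 0 + 0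
      rw [add_zero]
  have hwd : ∀ z w : Zm B f J d, Hm.cl B f J d z = Hm.cl B f J d w →
      Hm.cl B f J d (V0 z) = Hm.cl B f J d (V0 w) := by
    intro z w h
    rw [Submodule.Quotient.eq] at h ⊢
    have h1 : V0 z - V0 w = V0 (z - w) := by
      rw [sub_eq_iff_eq_add, ← hadd, sub_add_cancel]
    rw [h1]
    exact hB _ h
  have hsur : ∀ m : Hm B f J d, ∃ z, Hm.cl B f J d z = m := fun m =>
    Submodule.Quotient.mk_surjective _ m
  choose out hout using hsur
  have hV : ∀ z, Hm.cl B f J d (V0 (out (Hm.cl B f J d z))) = Hm.cl B f J d (V0 z) :=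
    fun z => hwd _ _ (hout _)
  refine ⟨AddMonoidHom.mk' (fun m => Hm.cl B f J d (V0 (out m))) fun a b => ?_, fun s m => ?_,
    fun z => ⟨V0 z, rfl, rfl, hV z⟩⟩
  · obtain ⟨z, rfl⟩ : ∃ z, Hm.cl B f J d z = a := ⟨out a, hout a⟩
    obtain ⟨w, rfl⟩ : ∃ w, Hm.cl B f J d w = b := ⟨out b, hout b⟩
    have h1 : Hm.cl B f J d z + Hm.cl B f J d w = Hm.cl B f J d (z + w) := rfl
    rw [h1, hV, hV, hV, hadd]
    rfl
  · obtain ⟨z, rfl⟩ : ∃ z, Hm.cl B f J d z = m := ⟨out m, hout m⟩
    change Hm.cl B f J d (V0 (out (fr p k s • Hm.cl B f J d z))) =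
      s • Hm.cl B f J d (V0 (out (Hm.cl B f J d z)))
    have h1 : fr p k s • Hm.cl B f J d z = Hm.cl B f J d (fr p k s • z) := rfl
    rw [h1, hV, hV]
    have h2 : V0 (fr p k s • z) = s • V0 z := by
      apply Subtype.ext
      refine Prod.ext ?_ ?_
      · exact car_sm B f s _
      · change (0 : Option k → (RatFunc k)⟦X⟧) = s • 0
        rw [smul_zero]
    rw [h2]
    rfl

end

end Pool.Agent.Helper61.EO
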