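import Pool.Agent.Helper61.EO.J.SPAN

/-!
Project EO: the elements of the basis are cocycles.
-/

set_option autoImplicit false

namespace Pool.Agent.Helper61.EO

open PowerSeries

namespace VZ

open SPAN

noncomputable section

variable {p : ℕ} {k : Type} [Field k] (B : Base p k)

theorem coeff_XC (φ : RatFunc k) (i : ℕ) :
    coeff i (X * C φ : (RatFunc k)⟦X⟧) = if i = 1 then φ else 0 := by
  cases i with
  | zero => rw [coeff_zero_X_mul, if_neg (by omega)]
  | succ i =>
    rw [coeff_succ_X_mul, coeff_C]
    by_cases h : i = 0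
    · rw [if_pos h, if_pos (by omega)]
    · rw [if_neg h, if_neg (by omega)]

theorem exW_add (j : Option k) (a b : RatFunc k) : exW B j (a + b) = exW B j a + exW B j b := by
  unfold exW
  rw [map_add, add_mul]

theorem exW_zero (j : Option k) : exW B j 0 = 0 := by
  unfold exW
  rw [map_zero, zero_mul]

theorem exW_neg (j : Option k) (a : RatFunc k) : exW B j (-a) = - exW B j a := by
  unfold exW
  rw [map_neg, neg_mul]

theorem exW_C_mul (j : Option k) (c : k) (a : RatFunc k) :
    exW B j (RatFunc.C c * a) = c • exW B j a := by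
  unfold exW
  rw [map_mul, B.ex_C, mul_assoc, HahnSeries.C_mul_eq_smul]

theorem exW_sum {ι : Type} (j : Option k) (s : Finset ι) (a : ι → RatFunc k) :
    exW B j (∑ i ∈ s, a i) = ∑ i ∈ s, exW B j (a i) := by
  unfold exW
  rw [map_sum, Finset.sum_mul]

theorem pp_other (hFO : S_FO) {j j' : Option k} (hne : j' ≠ j) (N : ℕ) (φ : RatFunc k) (m : ℤ)
    (hm : m < 0) : (exW B j' (pp B j N φ)).coeff m = 0 := by
  unfold pp
  rw [exW_sum, HahnSeries.coeff_sum]
  refine Finset.sum_eq_zero fun n hn => ?_
  rw [Finset.mem_Ico] at hn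
  rw [exW_C_mul, HahnSeries.coeff_smul, (hFO p k B).2.1 j j' n hn.1 hne m hm, smul_zero]

theorem pp_same (hFO : S_FO) (j : Option k) (N : ℕ) (φ : RatFunc k) (m : ℤ) (hm : m < -1) :
    (exW B j (pp B j N φ)).coeff m = if -m < N then (exW B j φ).coeff m else 0 := by
  unfold pp
  obtain ⟨n, rfl⟩ : ∃ n : ℕ, m = -(n : ℤ) := ⟨(-m).toNat, by omega⟩
  rw [exW_sum, HahnSeries.coeff_sum]
  have h1 : ∀ x ∈ Finset.Ico 2 N, (exW B j (RatFunc.C ((exW B j φ).coeff (-(x : ℤ))) *
      fo B j x)).coeff (-(n : ℤ)) = if x = n then (exW B j φ).coeff (-(n : ℤ)) else 0 := by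
    intro x _
    rw [exW_C_mul, HahnSeries.coeff_smul, (hFO p k B).1 j x]
    by_cases h : x = n
    · subst h
      rw [if_pos rfl, HahnSeries.coeff_single_same, smul_eq_mul, mul_one]
    · rw [if_neg h, HahnSeries.coeff_single_of_ne (by omega), smul_zero]
  rw [Finset.sum_congr rfl h1, Finset.sum_ite_eq']
  by_cases h : n < N
  · rw [if_pos (Finset.mem_Ico.2 ⟨by omega, h⟩), if_pos (by omega)]
  · rw [if_neg (fun h2 => h (Finset.mem_Ico.1 h2).2), if_neg (by omega)]

variable {B} {f : RatFunc k} {J : Finset (Option k)} {d : Option k → ℕ}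

theorem some_of_not_mem (hP : PoleData B f J d) {j : Option k} (hj : j ∉ J) :
    ∃ c, j = some c := by
  cases j with
  | none => exact absurd hP.inf hj
  | some c => exact ⟨c, rfl⟩

theorem ceil_nonneg (i E : ℕ) {m : ℤ} (hm : m < -(((i + E - 1) / E : ℕ) : ℤ)) : m < 0 := by
  have : (0 : ℤ) ≤ (((i + E - 1) / E : ℕ) : ℤ) := Int.natCast_nonneg _
  omega

theorem ceil_one {E : ℕ} (hE : 1 ≤ E) {m : ℤ} (hm : m < -(((1 + E - 1) / E : ℕ) : ℤ)) :
    m < -1 := by
  rw [show 1 + E - 1 = E by omega, Nat.div_self (by omega)] at hm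
  simpa using hm

end

end VZ

open SPAN VZ in
theorem t_VZ (hFO : S_FO) (hEXD : S_EXD) (hTT : S_TT) : S_VZ := by
  intro p _ k _ _ _ B f J d hP b hb
  have hp : p.Prime := Fact.out
  obtain ⟨j, a⟩ := b
  have hj : j ∈ J := by
    unfold IB at hb
    exact (Finset.mem_sigma.1 hb).1
  obtain ⟨hE, hEd⟩ := EE_facts hp hP hj
  unfold vb
  by_cases ha : a < d j
  · rw [if_pos ha]
    show (-(X * C (pp B j (d j + 2) (tt j ^ a * B.D f))), at' j (C (tt j ^ a))) ∈ Zm B f J d
    refine ⟨fun i hi j' hj' m hm => ?_, fun j' hj' => ?_⟩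
    · show (B.ex j' (coeff i (-(X * C (pp B j (d j + 2) (tt j ^ a * B.D f)))))).coeff m = 0
      rw [map_neg, coeff_XC]
      split_ifs with h1
      · obtain ⟨c, rfl⟩ := some_of_not_mem hP hj'
        have hne : some c ≠ j := fun h => hj' (h ▸ hj)
        have := pp_other B hFO hne (d j + 2) (tt j ^ a * B.D f) m hm
        rw [exW_some] at this
        rw [map_neg, HahnSeries.coeff_neg, this, neg_zero]
      · rw [neg_zero, map_zero, HahnSeries.coeff_zero]
    · show inW B d j' (-(X * C (pp B j (d j + 2) (tt j ^ a * B.D f))) -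
        nab B f (at' j (C (tt j ^ a)) j'))
      unfold at'
      by_cases h1 : j' = j
      · subst h1
        rw [if_pos rfl]
        intro i hi m hm
        have h0 := ceil_nonneg _ _ hm
        match i, hi, hm with
        | 0, hi, hm =>
          rw [map_sub, map_neg, coeff_XC, if_neg (by omega), neg_zero, coeff_nab_zero, zero_sub,
            coeff_zero_C, exW_neg, HahnSeries.coeff_neg, hEXD p k B j' _ m, map_pow,
            (hTT p k B).1 j', HahnSeries.single_pow, one_pow]
          rcases eq_or_ne m (-1) with h2 | h2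
          · subst h2
            simp
          · rw [HahnSeries.coeff_single_of_ne, mul_zero, neg_zero]
            rw [show (a • (1 : ℤ)) = (a : ℤ) by simp]
            omega
        | 1, hi, hm =>
          have hm1 := ceil_one hE hm
          rw [map_sub, map_neg, coeff_XC, if_pos rfl, coeff_nab_succ, coeff_zero_C, coeff_C,
            if_neg (by omega), map_zero, zero_sub, sub_neg_eq_add, exW_add, exW_neg,
            HahnSeries.coeff_add, HahnSeries.coeff_neg, pp_same B hFO j' _ _ m hm1,
            mul_comm (tt j' ^ a)]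
          split_ifs with h3
          · rw [neg_add_cancel]
          · rw [neg_zero, zero_add, exW_mul]
            refine mul_low (a := -(d j' : ℤ) - 1) (b := 0) (fun n hn => ?_) (fun n hn => ?_) m
              (by push_cast at h3; omega)
            · rw [hEXD p k B j' f n, hP.low j' hj' _ (by omega), mul_zero]
            · rw [map_pow, (hTT p k B).1 j', HahnSeries.single_pow, one_pow,
                HahnSeries.coeff_single_of_ne]
              rw [show (a • (1 : ℤ)) = (a : ℤ) by simp]
              omega
        | i + 2, hi, hm =>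
          rw [map_sub, map_neg, coeff_XC, if_neg (by omega), coeff_nab_succ, coeff_C,
            if_neg (by omega), coeff_C, if_neg (by omega), map_zero, mul_zero, sub_zero, neg_zero,
            sub_zero, exW_zero, HahnSeries.coeff_zero]
      · rw [if_neg h1, nab_zero, sub_zero]
        intro i hi m hm
        have h0 := ceil_nonneg _ _ hm
        rw [map_neg, coeff_XC]
        split_ifs with h2
        · rw [exW_neg, HahnSeries.coeff_neg, pp_other B hFO h1 _ _ m h0, neg_zero]
        · rw [neg_zero, exW_zero, HahnSeries.coeff_zero]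
  · rw [if_neg ha]
    obtain ⟨c, rfl⟩ : ∃ c, j = some c := by
      cases j with
      | none =>
        exfalso
        unfold IB at hb
        have h7 : a ∈ Finset.Ico 1 (d none) := (Finset.mem_sigma.1 hb).2
        exact ha (Finset.mem_Ico.1 h7).2
      | some c => exact ⟨c, rfl⟩
    show (X * C (fo B (some c) 1), 0) ∈ Zm B f J d
    refine ⟨fun i hi j' hj' m hm => ?_, fun j' hj' => ?_⟩
    · show (B.ex j' (coeff i (X * C (fo B (some c) 1)))).coeff m = 0
      rw [coeff_XC]
      split_ifs with h1
      · have h2 : j' ≠ some c := fun h => hj' (h ▸ hj)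
        have h3 : j' ≠ none := fun h => hj' (h ▸ hP.inf)
        have := (hFO p k B).2.2.1 c j' h2 h3 m hm
        obtain ⟨c', rfl⟩ := some_of_not_mem hP hj'
        rwa [exW_some] at this
      · rw [map_zero, HahnSeries.coeff_zero]
    · show inW B d j' (X * C (fo B (some c) 1) - nab B f 0)
      rw [nab_zero, sub_zero]
      intro i hi m hm
      have h0 := ceil_nonneg _ _ hm
      rw [coeff_XC]
      split_ifs with h1
      · subst h1
        have hm1 := ceil_one (EE_facts hp hP hj').1 hm
        by_cases h2 : j' = some c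
        · subst h2
          rw [(hFO p k B).1, HahnSeries.coeff_single_of_ne]
          push_cast
          omega
        · by_cases h3 : j' = none
          · subst h3
            exact (hFO p k B).2.2.2 c m hm1
          · exact (hFO p k B).2.2.1 c j' h2 h3 m h0
      · rw [exW_zero, HahnSeries.coeff_zero]

end Pool.Agent.Helper61.EO
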