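import Pool.Agent.Helper61.EO.Stm

/-!
Project EO: the Cartier operator of `k(x)` (statement `S_BC`).
-/

set_option autoImplicit false
set_option linter.unusedSectionVars false

namespace Pool.Agent.Helper61.EO

namespace BC

section gen

variable {k : Type} [Field k] {p : ℕ} [hp : Fact p.Prime] [hc : CharP (RatFunc k) p]
  (D : Derivation k (RatFunc k) (RatFunc k))

/-- the derivative of a `p`-th power vanishes -/
theorem D_pow (a : RatFunc k) : D (a ^ p) = 0 := by
  rw [Derivation.leibniz_pow, nsmul_eq_mul, CharP.cast_eq_zero, zero_mul]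

omit hc in
/-- natural numbers are `p`-th powers -/
theorem nat_pow [CharP (RatFunc k) p] (n : ℕ) : ((n : RatFunc k)) ^ p = n := by
  have h := map_natCast (frobenius (RatFunc k) p) n
  rwa [frobenius_def] at h

theorem nat_ne {n : ℕ} (h0 : 0 < n) (h1 : n < p) : ((n : ℕ) : RatFunc k) ≠ 0 := by
  intro h
  have h2 := (CharP.cast_eq_zero_iff (RatFunc k) p n).1 h
  exact absurd (Nat.le_of_dvd h0 h2) (by omega)

theorem D_sum {x : RatFunc k} (hx : D x = 1) (a : ℕ → RatFunc k) (n : ℕ) :
    D (∑ i ∈ Finset.range (n + 1), a i ^ p * x ^ i) =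
      ∑ i ∈ Finset.range n, (((i + 1 : ℕ) : RatFunc k) * a (i + 1)) ^ p * x ^ i := by
  rw [map_sum, Finset.sum_range_succ']
  have h0 : D (a 0 ^ p * x ^ 0) = 0 := by
    rw [pow_zero, mul_one]
    exact D_pow D _
  rw [h0, add_zero]
  refine Finset.sum_congr rfl fun i _ => ?_
  rw [Derivation.leibniz, D_pow (p := p) D, smul_zero, add_zero, Derivation.leibniz_pow, hx,
    mul_pow, nat_pow, nsmul_eq_mul, Nat.add_sub_cancel, smul_eq_mul, smul_eq_mul, mul_one]
  ring

theorem uniq0 {x : RatFunc k} (hx : D x = 1) : ∀ (n : ℕ), n ≤ p → ∀ a : ℕ → RatFunc k,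
    ∑ i ∈ Finset.range n, a i ^ p * x ^ i = 0 → ∀ i, i < n → a i = 0 := by
  intro n
  induction n with
  | zero =>
    intro _ a _ i hi
    omega
  | succ n ih =>
    intro hn a ha
    have h1 := congrArg D ha
    rw [D_sum D hx, map_zero] at h1
    have h2 := ih (by omega) _ h1
    have h3 : ∀ i, i < n → a (i + 1) = 0 := by
      intro i hi
      have h4 := h2 i hi
      rcases mul_eq_zero.1 h4 with h5 | h5
      · exact absurd h5 (nat_ne (p := p) (by omega) (by omega))
      · exact h5
    have h6 : a 0 = 0 := by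
      rw [Finset.sum_range_succ', Finset.sum_eq_zero] at ha
      · rw [pow_zero, mul_one, zero_add] at ha
        exact pow_eq_zero_iff hp.out.ne_zero |>.1 ha
      · intro i hi
        rw [h3 i (Finset.mem_range.1 hi), zero_pow hp.out.ne_zero, zero_mul]
    intro i hi
    rcases i with _ | i
    · exact h6
    · exact h3 i (by omega)

/-- the coordinates are unique -/
theorem uniq {x : RatFunc k} (hx : D x = 1) (a b : ℕ → RatFunc k)
    (h : ∑ i ∈ Finset.range p, a i ^ p * x ^ i = ∑ i ∈ Finset.range p, b i ^ p * x ^ i)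
    (i : ℕ) (hi : i < p) : a i = b i := by
  have h1 : ∑ i ∈ Finset.range p, (a i - b i) ^ p * x ^ i = 0 := by
    rw [← sub_eq_zero.2 h, ← Finset.sum_sub_distrib]
    refine Finset.sum_congr rfl fun i _ => ?_
    rw [sub_pow_char]
    ring
  exact sub_eq_zero.1 (uniq0 D hx p le_rfl (fun i => a i - b i) h1 i hi)

/-- a form of the existence of the Cartier operator with the abstract properties -/
theorem ex_car {x : RatFunc k} (hx : D x = 1)
    (hE : ∀ φ : RatFunc k, ∃ a : ℕ → RatFunc k, φ = ∑ i ∈ Finset.range p, a i ^ p * x ^ i) :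
    ∃ car : RatFunc k →+ RatFunc k, (∀ a b : RatFunc k, car (a ^ p * b) = a * car b) ∧
      (∀ b : RatFunc k, car (D b) = 0) ∧ car (x ^ (p - 1)) = 1 := by
  classical
  choose co hco using hE
  have hp1 : p - 1 < p := Nat.sub_lt hp.out.pos one_pos
  have key : ∀ (φ : RatFunc k) (b : ℕ → RatFunc k),
      φ = ∑ i ∈ Finset.range p, b i ^ p * x ^ i → co φ (p - 1) = b (p - 1) := by
    intro φ b hb
    exact uniq D hx (co φ) b ((hco φ).symm.trans hb) (p - 1) hp1
  refine ⟨⟨⟨fun φ => co φ (p - 1), ?_⟩, ?_⟩, ?_, ?_, ?_⟩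
  · refine (key 0 (fun _ => 0) ?_)
    rw [Finset.sum_eq_zero]
    intro i _
    rw [zero_pow hp.out.ne_zero, zero_mul]
  · intro φ ψ
    refine key (φ + ψ) (fun i => co φ i + co ψ i) ?_
    conv_lhs => rw [hco φ, hco ψ]
    rw [← Finset.sum_add_distrib]
    refine Finset.sum_congr rfl fun i _ => ?_
    rw [add_pow_char]
    ring
  · intro a b
    refine key (a ^ p * b) (fun i => a * co b i) ?_
    conv_lhs => rw [hco b]
    rw [Finset.mul_sum]
    refine Finset.sum_congr rfl fun i _ => ?_
    rw [mul_pow]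
    ring
  · intro b
    refine (key (D b) (fun i => if i < p - 1 then ((i + 1 : ℕ) : RatFunc k) * co b (i + 1)
      else 0) ?_).trans (if_neg (lt_irrefl _))
    have h1 : D b = D (∑ i ∈ Finset.range ((p - 1) + 1), co b i ^ p * x ^ i) := by
      rw [Nat.sub_add_cancel hp.out.pos]
      exact congrArg D (hco b)
    rw [h1, D_sum D hx]
    have h2 : Finset.range p = Finset.range ((p - 1) + 1) := by
      rw [Nat.sub_add_cancel hp.out.pos]
    rw [h2, Finset.sum_range_succ, if_neg (lt_irrefl _), zero_pow hp.out.ne_zero, zero_mul,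
      add_zero]
    refine Finset.sum_congr rfl fun i hi => ?_
    rw [if_pos (Finset.mem_range.1 hi)]
  · refine (key (x ^ (p - 1)) (fun i => if i = p - 1 then 1 else 0) ?_).trans (if_pos rfl)
    rw [Finset.sum_eq_single (p - 1)]
    · rw [if_pos rfl, one_pow, one_mul]
    · intro i _ hi
      rw [if_neg hi, zero_pow hp.out.ne_zero, zero_mul]
    · intro h
      exact absurd (Finset.mem_range.2 hp1) h

/-- a derivation of `k(X)` killing `X` vanishes -/
theorem der_zero (E : Derivation k (RatFunc k) (RatFunc k)) (hX : E RatFunc.X = 0)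
    (φ : RatFunc k) : E φ = 0 := by
  have hpoly : ∀ q : Polynomial k, E (algebraMap (Polynomial k) (RatFunc k) q) = 0 := by
    intro q
    induction q using Polynomial.induction_on' with
    | add q r hq hr => rw [map_add, map_add, hq, hr, add_zero]
    | monomial n a =>
      rw [← Polynomial.C_mul_X_pow_eq_monomial, map_mul, map_pow, RatFunc.algebraMap_X,
        RatFunc.algebraMap_C, Derivation.leibniz, Derivation.leibniz_pow, hX, smul_zero,
        smul_zero, smul_zero, zero_add, ← RatFunc.algebraMap_eq_C, Derivation.map_algebraMap,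
        smul_zero]
  have h1 : φ * algebraMap (Polynomial k) (RatFunc k) φ.denom =
      algebraMap (Polynomial k) (RatFunc k) φ.num := by
    have h2 := RatFunc.num_div_denom φ
    have h3 : algebraMap (Polynomial k) (RatFunc k) φ.denom ≠ 0 :=
      RatFunc.algebraMap_ne_zero φ.denom_ne_zero
    rw [div_eq_iff h3] at h2
    exact h2.symm
  have h4 := congrArg E h1
  rw [hpoly, Derivation.leibniz, hpoly, smul_zero, zero_add, smul_eq_mul] at h4
  exact (mul_eq_zero.1 h4).resolve_left (RatFunc.algebraMap_ne_zero φ.denom_ne_zero)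

end gen

section delta

variable {k : Type} [Field k] {p : ℕ} [hp : Fact p.Prime] [hc : CharP (RatFunc k) p]
  (D : Derivation k (RatFunc k) (RatFunc k)) (car : RatFunc k →+ RatFunc k)

theorem delta_mul (h1 : ∀ a b : RatFunc k, car (a ^ p * b) = a * car b) (a b : RatFunc k) :
    car ((a * b) ^ (p - 1) * D (a * b)) =
      a * car (b ^ (p - 1) * D b) + b * car (a ^ (p - 1) * D a) := by
  rw [← h1, ← h1, ← map_add]
  congr 1
  rw [Derivation.leibniz, smul_eq_mul, smul_eq_mul]
  have h2 : ∀ c : RatFunc k, c ^ p = c ^ (p - 1) * c := fun c =>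
    (pow_sub_one_mul hp.out.ne_zero c).symm
  rw [h2 a, h2 b]
  ring

include hc in
theorem car_low (h1 : ∀ a b : RatFunc k, car (a ^ p * b) = a * car b)
    (h2 : ∀ b : RatFunc k, car (D b) = 0) (u : RatFunc k) (i : ℕ) (hi : i < p - 1) :
    car (u ^ i * D u) = 0 := by
  have h3 := h2 (u ^ (i + 1))
  rw [Derivation.leibniz_pow, nsmul_eq_mul, Nat.add_sub_cancel, smul_eq_mul] at h3
  rw [← nat_pow (p := p) (i + 1), h1] at h3
  exact (mul_eq_zero.1 h3).resolve_left (nat_ne (p := p) (by omega) (by omega))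

include hc in
theorem delta_one_add (h1 : ∀ a b : RatFunc k, car (a ^ p * b) = a * car b)
    (h2 : ∀ b : RatFunc k, car (D b) = 0) (u : RatFunc k) :
    car ((u + 1) ^ (p - 1) * D (u + 1)) = car (u ^ (p - 1) * D u) := by
  rw [map_add, Derivation.map_one_eq_zero, add_zero, add_pow, Finset.sum_range_succ, add_mul,
    map_add, Finset.sum_mul, map_sum, Finset.sum_eq_zero]
  · rw [zero_add, one_pow, mul_one, Nat.choose_self, Nat.cast_one, mul_one]
  · intro i hi
    have h3 : u ^ i * 1 ^ (p - 1 - i) * (((p - 1).choose i : ℕ) : RatFunc k) * D u =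
        (((p - 1).choose i : ℕ) : RatFunc k) ^ p * (u ^ i * D u) := by
      rw [nat_pow, one_pow]
      ring
    rw [h3, h1, car_low D car h1 h2 u i (Finset.mem_range.1 hi), mul_zero]

include hc in
theorem delta_add (h1 : ∀ a b : RatFunc k, car (a ^ p * b) = a * car b)
    (h2 : ∀ b : RatFunc k, car (D b) = 0) (a b : RatFunc k) :
    car ((a + b) ^ (p - 1) * D (a + b)) =
      car (a ^ (p - 1) * D a) + car (b ^ (p - 1) * D b) := by
  by_cases hb : b = 0
  · subst hb
    rw [add_zero, map_zero, mul_zero, map_zero, add_zero]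
  · have h3 : a + b = b * (a / b + 1) := by
      field_simp
    have h4 : a = b * (a / b) := by
      field_simp
    have h5 : car (a ^ (p - 1) * D a) =
        b * car ((a / b) ^ (p - 1) * D (a / b)) + (a / b) * car (b ^ (p - 1) * D b) := by
      conv_lhs => rw [h4]
      rw [delta_mul D car h1]
    rw [h3, delta_mul D car h1, delta_one_add D car h1 h2, h5]
    ring

end delta

end BC

open BC in
theorem t_BC (hPB : S_PB) : S_BC := by
  intro p k _ _ _ hp D hD
  have : Fact p.Prime := ⟨hp⟩
  have hc : CharP (RatFunc k) p := charP_of_injective_algebraMap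
    (algebraMap k (RatFunc k)).injective p
  have htt : tt (some (0 : k)) = (RatFunc.X : RatFunc k) := by
    simp [tt]
  have hE : ∀ φ : RatFunc k, ∃ a : ℕ → RatFunc k,
      φ = ∑ i ∈ Finset.range p, a i ^ p * RatFunc.X ^ i := by
    intro φ
    obtain ⟨a, ha⟩ := hPB p k hp (some 0) φ
    rw [htt] at ha
    exact ⟨a, ha⟩
  obtain ⟨car, h1, h2, h3⟩ := ex_car D hD hE
  refine ⟨car, h1, h2, ?_⟩
  have hC : ∀ c : k, D (RatFunc.C c) = 0 := by
    intro c
    rw [← RatFunc.algebraMap_eq_C]
    exact Derivation.map_algebraMap D c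
  have hlin : ∀ (c : k) (b : RatFunc k), car ((c • b) ^ (p - 1) * D (c • b)) =
      c • car (b ^ (p - 1) * D b) := by
    intro c b
    rw [RatFunc.smul_eq_C_mul, RatFunc.smul_eq_C_mul, delta_mul D car h1, hC, mul_zero, map_zero,
      mul_zero, add_zero]
  let δ : Derivation k (RatFunc k) (RatFunc k) := Derivation.mk'
    { toFun := fun b => car (b ^ (p - 1) * D b)
      map_add' := fun a b => delta_add D car h1 h2 a b
      map_smul' := fun c b => hlin c b }
    (fun a b => delta_mul D car h1 a b)
  have hδX : (δ - D) RatFunc.X = 0 := by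
    rw [Derivation.sub_apply]
    change car (RatFunc.X ^ (p - 1) * D RatFunc.X) - D RatFunc.X = 0
    rw [hD, mul_one, h3, sub_self]
  intro b
  have h4 := der_zero (δ - D) hδX b
  rw [Derivation.sub_apply] at h4
  exact sub_eq_zero.1 h4

end Pool.Agent.Helper61.EO
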