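import Pool.Agent.Helper61.EO.J.VZ

/-!
Project EO: the elements `gb`.
-/

set_option autoImplicit false

namespace Pool.Agent.Helper61.EO

open PowerSeries

namespace GZ

open SPAN VZ

noncomputable section

variable {p : ℕ} {k : Type} [Field k] (B : Base p k)

theorem coeff_XnC (n : ℕ) (φ : RatFunc k) (i : ℕ) :
    coeff i (X ^ n * C φ : (RatFunc k)⟦X⟧) = if i = n then φ else 0 := by
  rw [coeff_X_pow_mul', coeff_C]
  by_cases h : n ≤ i
  · rw [if_pos h]
    by_cases h2 : i = n
    · rw [if_pos (by omega), if_pos h2]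
    · rw [if_neg (by omega), if_neg h2]
  · rw [if_neg h, if_neg (by omega)]

theorem coeff_Xpow_sm (e i : ℕ) (w : (RatFunc k)⟦X⟧) :
    coeff i ((X : k⟦X⟧) ^ e • w) = if e ≤ i then coeff (i - e) w else 0 := by
  rw [coeff_sm]
  have h1 : ∀ x ∈ Finset.HasAntidiagonal.antidiagonal i,
      RatFunc.C (coeff x.1 ((X : k⟦X⟧) ^ e)) * coeff x.2 w =
        if x.1 = e then coeff x.2 w else 0 := by
    intro x _
    rw [coeff_X_pow]
    split_ifs
    · rw [map_one, one_mul]
    · rw [map_zero, zero_mul]
  rw [Finset.sum_congr rfl h1]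
  by_cases h : e ≤ i
  · rw [if_pos h, Finset.sum_eq_single (e, i - e)]
    · rw [if_pos rfl]
    · rintro ⟨x, y⟩ hxy hne
      have h2 := Finset.HasAntidiagonal.mem_antidiagonal.1 hxy
      rw [if_neg]
      rintro rfl
      apply hne
      simp only at h2
      rw [Prod.mk.injEq]
      exact ⟨rfl, by omega⟩
    · intro h2
      exact absurd (Finset.HasAntidiagonal.mem_antidiagonal.2 (by simp only; omega)) h2
  · rw [if_neg h]
    refine Finset.sum_eq_zero fun x hx => ?_
    have h2 := Finset.HasAntidiagonal.mem_antidiagonal.1 hx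
    rw [if_neg (by omega)]

theorem pow_low {x : LaurentSeries k} {a : ℤ} (hx : ∀ m < a, x.coeff m = 0) (n : ℕ) :
    ∀ m < n * a, (x ^ n).coeff m = 0 := by
  induction n with
  | zero =>
    intro m hm
    rw [pow_zero, HahnSeries.coeff_one, if_neg]
    simp at hm
    omega
  | succ n ih =>
    intro m hm
    rw [pow_succ]
    refine mul_low ih hx m ?_
    push_cast at hm
    linarith

variable {B} {f : RatFunc k} {J : Finset (Option k)} {d : Option k → ℕ}

theorem tpow_low (hTT : S_TT) (j : Option k) (n : ℕ) :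
    ∀ m < (n : ℤ), (B.ex j (tt j ^ n)).coeff m = 0 := by
  intro m hm
  rw [map_pow, (hTT p k B).1 j, HahnSeries.single_pow, one_pow, HahnSeries.coeff_single_of_ne]
  rw [show (n • (1 : ℤ)) = (n : ℤ) by simp]
  omega

theorem f_low (hP : PoleData B f J d) {j : Option k} (hj : j ∈ J) (n : ℕ) :
    ∀ m < (n : ℤ) * (-(d j : ℤ)), (B.ex j (f ^ n)).coeff m = 0 := by
  intro m hm
  rw [map_pow]
  exact pow_low (hP.low j hj) n m hm

theorem D_ppow [CharP k p] (a : RatFunc k) : B.D (a ^ p) = 0 := by
  rw [Derivation.leibniz_pow]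
  rw [← Nat.cast_smul_eq_nsmul (RatFunc k)]
  have : CharP (RatFunc k) p := charP_of_injective_algebraMap
    (algebraMap k (RatFunc k)).injective p
  rw [CharP.cast_eq_zero, zero_smul]

theorem D_inv_nat (n : ℕ) : B.D ((n : RatFunc k)⁻¹) = 0 := by
  rw [Derivation.leibniz_inv, Derivation.map_natCast, smul_zero]

theorem D_term [CharP k p] (t : RatFunc k) (n a : ℕ) (hn : n + 1 < p) :
    B.D ((((n + 1).factorial : ℕ) : RatFunc k)⁻¹ * f ^ (n + 1) * t ^ (p * a)) =
      B.D f * (((n.factorial : ℕ) : RatFunc k)⁻¹ * f ^ n * t ^ (p * a)) := by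
  have : CharP (RatFunc k) p := charP_of_injective_algebraMap
    (algebraMap k (RatFunc k)).injective p
  have h1 : B.D (t ^ (p * a)) = 0 := by
    rw [mul_comm, pow_mul]
    exact D_ppow _
  have h2 : ((n + 1 : ℕ) : RatFunc k) ≠ 0 := by
    rw [Ne, CharP.cast_eq_zero_iff (RatFunc k) p]
    exact Nat.not_dvd_of_pos_of_lt (by omega) hn
  rw [Derivation.leibniz, h1, smul_zero, zero_add, Derivation.leibniz, D_inv_nat, smul_zero,
    add_zero, Derivation.leibniz_pow, Nat.add_sub_cancel, ← Nat.cast_smul_eq_nsmul (RatFunc k)]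
  simp only [smul_eq_mul]
  rw [Nat.factorial_succ, Nat.cast_mul, mul_inv]
  field_simp

theorem D_term0 [CharP k p] (t : RatFunc k) (a : ℕ) :
    B.D ((((0 : ℕ).factorial : ℕ) : RatFunc k)⁻¹ * f ^ 0 * t ^ (p * a)) = 0 := by
  have h1 : B.D (t ^ (p * a)) = 0 := by
    rw [mul_comm, pow_mul]
    exact D_ppow _
  rw [Nat.factorial_zero, Nat.cast_one, inv_one, one_mul, pow_zero, one_mul, h1]

theorem wilson [Fact p.Prime] [CharP k p] : (((p - 1).factorial : ℕ) : RatFunc k)⁻¹ = -1 := by
  have : CharP (RatFunc k) p := charP_of_injective_algebraMap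
    (algebraMap k (RatFunc k)).injective p
  have h1 := congrArg (ZMod.castHom (dvd_refl p) (RatFunc k)) (ZMod.wilsons_lemma p)
  rw [map_natCast, map_neg, map_one] at h1
  rw [h1, inv_neg, inv_one]

/-- the second component of `gb` -/
def G2 (p : ℕ) (f t : RatFunc k) (e a : ℕ) : (RatFunc k)⟦X⟧ :=
  mk fun i => if i + e < p then
    (((i + e).factorial : ℕ) : RatFunc k)⁻¹ * f ^ (i + e) * t ^ (p * a) else 0

theorem nab_G2 [Fact p.Prime] [CharP k p] (t : RatFunc k) (e a i : ℕ) :
    coeff (i + 1) (nab B f (G2 p f t e a)) =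
      if i + 1 = p - e ∧ e < p then B.D f * f ^ (p - 1) * t ^ (p * a) else 0 := by
  rw [coeff_nab_succ]
  unfold G2
  rw [coeff_mk, coeff_mk]
  by_cases h1 : i + 1 + e < p
  · rw [if_pos h1, if_pos (by omega), if_neg (by omega), show i + 1 + e = (i + e) + 1 by omega,
      D_term t _ _ (by omega), sub_self]
  · rw [if_neg h1, map_zero, zero_sub]
    by_cases h2 : i + e < p
    · have hp := (Fact.out : p.Prime).pos
      rw [if_pos h2, if_pos (by omega), show i + e = p - 1 by omega, wilson]
      ring
    · rw [if_neg h2, if_neg (by omega), mul_zero, neg_zero]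

end

end GZ

open SPAN VZ GZ in
theorem t_GZ (hFO : S_FO) (hEXD : S_EXD) (hTT : S_TT) : S_GZ := by
  intro p _ k _ _ _ B f J d hP b hb hlt
  have hp : p.Prime := Fact.out
  have hp0 := hp.pos
  obtain ⟨j, a⟩ := b
  have hj : j ∈ J := by
    unfold IB at hb
    exact (Finset.mem_sigma.1 hb).1
  obtain ⟨hE, hEd⟩ := EE_facts hp hP hj
  replace hlt : a < d j := hlt
  set e : ℕ := EE p d j * a with he
  have hep : e < p - 1 := by
    rw [← hEd]
    exact Nat.mul_lt_mul_of_pos_left hlt hE
  have hde : (d j : ℤ) * e = ((p : ℤ) - 1) * a := by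
    have h1 : d j * e = (p - 1) * a := by
      rw [he, ← hEd]
      ring
    have h2 : ((p - 1 : ℕ) : ℤ) = (p : ℤ) - 1 := by omega
    rw [← h2]
    exact_mod_cast h1
  set Z : RatFunc k := B.D f * f ^ (p - 1) * tt j ^ (p * a) with hZ
  have hgb : gb B f d ⟨j, a⟩ = (X ^ (p - e) * C (pp B j (p * d j + 2) Z),
      at' j (G2 p f (tt j) e a)) := rfl
  have hee : ee p d (⟨j, a⟩ : Σ _ : Option k, ℕ) = e := rfl
  have hZlow : ∀ m : ℤ, m < -(d j : ℤ) * p - 1 + p * a → (exW B j Z).coeff m = 0 := by
    intro m hm
    rw [hZ, mul_assoc, exW_mul]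
    refine mul_low (a := -(d j : ℤ) - 1) (b := ((p - 1 : ℕ) : ℤ) * (-(d j : ℤ)) + ((p * a : ℕ) : ℤ))
      (fun n hn => ?_) ?_ m ?_
    · rw [hEXD p k B j f n, hP.low j hj _ (by omega), mul_zero]
    · intro n hn
      rw [map_mul]
      exact mul_low (f_low hP hj (p - 1)) (tpow_low hTT j (p * a)) n hn
    · have h2 : ((p - 1 : ℕ) : ℤ) = (p : ℤ) - 1 := by omega
      rw [h2]
      push_cast
      linarith
  refine ⟨?_, ?_⟩
  · rw [hgb]
    refine ⟨fun i hi j' hj' m hm => ?_, fun j' hj' => ?_⟩
    · show (B.ex j' (coeff i (X ^ (p - e) * C (pp B j (p * d j + 2) Z)))).coeff m = 0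
      rw [coeff_XnC]
      split_ifs with h1
      · obtain ⟨c, rfl⟩ := some_of_not_mem hP hj'
        have hne : some c ≠ j := fun h => hj' (h ▸ hj)
        have := pp_other B hFO hne (p * d j + 2) Z m hm
        rwa [exW_some] at this
      · rw [map_zero, HahnSeries.coeff_zero]
    · show inW B d j' (X ^ (p - e) * C (pp B j (p * d j + 2) Z) -
        nab B f (at' j (G2 p f (tt j) e a) j'))
      unfold at'
      by_cases h1 : j' = j
      · subst h1
        rw [if_pos rfl]
        intro i hi m hm
        have h0 := ceil_nonneg _ _ hm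
        cases i with
        | zero =>
          rw [map_sub, coeff_XnC, if_neg (by omega), coeff_nab_zero, zero_sub, exW_neg,
            HahnSeries.coeff_neg, hEXD p k B j' _ m]
          rcases eq_or_ne m (-1) with h2 | h2
          · subst h2
            simp
          · unfold G2
            rw [coeff_mk, if_pos (by omega), map_mul]
            have h3 : (B.ex j' ((((0 + e).factorial : ℕ) : RatFunc k)⁻¹ * f ^ (0 + e)) *
                B.ex j' (tt j' ^ (p * a))).coeff (m + 1) = 0 := by
              refine mul_low (a := (e : ℤ) * (-(d j' : ℤ))) (b := ((p * a : ℕ) : ℤ)) ?_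
                (tpow_low hTT j' (p * a)) (m + 1) ?_
              · intro n hn
                rw [zero_add]
                have h4 : ((e.factorial : ℕ) : RatFunc k)⁻¹ =
                    RatFunc.C (((e.factorial : ℕ) : k)⁻¹) := by
                  rw [map_inv₀, map_natCast]
                rw [h4, map_mul, B.ex_C, HahnSeries.C_mul_eq_smul, HahnSeries.coeff_smul,
                  f_low hP hj' e n hn, smul_zero]
              · have h5 : (e : ℤ) * (-(d j' : ℤ)) + ((p * a : ℕ) : ℤ) = a := by
                  push_cast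
                  linarith
                rw [h5]
                omega
            rw [h3, mul_zero, neg_zero]
        | succ i =>
          rw [map_sub, coeff_XnC, nab_G2]
          by_cases h2 : i + 1 = p - e
          · rw [if_pos h2, if_pos ⟨h2, by omega⟩, exW_sub, HahnSeries.coeff_sub, ← hZ]
            have hm1 : m < -1 := by
              have h6 : 1 ≤ (i + 1 + EE p d j' - 1) / EE p d j' := by
                rw [Nat.one_le_div_iff hE]
                omega
              have h7 : (1 : ℤ) ≤ (((i + 1 + EE p d j' - 1) / EE p d j' : ℕ) : ℤ) := by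
                exact_mod_cast h6
              omega
            rw [pp_same B hFO j' _ _ m hm1]
            split_ifs with h3
            · rw [sub_self]
            · rw [hZlow m, sub_zero]
              push_cast at h3
              have h8 : (0 : ℤ) ≤ (p : ℤ) * a := by positivity
              nlinarith
          · rw [if_neg h2, if_neg (fun h => h2 h.1), sub_zero, exW_zero, HahnSeries.coeff_zero]
      · rw [if_neg h1, nab_zero, sub_zero]
        intro i hi m hm
        have h0 := ceil_nonneg _ _ hm
        rw [coeff_XnC]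
        split_ifs with h2
        · rw [pp_other B hFO h1 _ _ m h0]
        · rw [exW_zero, HahnSeries.coeff_zero]
  · rw [hgb, hee]
    refine ⟨0, inA.zero B, fun i hi => ?_, fun j' hj' => ?_⟩
    · rw [nab_zero, map_zero]
      show coeff i ((X : k⟦X⟧) ^ e • (X ^ (p - e) * C (pp B j (p * d j + 2) Z)) - 0) = 0
      rw [sub_zero, coeff_Xpow_sm]
      split_ifs with h1
      · rw [coeff_XnC, if_neg (by omega)]
      · rfl
    · show inO B d j' ((X : k⟦X⟧) ^ e • at' j (G2 p f (tt j) e a) j' -
        at' j (expo p f * C (tt j ^ (p * a))) j' - 0)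
      rw [sub_zero]
      unfold at'
      by_cases h1 : j' = j
      · subst h1
        rw [if_pos rfl, if_pos rfl]
        intro i hi m hm
        rw [map_sub, coeff_Xpow_sm, coeff_mul_C]
        unfold expo G2
        rw [coeff_mk, coeff_mk]
        by_cases h2 : e ≤ i
        · rw [if_pos h2, Nat.sub_add_cancel h2, if_pos hi, if_pos hi, sub_self, map_zero,
            HahnSeries.coeff_zero]
        · rw [if_neg h2, if_pos hi, zero_sub, map_neg, HahnSeries.coeff_neg, map_mul]
          have h3 : (B.ex j' (((i.factorial : ℕ) : RatFunc k)⁻¹ * f ^ i) *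
              B.ex j' (tt j' ^ (p * a))).coeff m = 0 := by
            refine mul_low (a := (i : ℤ) * (-(d j' : ℤ))) (b := ((p * a : ℕ) : ℤ)) ?_
              (tpow_low hTT j' (p * a)) m ?_
            · intro n hn
              have h4 : ((i.factorial : ℕ) : RatFunc k)⁻¹ =
                  RatFunc.C (((i.factorial : ℕ) : k)⁻¹) := by
                rw [map_inv₀, map_natCast]
              rw [h4, map_mul, B.ex_C, HahnSeries.C_mul_eq_smul, HahnSeries.coeff_smul,
                f_low hP hj' i n hn, smul_zero]
            · have h5 : (0 : ℤ) ≤ ((i / EE p d j' : ℕ) : ℤ) := Int.natCast_nonneg _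
              have h6 : (i : ℤ) + 1 ≤ e := by omega
              have h7 : (d j' : ℤ) * (i + 1) ≤ d j' * e :=
                mul_le_mul_of_nonneg_left h6 (by positivity)
              have h8 : m < d j' := by omega
              push_cast
              have h9 : (0 : ℤ) ≤ a := by positivity
              linarith
          rw [h3, neg_zero]
      · rw [if_neg h1, if_neg h1, smul_zero, sub_zero]
        exact inO.zero B

end Pool.Agent.Helper61.EO
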