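import Pool.Agent.Helper61.EO.Stm

/-!
# Project EO: semilinear algebra (slope decomposition)
-/

set_option autoImplicit false

namespace Pool.Agent.Helper61.EO

namespace SLM

open PowerSeries

/-! ### recursion -/

theorem dep {α : Type} (x₀ : ℕ → α) (P : ℕ → (ℕ → α) → Prop)
    (hloc : ∀ n x y, (∀ m ≤ n, x m = y m) → P n x → P n y)
    (h : ∀ n x, ∃ a, P n (Function.update x n a)) : ∃ x, ∀ n, P n x := by
  choose F hF using h
  let G : ℕ → (ℕ → α) := fun n => Nat.rec (Function.update x₀ 0 (F 0 x₀))
    (fun n g => Function.update g (n + 1) (F (n + 1) g)) n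
  have hG0 : G 0 = Function.update x₀ 0 (F 0 x₀) := rfl
  have hGs : ∀ n, G (n + 1) = Function.update (G n) (n + 1) (F (n + 1) (G n)) := fun n => rfl
  have h1 : ∀ n, P n (G n) := by
    intro n
    cases n with
    | zero => rw [hG0]; exact hF 0 x₀
    | succ n => rw [hGs]; exact hF (n + 1) (G n)
  have h2 : ∀ n m, m ≤ n → G n m = G m m := by
    intro n
    induction n with
    | zero =>
      intro m hm
      rw [Nat.le_zero.1 hm]
    | succ n ih =>
      intro m hm
      rcases Nat.lt_or_ge n m with h3 | h3
      · have h4 : m = n + 1 := by omega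
        rw [h4]
      · rw [hGs, Function.update_of_ne (by omega), ih m h3]
  exact ⟨fun n => G n n, fun n => hloc n (G n) _ (fun m hm => h2 n m hm) (h1 n)⟩

section

variable {p : ℕ} {k : Type} [Field k] [IsAlgClosed k]

/-- a root of `x = u x ^ p + c` -/
theorem exists_AS (hp : 2 ≤ p) {u : k} (hu : u ≠ 0) (c : k) : ∃ x : k, x = u * x ^ p + c := by
  have h1 : (Polynomial.C u * Polynomial.X ^ p - Polynomial.X + Polynomial.C c).degree ≠ 0 := by
    have h2 : (Polynomial.C u * Polynomial.X ^ p - Polynomial.X + Polynomial.C c).degree =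
        (p : WithBot ℕ) := by
      have h3 : (Polynomial.C u * (Polynomial.X : Polynomial k) ^ p).degree = (p : WithBot ℕ) :=
        Polynomial.degree_C_mul_X_pow p hu
      have h4 : ((Polynomial.X : Polynomial k) - Polynomial.C c).degree < p := by
        rw [Polynomial.degree_X_sub_C]
        exact_mod_cast hp
      have h5 : Polynomial.C u * (Polynomial.X : Polynomial k) ^ p - Polynomial.X +
          Polynomial.C c = Polynomial.C u * Polynomial.X ^ p -
            (Polynomial.X - Polynomial.C c) := by ring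
      rw [h5, Polynomial.degree_sub_eq_left_of_degree_lt (by rw [h3]; exact h4), h3]
    rw [h2]
    have : p ≠ 0 := by omega
    exact_mod_cast this
  obtain ⟨x, hx⟩ := IsAlgClosed.exists_root _ h1
  refine ⟨x, ?_⟩
  rw [Polynomial.IsRoot.def] at hx
  simp only [Polynomial.eval_add, Polynomial.eval_sub, Polynomial.eval_mul, Polynomial.eval_C,
    Polynomial.eval_pow, Polynomial.eval_X] at hx
  linear_combination -hx

/-- a root of `0 = u x ^ p + c` -/
theorem exists_rt (hp : 2 ≤ p) {u : k} (hu : u ≠ 0) (c : k) : ∃ x : k, 0 = u * x ^ p + c := by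
  obtain ⟨x, hx⟩ := IsAlgClosed.exists_pow_nat_eq (-c / u) (show 0 < p by omega)
  refine ⟨x, ?_⟩
  rw [hx]
  field_simp
  ring

theorem exists_unit (hp : 2 ≤ p) {u : k} (hu : u ≠ 0) : ∃ x : k, x ≠ 0 ∧ x = u * x ^ p := by
  obtain ⟨x, hx⟩ := IsAlgClosed.exists_pow_nat_eq (u⁻¹) (show 0 < p - 1 by omega)
  have hx0 : x ≠ 0 := by
    rintro rfl
    rw [zero_pow (by omega)] at hx
    exact inv_ne_zero hu hx.symm
  refine ⟨x, hx0, ?_⟩
  have h1 : x ^ p = x ^ (p - 1) * x := by
    rw [← pow_succ]
    congr 1
    omega
  rw [h1, hx, ← mul_assoc, mul_inv_cancel₀ hu, one_mul]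

variable {ι : Type} [Fintype ι] [DecidableEq ι] (e : ι → ℕ)

/-- the system of one level -/
theorem level (hp : 2 ≤ p) (eb : ℕ) (u : ι → ι → k) (h1 : ∀ c d, e c ≤ e d → c ≠ d → u c d = 0)
    (h2 : ∀ c, u c c ≠ 0) (κ : ι → k) : ∃ ξ : ι → k, ∀ c,
      (if eb ≤ e c then ξ c else 0) = (∑ d, if e d ≤ eb then u c d * ξ d ^ p else 0) + κ c := by
  have key : ∀ N : ℕ, ∃ ξ : ι → k, ∀ c, e c < N →
      (if eb ≤ e c then ξ c else 0) =
        (∑ d, if e d ≤ eb then u c d * ξ d ^ p else 0) + κ c := by
    intro N
    induction N with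
    | zero => exact ⟨0, fun c hc => absurd hc (Nat.not_lt_zero _)⟩
    | succ N ih =>
      obtain ⟨ξ, hξ⟩ := ih
      -- the equation splits
      have hsplit : ∀ (η : ι → k) (c : ι),
          (∑ d, if e d ≤ eb then u c d * η d ^ p else 0) =
            (if e c ≤ eb then u c c * η c ^ p else 0) +
              ∑ d ∈ Finset.univ.filter (fun d => e d < e c),
                (if e d ≤ eb then u c d * η d ^ p else 0) := by
        intro η c
        rw [← Finset.add_sum_erase Finset.univ _ (Finset.mem_univ c)]
        congr 1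
        symm
        apply Finset.sum_subset_zero_on_sdiff
        · intro d hd
          rw [Finset.mem_filter] at hd
          rw [Finset.mem_erase]
          refine ⟨?_, Finset.mem_univ _⟩
          rintro rfl
          exact lt_irrefl _ hd.2
        · intro d hd
          rw [Finset.mem_sdiff, Finset.mem_erase, Finset.mem_filter] at hd
          have hdc : e c ≤ e d := by
            by_contra hcon
            exact hd.2 ⟨Finset.mem_univ _, not_le.1 hcon⟩
          rw [h1 c d hdc (Ne.symm hd.1.1), zero_mul, ite_self]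
        · intro d _
          rfl
      have hsol : ∀ c, ∃ y : k, (if eb ≤ e c then y else 0) =
          (if e c ≤ eb then u c c * y ^ p else 0) +
            (∑ d ∈ Finset.univ.filter (fun d => e d < e c),
              (if e d ≤ eb then u c d * ξ d ^ p else 0)) + κ c := by
        intro c
        generalize (∑ d ∈ Finset.univ.filter (fun d => e d < e c),
              (if e d ≤ eb then u c d * ξ d ^ p else 0)) = σ
        rcases lt_trichotomy (e c) eb with h | h | h
        · obtain ⟨y, hy⟩ := exists_rt hp (h2 c) (σ + κ c)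
          refine ⟨y, ?_⟩
          rw [if_neg (by omega), if_pos h.le, hy]
          ring
        · obtain ⟨y, hy⟩ := exists_AS hp (h2 c) (σ + κ c)
          refine ⟨y, ?_⟩
          rw [if_pos h.ge, if_pos h.le]
          linear_combination hy
        · refine ⟨σ + κ c, ?_⟩
          rw [if_pos h.le, if_neg (by omega)]
          ring
      choose y hy using hsol
      refine ⟨fun c => if e c = N then y c else ξ c, fun c hc => ?_⟩
      have hlow : ∀ d ∈ Finset.univ.filter (fun d => e d < e c),
          (if e d ≤ eb then u c d * (if e d = N then y d else ξ d) ^ p else 0) =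
            (if e d ≤ eb then u c d * ξ d ^ p else 0) := by
        intro d hd
        rw [Finset.mem_filter] at hd
        rw [if_neg (show ¬ e d = N by omega)]
      rcases Nat.lt_or_ge (e c) N with h | h
      · have hcN : ¬ e c = N := by omega
        rw [hsplit, Finset.sum_congr rfl hlow]
        simp only [if_neg hcN]
        rw [← hsplit]
        exact hξ c h
      · have hcN : e c = N := by omega
        rw [hsplit, Finset.sum_congr rfl hlow]
        simp only [if_pos hcN]
        exact hy c
  obtain ⟨ξ, hξ⟩ := key (Finset.univ.sup e + 1)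
  exact ⟨ξ, fun c => hξ c (Nat.lt_succ_of_le (Finset.le_sup (Finset.mem_univ c)))⟩

end

section column

variable {p : ℕ} [Fact p.Prime] {k : Type} [Field k] [CharP k p]

theorem fr_X_pow (g : ℕ) : fr p k ((X : k⟦X⟧) ^ g) = X ^ g := by
  unfold fr
  rw [map_pow, PowerSeries.map_X]

theorem coeff_fr (s : k⟦X⟧) (n : ℕ) : coeff n (fr p k s) = coeff n s ^ p := by
  unfold fr
  rw [PowerSeries.coeff_map, frobenius_def]

theorem coeff_mul_congr {A B B' : k⟦X⟧} {n : ℕ} (h : ∀ m ≤ n, coeff m B = coeff m B') :
    coeff n (A * B) = coeff n (A * B') := by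
  rw [coeff_mul, coeff_mul]
  refine Finset.sum_congr rfl fun x hx => ?_
  have h1 := Finset.HasAntidiagonal.mem_antidiagonal.1 hx
  rw [h x.2 (by omega)]

/-- the power series with the coefficients `x m c` -/
noncomputable def Sr {ι : Type} (x : ℕ → ι → k) (c : ι) : k⟦X⟧ := PowerSeries.mk fun m => x m c

theorem Sr_update {ι : Type} (x : ℕ → ι → k) (n : ℕ) (ξ : ι → k) (c : ι) :
    Sr (Function.update x n ξ) c = Sr (Function.update x n 0) c + C (ξ c) * X ^ n := by
  ext m
  rw [map_add, coeff_C_mul_X_pow]
  unfold Sr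
  rw [coeff_mk, coeff_mk]
  by_cases h : m = n
  · rw [h, if_pos rfl, Function.update_self, Function.update_self, Pi.zero_apply, zero_add]
  · rw [if_neg h, Function.update_of_ne h, Function.update_of_ne h, add_zero]

theorem fr_Sr_update {ι : Type} (x : ℕ → ι → k) (n : ℕ) (ξ : ι → k) (c : ι) :
    fr p k (Sr (Function.update x n ξ) c) =
      fr p k (Sr (Function.update x n 0) c) + C (ξ c ^ p) * X ^ n := by
  rw [Sr_update, map_add, map_mul, fr_X_pow]
  congr 2
  unfold fr
  rw [PowerSeries.map_C, frobenius_def]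

theorem coeff_top (A : k⟦X⟧) (g n : ℕ) (y : k) :
    coeff n (A * (X ^ g * (C y * X ^ n))) = if g = 0 then constantCoeff A * y else 0 := by
  by_cases hg : g = 0
  · rw [if_pos hg, hg, pow_zero, one_mul, ← mul_assoc, coeff_mul_X_pow', if_pos le_rfl,
      Nat.sub_self, coeff_zero_eq_constantCoeff_apply, map_mul, constantCoeff_C]
  · rw [if_neg hg]
    have h : A * (X ^ g * (C y * X ^ n)) = A * C y * X ^ (g + n) := by
      rw [pow_add]
      ring
    rw [h, coeff_mul_X_pow', if_neg (by omega)]

variable [IsAlgClosed k] {ι : Type} [Fintype ι] [DecidableEq ι] (e : ι → ℕ)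

/-- one column -/
theorem column (U : ι → ι → k⟦X⟧)
    (h1 : ∀ b c, e c ≤ e b → c ≠ b → constantCoeff (U c b) = 0)
    (h2 : ∀ b, constantCoeff (U b b) ≠ 0) (b : ι) : ∃ x : ι → k⟦X⟧,
      (∀ c, X ^ (e b - e c) * x c = ∑ d, U c d * (X ^ (e d - e b) * fr p k (x d))) ∧
      constantCoeff (x b) ≠ 0 ∧ ∀ c, c ≠ b → e c ≤ e b → constantCoeff (x c) = 0 := by
  have hp : 2 ≤ p := (Fact.out : p.Prime).two_le
  let P : ℕ → (ℕ → ι → k) → Prop := fun n x =>
    (∀ c, coeff n (X ^ (e b - e c) * Sr x c) =
      ∑ d, coeff n (U c d * (X ^ (e d - e b) * fr p k (Sr x d)))) ∧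
    (n = 0 → x 0 b ≠ 0 ∧ ∀ c, c ≠ b → e c ≤ e b → x 0 c = 0)
  have hloc : ∀ n x y, (∀ m ≤ n, x m = y m) → P n x → P n y := by
    intro n x y hxy hP
    have hS : ∀ c, ∀ m ≤ n, coeff m (Sr x c) = coeff m (Sr y c) := by
      intro c m hm
      unfold Sr
      rw [coeff_mk, coeff_mk, hxy m hm]
    refine ⟨fun c => ?_, fun hn => ?_⟩
    · rw [← coeff_mul_congr (hS c), hP.1 c]
      refine Finset.sum_congr rfl fun d _ => ?_
      apply coeff_mul_congr
      intro m hm
      apply coeff_mul_congr
      intro m' hm'
      rw [coeff_fr, coeff_fr, hS d m' (hm'.trans hm)]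
    · rw [← hxy 0 (Nat.zero_le _)]
      exact hP.2 hn
  -- the equation of the level `n`
  have hlev : ∀ (n : ℕ) (x : ℕ → ι → k) (ξ : ι → k) (c : ι),
      (coeff n (X ^ (e b - e c) * Sr (Function.update x n ξ) c) =
        ∑ d, coeff n (U c d * (X ^ (e d - e b) * fr p k (Sr (Function.update x n ξ) d)))) ↔
      (if e b ≤ e c then ξ c else 0) =
        (∑ d, if e d ≤ e b then constantCoeff (U c d) * ξ d ^ p else 0) +
        ((∑ d, coeff n (U c d * (X ^ (e d - e b) * fr p k (Sr (Function.update x n 0) d)))) -
          coeff n (X ^ (e b - e c) * Sr (Function.update x n 0) c)) := by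
    intro n x ξ c
    have e1 : coeff n (X ^ (e b - e c) * Sr (Function.update x n ξ) c) =
        coeff n (X ^ (e b - e c) * Sr (Function.update x n 0) c) +
          (if e b ≤ e c then ξ c else 0) := by
      rw [Sr_update, mul_add, map_add]
      congr 1
      have h3 := coeff_top (1 : k⟦X⟧) (e b - e c) n (ξ c)
      rw [one_mul, map_one, one_mul] at h3
      rw [h3]
      by_cases h : e b ≤ e c
      · rw [if_pos h, if_pos (by omega)]
      · rw [if_neg h, if_neg (by omega)]
    have e2 : ∀ d, coeff n (U c d * (X ^ (e d - e b) * fr p k (Sr (Function.update x n ξ) d))) =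
        coeff n (U c d * (X ^ (e d - e b) * fr p k (Sr (Function.update x n 0) d))) +
          (if e d ≤ e b then constantCoeff (U c d) * ξ d ^ p else 0) := by
      intro d
      rw [fr_Sr_update, mul_add, mul_add, map_add]
      congr 1
      rw [coeff_top]
      by_cases h : e d ≤ e b
      · rw [if_pos h, if_pos (by omega)]
      · rw [if_neg h, if_neg (by omega)]
    rw [e1, Finset.sum_congr rfl fun d _ => e2 d, Finset.sum_add_distrib]
    constructor
    · intro h
      linear_combination h
    · intro h
      linear_combination h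
  have hex : ∀ n x, ∃ a, P n (Function.update x n a) := by
    intro n x
    rcases Nat.eq_zero_or_pos n with hn | hn
    · subst hn
      obtain ⟨y, hy0, hy⟩ := exists_unit hp (h2 b)
      refine ⟨fun c => if c = b then y else if e c ≤ e b then 0 else
        constantCoeff (U c b) * y ^ p, fun c => ?_, fun _ => ⟨?_, fun c hc hce => ?_⟩⟩
      · rw [hlev]
        have hz : ∀ d, constantCoeff (Sr (Function.update x 0 0) d) = 0 := by
          intro d
          unfold Sr
          rw [← coeff_zero_eq_constantCoeff_apply, coeff_mk, Function.update_self, Pi.zero_apply]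
        have hz' : ∀ d, constantCoeff (fr p k (Sr (Function.update x 0 0) d)) = 0 := by
          intro d
          rw [← coeff_zero_eq_constantCoeff_apply, coeff_fr, coeff_zero_eq_constantCoeff_apply,
            hz, zero_pow (by omega)]
        have hk1 : ∀ d, coeff 0 (U c d * (X ^ (e d - e b) *
            fr p k (Sr (Function.update x 0 0) d))) = 0 := by
          intro d
          rw [coeff_zero_eq_constantCoeff_apply, map_mul, map_mul, hz', mul_zero, mul_zero]
        have hk2 : coeff 0 (X ^ (e b - e c) * Sr (Function.update x 0 0) c) = 0 := by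
          rw [coeff_zero_eq_constantCoeff_apply, map_mul, hz, mul_zero]
        rw [hk2, Finset.sum_congr rfl fun d _ => hk1 d, Finset.sum_const_zero, sub_zero, add_zero]
        have hsum : (∑ d, if e d ≤ e b then constantCoeff (U c d) *
            (if d = b then y else if e d ≤ e b then 0 else constantCoeff (U d b) * y ^ p) ^ p
            else 0) = constantCoeff (U c b) * y ^ p := by
          rw [Finset.sum_eq_single b]
          · rw [if_pos le_rfl, if_pos rfl]
          · intro d _ hd
            by_cases h : e d ≤ e b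
            · rw [if_pos h, if_neg hd, if_pos h, zero_pow (by omega), mul_zero]
            · rw [if_neg h]
          · intro h
            exact absurd (Finset.mem_univ _) h
        rw [hsum]
        by_cases hcb : c = b
        · subst hcb
          rw [if_pos le_rfl, if_pos rfl]
          exact hy
        · rcases lt_trichotomy (e c) (e b) with h | h | h
          · rw [if_neg (by omega), h1 b c h.le hcb, zero_mul]
          · rw [if_pos h.ge, if_neg hcb, if_pos h.le, h1 b c h.le hcb, zero_mul]
          · rw [if_pos h.le, if_neg hcb, if_neg (by omega)]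
      · rw [Function.update_self, if_pos rfl]
        exact hy0
      · rw [Function.update_self, if_neg hc, if_pos hce]
    · obtain ⟨ξ, hξ⟩ := level e hp (e b) (fun c d => constantCoeff (U c d))
        (fun c d hcd hne => h1 d c hcd hne) h2
        (fun c => (∑ d, coeff n (U c d * (X ^ (e d - e b) *
          fr p k (Sr (Function.update x n 0) d)))) -
          coeff n (X ^ (e b - e c) * Sr (Function.update x n 0) c))
      exact ⟨ξ, fun c => (hlev n x ξ c).2 (hξ c), fun h => absurd h (by omega)⟩
  obtain ⟨x, hx⟩ := dep (fun _ _ => (0 : k)) P hloc hex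
  refine ⟨Sr x, fun c => ?_, ?_, fun c hc hce => ?_⟩
  · ext n
    rw [(hx n).1 c, map_sum]
  · unfold Sr
    rw [← coeff_zero_eq_constantCoeff_apply, coeff_mk]
    exact ((hx 0).2 rfl).1
  · unfold Sr
    rw [← coeff_zero_eq_constantCoeff_apply, coeff_mk]
    exact ((hx 0).2 rfl).2 c hc hce

omit [IsAlgClosed k] [CharP k p] [Fact p.Prime] in
/-- a matrix which is triangular modulo `X` is invertible -/
theorem inv_of_tri (T : Matrix ι ι k⟦X⟧)
    (h1 : ∀ c b, e c ≤ e b → c ≠ b → constantCoeff (T c b) = 0)
    (h2 : ∀ b, constantCoeff (T b b) ≠ 0) : IsUnit T.det := by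
  rw [PowerSeries.isUnit_iff_constantCoeff]
  have h3 : constantCoeff T.det = (T.map (constantCoeff (R := k))).det :=
    (RingHom.map_det (constantCoeff (R := k)) T)
  rw [h3, ← Matrix.isUnit_iff_isUnit_det, ← Matrix.mulVec_injective_iff_isUnit]
  intro s s' hss
  have h4 : (T.map (constantCoeff (R := k))).mulVec (s - s') = 0 := by
    rw [Matrix.mulVec_sub]
    exact sub_eq_zero.2 hss
  have key : ∀ N : ℕ, ∀ c, e c < N → (s - s') c = 0 := by
    intro N
    induction N with
    | zero => exact fun c hc => absurd hc (Nat.not_lt_zero _)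
    | succ N ih =>
      intro c hc
      have h5 := congrFun h4 c
      rw [Matrix.mulVec, dotProduct, Finset.sum_eq_single c] at h5
      · rw [Pi.zero_apply, mul_eq_zero] at h5
        rcases h5 with h6 | h6
        · exact absurd h6 (h2 c)
        · exact h6
      · intro d _ hd
        rcases Nat.lt_or_ge (e d) N with h | h
        · rw [ih d h, mul_zero]
        · have h6 : (T.map (constantCoeff (R := k))) c d = 0 := by
            rw [Matrix.map_apply]
            exact h1 c d (by omega) (Ne.symm hd)
          rw [h6, zero_mul]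
      · intro h
        exact absurd (Finset.mem_univ _) h
  funext c
  have h5 := key (e c + 1) c (Nat.lt_succ_self _)
  rw [Pi.sub_apply, sub_eq_zero] at h5
  exact h5

end column

end SLM

open PowerSeries SLM in
theorem t_SLM : S_SLM := by
  intro p _ k _ _ _ M _ _ n ι _ _ v g e U F V hv he hF hV hFv hVg hg hU1 hU2
  choose x hx1 hx2 hx3 using column (p := p) e U hU1 hU2
  -- `x b c` is the entry of the row `c` and the column `b`
  let T : Matrix ι ι k⟦X⟧ := fun c b => X ^ (e b - e c) * x b c
  let T' : ι → ι → k⟦X⟧ := fun c b => X ^ (e c - e b) * fr p k (x b c)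
  have hT : ∀ c b, T c b = ∑ d, U c d * T' d b := fun c b => hx1 b c
  have hTu : IsUnit T.det := by
    apply inv_of_tri e
    · intro c b hcb hne
      change constantCoeff (X ^ (e b - e c) * x b c) = 0
      rw [map_mul, hx3 b c hne hcb, mul_zero]
    · intro b
      change constantCoeff (X ^ (e b - e b) * x b b) ≠ 0
      rw [Nat.sub_self, pow_zero, one_mul]
      exact hx2 b
  let w : ι → M := fun b => ∑ c, T c b • v c
  have hw' : ∀ b, w b = ∑ d, T' d b • g d := by
    intro b
    change ∑ c, T c b • v c = _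
    have h1 : ∀ d, T' d b • g d = ∑ c, (U c d * T' d b) • v c := by
      intro d
      rw [hg d, Finset.smul_sum]
      refine Finset.sum_congr rfl fun c _ => ?_
      rw [smul_smul, mul_comm]
    rw [Finset.sum_congr rfl fun d _ => h1 d, Finset.sum_comm]
    refine Finset.sum_congr rfl fun c _ => ?_
    rw [← Finset.sum_smul, ← hT]
  have hcomb : ∀ s : ι → k⟦X⟧, ∑ b, s b • w b = ∑ c, (T.mulVec s) c • v c := by
    intro s
    change ∑ b, s b • ∑ c, T c b • v c = _
    simp only [Finset.smul_sum, smul_smul]
    rw [Finset.sum_comm]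
    refine Finset.sum_congr rfl fun c _ => ?_
    rw [← Finset.sum_smul]
    congr 1
    rw [Matrix.mulVec, dotProduct]
    exact Finset.sum_congr rfl fun b _ => mul_comm _ _
  have hTT : ∀ s : ι → k⟦X⟧, T.mulVec (T⁻¹.mulVec s) = s := by
    intro s
    rw [Matrix.mulVec_mulVec, Matrix.mul_nonsing_inv _ hTu, Matrix.one_mulVec]
  have hTT' : ∀ s : ι → k⟦X⟧, T⁻¹.mulVec (T.mulVec s) = s := by
    intro s
    rw [Matrix.mulVec_mulVec, Matrix.nonsing_inv_mul _ hTu, Matrix.one_mulVec]
  have hdvd : ∀ (A : Matrix ι ι k⟦X⟧) (s : ι → k⟦X⟧), (∀ i, (X : k⟦X⟧) ^ n ∣ s i) →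
      ∀ i, (X : k⟦X⟧) ^ n ∣ A.mulVec s i := by
    intro A s hs i
    rw [Matrix.mulVec, dotProduct]
    exact Finset.dvd_sum fun j _ => Dvd.dvd.mul_left (hs j) _
  refine ⟨w, ⟨fun m => ?_, fun s => ?_⟩, fun b => ?_, fun b => ?_⟩
  · obtain ⟨s, hs⟩ := hv.1 m
    refine ⟨T⁻¹.mulVec s, ?_⟩
    rw [hcomb, hTT, hs]
  · rw [hcomb, hv.2]
    constructor
    · intro h
      have h1 := hdvd T⁻¹ _ h
      rw [hTT'] at h1
      exact h1
    · intro h
      exact hdvd T s h
  · change F (∑ c, T c b • v c) = _
    rw [map_sum, hw', Finset.smul_sum]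
    refine Finset.sum_congr rfl fun c _ => ?_
    rw [hF, hFv, smul_smul, smul_smul]
    congr 1
    change fr p k (X ^ (e b - e c) * x b c) * X ^ e c = X ^ e b * (X ^ (e c - e b) *
      fr p k (x b c))
    rw [map_mul, fr_X_pow, mul_right_comm, ← pow_add, ← mul_assoc, ← pow_add]
    congr 2
    omega
  · conv_lhs => rw [hw' b, map_sum]
    change _ = -((X : k⟦X⟧) ^ (n - e b) • ∑ c, T c b • v c)
    rw [Finset.smul_sum, ← Finset.sum_neg_distrib]
    refine Finset.sum_congr rfl fun c _ => ?_
    have h1 : T' c b = fr p k (X ^ (e c - e b) * x b c) := by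
      rw [map_mul, fr_X_pow]
    rw [h1, hV, hVg, smul_neg, smul_smul, smul_smul]
    congr 2
    change X ^ (e c - e b) * x b c * X ^ (n - e c) = X ^ (n - e b) * (X ^ (e b - e c) * x b c)
    rw [mul_right_comm, ← pow_add, ← mul_assoc, ← pow_add]
    congr 2
    have h2 := he b
    have h3 := he c
    omega

end Pool.Agent.Helper61.EO
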