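import Pool.Agent.Helper61.EO.J.T4

/-!
Project EO, job T7: regular forms at the poles.
-/

set_option autoImplicit false

namespace Pool.Agent.Helper61.EO

open PowerSeries

noncomputable section

namespace T7

/-- sums of elements with pairwise distinct valuations -/
theorem sum_le {K : Type} [Field K] (P : ValuationSubring K) {κ : Type} [DecidableEq κ]
    (s : Finset κ) (a : κ → K) (c : P.ValueGroup)
    (hd : ∀ i ∈ s, ∀ j ∈ s, a i ≠ 0 → a j ≠ 0 → i ≠ j → P.valuation (a i) ≠ P.valuation (a j)) :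
    P.valuation (∑ i ∈ s, a i) ≤ c ↔ ∀ i ∈ s, P.valuation (a i) ≤ c := by
  constructor
  · intro h i hi
    by_cases h0 : a i = 0
    · rw [h0, map_zero]; exact zero_le
    obtain ⟨j, hj, hmax⟩ := Finset.exists_max_image s (fun i => P.valuation (a i)) ⟨i, hi⟩
    have hj0 : a j ≠ 0 := by
      intro hc
      have := hmax i hi
      simp only [hc, map_zero] at this
      exact h0 ((_root_.map_eq_zero _).1 (le_antisymm this zero_le))
    have hlt : ∀ l ∈ s \ {j}, P.valuation (a l) < P.valuation (a j) := by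
      intro l hl
      rw [Finset.mem_sdiff, Finset.mem_singleton] at hl
      by_cases hl0 : a l = 0
      · rw [hl0, map_zero]
        exact zero_lt_iff.2 ((Valuation.ne_zero_iff _).2 hj0)
      · exact lt_of_le_of_ne (hmax l hl.1) (hd l hl.1 j hj hl0 hj0 hl.2)
    have hv := Valuation.map_sum_eq_of_lt P.valuation hj hlt
    rw [hv] at h
    exact (hmax i hi).trans h
  · intro h
    exact Valuation.map_sum_le _ h

/-- arithmetic -/
theorem arithW (p d E i : ℕ) (n : ℤ) (hE : d * E = p - 1) (hd : 1 ≤ d) (hp : 2 ≤ p)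
    (hi : i < p) : -(((p : ℤ) - 1) * (d + 1)) ≤ (p : ℤ) * n - d * ((p - 1 - i : ℕ) : ℤ) ↔
      -(((i + E - 1) / E : ℕ) : ℤ) ≤ n := by
  have hE0 : 0 < E := by
    rcases Nat.eq_zero_or_pos E with h | h
    · rw [h] at hE; omega
    · exact h
  set q := (i + E - 1) / E with hq
  have hi2 : i + E - 1 = E * q + (i + E - 1) % E := (Nat.div_add_mod _ E).symm
  set r := (i + E - 1) % E with hr
  have hrE : r < E := Nat.mod_lt _ hE0
  have e1 : ((p - 1 - i : ℕ) : ℤ) = (p : ℤ) - 1 - i := by omega
  rw [e1]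
  have e2 : (d : ℤ) * E = p - 1 := by
    have : ((d * E : ℕ) : ℤ) = ((p - 1 : ℕ) : ℤ) := by rw [hE]
    push_cast at this
    omega
  have hrE' : (r : ℤ) < E := by exact_mod_cast hrE
  have e3 : (i : ℤ) = E * q - (E - 1 - r) := by
    have : ((i + E - 1 : ℕ) : ℤ) = ((E * q + r : ℕ) : ℤ) := by rw [← hi2]
    push_cast at this
    have h5 : ((i + E - 1 : ℕ) : ℤ) = (i : ℤ) + E - 1 := by omega
    rw [h5] at this
    linarith
  have hq2 : q ≤ d := by
    rw [hq, Nat.div_le_iff_le_mul_add_pred hE0]
    have h6 : E * d = p - 1 := by rw [mul_comm]; exact hE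
    omega
  have hq3 : (q : ℤ) ≤ d := by exact_mod_cast hq2
  have e4 : (d : ℤ) * i = (p - 1) * q - d * (E - 1 - r) := by
    rw [e3, mul_sub, ← mul_assoc, e2]
  have e5 : (p : ℤ) * n - d * ((p : ℤ) - 1 - i) + ((p : ℤ) - 1) * (d + 1) =
      p * (n + q) + (p - 1 - q - d * (E - 1 - r)) := by
    linear_combination e4
  have h1 : (0 : ℤ) ≤ (p : ℤ) - 1 - q - d * (E - 1 - r) := by
    have h7 : (d : ℤ) * (E - 1 - r) ≤ d * (E - 1) :=
      mul_le_mul_of_nonneg_left (by omega) (by positivity)
    have h8 : (d : ℤ) * (E - 1) = p - 1 - d := by rw [mul_sub, e2]; ring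
    linarith
  have h2 : (p : ℤ) - 1 - q - d * (E - 1 - r) < p := by
    have h7 : (0 : ℤ) ≤ (d : ℤ) * (E - 1 - r) := mul_nonneg (by positivity) (by omega)
    have h8 : (0 : ℤ) ≤ q := by positivity
    linarith
  constructor
  · intro h
    by_contra hc
    rw [not_le] at hc
    have h5 : n + q ≤ -1 := by omega
    have h6 : (p : ℤ) * (n + q) ≤ p * (-1) := mul_le_mul_of_nonneg_left h5 (by positivity)
    linarith
  · intro h
    have h6 : 0 ≤ (p : ℤ) * (n + q) := mul_nonneg (by positivity) (by linarith)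
    linarith

theorem Psi_top {p : ℕ} (hp : p.Prime) {k : Type} [Field k] {K : Type} [Field K] [Algebra k K]
    (ι : RatFunc k →ₐ[k] K) (y : K) (φ : RatFunc k) (r : ℕ) (hr : r < p) :
    Psi p ι y (monomial (p - 1 - r) φ) = ι φ * y ^ r * ((r.factorial : ℕ) : K)⁻¹ := by
  have h2 := hp.two_le
  have h3 : p - 1 - (p - 1 - r) = r := by omega
  unfold Psi
  rw [Finset.sum_eq_single (p - 1 - r)]
  · rw [coeff_monomial, if_pos rfl, h3]
  · intro i _ hi
    rw [coeff_monomial, if_neg hi, map_zero, zero_mul, zero_mul]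
  · intro h
    exact absurd (Finset.mem_range.2 (by omega)) h

theorem Psi_congr {p : ℕ} {k : Type} [Field k] {K : Type} [Field K] [Algebra k K]
    (ι : RatFunc k →ₐ[k] K) (y : K) {g h : (RatFunc k)⟦X⟧} (H : ∀ i < p, coeff i g = coeff i h) :
    Psi p ι y g = Psi p ι y h := by
  unfold Psi
  exact Finset.sum_congr rfl fun i hi => by rw [H i (Finset.mem_range.1 hi)]

theorem Psi_C {p : ℕ} {k : Type} [Field k] {K : Type} [Field K] [Algebra k K]
    (ι : RatFunc k →ₐ[k] K) (y : K) (c : RatFunc k) (h : (RatFunc k)⟦X⟧) :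
    Psi p ι y (C c * h) = ι c * Psi p ι y h := by
  unfold Psi
  rw [Finset.mul_sum]
  refine Finset.sum_congr rfl fun i _ => ?_
  rw [coeff_C_mul, map_mul]
  ring

/-- the local picture at the pole -/
structure Loc (p : ℕ) {k : Type} [Field k] (B : Base p k) (d : ℕ) (j : Option k)
    {K : Type} [Field K] [Algebra k K] (ι : RatFunc k →ₐ[k] K) (y : K) (P : Pt k K)
    (s : P.1.ValueGroup) : Prop where
  s0 : 0 < s
  s1 : s < 1
  vt : P.1.valuation (ι (tt j)) = s ^ (p : ℤ)
  vy : P.1.valuation y = s ^ (-(d : ℤ))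
  vi : ∀ φ : RatFunc k, φ ≠ 0 → P.1.valuation (ι φ) = s ^ ((p : ℤ) * (B.ex j φ).order)
  vu : P.1.valuation (ι (tt j) * y ^ ((p - 1) / d)) = s
  vc : ∀ c : k, c ≠ 0 → P.1.valuation (algebraMap k K c) = 1

theorem loc (hT3 : S_T3) (hTT : S_TT) {p : ℕ} [hpf : Fact p.Prime] {k : Type} [Field k]
    [IsAlgClosed k] [CharP k p] {B : Base p k} {f : RatFunc k} {J : Finset (Option k)}
    {d : Option k → ℕ} (hPD : PoleData B f J d) {K : Type} [Field K] [Algebra k K]
    {ι : RatFunc k →ₐ[k] K} {y : K} (hK : KData K p f ι y) {P : Pt k K} {j : Option k}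
    (hj : j ∈ J) (hP : Over ι P j) : ∃ s, Loc p B (d j) j ι y P s := by
  have hp : p.Prime := hpf.out
  have hp2 := hp.two_le
  have hd1 := hPD.pos j hj
  have hdvd := hPD.dvd j hj
  have hE : d j * ((p - 1) / d j) = p - 1 := Nat.mul_div_cancel' hdvd
  set E := (p - 1) / d j with hEdef
  set v := P.1.valuation with hv
  set t := ι (tt j) with ht
  have ht0 : 0 < v t := T4.val_tt_pos hP
  have ht1 : v t < 1 := T4.val_tt_lt hP
  -- the valuation of `f`
  have hf0 : f ≠ 0 := by
    rintro rfl
    exact hPD.lead j hj (by simp)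
  have hford : (B.ex j f).order = -(d j : ℤ) := by
    apply le_antisymm
    · exact HahnSeries.order_le_of_coeff_ne_zero (hPD.lead j hj)
    · exact (T4.low_iff B j f hf0 _).1 (hPD.low j hj)
  have hvf : v (ι f) = v t ^ (-(d j : ℤ)) := by
    rw [← hford]; exact T4.val_iota hT3 hTT B hP hf0
  -- the valuation of `y`
  have hvf1 : 1 < v (ι f) := by
    rw [hvf]
    exact one_lt_zpow_of_neg₀ ht0 ht1 (by omega)
  have hvy1 : 1 < v y := by
    by_contra hc
    rw [not_lt, hv, P.1.valuation_le_one_iff] at hc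
    have h1 : y ^ p - y ∈ P.1 := sub_mem (pow_mem hc p) hc
    rw [hK.eq, ← P.1.valuation_le_one_iff] at h1
    exact absurd hvf1 (not_lt.2 h1)
  have hvy : v y ^ p = v t ^ (-(d j : ℤ)) := by
    rw [← hvf, ← hK.eq, ← map_pow]
    symm
    apply Valuation.map_sub_eq_of_lt_left
    rw [map_pow]
    exact lt_self_pow₀ hvy1 hp.one_lt
  have hy0 : 0 < v y := zero_lt_one.trans hvy1
  set s := v (t * y ^ E) with hs
  have hs0 : 0 < s := by
    rw [hs, map_mul, map_pow]
    exact mul_pos ht0 (pow_pos hy0 _)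
  have e1 : s ^ p = v t := by
    rw [hs, map_mul, map_pow, mul_pow, ← pow_mul, mul_comm E p, pow_mul, hvy,
      ← zpow_natCast, ← zpow_natCast (v t ^ (-(d j : ℤ))) E, ← zpow_mul, ← zpow_add₀ ht0.ne']
    have : (p : ℤ) + -(d j : ℤ) * E = 1 := by
      have h3 : ((d j * E : ℕ) : ℤ) = ((p - 1 : ℕ) : ℤ) := by rw [hE]
      push_cast at h3
      have h4 : ((p - 1 : ℕ) : ℤ) = (p : ℤ) - 1 := by omega
      rw [h4] at h3
      linarith
    rw [this, zpow_one]
  have hs1 : s < 1 := by
    by_contra hc
    rw [not_lt] at hc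
    have := one_le_pow₀ hc (n := p)
    rw [e1] at this
    exact absurd ht1 (not_lt.2 this)
  have e2 : v t = s ^ (p : ℤ) := by rw [zpow_natCast, e1]
  refine ⟨s, hs0, hs1, e2, ?_, ?_, hs.symm, ?_⟩
  · rw [← pow_left_inj₀ hy0.le (zpow_nonneg hs0.le _) hp.ne_zero, hvy, e2, ← zpow_natCast,
      ← zpow_mul, ← zpow_mul, mul_comm]
  · intro φ hφ
    rw [T4.val_iota hT3 hTT B hP hφ, ← hv, ← ht, e2, ← zpow_mul]
  · intro c hc
    have h3 : algebraMap k K c ∈ P.1 := P.2.1 _
    have h4 : (algebraMap k K c)⁻¹ ∈ P.1 := by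
      rw [← map_inv₀]; exact P.2.1 _
    rw [← P.1.valuation_le_one_iff] at h3 h4
    have h5 : 0 < P.1.valuation (algebraMap k K c) :=
      zero_lt_iff.2 ((Valuation.ne_zero_iff _).2 ((map_ne_zero _).2 hc))
    apply le_antisymm h3
    rw [map_inv₀] at h4
    exact (inv_le_one₀ h5).1 h4

theorem Loc.le {p : ℕ} {k : Type} [Field k] {B : Base p k} {d : ℕ} {j : Option k}
    {K : Type} [Field K] [Algebra k K] {ι : RatFunc k →ₐ[k] K} {y : K} {P : Pt k K}
    {s : P.1.ValueGroup} (hL : Loc p B d j ι y P s) {φ : RatFunc k} {N : ℤ}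
    (h : ∀ m : ℤ, m < N → (B.ex j φ).coeff m = 0) : P.1.valuation (ι φ) ≤ s ^ ((p : ℤ) * N) := by
  by_cases hφ : φ = 0
  · rw [hφ, map_zero, map_zero]; exact zero_le
  · rw [hL.vi φ hφ]
    apply zpow_le_zpow_right_of_le_one₀ hL.s0 hL.s1.le
    exact mul_le_mul_of_nonneg_left ((T4.low_iff B j φ hφ N).1 h) (by positivity)

/-- the criterion for sums `∑ φ_i y ^ (p - 1 - i)` -/
theorem Loc.psi {p : ℕ} (hp : p.Prime) {k : Type} [Field k] [CharP k p] {B : Base p k} {d : ℕ}
    (hpd : ¬ p ∣ d) {j : Option k}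
    {K : Type} [Field K] [Algebra k K] {ι : RatFunc k →ₐ[k] K} {y : K} {P : Pt k K}
    {s : P.1.ValueGroup} (hL : Loc p B d j ι y P s) (h : (RatFunc k)⟦X⟧) (N : ℤ) :
    P.1.valuation (Psi p ι y h) ≤ s ^ N ↔
      ∀ i < p, coeff i h ≠ 0 → N ≤ p * (B.ex j (coeff i h)).order - d * ((p - 1 - i : ℕ) : ℤ) := by
  set a : ℕ → K := fun i => ι (coeff i h) * y ^ (p - 1 - i) * (((p - 1 - i).factorial : ℕ) : K)⁻¹
    with ha
  have hva : ∀ i < p, coeff i h ≠ 0 → P.1.valuation (a i) =
      s ^ ((p : ℤ) * (B.ex j (coeff i h)).order - d * ((p - 1 - i : ℕ) : ℤ)) := by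
    intro i hi h0
    have h1 : ((((p - 1 - i).factorial : ℕ) : k)) ≠ 0 := by
      rw [Ne, CharP.cast_eq_zero_iff k p, hp.dvd_factorial]
      omega
    have h2 : (((p - 1 - i).factorial : ℕ) : K) =
        algebraMap k K (((p - 1 - i).factorial : ℕ) : k) := by
      rw [map_natCast]
    rw [ha]
    simp only [map_mul, map_pow]
    rw [h2, map_inv₀, hL.vc _ h1, inv_one, mul_one, hL.vi _ h0, hL.vy, ← zpow_natCast, ← zpow_mul,
      ← zpow_add₀ hL.s0.ne']
    congr 1
    ring
  have ha0 : ∀ i, a i ≠ 0 → coeff i h ≠ 0 := by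
    intro i h1 h2
    apply h1
    rw [ha]
    simp [h2]
  have hPsi : Psi p ι y h = ∑ i ∈ Finset.range p, a i := rfl
  rw [hPsi, sum_le]
  · constructor
    · intro H i hi h0
      have := H i (Finset.mem_range.2 hi)
      rwa [hva i hi h0, zpow_le_zpow_iff_right_of_lt_one₀ hL.s0 hL.s1] at this
    · intro H i hi
      rw [Finset.mem_range] at hi
      by_cases h0 : coeff i h = 0
      · have : a i = 0 := by rw [ha]; simp [h0]
        rw [this, map_zero]; exact zero_le
      · rw [hva i hi h0, zpow_le_zpow_iff_right_of_lt_one₀ hL.s0 hL.s1]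
        exact H i hi h0
  · intro i hi i' hi' h0 h0' hne heq
    rw [Finset.mem_range] at hi hi'
    rw [hva i hi (ha0 i h0), hva i' hi' (ha0 i' h0'),
      zpow_right_inj₀ hL.s0 hL.s1.ne] at heq
    have e1 : ((p - 1 - i : ℕ) : ℤ) = (p : ℤ) - 1 - i := by omega
    have e2 : ((p - 1 - i' : ℕ) : ℤ) = (p : ℤ) - 1 - i' := by omega
    rw [e1, e2] at heq
    have h2 : (p : ℤ) ∣ d * (i - i') := by
      refine ⟨(B.ex j (coeff i' h)).order - (B.ex j (coeff i h)).order, ?_⟩
      linarith
    rcases (Nat.prime_iff_prime_int.1 hp).dvd_or_dvd h2 with h3 | h3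
    · exact hpd (by exact_mod_cast h3)
    · have h4 : (i : ℤ) - i' = 0 := by
        apply Int.eq_zero_of_abs_lt_dvd h3
        rw [abs_lt]
        omega
      omega

section ex

variable {p : ℕ} {k : Type} [Field k] (B : Base p k)

theorem exDtt (hTT : S_TT) (hEXD : S_EXD) (j : Option k) : exW B j (B.D (tt j)) = 1 := by
  ext m
  rw [hEXD p k B j (tt j) m, (hTT p k B).1 j, HahnSeries.coeff_single, HahnSeries.coeff_one]
  by_cases h : m = 0
  · rw [if_pos (by omega), if_pos h, h]; simp
  · rw [if_neg (by omega), if_neg h, mul_zero]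

theorem Dtt_ne (hTT : S_TT) (hEXD : S_EXD) (j : Option k) : B.D (tt j) ≠ 0 := by
  intro h
  have := exDtt B hTT hEXD j
  rw [h, exW, map_zero, zero_mul] at this
  exact zero_ne_one this

theorem ex_div (hTT : S_TT) (hEXD : S_EXD) (j : Option k) (φ : RatFunc k) :
    B.ex j (φ / B.D (tt j)) = exW B j φ := by
  have h := exDtt B hTT hEXD j
  have h0 : B.ex j (B.D (tt j)) ≠ 0 := (map_ne_zero _).2 (Dtt_ne B hTT hEXD j)
  rw [map_div₀, div_eq_iff h0]
  unfold exW at *
  rw [mul_assoc, mul_comm (dxdt j), h, mul_one]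

end ex

end T7

open T7 in
theorem t_T7 (hT3 : S_T3) (hT4 : S_T4) (hT5 : S_T5) (hT6 : S_T6) (hEXD : S_EXD) (hTT : S_TT) :
    S_T7 := by
  intro p hpf k _ _ _ B f J d hPD K _ _ ι y hK P j hj hP w
  have hp : p.Prime := hpf.out
  have hp2 := hp.two_le
  have hd1 := hPD.pos j hj
  have hdvd := hPD.dvd j hj
  have hE : d j * EE p d j = p - 1 := Nat.mul_div_cancel' hdvd
  have hdp : ¬ p ∣ d j := by
    intro hc
    have := Nat.le_of_dvd (by omega) hdvd
    have := Nat.le_of_dvd (by omega) hc
    omega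
  have : CharP K p := charP_of_injective_algebraMap (algebraMap k K).injective p
  obtain ⟨s, hL⟩ := loc hT3 hTT hPD hK hj hP
  obtain ⟨hD1, hD2, hD3⟩ := hT6 p k B f K ι y hK
  set Dx := KaehlerDifferential.D k K (ι RatFunc.X) with hDx
  set Dt := KaehlerDifferential.D k K (ι (tt j)) with hDt
  have htt0 := Dtt_ne B hTT hEXD j
  -- differentials of functions of `x`
  have hι : ∀ φ : RatFunc k, KaehlerDifferential.D k K (ι φ) = ι (B.D φ) • Dx := by
    intro φ
    have h1 := Psi_top hp ι y φ 0 hp.pos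
    have h2 := Psi_top hp ι y (B.D φ) 0 hp.pos
    rw [pow_zero, Nat.factorial_zero, Nat.cast_one, inv_one, mul_one, mul_one] at h1 h2
    rw [← h1, hD1, ← h2]
    congr 1
    apply Psi_congr
    intro i hi
    rw [nab, map_sub, coeff_mk, coeff_monomial, coeff_monomial]
    have h3 : coeff i ((X : (RatFunc k)⟦X⟧) * (C (B.D f) * monomial (p - 1 - 0) φ)) = 0 := by
      cases i with
      | zero => rw [coeff_zero_X_mul]
      | succ i =>
        rw [coeff_succ_X_mul, coeff_C_mul, coeff_monomial, if_neg (by omega), mul_zero]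
    rw [h3, sub_zero]
    split_ifs
    · rfl
    · exact map_zero _
  have hιt : ∀ φ : RatFunc k, KaehlerDifferential.D k K (ι φ) =
      ι (B.D φ / B.D (tt j)) • Dt := by
    intro φ
    rw [hDt, hι, hι, smul_smul, ← map_mul, div_mul_cancel₀ _ htt0]
  have hDxt : Dx = ι (B.D (tt j))⁻¹ • Dt := by
    rw [hDt, hι, smul_smul, ← map_mul, inv_mul_cancel₀ htt0, map_one, one_smul]
  have huniq : ∀ g g' : K, g • Dt = g' • Dt → g = g' := by
    intro g g' h
    rw [hDt, hι, smul_smul, smul_smul] at h
    have h1 : (g * ι (B.D (tt j)) - g' * ι (B.D (tt j))) • Dx = 0 := by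
      rw [sub_smul, h, sub_self]
    have h2 := hD2 _ h1
    rw [← sub_mul] at h2
    rcases mul_eq_zero.1 h2 with h3 | h3
    · exact sub_eq_zero.1 h3
    · exact absurd h3 ((map_ne_zero _).2 htt0)
  -- the differential of `y`
  set ft := B.D f / B.D (tt j) with hft
  have hDy : KaehlerDifferential.D k K y = (-ι ft) • Dt := by
    have h1 : KaehlerDifferential.D k K (y ^ p - y) = ι ft • Dt := by
      rw [hK.eq, hιt]
    rw [map_sub, Derivation.leibniz_pow, ← Nat.cast_smul_eq_nsmul K p, CharP.cast_eq_zero,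
      zero_smul, zero_sub] at h1
    rw [neg_smul, ← h1, neg_neg]
  have hftlow : ∀ m : ℤ, m < -(d j : ℤ) - 1 → (B.ex j ft).coeff m = 0 := by
    intro m hm
    rw [hft, ex_div B hTT hEXD, hEXD, hPD.low j hj _ (by omega), mul_zero]
  have hftlead : (B.ex j ft).coeff (-(d j : ℤ) - 1) ≠ 0 := by
    rw [hft, ex_div B hTT hEXD, hEXD, show -(d j : ℤ) - 1 + 1 = -(d j : ℤ) by ring]
    apply mul_ne_zero _ (hPD.lead j hj)
    rw [Int.cast_neg, Int.cast_natCast, neg_ne_zero, Ne, CharP.cast_eq_zero_iff k p]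
    exact hdp
  have hft0 : ft ≠ 0 := by
    intro h
    apply hftlead
    rw [h, map_zero, HahnSeries.coeff_zero]
  have hftord : (B.ex j ft).order = -(d j : ℤ) - 1 := by
    apply le_antisymm
    · exact HahnSeries.order_le_of_coeff_ne_zero hftlead
    · exact (T4.low_iff B j ft hft0 _).1 hftlow
  have hvft : P.1.valuation (ι ft) = s ^ ((p : ℤ) * (-(d j : ℤ) - 1)) := by
    rw [hL.vi ft hft0, hftord]
  have hEp : ((p - 1 : ℕ) : ℤ) = (p : ℤ) - 1 := by omega
  have hE' : (d j : ℤ) * EE p d j = (p : ℤ) - 1 := by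
    have h3 : ((d j * EE p d j : ℕ) : ℤ) = ((p - 1 : ℕ) : ℤ) := by rw [hE]
    push_cast at h3
    rw [hEp] at h3
    exact h3
  have hE0 : 0 < EE p d j := by
    rcases Nat.eq_zero_or_pos (EE p d j) with h | h
    · rw [h] at hE; omega
    · exact h
  have hd1' : (1 : ℤ) ≤ d j := by exact_mod_cast hd1
  have hp2' : (2 : ℤ) ≤ p := by exact_mod_cast hp2
  set M : ℤ := -(((p : ℤ) - 1) * (d j + 1)) with hM
  -- the main claim
  have claim : ∀ g : K, g • Dt ∈ Reg k K P.1 ↔ P.1.valuation g ≤ s ^ M := by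
    intro g
    constructor
    · intro hg
      have key : ∀ ω ∈ Reg k K P.1, ∃ g' : K, ω = g' • Dt ∧ P.1.valuation g' ≤ s ^ M := by
        intro ω hω
        unfold Reg at hω
        induction hω using AddSubgroup.closure_induction with
        | mem ω hω =>
          obtain ⟨a, ha, b, hb, rfl⟩ := hω
          obtain ⟨h, rfl⟩ := (hT5 p k B f J d hPD K ι y hK).1 b
          rw [hT4 p k B f J d hPD K ι y hK P j hj hP h] at hb
          -- the terms
          have hterm : ∀ i < p, ∃ g' : K,
              KaehlerDifferential.D k K (ι (coeff i h) * y ^ (p - 1 - i) *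
                (((p - 1 - i).factorial : ℕ) : K)⁻¹) = g' • Dt ∧ P.1.valuation g' ≤ s ^ M := by
            intro i hi
            set r := p - 1 - i with hr
            set φ := coeff i h with hφ
            have h1 : (((r.factorial : ℕ) : k)) ≠ 0 := by
              rw [Ne, CharP.cast_eq_zero_iff k p, hp.dvd_factorial]
              omega
            have h2 : ((r.factorial : ℕ) : K)⁻¹ =
                algebraMap k K ((r.factorial : ℕ) : k)⁻¹ := by
              rw [map_inv₀, map_natCast]
            rw [h2, mul_comm, ← Algebra.smul_def, Derivation.map_smul, Derivation.leibniz,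
              Derivation.leibniz_pow, hDy, hιt φ]
            refine ⟨algebraMap k K ((r.factorial : ℕ) : k)⁻¹ *
              (ι (B.D φ / B.D (tt j)) * y ^ r - (r : K) * ι φ * y ^ (r - 1) * ι ft), ?_, ?_⟩
            · rw [← algebraMap_smul K, smul_add, ← Nat.cast_smul_eq_nsmul K]
              simp only [smul_smul]
              rw [← add_smul]
              congr 1
              ring
            · rw [map_mul, hL.vc _ (inv_ne_zero h1), one_mul]
              by_cases hφ0 : φ = 0
              · rw [hφ0, map_zero, zero_div, map_zero, zero_mul, mul_zero, zero_mul, zero_mul,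
                  sub_zero, map_zero]
                exact zero_le
              set n := (B.ex j φ).order with hn
              have hbi : 0 ≤ (p : ℤ) * n - d j * (r : ℤ) := by
                rw [hr, T4.arith p (d j) (EE p d j) i n hE hd1 hp2 hi]
                exact (T4.low_iff B j φ hφ0 _).1 (hb i hi)
              refine (Valuation.map_sub _ _ _).trans (max_le ?_ ?_)
              · have h3 : P.1.valuation (ι (B.D φ / B.D (tt j))) ≤ s ^ ((p : ℤ) * (n - 1)) := by
                  apply hL.le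
                  intro m hm
                  rw [ex_div B hTT hEXD, hEXD, HahnSeries.coeff_eq_zero_of_lt_order, mul_zero]
                  rw [← hn]; omega
                rw [map_mul, map_pow, hL.vy, ← zpow_natCast, ← zpow_mul]
                refine (mul_le_mul_left h3 _).trans ?_
                rw [← zpow_add₀ hL.s0.ne']
                apply zpow_le_zpow_right_of_le_one₀ hL.s0 hL.s1.le
                rw [hM]
                nlinarith
              · by_cases hr0 : r = 0
                · rw [hr0, Nat.cast_zero, zero_mul, zero_mul, zero_mul, map_zero]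
                  exact zero_le
                have h4 : P.1.valuation (r : K) = 1 := by
                  rw [← map_natCast (algebraMap k K)]
                  apply hL.vc
                  rw [Ne, CharP.cast_eq_zero_iff k p]
                  intro h5
                  have := Nat.le_of_dvd (by omega) h5
                  omega
                rw [map_mul, map_mul, map_mul, h4, one_mul, hL.vi φ hφ0, ← hn, map_pow, hL.vy,
                  hvft, ← zpow_natCast, ← zpow_mul, ← zpow_add₀ hL.s0.ne', ← zpow_add₀ hL.s0.ne']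
                apply zpow_le_zpow_right_of_le_one₀ hL.s0 hL.s1.le
                have h6 : (p : ℤ) * n - d j * (r : ℤ) ≠ 0 := by
                  intro h7
                  have h8 : (p : ℤ) ∣ d j * (r : ℤ) := ⟨n, by linarith⟩
                  rcases (Nat.prime_iff_prime_int.1 hp).dvd_or_dvd h8 with h9 | h9
                  · exact hdp (by exact_mod_cast h9)
                  · have h10 : p ∣ r := by exact_mod_cast h9
                    have := Nat.le_of_dvd (by omega) h10
                    omega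
                have h7 : 1 ≤ (p : ℤ) * n - d j * (r : ℤ) := by omega
                have h8 : ((r - 1 : ℕ) : ℤ) = (r : ℤ) - 1 := by omega
                rw [hM, h8]
                nlinarith
          choose! G hG1 hG2 using hterm
          refine ⟨a * ∑ i ∈ Finset.range p, G i, ?_, ?_⟩
          · rw [Psi, map_sum, mul_smul, Finset.sum_smul]
            congr 1
            exact Finset.sum_congr rfl fun i hi => hG1 i (Finset.mem_range.1 hi)
          · rw [map_mul]
            calc P.1.valuation a * P.1.valuation (∑ i ∈ Finset.range p, G i)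
                ≤ 1 * s ^ M := mul_le_mul' ((P.1.valuation_le_one_iff a).2 ha)
                  (Valuation.map_sum_le _ fun i hi => hG2 i (Finset.mem_range.1 hi))
              _ = s ^ M := one_mul _
        | zero => exact ⟨0, by rw [zero_smul], by rw [map_zero]; exact zero_le⟩
        | add x y' _ _ hx hy' =>
          obtain ⟨g1, h1, h1'⟩ := hx
          obtain ⟨g2, h2, h2'⟩ := hy'
          exact ⟨g1 + g2, by rw [add_smul, h1, h2], (Valuation.map_add _ _ _).trans (max_le h1' h2')⟩
        | neg x _ hx =>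
          obtain ⟨g1, h1, h1'⟩ := hx
          exact ⟨-g1, by rw [neg_smul, h1], by rwa [Valuation.map_neg]⟩
      obtain ⟨g', h1, h2⟩ := key _ hg
      rw [huniq _ _ h1]
      exact h2
    · intro hg
      set E := EE p d j with hEdef
      set u := ι (tt j) * y ^ E with hu
      have hvu : P.1.valuation u = s := hL.vu
      have huP : u ∈ P.1 := by
        rw [← P.1.valuation_le_one_iff, hvu]; exact hL.s1.le
      set w0 : K := y ^ E - (E : K) * ι (tt j) * y ^ (E - 1) * ι ft with hw0
      have hDu : KaehlerDifferential.D k K u = w0 • Dt := by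
        rw [hu, Derivation.leibniz, Derivation.leibniz_pow, hDy, ← Nat.cast_smul_eq_nsmul K, ← hDt]
        simp only [smul_smul]
        rw [← add_smul]
        congr 1
        rw [hw0]
        ring
      have hvE : P.1.valuation (E : K) = 1 := by
        rw [← map_natCast (algebraMap k K)]
        apply hL.vc
        rw [Ne, CharP.cast_eq_zero_iff k p]
        intro h5
        have h6 := Nat.le_of_dvd hE0 h5
        have h7 : E ≤ p - 1 := by rw [← hE]; exact Nat.le_mul_of_pos_left _ (by omega)
        omega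
      have h8 : ((E - 1 : ℕ) : ℤ) = (E : ℤ) - 1 := by omega
      have hv1 : P.1.valuation ((E : K) * ι (tt j) * y ^ (E - 1) * ι ft) = s ^ M := by
        rw [map_mul, map_mul, map_mul, map_pow, hvE, one_mul, hL.vt, hL.vy, hvft, ← zpow_natCast,
          ← zpow_mul, ← zpow_add₀ hL.s0.ne', ← zpow_add₀ hL.s0.ne', h8]
        congr 1
        rw [hM]
        linear_combination (-1 : ℤ) * hE'
      have hv2 : P.1.valuation (y ^ E) < s ^ M := by
        rw [map_pow, hL.vy, ← zpow_natCast, ← zpow_mul,
          zpow_lt_zpow_iff_right_of_lt_one₀ hL.s0 hL.s1, hM]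
        nlinarith
      have hvw : P.1.valuation w0 = s ^ M := by
        rw [hw0, Valuation.map_sub_eq_of_lt_right _ (by rw [hv1]; exact hv2), hv1]
      have hw00 : w0 ≠ 0 := by
        intro h
        rw [h, map_zero] at hvw
        exact (zpow_ne_zero M hL.s0.ne') hvw.symm
      have hgw : g / w0 ∈ P.1 := by
        rw [← P.1.valuation_le_one_iff, map_div₀, hvw]
        exact div_le_one_of_le₀ hg (zpow_nonneg hL.s0.le _)
      have : g • Dt = (g / w0) • KaehlerDifferential.D k K u := by
        rw [hDu, smul_smul, div_mul_cancel₀ _ hw00]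
      rw [this]
      exact AddSubgroup.subset_closure ⟨_, hgw, _, huP, rfl⟩
  -- conclusion
  rw [hDxt, smul_smul, mul_comm, ← Psi_C, claim, hL.psi hp hdp]
  unfold inW
  have hcoef : ∀ i, coeff i (C (B.D (tt j))⁻¹ * w) = coeff i w / B.D (tt j) := by
    intro i
    rw [coeff_C_mul, div_eq_mul_inv, mul_comm]
  constructor
  · intro H i hi m hm
    rw [← ex_div B hTT hEXD]
    by_cases h0 : coeff i w = 0
    · rw [h0, zero_div, map_zero, HahnSeries.coeff_zero]
    have h1 : coeff i w / B.D (tt j) ≠ 0 := div_ne_zero h0 htt0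
    have h2 := H i hi (by rw [hcoef]; exact h1)
    rw [hcoef, hM, arithW p (d j) (EE p d j) i _ hE hd1 hp2 hi] at h2
    exact (T4.low_iff B j _ h1 _).2 h2 m hm
  · intro H i hi h0
    rw [hcoef] at h0 ⊢
    rw [hM, arithW p (d j) (EE p d j) i _ hE hd1 hp2 hi]
    refine (T4.low_iff B j _ h0 _).1 fun m hm => ?_
    rw [ex_div B hTT hEXD]
    exact H i hi m hm

end

end Pool.Agent.Helper61.EO
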